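import Pool.Agent.Lib.MP_133e92_pr.Bfs

open Finset
open scoped BigOperators Classical

namespace Pool.Agent.Lib.MP_133e92_pr

section akn

variable {V : Type*} {p : Sym2 V → ℝ}

/-- Centred edge variable. -/
noncomputable def xi (p : Sym2 V → ℝ) (e : Sym2 V) (A : Finset (Sym2 V)) : ℝ :=
  (if e ∈ A then 1 else 0) - p e

/-- The AKN sum of the cluster of `z`. -/
noncomputable def Xz (p : Sym2 V → ℝ) (B : Finset V) (F : Finset (Sym2 V)) (z : V)
    (A : Finset (Sym2 V)) : ℝ :=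
  ∑ e ∈ F, (if Tch e (cl B A z) then 1 else 0) * xi p e A

/-- The stopped version. -/
noncomputable def Xa (p : Sym2 V → ℝ) (B : Finset V) (F : Finset (Sym2 V)) (z : V) (a : ℕ)
    (A : Finset (Sym2 V)) : ℝ :=
  ∑ e ∈ F, (if Rev B z a e A then 1 else 0) * xi p e A

lemma card_tch_le {F : Finset (Sym2 V)} {B R : Finset V} {D : ℕ} (hR : R ⊆ B)
    (hD : ∀ v ∈ B, (F.filter (fun e => v ∈ e)).card ≤ D) :
    (F.filter (fun e => Tch e R)).card ≤ D * R.card := by
  have h1 : F.filter (fun e => Tch e R) ⊆ R.biUnion (fun v => F.filter (fun e => v ∈ e)) := by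
    intro e he
    rw [Finset.mem_filter] at he
    obtain ⟨heF, v, hv, hve⟩ := he
    rw [Finset.mem_biUnion]
    exact ⟨v, hv, Finset.mem_filter.2 ⟨heF, hve⟩⟩
  calc (F.filter (fun e => Tch e R)).card
      ≤ (R.biUnion (fun v => F.filter (fun e => v ∈ e))).card := Finset.card_le_card h1
    _ ≤ ∑ v ∈ R, (F.filter (fun e => v ∈ e)).card := Finset.card_biUnion_le
    _ ≤ ∑ v ∈ R, D := Finset.sum_le_sum (fun v hv => hD v (hR hv))
    _ = D * R.card := by rw [Finset.sum_const, smul_eq_mul, mul_comm]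

lemma Ex_Xa_sq (hp0 : ∀ e, 0 ≤ p e) (hp1 : ∀ e, p e ≤ 1) {B : Finset V} {F : Finset (Sym2 V)}
    (hF : F ⊆ edg B) {π : ℝ} (hπ : ∀ e ∈ F, p e = π) {D : ℕ}
    (hD : ∀ v ∈ B, (F.filter (fun e => v ∈ e)).card ≤ D) {z : V} (hz : z ∈ B) (hπ0 : 0 ≤ π)
    (a : ℕ) :
    Ex p (edg B) (fun A => Xa p B F z a A ^ 2) ≤ π * D * a := by
  have e1 : ∀ A, A ⊆ edg B → Xa p B F z a A ^ 2
      = ∑ e ∈ F, ∑ f ∈ F, (if (Rev B z a e A ∧ Rev B z a f A) then 1 else 0) *
          xi p e A * xi p f A := by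
    intro A _
    unfold Xa
    rw [sq, Finset.sum_mul_sum]
    apply Finset.sum_congr rfl; intro e _
    apply Finset.sum_congr rfl; intro f _
    by_cases h1 : Rev B z a e A <;> by_cases h2 : Rev B z a f A <;> simp [h1, h2]
  rw [Ex_congr e1, Ex_sum]
  have e2 : ∀ e ∈ F, Ex p (edg B) (fun A => ∑ f ∈ F,
      (if (Rev B z a e A ∧ Rev B z a f A) then 1 else 0) * xi p e A * xi p f A)
      ≤ π * Ex p (edg B) (fun A => if Rev B z a e A then 1 else 0) := by
    intro e he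
    rw [Ex_sum]
    rw [Finset.sum_eq_single e]
    · have e3 : ∀ A, A ⊆ edg B → (if (Rev B z a e A ∧ Rev B z a e A) then (1:ℝ) else 0) *
          xi p e A * xi p e A
          = (fun A => if Rev B z a e A then (1:ℝ) else 0) A * ((if e ∈ A then 1 else 0) - p e) ^ 2 := by
        intro A _
        unfold xi
        by_cases h : Rev B z a e A <;> simp [h, sq]
      rw [Ex_congr e3, Ex_centered_sq (hF he)]
      · rw [hπ e he]
        have h4 : 0 ≤ Ex p (edg B) (fun A => if Rev B z a e A then (1:ℝ) else 0) :=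
          Ex_nonneg hp0 hp1 (fun A _ => by split_ifs <;> norm_num)
        have h5 : π * (1 - π) ≤ π := by nlinarith
        exact mul_le_mul_of_nonneg_right h5 h4
      · intro A _
        have := rev_insert_self (B := B) (z := z) (a := a) (e := e) (A := A)
        simp only [this]
    · intro f hf hfe
      have e3 : ∀ A, A ⊆ edg B → (if (Rev B z a e A ∧ Rev B z a f A) then (1:ℝ) else 0) *
          xi p e A * xi p f A
          = (fun A => if (Rev B z a e A ∧ Rev B z a f A) then (1:ℝ) else 0) A *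
            ((if e ∈ A then 1 else 0) - p e) * ((if f ∈ A then 1 else 0) - p f) := by
        intro A _; rfl
      rw [Ex_congr e3]
      apply Ex_centered_two (hF he) (hF hf) (Ne.symm hfe)
      intro A _
      rcases rev_two (B := B) (z := z) (a := a) (e := e) (f := f) (A := A) with ⟨h1, h2⟩ | ⟨h1, h2⟩
      · simp only [h1, h2]; ring
      · simp only [h1, h2]; ring
    · intro h; exact absurd he h
  refine (Finset.sum_le_sum e2).trans ?_
  rw [← Finset.mul_sum, ← Ex_sum, mul_assoc]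
  apply mul_le_mul_of_nonneg_left _ hπ0
  calc Ex p (edg B) (fun A => ∑ e ∈ F, if Rev B z a e A then (1:ℝ) else 0)
      ≤ Ex p (edg B) (fun _ => (D : ℝ) * a) := by
        apply Ex_mono hp0 hp1
        intro A _
        rw [Finset.sum_boole]
        have h1 : F.filter (fun e => Rev B z a e A) = F.filter (fun e => Tch e (expl B z a A)) := by
          apply Finset.filter_congr
          intro e _
          exact rev_iff_tch_expl hz
        rw [h1]
        have h2 := card_tch_le (F := F) (R := expl B z a A) (Finset.filter_subset _ _) hD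
        have h3 : D * (expl B z a A).card ≤ D * a := Nat.mul_le_mul_left D card_expl_le
        exact_mod_cast h2.trans h3
    _ = D * a := Ex_const _ _

lemma Ex_Xz_abs (hp0 : ∀ e, 0 ≤ p e) (hp1 : ∀ e, p e ≤ 1) {B : Finset V} {F : Finset (Sym2 V)}
    (hF : F ⊆ edg B) {π : ℝ} (hπ : ∀ e ∈ F, p e = π) {D : ℕ}
    (hD : ∀ v ∈ B, (F.filter (fun e => v ∈ e)).card ≤ D) {z : V} (hz : z ∈ B) (hπ0 : 0 ≤ π)
    (a : ℕ) :
    Ex p (edg B) (fun A => |Xz p B F z A| * (if (cl B A z).card ≤ a then 1 else 0))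
      ≤ Real.sqrt (π * D * a) := by
  refine le_trans ?_ (Ex_abs_le_sqrt hp0 hp1 (edg B) (Xa p B F z a)
    (Ex_Xa_sq hp0 hp1 hF hπ hD hz hπ0 a))
  apply Ex_mono hp0 hp1
  intro A hA
  split_ifs with hc
  · rw [mul_one]
    apply le_of_eq
    congr 1
    unfold Xz Xa
    apply Finset.sum_congr rfl
    intro e _
    congr 1
    have := rev_iff_tch_cl (a := a) (e := e) hz hA hc
    simp only [this]
  · simp

lemma min_weight {h : ℝ} (hh : 0 < h) {r J : ℕ} (hr : 1 ≤ r) (hrJ : (r : ℝ) ≤ 4 ^ (J + 1) / h) :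
    min (1 / (r : ℝ)) h ≤ ∑ j ∈ Finset.range (J + 1),
      h * (1 / 4) ^ j * (if r ≤ ⌊(4 : ℝ) ^ (j + 1) / h⌋₊ then 1 else 0) := by
  have hex : ∃ j, (r : ℝ) ≤ 4 ^ (j + 1) / h := ⟨J, hrJ⟩
  classical
  set j := Nat.find hex with hj
  have hjs : (r : ℝ) ≤ 4 ^ (j + 1) / h := Nat.find_spec hex
  have hjJ : j ≤ J := Nat.find_min' hex hrJ
  have hterm : h * (1 / 4) ^ j * (if r ≤ ⌊(4 : ℝ) ^ (j + 1) / h⌋₊ then 1 else 0)
      ≤ ∑ j ∈ Finset.range (J + 1),
        h * (1 / 4) ^ j * (if r ≤ ⌊(4 : ℝ) ^ (j + 1) / h⌋₊ then 1 else 0) := by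
    apply Finset.single_le_sum
      (f := fun j => h * (1 / 4) ^ j * (if r ≤ ⌊(4 : ℝ) ^ (j + 1) / h⌋₊ then 1 else 0))
    · intro i _
      split_ifs <;> positivity
    · rw [Finset.mem_range]; omega
  refine le_trans ?_ hterm
  rw [if_pos (by rw [Nat.le_floor_iff (by positivity)]; exact hjs), mul_one]
  by_cases hj0 : j = 0
  · rw [hj0]; simp
  · obtain ⟨i, hi⟩ := Nat.exists_eq_succ_of_ne_zero hj0
    have hnot : ¬ ((r : ℝ) ≤ 4 ^ (i + 1) / h) := Nat.find_min hex (by omega)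
    rw [not_le] at hnot
    refine (min_le_left _ _).trans ?_
    rw [hi]
    have hr0 : (0:ℝ) < r := by exact_mod_cast hr
    rw [div_le_iff₀ hr0, one_div, inv_pow]
    have h4 : (0:ℝ) < 4 ^ (i + 1) := by positivity
    rw [div_lt_iff₀ hh] at hnot
    have : 1 = (4 ^ (i + 1)) * ((4:ℝ) ^ (i + 1))⁻¹ := by field_simp
    calc (1:ℝ) = (4 ^ (i + 1)) * ((4:ℝ) ^ (i + 1))⁻¹ := this
      _ ≤ (r * h) * ((4:ℝ) ^ (i + 1))⁻¹ := by
          apply mul_le_mul_of_nonneg_right hnot.le (by positivity)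
      _ = _ := by simp only [Nat.succ_eq_add_one]; ring

lemma Ex_Xz_min (hp0 : ∀ e, 0 ≤ p e) (hp1 : ∀ e, p e ≤ 1) {B : Finset V} {F : Finset (Sym2 V)}
    (hF : F ⊆ edg B) {π : ℝ} (hπ : ∀ e ∈ F, p e = π) {D : ℕ}
    (hD : ∀ v ∈ B, (F.filter (fun e => v ∈ e)).card ≤ D) {z : V} (hz : z ∈ B) (hπ0 : 0 ≤ π)
    {h : ℝ} (hh : 0 < h) :
    Ex p (edg B) (fun A => |Xz p B F z A| * min (1 / ((cl B A z).card : ℝ)) h)
      ≤ 4 * Real.sqrt (h * π * D) := by
  obtain ⟨J, hJ⟩ : ∃ J : ℕ, (B.card : ℝ) * h ≤ 4 ^ (J + 1) := by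
    obtain ⟨J, hJ⟩ := pow_unbounded_of_one_lt ((B.card : ℝ) * h) (by norm_num : (1:ℝ) < 4)
    refine ⟨J, hJ.le.trans ?_⟩
    exact pow_le_pow_right₀ (by norm_num) (by omega)
  have h1 : ∀ A, A ⊆ edg B → |Xz p B F z A| * min (1 / ((cl B A z).card : ℝ)) h
      ≤ ∑ j ∈ Finset.range (J + 1), (h * (1 / 4) ^ j) *
        (|Xz p B F z A| * (if (cl B A z).card ≤ ⌊(4 : ℝ) ^ (j + 1) / h⌋₊ then 1 else 0)) := by
    intro A _
    have hcard : 1 ≤ (cl B A z).card := by
      apply Finset.card_pos.2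
      exact ⟨z, mem_cl.2 ⟨hz, Rch.refl A z⟩⟩
    have hcB : ((cl B A z).card : ℝ) ≤ 4 ^ (J + 1) / h := by
      rw [le_div_iff₀ hh]
      refine le_trans ?_ hJ
      apply mul_le_mul_of_nonneg_right _ hh.le
      exact_mod_cast Finset.card_le_card (Finset.filter_subset _ _)
    have := min_weight hh hcard hcB
    calc |Xz p B F z A| * min (1 / ((cl B A z).card : ℝ)) h
        ≤ |Xz p B F z A| * ∑ j ∈ Finset.range (J + 1),
          h * (1 / 4) ^ j * (if (cl B A z).card ≤ ⌊(4 : ℝ) ^ (j + 1) / h⌋₊ then 1 else 0) :=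
          mul_le_mul_of_nonneg_left this (abs_nonneg _)
      _ = _ := by
          rw [Finset.mul_sum]
          apply Finset.sum_congr rfl; intro j _; ring
  refine (Ex_mono hp0 hp1 h1).trans ?_
  rw [Ex_sum]
  have h2 : ∀ j ∈ Finset.range (J + 1), Ex p (edg B) (fun A => (h * (1 / 4) ^ j) *
        (|Xz p B F z A| * (if (cl B A z).card ≤ ⌊(4 : ℝ) ^ (j + 1) / h⌋₊ then 1 else 0)))
      ≤ (2 * Real.sqrt (h * π * D)) * (1 / 2) ^ j := by
    intro j _
    rw [Ex_mul_left]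
    have h3 := Ex_Xz_abs hp0 hp1 hF hπ hD hz hπ0 ⌊(4 : ℝ) ^ (j + 1) / h⌋₊
    have h4 : Real.sqrt (π * D * (⌊(4 : ℝ) ^ (j + 1) / h⌋₊ : ℕ))
        ≤ Real.sqrt (h * π * D) * (2 ^ (j + 1) / h) := by
      have h5 : π * D * (⌊(4 : ℝ) ^ (j + 1) / h⌋₊ : ℕ) ≤ (h * π * D) * (2 ^ (j + 1) / h) ^ 2 := by
        have h6 : ((⌊(4 : ℝ) ^ (j + 1) / h⌋₊ : ℕ) : ℝ) ≤ (4 : ℝ) ^ (j + 1) / h :=
          Nat.floor_le (by positivity)
        calc π * D * (⌊(4 : ℝ) ^ (j + 1) / h⌋₊ : ℕ) ≤ π * D * ((4 : ℝ) ^ (j + 1) / h) :=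
              mul_le_mul_of_nonneg_left h6 (by positivity)
          _ = (h * π * D) * (2 ^ (j + 1) / h) ^ 2 := by
              have : (4:ℝ) ^ (j + 1) = (2 ^ (j + 1)) ^ 2 := by
                rw [← pow_mul, mul_comm, pow_mul]; norm_num
              rw [this]; field_simp
      calc Real.sqrt (π * D * (⌊(4 : ℝ) ^ (j + 1) / h⌋₊ : ℕ))
          ≤ Real.sqrt ((h * π * D) * (2 ^ (j + 1) / h) ^ 2) := Real.sqrt_le_sqrt h5
        _ = _ := by rw [Real.sqrt_mul' _ (by positivity), Real.sqrt_sq (by positivity)]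
    calc h * (1 / 4) ^ j * Ex p (edg B) (fun A => |Xz p B F z A| *
          (if (cl B A z).card ≤ ⌊(4 : ℝ) ^ (j + 1) / h⌋₊ then 1 else 0))
        ≤ h * (1 / 4) ^ j * (Real.sqrt (h * π * D) * (2 ^ (j + 1) / h)) :=
          mul_le_mul_of_nonneg_left (h3.trans h4) (by positivity)
      _ = (2 * Real.sqrt (h * π * D)) * (1 / 2) ^ j := by
          have : (1 / 4 : ℝ) ^ j = (1 / 2) ^ j * (1 / 2) ^ j := by
            rw [← mul_pow]; norm_num
          rw [this]
          have h8 : (1 / 2 : ℝ) ^ j * 2 ^ j = 1 := by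
            rw [← mul_pow]; norm_num
          have h9 : h * ((1 / 2 : ℝ) ^ j * (1 / 2) ^ j) * (Real.sqrt (h * π * D) * (2 ^ (j + 1) / h))
              = ((1 / 2 : ℝ) ^ j * 2 ^ j) * (2 * Real.sqrt (h * π * D)) * (1 / 2) ^ j := by
            rw [pow_succ]; field_simp
          rw [h9, h8, one_mul]
  refine (Finset.sum_le_sum h2).trans ?_
  rw [← Finset.mul_sum]
  have h10 : ∑ j ∈ Finset.range (J + 1), (1 / 2 : ℝ) ^ j ≤ 2 := by
    have := Summable.sum_le_tsum (f := fun j : ℕ => (1 / 2 : ℝ) ^ j) (Finset.range (J + 1))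
      (fun j _ => by positivity) summable_geometric_two
    rwa [tsum_geometric_two] at this
  have h11 : 0 ≤ Real.sqrt (h * π * D) := Real.sqrt_nonneg _
  nlinarith

/-- `x` is connected to a marked vertex. -/
def Mk (Q : Finset V) (A : Finset (Sym2 V)) (x : V) : Prop := ∃ z ∈ Q, Rch A z x

/-- The endpoints of `e` lie in two distinct marked clusters. -/
def Dd (Q : Finset V) (A : Finset (Sym2 V)) (e : Sym2 V) : Prop :=
  (∀ v ∈ e, Mk Q A v) ∧ ∃ v ∈ e, ∃ w ∈ e, ¬ Rch A v w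

lemma Mk.of_rch {Q : Finset V} {A : Finset (Sym2 V)} {x y : V} (h : Rch A x y) (hx : Mk Q A x) :
    Mk Q A y := by
  obtain ⟨z, hz, hzx⟩ := hx; exact ⟨z, hz, hzx.trans h⟩

lemma cl_eq {B : Finset V} {A : Finset (Sym2 V)} {x y : V} (h : Rch A x y) :
    cl B A x = cl B A y := by
  ext w; rw [mem_cl, mem_cl]
  constructor
  · rintro ⟨h1, h2⟩; exact ⟨h1, h.symm.trans h2⟩
  · rintro ⟨h1, h2⟩; exact ⟨h1, h.trans h2⟩

lemma sum_cluster {B Q : Finset V} {A : Finset (Sym2 V)} {x : V} (hx : x ∈ B) :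
    ∑ z ∈ B, (if Mk Q A z ∧ Rch A z x then 1 / ((cl B A z).card : ℝ) else 0)
      = if Mk Q A x then 1 else 0 := by
  by_cases hm : Mk Q A x
  · rw [if_pos hm]
    have h1 : ∀ z ∈ B, (if Mk Q A z ∧ Rch A z x then 1 / ((cl B A z).card : ℝ) else 0)
        = if z ∈ cl B A x then 1 / ((cl B A x).card : ℝ) else 0 := by
      intro z hz
      by_cases h : Rch A z x
      · rw [if_pos ⟨Mk.of_rch h.symm hm, h⟩, if_pos (mem_cl.2 ⟨hz, h.symm⟩), cl_eq h]
      · rw [if_neg (fun h' => h h'.2), if_neg (fun h' => h (mem_cl.1 h').2.symm)]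
    rw [Finset.sum_congr rfl h1, ← Finset.sum_filter]
    have h2 : B.filter (fun z => z ∈ cl B A x) = cl B A x := by
      ext z; simp only [Finset.mem_filter, mem_cl]; tauto
    rw [h2, Finset.sum_const, nsmul_eq_mul]
    have h3 : ((cl B A x).card : ℝ) ≠ 0 := by
      have : 0 < (cl B A x).card := Finset.card_pos.2 ⟨x, mem_cl.2 ⟨hx, Rch.refl A x⟩⟩
      exact_mod_cast this.ne'
    field_simp
  · rw [if_neg hm]
    apply Finset.sum_eq_zero
    intro z _
    rw [if_neg]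
    rintro ⟨h1, h2⟩
    exact hm (Mk.of_rch h2 h1)

/-- The deterministic AKN identity. -/
lemma akn_identity {B Q : Finset V} {F : Finset (Sym2 V)} (hF : F ⊆ edg B)
    {A : Finset (Sym2 V)} :
    ∑ z ∈ B, (if Mk Q A z then 1 else 0) * (Xz p B F z A / ((cl B A z).card : ℝ))
      = ∑ e ∈ F, (if ∃ v ∈ e, Mk Q A v then 1 else 0) * xi p e A
        - ∑ e ∈ F, p e * (if Dd Q A e then 1 else 0) := by
  have e1 : ∑ z ∈ B, (if Mk Q A z then 1 else 0) * (Xz p B F z A / ((cl B A z).card : ℝ))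
      = ∑ e ∈ F, xi p e A * ∑ z ∈ B,
        (if Mk Q A z ∧ Tch e (cl B A z) then 1 / ((cl B A z).card : ℝ) else 0) := by
    unfold Xz
    simp_rw [Finset.mul_sum, Finset.sum_div, Finset.mul_sum]
    rw [Finset.sum_comm]
    apply Finset.sum_congr rfl; intro e _
    apply Finset.sum_congr rfl; intro z _
    by_cases h1 : Mk Q A z <;> by_cases h2 : Tch e (cl B A z) <;> simp [h1, h2, div_eq_mul_inv]
  rw [e1, ← Finset.sum_sub_distrib]
  apply Finset.sum_congr rfl
  intro e he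
  have heB := hF he
  revert he heB
  induction e using Sym2.ind with
  | _ x y =>
    intro he heB
    rw [mem_edg] at heB
    obtain ⟨hx, hy, hxy⟩ := heB
    have htch : ∀ z, Tch s(x, y) (cl B A z) ↔ (Rch A z x ∨ Rch A z y) := by
      intro z
      constructor
      · rintro ⟨v, hv, hve⟩
        rw [Sym2.mem_iff] at hve
        rcases hve with rfl | rfl
        · left; exact (mem_cl.1 hv).2
        · right; exact (mem_cl.1 hv).2
      · rintro (h | h)
        · exact ⟨x, mem_cl.2 ⟨hx, h⟩, Sym2.mem_mk_left x y⟩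
        · exact ⟨y, mem_cl.2 ⟨hy, h⟩, Sym2.mem_mk_right x y⟩
    have hex : (∃ v ∈ s(x, y), Mk Q A v) ↔ (Mk Q A x ∨ Mk Q A y) := by
      constructor
      · rintro ⟨v, hv, hm⟩
        rw [Sym2.mem_iff] at hv
        rcases hv with rfl | rfl
        · left; exact hm
        · right; exact hm
      · rintro (h | h)
        · exact ⟨x, Sym2.mem_mk_left x y, h⟩
        · exact ⟨y, Sym2.mem_mk_right x y, h⟩
    have hdd : Dd Q A s(x, y) ↔ (Mk Q A x ∧ Mk Q A y ∧ ¬ Rch A x y) := by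
      unfold Dd
      constructor
      · rintro ⟨h1, v, hv, w, hw, hvw⟩
        refine ⟨h1 x (Sym2.mem_mk_left x y), h1 y (Sym2.mem_mk_right x y), ?_⟩
        intro hr
        apply hvw
        rw [Sym2.mem_iff] at hv hw
        rcases hv with rfl | rfl <;> rcases hw with rfl | rfl
        · exact Rch.refl _ _
        · exact hr
        · exact hr.symm
        · exact Rch.refl _ _
      · rintro ⟨h1, h2, h3⟩
        refine ⟨?_, x, Sym2.mem_mk_left x y, y, Sym2.mem_mk_right x y, h3⟩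
        intro v hv
        rw [Sym2.mem_iff] at hv
        rcases hv with rfl | rfl
        · exact h1
        · exact h2
    by_cases hr : Rch A x y
    · -- same cluster
      have h1 : ∑ z ∈ B, (if Mk Q A z ∧ Tch s(x, y) (cl B A z) then 1 / ((cl B A z).card : ℝ) else 0)
          = if Mk Q A x then 1 else 0 := by
        rw [← sum_cluster (Q := Q) (A := A) hx]
        apply Finset.sum_congr rfl; intro z _
        have : (Mk Q A z ∧ Tch s(x, y) (cl B A z)) ↔ (Mk Q A z ∧ Rch A z x) := by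
          rw [htch]
          constructor
          · rintro ⟨h, h' | h'⟩
            · exact ⟨h, h'⟩
            · exact ⟨h, h'.trans hr.symm⟩
          · rintro ⟨h, h'⟩; exact ⟨h, Or.inl h'⟩
        simp only [this]
      rw [h1]
      have h2 : (∃ v ∈ s(x, y), Mk Q A v) ↔ Mk Q A x := by
        rw [hex]
        constructor
        · rintro (h | h)
          · exact h
          · exact h.of_rch hr.symm
        · intro h; exact Or.inl h
      have h3 : ¬ Dd Q A s(x, y) := by rw [hdd]; tauto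
      simp only [h2, h3, if_false]
      ring
    · have hnA : s(x, y) ∉ A := fun h => hr (Rch.single h)
      have hxi : xi p s(x, y) A = - p s(x, y) := by
        unfold xi; rw [if_neg hnA]; ring
      have h1 : ∑ z ∈ B, (if Mk Q A z ∧ Tch s(x, y) (cl B A z) then 1 / ((cl B A z).card : ℝ) else 0)
          = (if Mk Q A x then 1 else 0) + (if Mk Q A y then 1 else 0) := by
        rw [← sum_cluster (Q := Q) (A := A) hx, ← sum_cluster (Q := Q) (A := A) hy,
          ← Finset.sum_add_distrib]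
        apply Finset.sum_congr rfl; intro z _
        by_cases hm : Mk Q A z
        · by_cases hzx : Rch A z x
          · have hzy : ¬ Rch A z y := fun h => hr (hzx.symm.trans h)
            have : Tch s(x, y) (cl B A z) := (htch z).2 (Or.inl hzx)
            rw [if_pos ⟨hm, this⟩, if_pos ⟨hm, hzx⟩, if_neg (fun h => hzy h.2), add_zero]
          · by_cases hzy : Rch A z y
            · have : Tch s(x, y) (cl B A z) := (htch z).2 (Or.inr hzy)
              rw [if_pos ⟨hm, this⟩, if_neg (fun h => hzx h.2), if_pos ⟨hm, hzy⟩, zero_add]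
            · have : ¬ Tch s(x, y) (cl B A z) := fun h => by
                rcases (htch z).1 h with h | h
                · exact hzx h
                · exact hzy h
              rw [if_neg (fun h => this h.2), if_neg (fun h => hzx h.2),
                if_neg (fun h => hzy h.2), add_zero]
        · rw [if_neg (fun h => hm h.1), if_neg (fun h => hm h.1), if_neg (fun h => hm h.1),
            add_zero]
      rw [h1, hxi]
      simp only [hex, hdd]
      by_cases hmx : Mk Q A x <;> by_cases hmy : Mk Q A y <;> simp [hmx, hmy, hr] <;> ring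

lemma tch_bfs_iff {B : Finset V} {A : Finset (Sym2 V)} (hA : A ⊆ edg B) {z : V} (hz : z ∈ B)
    {e : Sym2 V} (heB : ∀ v ∈ e, v ∈ B) :
    (∃ v ∈ e, Rch A z v) ↔ Rev B z B.card e A := by
  constructor
  · rintro ⟨v, hv, hr⟩
    obtain ⟨n, hn⟩ := exists_mem_bfs hA hr
    exact ⟨n, Finset.card_le_card (bfs_subset hz n), v, hn, hv⟩
  · rintro ⟨n, _, v, hv, hve⟩
    exact ⟨v, hve, rch_of_mem_bfs hv⟩

lemma mem_of_mem_edg {B : Finset V} {e : Sym2 V} (he : e ∈ edg B) : ∀ v ∈ e, v ∈ B := by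
  intro v hv
  revert he hv
  induction e using Sym2.ind with
  | _ x y =>
    intro he hv
    rw [mem_edg] at he
    rw [Sym2.mem_iff] at hv
    rcases hv with rfl | rfl
    · exact he.1
    · exact he.2.1

/-- Expectation of the first sum in the identity vanishes. -/
lemma Ex_first_zero {B Q : Finset V} (hQ : Q ⊆ B) {F : Finset (Sym2 V)} (hF : F ⊆ edg B) :
    Ex p (edg B) (fun A => ∑ e ∈ F, (if ∃ v ∈ e, Mk Q A v then 1 else 0) * xi p e A) = 0 := by
  rw [Ex_sum]
  apply Finset.sum_eq_zero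
  intro e he
  apply Ex_centered (hF he) (g := fun A => if ∃ v ∈ e, Mk Q A v then (1:ℝ) else 0)
  intro A hA
  have hAB : A ⊆ edg B := hA.trans (Finset.erase_subset _ _)
  have hAB' : insert e A ⊆ edg B := Finset.insert_subset (hF he) hAB
  have key : ∀ A', A' ⊆ edg B → ((∃ v ∈ e, Mk Q A' v) ↔ ∃ z ∈ Q, Rev B z B.card e A') := by
    intro A' hA'
    constructor
    · rintro ⟨v, hv, z, hz, hr⟩
      exact ⟨z, hz, (tch_bfs_iff hA' (hQ hz) (mem_of_mem_edg (hF he))).1 ⟨v, hv, hr⟩⟩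
    · rintro ⟨z, hz, hr⟩
      obtain ⟨v, hv, hr'⟩ := (tch_bfs_iff hA' (hQ hz) (mem_of_mem_edg (hF he))).2 hr
      exact ⟨v, hv, z, hz, hr'⟩
  have : (∃ v ∈ e, Mk Q (insert e A) v) ↔ (∃ v ∈ e, Mk Q A v) := by
    rw [key _ hAB', key _ hAB]
    constructor
    · rintro ⟨z, hz, hr⟩; exact ⟨z, hz, rev_insert_self.1 hr⟩
    · rintro ⟨z, hz, hr⟩; exact ⟨z, hz, rev_insert_self.2 hr⟩
  simp only [this]

lemma akn_fixed {B Q : Finset V} (hQ : Q ⊆ B) (hp0 : ∀ e, 0 ≤ p e) (hp1 : ∀ e, p e ≤ 1)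
    {F : Finset (Sym2 V)} (hF : F ⊆ edg B) {π : ℝ} (hπ : ∀ e ∈ F, p e = π) :
    π * Ex p (edg B) (fun A => ∑ e ∈ F, (if Dd Q A e then 1 else 0))
      ≤ Ex p (edg B) (fun A => ∑ z ∈ B, (if Mk Q A z then 1 else 0) *
        (|Xz p B F z A| * (1 / ((cl B A z).card : ℝ)))) := by
  have h1 : Ex p (edg B) (fun A => ∑ z ∈ B, (if Mk Q A z then 1 else 0) *
      (Xz p B F z A / ((cl B A z).card : ℝ)))
      = - (π * Ex p (edg B) (fun A => ∑ e ∈ F, (if Dd Q A e then 1 else 0))) := by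
    rw [Ex_congr (fun A _ => akn_identity (p := p) (Q := Q) hF (A := A)), Ex_sub,
      Ex_first_zero hQ hF, zero_sub, ← Ex_mul_left]
    congr 1
    apply Ex_congr
    intro A _
    rw [Finset.mul_sum]
    apply Finset.sum_congr rfl
    intro e he; rw [hπ e he]
  have h2 : π * Ex p (edg B) (fun A => ∑ e ∈ F, (if Dd Q A e then 1 else 0))
      = Ex p (edg B) (fun A => - ∑ z ∈ B, (if Mk Q A z then 1 else 0) *
      (Xz p B F z A / ((cl B A z).card : ℝ))) := by
    rw [Ex_neg, h1, neg_neg]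
  rw [h2]
  apply Ex_mono hp0 hp1
  intro A _
  rw [← Finset.sum_neg_distrib]
  apply Finset.sum_le_sum
  intro z _
  split_ifs
  · rw [one_mul, one_mul, div_eq_mul_one_div, ← neg_mul]
    apply mul_le_mul_of_nonneg_right (neg_le_abs _) (by positivity)
  · simp

lemma Ex_comm {E : Type*} [DecidableEq E] {p : E → ℝ} (S T : Finset E)
    (f : Finset E → Finset E → ℝ) :
    Ex p S (fun A => Ex p T (fun B => f A B)) = Ex p T (fun B => Ex p S (fun A => f A B)) := by
  unfold Ex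
  simp_rw [Finset.mul_sum]
  rw [Finset.sum_comm]
  apply Finset.sum_congr rfl; intro B _
  apply Finset.sum_congr rfl; intro A _; ring

/-- The AKN bound with random marks. -/
theorem akn (hp0 : ∀ e, 0 ≤ p e) (hp1 : ∀ e, p e ≤ 1) {B : Finset V} {F : Finset (Sym2 V)}
    (hF : F ⊆ edg B) {π : ℝ} (hπ : ∀ e ∈ F, p e = π) (hπ0 : 0 ≤ π) {D : ℕ}
    (hD : ∀ v ∈ B, (F.filter (fun e => v ∈ e)).card ≤ D)
    (S' : Finset (Sym2 V)) (Q : Finset (Sym2 V) → Finset V) (hQB : ∀ A', A' ⊆ S' → Q A' ⊆ B)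
    {h : ℝ} (hh : 0 < h)
    (hQ : ∀ K, K ⊆ B → Ex p S' (fun A' => if (Q A' ∩ K).Nonempty then 1 else 0) ≤ h * K.card) :
    π * Ex p S' (fun A' => Ex p (edg B) (fun A => ∑ e ∈ F, (if Dd (Q A') A e then 1 else 0)))
      ≤ B.card * (4 * Real.sqrt (h * π * D)) := by
  have h1 : π * Ex p S' (fun A' => Ex p (edg B) (fun A => ∑ e ∈ F,
        (if Dd (Q A') A e then 1 else 0)))
      ≤ Ex p S' (fun A' => Ex p (edg B) (fun A => ∑ z ∈ B, (if Mk (Q A') A z then 1 else 0) *
        (|Xz p B F z A| * (1 / ((cl B A z).card : ℝ))))) := by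
    rw [← Ex_mul_left]
    apply Ex_mono hp0 hp1
    intro A' hA'
    exact akn_fixed (hQB A' hA') hp0 hp1 hF hπ
  refine h1.trans ?_
  rw [Ex_comm]
  have h2 : ∀ A, A ⊆ edg B → Ex p S' (fun A' => ∑ z ∈ B, (if Mk (Q A') A z then 1 else 0) *
        (|Xz p B F z A| * (1 / ((cl B A z).card : ℝ))))
      ≤ ∑ z ∈ B, |Xz p B F z A| * min (1 / ((cl B A z).card : ℝ)) h := by
    intro A _
    rw [Ex_sum]
    apply Finset.sum_le_sum
    intro z hz
    rw [Ex_mul_right]
    have hcpos : (0:ℝ) < (cl B A z).card := by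
      have : 0 < (cl B A z).card := Finset.card_pos.2 ⟨z, mem_cl.2 ⟨hz, Rch.refl A z⟩⟩
      exact_mod_cast this
    have h3 : Ex p S' (fun A' => if Mk (Q A') A z then (1:ℝ) else 0) ≤ h * (cl B A z).card := by
      refine le_trans ?_ (hQ (cl B A z) (Finset.filter_subset _ _))
      apply Ex_mono hp0 hp1
      intro A' hA'
      by_cases hm : Mk (Q A') A z
      · obtain ⟨w, hw, hr⟩ := hm
        have : (Q A' ∩ cl B A z).Nonempty :=
          ⟨w, Finset.mem_inter.2 ⟨hw, mem_cl.2 ⟨hQB A' hA' hw, hr.symm⟩⟩⟩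
        rw [if_pos this]
        split_ifs <;> norm_num
      · rw [if_neg hm]; split_ifs <;> norm_num
    have h4 : Ex p S' (fun A' => if Mk (Q A') A z then (1:ℝ) else 0) ≤ 1 := by
      calc _ ≤ Ex p S' (fun _ => (1:ℝ)) := by
            apply Ex_mono hp0 hp1
            intro A' _
            split_ifs <;> norm_num
        _ = 1 := Ex_const _ _
    have h5 : Ex p S' (fun A' => if Mk (Q A') A z then (1:ℝ) else 0) *
        (|Xz p B F z A| * (1 / ((cl B A z).card : ℝ)))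
        = |Xz p B F z A| * (Ex p S' (fun A' => if Mk (Q A') A z then (1:ℝ) else 0) *
          (1 / ((cl B A z).card : ℝ))) := by ring
    rw [h5]
    apply mul_le_mul_of_nonneg_left _ (abs_nonneg _)
    apply le_min
    · calc _ ≤ 1 * (1 / ((cl B A z).card : ℝ)) :=
            mul_le_mul_of_nonneg_right h4 (by positivity)
        _ = _ := one_mul _
    · rw [mul_one_div, div_le_iff₀ hcpos]; exact h3
  refine (Ex_mono hp0 hp1 h2).trans ?_
  rw [Ex_sum]
  calc ∑ z ∈ B, Ex p (edg B) (fun A => |Xz p B F z A| * min (1 / ((cl B A z).card : ℝ)) h)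
      ≤ ∑ z ∈ B, 4 * Real.sqrt (h * π * D) :=
        Finset.sum_le_sum (fun z hz => Ex_Xz_min hp0 hp1 hF hπ hD hz hπ0 hh)
    _ = _ := by rw [Finset.sum_const, nsmul_eq_mul]

end akn

end Pool.Agent.Lib.MP_133e92_pr
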