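import Pool.Agent.Lib.MP_133e92_pr.Ex

open Finset
open scoped BigOperators Classical

namespace Pool.Agent.Lib.MP_133e92_pr

section bfs

variable {V : Type*}

/-- Non-loop edges inside `B`. -/
noncomputable def edg (B : Finset V) : Finset (Sym2 V) := B.sym2.filter (fun e => ¬ e.IsDiag)

lemma mem_edg {B : Finset V} {x y : V} : s(x, y) ∈ edg B ↔ x ∈ B ∧ y ∈ B ∧ x ≠ y := by
  unfold edg
  rw [Finset.mem_filter, Finset.mk_mem_sym2_iff, Sym2.mk_isDiag_iff]
  tauto

lemma edg_mono {B B' : Finset V} (h : B ⊆ B') : edg B ⊆ edg B' := by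
  intro e
  induction e using Sym2.ind with
  | _ x y =>
    rw [mem_edg, mem_edg]
    rintro ⟨h1, h2, h3⟩; exact ⟨h h1, h h2, h3⟩

/-- Connectivity by open edges. -/
def Rch (A : Finset (Sym2 V)) (x y : V) : Prop :=
  Relation.ReflTransGen (fun a b => s(a, b) ∈ A) x y

lemma Rch.refl (A : Finset (Sym2 V)) (x : V) : Rch A x x := Relation.ReflTransGen.refl

lemma Rch.symm {A : Finset (Sym2 V)} {x y : V} (h : Rch A x y) : Rch A y x := by
  induction h with
  | refl => exact Relation.ReflTransGen.refl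
  | tail _ h2 ih =>
    apply Relation.ReflTransGen.head _ ih
    rwa [Sym2.eq_swap]

lemma Rch.trans {A : Finset (Sym2 V)} {x y z : V} (h : Rch A x y) (h' : Rch A y z) : Rch A x z :=
  Relation.ReflTransGen.trans h h'

lemma Rch.mono {A A' : Finset (Sym2 V)} (hA : A ⊆ A') {x y : V} (h : Rch A x y) :
    Rch A' x y := by
  induction h with
  | refl => exact Relation.ReflTransGen.refl
  | tail _ h2 ih => exact Relation.ReflTransGen.tail ih (hA h2)

lemma Rch.single {A : Finset (Sym2 V)} {x y : V} (h : s(x, y) ∈ A) : Rch A x y :=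
  Relation.ReflTransGen.single h

lemma Rch.mem {A : Finset (Sym2 V)} {B : Finset V} (hA : A ⊆ edg B) {x y : V} (h : Rch A x y)
    (hx : x ∈ B) : y ∈ B := by
  induction h with
  | refl => exact hx
  | tail _ h2 _ => exact (mem_edg.1 (hA h2)).2.1

/-- The cluster of `z`. -/
noncomputable def cl (B : Finset V) (A : Finset (Sym2 V)) (z : V) : Finset V :=
  B.filter (fun y => Rch A z y)

lemma mem_cl {B : Finset V} {A : Finset (Sym2 V)} {z y : V} :
    y ∈ cl B A z ↔ y ∈ B ∧ Rch A z y := by
  unfold cl; rw [Finset.mem_filter]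

/-- Breadth-first search. -/
noncomputable def bfs (B : Finset V) (A : Finset (Sym2 V)) (z : V) : ℕ → Finset V
  | 0 => {z}
  | n + 1 => bfs B A z n ∪ B.filter (fun y => ∃ x ∈ bfs B A z n, s(x, y) ∈ A)

lemma bfs_succ (B : Finset V) (A : Finset (Sym2 V)) (z : V) (n : ℕ) :
    bfs B A z (n + 1) = bfs B A z n ∪ B.filter (fun y => ∃ x ∈ bfs B A z n, s(x, y) ∈ A) := rfl

lemma bfs_mono (B : Finset V) (A : Finset (Sym2 V)) (z : V) : Monotone (bfs B A z) := by
  apply monotone_nat_of_le_succ
  intro n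
  rw [bfs_succ]; exact Finset.subset_union_left

lemma rch_of_mem_bfs {B : Finset V} {A : Finset (Sym2 V)} {z : V} {n : ℕ} {y : V}
    (h : y ∈ bfs B A z n) : Rch A z y := by
  induction n generalizing y with
  | zero =>
    have : y = z := by simpa [bfs] using h
    rw [this]; exact Rch.refl A z
  | succ n ih =>
    rw [bfs_succ, Finset.mem_union, Finset.mem_filter] at h
    rcases h with h | ⟨_, x, hx, hxy⟩
    · exact ih h
    · exact (ih hx).trans (Rch.single hxy)

lemma exists_mem_bfs {B : Finset V} {A : Finset (Sym2 V)} (hA : A ⊆ edg B) {z y : V}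
    (h : Rch A z y) : ∃ n, y ∈ bfs B A z n := by
  induction h with
  | refl => exact ⟨0, by simp [bfs]⟩
  | tail _ h2 ih =>
    obtain ⟨n, hn⟩ := ih
    refine ⟨n + 1, ?_⟩
    rw [bfs_succ, Finset.mem_union, Finset.mem_filter]
    right
    exact ⟨(mem_edg.1 (hA h2)).2.1, _, hn, h2⟩

lemma bfs_subset {B : Finset V} {A : Finset (Sym2 V)} {z : V} (hz : z ∈ B) (n : ℕ) :
    bfs B A z n ⊆ B := by
  induction n with
  | zero => simpa [bfs] using hz
  | succ n ih =>
    rw [bfs_succ]
    exact Finset.union_subset ih (Finset.filter_subset _ _)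

lemma bfs_subset_cl {B : Finset V} {A : Finset (Sym2 V)} {z : V} (hz : z ∈ B) (n : ℕ) :
    bfs B A z n ⊆ cl B A z := by
  intro y hy
  rw [mem_cl]
  exact ⟨bfs_subset hz n hy, rch_of_mem_bfs hy⟩

/-- `e` touches the finite set `R`. -/
def Tch (e : Sym2 V) (R : Finset V) : Prop := ∃ v ∈ R, v ∈ e

lemma Tch.mono {e : Sym2 V} {R R' : Finset V} (h : R ⊆ R') (ht : Tch e R) : Tch e R' := by
  obtain ⟨v, hv, hve⟩ := ht; exact ⟨v, h hv, hve⟩

lemma bfs_insert {B : Finset V} {A : Finset (Sym2 V)} {z : V} {g : Sym2 V} {n : ℕ}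
    (h : ∀ j, j < n → ¬ Tch g (bfs B A z j)) :
    ∀ k, k ≤ n → bfs B (insert g A) z k = bfs B A z k := by
  intro k
  induction k with
  | zero => intro _; rfl
  | succ k ih =>
    intro hk
    rw [bfs_succ, bfs_succ, ih (by omega)]
    congr 1
    apply Finset.filter_congr
    intro y _
    constructor
    · rintro ⟨x, hx, hxy⟩
      rw [Finset.mem_insert] at hxy
      rcases hxy with hxy | hxy
      · exfalso
        apply h k (by omega)
        exact ⟨x, hx, by rw [← hxy]; exact Sym2.mem_mk_left x y⟩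
      · exact ⟨x, hx, hxy⟩
    · rintro ⟨x, hx, hxy⟩
      exact ⟨x, hx, Finset.mem_insert_of_mem hxy⟩

lemma bfs_insert' {B : Finset V} {A : Finset (Sym2 V)} {z : V} {g : Sym2 V} {n : ℕ}
    (h : ∀ j, j < n → ¬ Tch g (bfs B (insert g A) z j)) :
    ∀ k, k ≤ n → bfs B (insert g A) z k = bfs B A z k := by
  intro k
  induction k with
  | zero => intro _; rfl
  | succ k ih =>
    intro hk
    have h2 := h k (by omega)
    rw [ih (by omega)] at h2
    rw [bfs_succ, bfs_succ, ih (by omega)]
    congr 1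
    apply Finset.filter_congr
    intro y _
    constructor
    · rintro ⟨x, hx, hxy⟩
      rw [Finset.mem_insert] at hxy
      rcases hxy with hxy | hxy
      · exfalso
        apply h2
        exact ⟨x, hx, by rw [← hxy]; exact Sym2.mem_mk_left x y⟩
      · exact ⟨x, hx, hxy⟩
    · rintro ⟨x, hx, hxy⟩
      exact ⟨x, hx, Finset.mem_insert_of_mem hxy⟩

/-- Revealed edges: those touching a BFS ball of size at most `a`. -/
def Rev (B : Finset V) (z : V) (a : ℕ) (e : Sym2 V) (A : Finset (Sym2 V)) : Prop :=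
  ∃ n, (bfs B A z n).card ≤ a ∧ Tch e (bfs B A z n)

lemma rev_insert_of {B : Finset V} {z : V} {a : ℕ} {e g : Sym2 V} {A : Finset (Sym2 V)}
    (hle : ∀ n, Tch g (bfs B A z n) → ∃ m, m ≤ n ∧ Tch e (bfs B A z m)) :
    Rev B z a e (insert g A) ↔ Rev B z a e A := by
  constructor
  · rintro ⟨n, hn, ht⟩
    classical
    -- minimal touching time
    let n₁ := Nat.find (⟨n, ht⟩ : ∃ n, Tch e (bfs B (insert g A) z n))
    have hn₁ : Tch e (bfs B (insert g A) z n₁) := Nat.find_spec (⟨n, ht⟩ : ∃ n, Tch e (bfs B (insert g A) z n))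
    have hmin : ∀ m, m < n₁ → ¬ Tch e (bfs B (insert g A) z m) := fun m hm => Nat.find_min _ hm
    have hn₁n : n₁ ≤ n := Nat.find_min' _ ht
    have hng : ∀ j, j < n₁ → ¬ Tch g (bfs B A z j) := by
      by_contra hcon
      push Not at hcon
      let j := Nat.find hcon
      obtain ⟨hj1, hj2⟩ : j < n₁ ∧ Tch g (bfs B A z j) := Nat.find_spec hcon
      have hjmin : ∀ m, m < j → ¬ (m < n₁ ∧ Tch g (bfs B A z m)) := fun m hm => Nat.find_min hcon hm
      have heq := bfs_insert (B := B) (A := A) (z := z) (g := g) (n := j) (by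
        intro m hm hm2
        exact hjmin m hm ⟨by omega, hm2⟩)
      obtain ⟨m, hm, hm2⟩ := hle j hj2
      have := heq m hm
      rw [← this] at hm2
      exact hmin m (by omega) hm2
    have heq := bfs_insert hng n₁ le_rfl
    refine ⟨n₁, ?_, ?_⟩
    · rw [← heq]
      exact (Finset.card_le_card (bfs_mono B (insert g A) z hn₁n)).trans hn
    · rw [← heq]; exact hn₁
  · rintro ⟨n, hn, ht⟩
    let n₁ := Nat.find (⟨n, ht⟩ : ∃ n, Tch e (bfs B A z n))
    have hn₁ : Tch e (bfs B A z n₁) := Nat.find_spec (⟨n, ht⟩ : ∃ n, Tch e (bfs B A z n))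
    have hmin : ∀ m, m < n₁ → ¬ Tch e (bfs B A z m) := fun m hm => Nat.find_min _ hm
    have hn₁n : n₁ ≤ n := Nat.find_min' _ ht
    have heq := bfs_insert (B := B) (A := A) (z := z) (g := g) (n := n₁) (by
      intro j hj hj2
      obtain ⟨m, hm, hm2⟩ := hle j hj2
      exact hmin m (by omega) hm2) n₁ le_rfl
    refine ⟨n₁, ?_, ?_⟩
    · rw [heq]
      exact (Finset.card_le_card (bfs_mono B A z hn₁n)).trans hn
    · rw [heq]; exact hn₁

lemma rev_insert_self {B : Finset V} {z : V} {a : ℕ} {e : Sym2 V} {A : Finset (Sym2 V)} :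
    Rev B z a e (insert e A) ↔ Rev B z a e A :=
  rev_insert_of (fun n hn => ⟨n, le_rfl, hn⟩)

/-- For two edges one of them does not influence the joint revealment. -/
lemma rev_two {B : Finset V} {z : V} {a : ℕ} {e f : Sym2 V} {A : Finset (Sym2 V)} :
    (((Rev B z a e (insert e (insert f A)) ∧ Rev B z a f (insert e (insert f A))) ↔
        (Rev B z a e (insert e A) ∧ Rev B z a f (insert e A))) ∧
      ((Rev B z a e (insert f A) ∧ Rev B z a f (insert f A)) ↔
        (Rev B z a e A ∧ Rev B z a f A))) ∨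
    (((Rev B z a e (insert e (insert f A)) ∧ Rev B z a f (insert e (insert f A))) ↔
        (Rev B z a e (insert f A) ∧ Rev B z a f (insert f A))) ∧
      ((Rev B z a e (insert e A) ∧ Rev B z a f (insert e A)) ↔
        (Rev B z a e A ∧ Rev B z a f A))) := by
  by_cases h : ∀ n, Tch f (bfs B A z n) → ∃ m, m ≤ n ∧ Tch e (bfs B A z m)
  · left
    have h1 : Rev B z a e (insert f A) ↔ Rev B z a e A := rev_insert_of h
    have h2 : Rev B z a e (insert e (insert f A)) ↔ Rev B z a e (insert f A) := rev_insert_self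
    have h3 : Rev B z a e (insert e A) ↔ Rev B z a e A := rev_insert_self
    have h4 : Rev B z a f (insert e (insert f A)) ↔ Rev B z a f (insert e A) := by
      rw [Finset.insert_comm]; exact rev_insert_self
    have h5 : Rev B z a f (insert f A) ↔ Rev B z a f A := rev_insert_self
    rw [h2, h1, h4, h3, h5]
    exact ⟨Iff.rfl, Iff.rfl⟩
  · right
    have h' : ∀ n, Tch e (bfs B A z n) → ∃ m, m ≤ n ∧ Tch f (bfs B A z m) := by
      push Not at h
      obtain ⟨n₀, hn₀, hn₀'⟩ := h
      intro n hn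
      refine ⟨n₀, ?_, hn₀⟩
      by_contra hlt
      exact hn₀' n (by omega) hn
    have h1 : Rev B z a f (insert e A) ↔ Rev B z a f A := rev_insert_of h'
    have h2 : Rev B z a f (insert e (insert f A)) ↔ Rev B z a f (insert e A) := by
      rw [Finset.insert_comm]; exact rev_insert_self
    have h3 : Rev B z a f (insert f A) ↔ Rev B z a f A := rev_insert_self
    have h4 : Rev B z a e (insert e (insert f A)) ↔ Rev B z a e (insert f A) := rev_insert_self
    have h5 : Rev B z a e (insert e A) ↔ Rev B z a e A := rev_insert_self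
    rw [h2, h1, h4, h3, h5]
    exact ⟨Iff.rfl, Iff.rfl⟩

/-- The set of vertices explored. -/
noncomputable def expl (B : Finset V) (z : V) (a : ℕ) (A : Finset (Sym2 V)) : Finset V :=
  B.filter (fun y => ∃ n, (bfs B A z n).card ≤ a ∧ y ∈ bfs B A z n)

lemma card_expl_le {B : Finset V} {z : V} {a : ℕ} {A : Finset (Sym2 V)} :
    (expl B z a A).card ≤ a := by
  have h1 : ∀ y ∈ expl B z a A, ∃ n, (bfs B A z n).card ≤ a ∧ y ∈ bfs B A z n := by
    intro y hy
    exact (Finset.mem_filter.1 hy).2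
  by_cases hne : (expl B z a A).Nonempty
  · -- maximal index
    have h2 : ∃ n, (bfs B A z n).card ≤ a ∧ expl B z a A ⊆ bfs B A z n := by
      have : ∀ T : Finset V, T ⊆ expl B z a A → T.Nonempty →
          ∃ n, (bfs B A z n).card ≤ a ∧ T ⊆ bfs B A z n := by
        intro T
        induction T using Finset.induction_on with
        | empty => intro _ h; exact absurd h (by simp)
        | insert y T _ ih =>
          intro hT _
          obtain ⟨n, hn, hyn⟩ := h1 y (hT (Finset.mem_insert_self y T))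
          by_cases hTe : T.Nonempty
          · obtain ⟨m, hm, hTm⟩ := ih ((Finset.subset_insert y T).trans hT) hTe
            rcases le_total n m with hnm | hnm
            · refine ⟨m, hm, ?_⟩
              apply Finset.insert_subset (bfs_mono B A z hnm hyn) hTm
            · refine ⟨n, hn, ?_⟩
              apply Finset.insert_subset hyn (hTm.trans (bfs_mono B A z hnm))
          · rw [Finset.not_nonempty_iff_eq_empty] at hTe
            refine ⟨n, hn, ?_⟩
            rw [hTe]
            simpa using hyn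
      exact this _ (Finset.Subset.refl _) hne
    obtain ⟨n, hn, hsub⟩ := h2
    exact (Finset.card_le_card hsub).trans hn
  · rw [Finset.not_nonempty_iff_eq_empty] at hne
    rw [hne]; simp

lemma rev_iff_tch_expl {B : Finset V} {z : V} (hz : z ∈ B) {a : ℕ} {e : Sym2 V}
    {A : Finset (Sym2 V)} : Rev B z a e A ↔ Tch e (expl B z a A) := by
  constructor
  · rintro ⟨n, hn, v, hv, hve⟩
    refine ⟨v, ?_, hve⟩
    unfold expl
    rw [Finset.mem_filter]
    exact ⟨bfs_subset hz n hv, n, hn, hv⟩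
  · rintro ⟨v, hv, hve⟩
    obtain ⟨n, hn, hvn⟩ := (Finset.mem_filter.1 hv).2
    exact ⟨n, hn, v, hvn, hve⟩

lemma rev_iff_tch_cl {B : Finset V} {z : V} (hz : z ∈ B) {a : ℕ} {e : Sym2 V}
    {A : Finset (Sym2 V)} (hA : A ⊆ edg B) (hcard : (cl B A z).card ≤ a) :
    Rev B z a e A ↔ Tch e (cl B A z) := by
  constructor
  · rintro ⟨n, _, ht⟩
    exact ht.mono (bfs_subset_cl hz n)
  · rintro ⟨v, hv, hve⟩
    obtain ⟨n, hn⟩ := exists_mem_bfs hA (mem_cl.1 hv).2
    exact ⟨n, (Finset.card_le_card (bfs_subset_cl hz n)).trans hcard, v, hn, hve⟩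

end bfs

end Pool.Agent.Lib.MP_133e92_pr
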