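import Pool.Agent.Lib.MP_133e92_pr.Defs

open MeasureTheory Finset
open scoped ENNReal BigOperators

namespace Pool.Agent.Lib.MP_133e92_pr

section conn

variable {N : ℕ} {C0 C1 C2 α : ℝ}

lemma cseq_nonneg (h0 : 0 ≤ C0) (h1 : 0 ≤ C1) (h2 : 0 ≤ C2) (k : ℕ) :
    0 ≤ cseq C0 C1 C2 α k := by
  unfold cseq
  have : 0 ≤ Real.log k := Real.log_natCast_nonneg k
  have h3 : (0:ℝ) ≤ (k:ℝ) ^ α := Real.rpow_nonneg (by positivity) α
  positivity

lemma connProb_nonneg (h0 : 0 ≤ C0) (h1 : 0 ≤ C1) (h2 : 0 ≤ C2) (k : ℕ) :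
    0 ≤ connProb N C0 C1 C2 α k := by
  unfold connProb
  have := cseq_nonneg (α := α) h0 h1 h2 k
  apply le_min _ zero_le_one
  positivity

lemma connProb_le_one (k : ℕ) : connProb N C0 C1 C2 α k ≤ 1 := min_le_right _ _

lemma cseq_le (h0 : 0 ≤ C0) (h1 : 0 ≤ C1) (hα : 0 < α) {k : ℕ} (hk : 1 ≤ k) :
    cseq C0 C1 C2 α k ≤ (C0 + C1 / α + C2) * (k : ℝ) ^ α := by
  unfold cseq
  have hk' : (1:ℝ) ≤ k := by exact_mod_cast hk
  have h3 : (1:ℝ) ≤ (k:ℝ) ^ α := Real.one_le_rpow hk' hα.le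
  have h4 : Real.log k ≤ (k:ℝ) ^ α / α := Real.log_le_rpow_div (by positivity) hα
  have h5 : C0 ≤ C0 * (k:ℝ) ^ α := le_mul_of_one_le_right h0 h3
  have h6 : C1 * Real.log k ≤ C1 / α * (k:ℝ) ^ α := by
    calc C1 * Real.log k ≤ C1 * ((k:ℝ) ^ α / α) := mul_le_mul_of_nonneg_left h4 h1
      _ = _ := by ring
  nlinarith

lemma connProb_le (h0 : 0 ≤ C0) (h1 : 0 ≤ C1) (hα : 0 < α) {k : ℕ} (hk : 1 ≤ k) :
    connProb N C0 C1 C2 α k ≤ (C0 + C1 / α + C2) * (k : ℝ) ^ α / (N : ℝ) ^ (2 * k) := by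
  unfold connProb
  refine (min_le_left _ _).trans ?_
  exact div_le_div_of_nonneg_right (cseq_le h0 h1 hα hk) (by positivity)

lemma connProb_le_of_le_one (h0 : 0 ≤ C0) (h1 : 0 ≤ C1) (h2 : 0 ≤ C2) (hα1 : α ≤ 1)
    {k : ℕ} (hk : 1 ≤ k) :
    connProb N C0 C1 C2 α k ≤ (C0 + C1 + C2) * (k : ℝ) / (N : ℝ) ^ (2 * k) := by
  unfold connProb
  refine (min_le_left _ _).trans ?_
  apply div_le_div_of_nonneg_right _ (by positivity)
  unfold cseq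
  have hk' : (1:ℝ) ≤ k := by exact_mod_cast hk
  have h3 : (k:ℝ) ^ α ≤ k := by
    calc (k:ℝ) ^ α ≤ (k:ℝ) ^ (1:ℝ) := Real.rpow_le_rpow_of_exponent_le hk' hα1
      _ = k := Real.rpow_one _
  have h4 : Real.log k ≤ k := Real.log_le_self (by positivity)
  have h5 : C0 ≤ C0 * (k:ℝ) := le_mul_of_one_le_right h0 hk'
  have h6 : C1 * Real.log k ≤ C1 * k := mul_le_mul_of_nonneg_left h4 h1
  have h7 : C2 * (k:ℝ) ^ α ≤ C2 * k := mul_le_mul_of_nonneg_left h3 h2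
  nlinarith

lemma pow_mul_geom_tsum_ne_top (hN : 2 ≤ N) (q : ℕ → ℝ) (K : ℝ) (hK : 0 ≤ K) (α : ℝ)
    (hq : ∀ k : ℕ, 1 ≤ k → q k ≤ K * (k : ℝ) ^ α / (N : ℝ) ^ (2 * k)) :
    ∑' k, (N : ℝ≥0∞) ^ k * ENNReal.ofReal (q k) ≠ ∞ := by
  obtain ⟨a, ha⟩ := exists_nat_ge α
  have hs : Summable (fun n : ℕ => (n : ℝ) ^ a * (1 / 2 : ℝ) ^ n) :=
    summable_pow_mul_geometric_of_norm_lt_one a (by norm_num)
  have h1 : ∀ k : ℕ, (N : ℝ≥0∞) ^ (k + 1) * ENNReal.ofReal (q (k + 1))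
      ≤ ENNReal.ofReal (K * (((k + 1 : ℕ) : ℝ) ^ a * (1 / 2 : ℝ) ^ (k + 1))) := by
    intro k
    have hN0 : (0:ℝ) < N := by positivity
    have hN1 : (2:ℝ) ≤ N := by exact_mod_cast hN
    have a0 : (N : ℝ≥0∞) ^ (k + 1) = ENNReal.ofReal ((N : ℝ) ^ (k + 1)) := by
      rw [ENNReal.ofReal_pow hN0.le, ENNReal.ofReal_natCast]
    rw [a0, ← ENNReal.ofReal_mul (by positivity)]
    apply ENNReal.ofReal_le_ofReal
    have h2 := hq (k + 1) (by omega)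
    have hk1 : (1:ℝ) ≤ ((k + 1 : ℕ) : ℝ) := by push_cast; linarith [(Nat.cast_nonneg k : (0:ℝ) ≤ k)]
    have h3 : ((k + 1 : ℕ) : ℝ) ^ α ≤ ((k + 1 : ℕ) : ℝ) ^ a := by
      rw [← Real.rpow_natCast]
      exact Real.rpow_le_rpow_of_exponent_le hk1 ha
    calc (N : ℝ) ^ (k + 1) * q (k + 1)
        ≤ (N : ℝ) ^ (k + 1) * (K * ((k + 1 : ℕ) : ℝ) ^ α / (N : ℝ) ^ (2 * (k + 1))) :=
          mul_le_mul_of_nonneg_left h2 (by positivity)
      _ = K * (((k + 1 : ℕ) : ℝ) ^ α * (1 / (N:ℝ)) ^ (k + 1)) := by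
          rw [two_mul, pow_add, one_div, inv_pow]; field_simp; ring
      _ ≤ K * (((k + 1 : ℕ) : ℝ) ^ a * (1 / 2 : ℝ) ^ (k + 1)) := by
          apply mul_le_mul_of_nonneg_left _ hK
          apply mul_le_mul h3 _ (by positivity) (by positivity)
          apply pow_le_pow_left₀ (by positivity)
          exact one_div_le_one_div_of_le (by norm_num) hN1
  rw [tsum_eq_zero_add' ENNReal.summable]
  apply ENNReal.add_ne_top.2
  refine ⟨by simp, ?_⟩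
  apply ne_top_of_le_ne_top _ (ENNReal.tsum_le_tsum h1)
  have h4 : Summable (fun k : ℕ => K * (((k + 1 : ℕ) : ℝ) ^ a * (1 / 2 : ℝ) ^ (k + 1))) :=
    ((summable_nat_add_iff 1).2 hs).mul_left K
  rw [← ENNReal.ofReal_tsum_of_nonneg (fun k => by positivity) h4]
  exact ENNReal.ofReal_ne_top

/-- Lower bound for the connection probabilities. -/
lemma exists_connProb_ge (hN : 2 ≤ N) (h0 : 0 ≤ C0) (h1 : 0 ≤ C1) (h2 : 0 < C2) :
    ∃ κ : ℝ, 0 < κ ∧ ∀ k : ℕ, 1 ≤ k →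
      κ * (k : ℝ) ^ α / (N : ℝ) ^ (2 * k) ≤ connProb N C0 C1 C2 α k := by
  obtain ⟨a, ha⟩ := exists_nat_ge α
  -- boundedness of k^a / 2^k
  have hs : Summable (fun n : ℕ => (n : ℝ) ^ a * (1 / 2 : ℝ) ^ n) :=
    summable_pow_mul_geometric_of_norm_lt_one a (by norm_num)
  set S : ℝ := ∑' n : ℕ, (n : ℝ) ^ a * (1 / 2 : ℝ) ^ n with hS
  have hSb : ∀ n : ℕ, (n : ℝ) ^ a * (1 / 2 : ℝ) ^ n ≤ S := fun n =>
    hs.le_tsum n (fun m _ => by positivity)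
  have hSnn : 0 ≤ S := tsum_nonneg (fun n => by positivity)
  refine ⟨min C2 (1 / (S + 1)), lt_min h2 (by positivity), ?_⟩
  intro k hk
  have hN0 : (0:ℝ) < N := by positivity
  have hN1 : (2:ℝ) ≤ N := by exact_mod_cast hN
  have hk1 : (1:ℝ) ≤ (k : ℝ) := by exact_mod_cast hk
  have hk0 : (0:ℝ) ≤ (k:ℝ) ^ α := Real.rpow_nonneg (by positivity) α
  unfold connProb
  apply le_min
  · apply div_le_div_of_nonneg_right _ (by positivity)
    unfold cseq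
    have h3 : 0 ≤ Real.log k := Real.log_natCast_nonneg k
    have h4 : min C2 (1 / (S + 1)) * (k:ℝ) ^ α ≤ C2 * (k:ℝ) ^ α :=
      mul_le_mul_of_nonneg_right (min_le_left _ _) hk0
    have h5 : 0 ≤ C1 * Real.log k := mul_nonneg h1 h3
    linarith
  · rw [div_le_one (by positivity)]
    have h3 : (k : ℝ) ^ α ≤ (k : ℝ) ^ a := by
      rw [← Real.rpow_natCast]
      exact Real.rpow_le_rpow_of_exponent_le hk1 ha
    have h4 : (k:ℝ) ^ a ≤ S * 2 ^ k := by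
      have := hSb k
      rw [one_div, inv_pow, ← div_eq_mul_inv, div_le_iff₀ (by positivity)] at this
      exact this
    have h5 : (2:ℝ) ^ k ≤ (N:ℝ) ^ (2 * k) := by
      calc (2:ℝ) ^ k ≤ (N:ℝ) ^ k := pow_le_pow_left₀ (by norm_num) hN1 k
        _ ≤ (N:ℝ) ^ (2 * k) := pow_le_pow_right₀ (by linarith) (by omega)
    calc min C2 (1 / (S + 1)) * (k:ℝ) ^ α ≤ (1 / (S + 1)) * (S * 2 ^ k) :=
          mul_le_mul (min_le_right _ _) (h3.trans h4) hk0 (by positivity)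
      _ = (S / (S + 1)) * 2 ^ k := by ring
      _ ≤ 1 * 2 ^ k := by
          apply mul_le_mul_of_nonneg_right _ (by positivity)
          rw [div_le_one (by positivity)]; linarith
      _ = 2 ^ k := one_mul _
      _ ≤ _ := h5

end conn

end Pool.Agent.Lib.MP_133e92_pr
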