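import Pool.Agent.Lib.MP_133e92_pr.Flow

open Finset
open scoped BigOperators Classical

namespace Pool.Agent.Lib.MP_133e92_pr

section cross

variable {V : Type*} {p : Sym2 V → ℝ}

/-- Cross edges between `B` and `B'`. -/
noncomputable def crs (B B' : Finset V) : Finset (Sym2 V) := (B ×ˢ B').image (fun q => s(q.1, q.2))

lemma mem_crs {B B' : Finset V} {x x' : V} (hx : x ∈ B) (hx' : x' ∈ B') : s(x, x') ∈ crs B B' := by
  unfold crs
  rw [Finset.mem_image]
  exact ⟨(x, x'), Finset.mem_product.2 ⟨hx, hx'⟩, rfl⟩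

lemma crs_injOn {B B' : Finset V} (h : Disjoint B B') :
    Set.InjOn (fun q : V × V => s(q.1, q.2)) (B ×ˢ B' : Finset (V × V)) := by
  rintro ⟨x, x'⟩ hq ⟨y, y'⟩ hr heq
  rw [Finset.mem_coe, Finset.mem_product] at hq hr
  simp only at hq hr heq
  rw [Sym2.eq_iff] at heq
  rcases heq with ⟨h1, h2⟩ | ⟨h1, h2⟩
  · rw [h1, h2]
  · exfalso
    exact Finset.disjoint_left.1 h hq.1 (h1 ▸ hr.2)

lemma crs_subset_edg {B B' U : Finset V} (h : Disjoint B B') (hB : B ⊆ U) (hB' : B' ⊆ U) :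
    crs B B' ⊆ edg U := by
  intro e he
  unfold crs at he
  rw [Finset.mem_image] at he
  obtain ⟨⟨x, x'⟩, hq, rfl⟩ := he
  rw [Finset.mem_product] at hq
  simp only at hq ⊢
  rw [mem_edg]
  refine ⟨hB hq.1, hB' hq.2, ?_⟩
  rintro rfl
  exact Finset.disjoint_left.1 h hq.1 hq.2

lemma Zc_eq_prod (A : Finset (Sym2 V)) (G H : Finset V) :
    Zc A G H = ∑ q ∈ G ×ˢ H, (if s(q.1, q.2) ∈ A then 1 else 0) := by
  unfold Zc
  rw [Finset.sum_product]

section pair

variable {B B' G H : Finset V} {π : ℝ}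

/-- Second moment of the number of open cross edges. -/
lemma Ex_Z_var (hp0 : ∀ e, 0 ≤ p e) (hd : Disjoint B B') (hG : G ⊆ B) (hH : H ⊆ B')
    (hπ : ∀ x ∈ B, ∀ x' ∈ B', p s(x, x') = π) :
    Ex p (crs B B') (fun A => (Zc A G H - π * (G.card * H.card)) ^ 2) ≤ π * (G.card * H.card) := by
  have h := Ex_var (p := p) hp0 (T := crs B B') (P := G ×ˢ H) (e := fun q : V × V => s(q.1, q.2))
    (fun q hq => mem_crs (hG (Finset.mem_product.1 hq).1) (hH (Finset.mem_product.1 hq).2))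
    ((crs_injOn hd).mono (by
      intro q hq
      rw [Finset.mem_coe, Finset.mem_product] at hq ⊢
      exact ⟨hG hq.1, hH hq.2⟩)) (fun _ => 1)
  have h1 : ∀ A, A ⊆ crs B B' → (Zc A G H - π * (G.card * H.card)) ^ 2
      = (∑ q ∈ G ×ˢ H, 1 * ((if s(q.1, q.2) ∈ A then 1 else 0) - p s(q.1, q.2))) ^ 2 := by
    intro A _
    congr 1
    simp only [one_mul]
    rw [Finset.sum_sub_distrib, Zc_eq_prod]
    congr 1
    rw [Finset.sum_congr rfl (fun q hq => hπ q.1 (hG (Finset.mem_product.1 hq).1) q.2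
      (hH (Finset.mem_product.1 hq).2)), Finset.sum_const, Finset.card_product, nsmul_eq_mul]
    push_cast; ring
  rw [Ex_congr h1]
  refine h.trans (le_of_eq ?_)
  rw [Finset.sum_congr rfl (fun q hq => by
    rw [hπ q.1 (hG (Finset.mem_product.1 hq).1) q.2 (hH (Finset.mem_product.1 hq).2)]),
    Finset.sum_const, Finset.card_product, nsmul_eq_mul]
  push_cast; ring

/-- Chebyshev. -/
lemma Ex_Z_small (hp0 : ∀ e, 0 ≤ p e) (hp1 : ∀ e, p e ≤ 1) (hd : Disjoint B B') (hG : G ⊆ B)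
    (hH : H ⊆ B') (hπ : ∀ x ∈ B, ∀ x' ∈ B', p s(x, x') = π) (hl : 0 < π * (G.card * H.card)) :
    Ex p (crs B B') (fun A => if Zc A G H < π * (G.card * H.card) / 2 then 1 else 0)
      ≤ 4 / (π * (G.card * H.card)) := by
  set l := π * (G.card * H.card) with hldef
  have h1 : ∀ A, A ⊆ crs B B' → (if Zc A G H < l / 2 then (1:ℝ) else 0)
      ≤ (4 / l ^ 2) * (Zc A G H - l) ^ 2 := by
    intro A _
    split_ifs with h
    · have h2 : (l / 2) ^ 2 ≤ (Zc A G H - l) ^ 2 := by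
        have : l / 2 < l - Zc A G H := by linarith
        nlinarith
      have h3 : 4 / l ^ 2 * (l / 2) ^ 2 = 1 := by field_simp; norm_num
      rw [← h3]
      exact mul_le_mul_of_nonneg_left h2 (by positivity)
    · positivity
  refine (Ex_mono hp0 hp1 h1).trans ?_
  rw [Ex_mul_left]
  calc 4 / l ^ 2 * Ex p (crs B B') (fun A => (Zc A G H - l) ^ 2)
      ≤ 4 / l ^ 2 * l := mul_le_mul_of_nonneg_left (Ex_Z_var hp0 hd hG hH hπ) (by positivity)
    _ = 4 / l := by field_simp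

/-- The linear part of the connecting flow, first side. -/
lemma Ex_lin (hp0 : ∀ e, 0 ≤ p e) (hp1 : ∀ e, p e ≤ 1) (hd : Disjoint B B') (hG : G ⊆ B)
    (hH : H ⊆ B') (hπ : ∀ x ∈ B, ∀ x' ∈ B', p s(x, x') = π) (U : Finset V)
    {θ : V → V → V → ℝ} (hθ : ∀ y z, ∑ x ∈ G, θ x y z = 0) :
    Ex p (crs B B') (fun A => nrg U (fun y z => ∑ x ∈ G, ∑ x' ∈ H,
      (if s(x, x') ∈ A then 1 else 0) * θ x y z)) ≤ π * H.card * tot U G θ := by
  unfold nrg
  rw [Ex_sum]
  have key : ∀ y z, Ex p (crs B B') (fun A => (∑ x ∈ G, ∑ x' ∈ H,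
      (if s(x, x') ∈ A then 1 else 0) * θ x y z) ^ 2) ≤ π * H.card * ∑ x ∈ G, θ x y z ^ 2 := by
    intro y z
    have h := Ex_var (p := p) hp0 (T := crs B B') (P := G ×ˢ H)
      (e := fun q : V × V => s(q.1, q.2))
      (fun q hq => mem_crs (hG (Finset.mem_product.1 hq).1) (hH (Finset.mem_product.1 hq).2))
      ((crs_injOn hd).mono (by
        intro q hq
        rw [Finset.mem_coe, Finset.mem_product] at hq ⊢
        exact ⟨hG hq.1, hH hq.2⟩)) (fun q => θ q.1 y z)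
    have h1 : ∀ A, A ⊆ crs B B' → (∑ x ∈ G, ∑ x' ∈ H,
        (if s(x, x') ∈ A then 1 else 0) * θ x y z) ^ 2
        = (∑ q ∈ G ×ˢ H, θ q.1 y z * ((if s(q.1, q.2) ∈ A then 1 else 0) - p s(q.1, q.2))) ^ 2 := by
      intro A _
      congr 1
      rw [Finset.sum_product]
      have e1 : ∀ x ∈ G, ∑ x' ∈ H, θ x y z * ((if s(x, x') ∈ A then 1 else 0) - p s(x, x'))
          = ∑ x' ∈ H, (if s(x, x') ∈ A then 1 else 0) * θ x y z - (π * H.card) * θ x y z := by
        intro x hx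
        have e2 : ∀ x' ∈ H, θ x y z * ((if s(x, x') ∈ A then 1 else 0) - p s(x, x'))
            = (if s(x, x') ∈ A then 1 else 0) * θ x y z - π * θ x y z := by
          intro x' hx'
          rw [hπ x (hG hx) x' (hH hx')]; ring
        rw [Finset.sum_congr rfl e2, Finset.sum_sub_distrib, Finset.sum_const, nsmul_eq_mul]
        ring
      rw [Finset.sum_congr rfl e1, Finset.sum_sub_distrib, ← Finset.mul_sum, hθ y z]
      ring
    rw [Ex_congr h1]
    refine h.trans (le_of_eq ?_)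
    rw [Finset.sum_product, Finset.mul_sum]
    apply Finset.sum_congr rfl
    intro x hx
    have e3 : ∀ x' ∈ H, θ x y z ^ 2 * p s(x, x') = θ x y z ^ 2 * π := by
      intro x' hx'; rw [hπ x (hG hx) x' (hH hx')]
    simp only
    rw [Finset.sum_congr rfl e3, Finset.sum_const, nsmul_eq_mul]
    ring
  calc ∑ y ∈ U, Ex p (crs B B') (fun A => ∑ z ∈ U, (∑ x ∈ G, ∑ x' ∈ H,
      (if s(x, x') ∈ A then 1 else 0) * θ x y z) ^ 2)
      = ∑ y ∈ U, ∑ z ∈ U, Ex p (crs B B') (fun A => (∑ x ∈ G, ∑ x' ∈ H,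
      (if s(x, x') ∈ A then 1 else 0) * θ x y z) ^ 2) := by
        apply Finset.sum_congr rfl; intro y _
        rw [Ex_sum]
    _ ≤ ∑ y ∈ U, ∑ z ∈ U, π * H.card * ∑ x ∈ G, θ x y z ^ 2 := by
        apply Finset.sum_le_sum; intro y _
        apply Finset.sum_le_sum; intro z _
        exact key y z
    _ = π * H.card * tot U G θ := by
        unfold tot nrg
        simp_rw [Finset.mul_sum]
        rw [Finset.sum_comm (s := G) (t := U)]
        apply Finset.sum_congr rfl; intro y _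
        rw [Finset.sum_comm]

/-- The linear part of the connecting flow, second side. -/
lemma Ex_lin' (hp0 : ∀ e, 0 ≤ p e) (hp1 : ∀ e, p e ≤ 1) (hd : Disjoint B B') (hG : G ⊆ B)
    (hH : H ⊆ B') (hπ : ∀ x ∈ B, ∀ x' ∈ B', p s(x, x') = π) (U : Finset V)
    {η : V → V → V → ℝ} (hη : ∀ y z, ∑ x ∈ H, η x y z = 0) :
    Ex p (crs B B') (fun A => nrg U (fun y z => ∑ x ∈ G, ∑ x' ∈ H,
      (if s(x, x') ∈ A then 1 else 0) * η x' y z)) ≤ π * G.card * tot U H η := by
  have hc : crs B B' = crs B' B := by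
    unfold crs
    ext e
    simp only [Finset.mem_image, Finset.mem_product, Prod.exists]
    constructor
    · rintro ⟨a, b, ⟨h1, h2⟩, rfl⟩; exact ⟨b, a, ⟨h2, h1⟩, Sym2.eq_swap⟩
    · rintro ⟨a, b, ⟨h1, h2⟩, rfl⟩; exact ⟨b, a, ⟨h2, h1⟩, Sym2.eq_swap⟩
  have h := Ex_lin (p := p) hp0 hp1 hd.symm hH hG (π := π) (fun x hx x' hx' => by
    rw [show s(x, x') = s(x', x) from Sym2.eq_swap]; exact hπ x' hx' x hx) U hη
  rw [← hc] at h
  refine le_trans (le_of_eq ?_) h
  congr 1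
  funext A
  congr 1
  funext y z
  rw [Finset.sum_comm]
  apply Finset.sum_congr rfl; intro x _
  apply Finset.sum_congr rfl; intro x' _
  rw [show s(x, x') = s(x', x) from Sym2.eq_swap]

/-- Expected energy of the connecting flow. -/
lemma Ex_Ph (hp0 : ∀ e, 0 ≤ p e) (hp1 : ∀ e, p e ≤ 1) (hd : Disjoint B B') (hG : G ⊆ B)
    (hH : H ⊆ B') (hπ : ∀ x ∈ B, ∀ x' ∈ B', p s(x, x') = π) (U : Finset V)
    {θ η : V → V → V → ℝ} (hθ : ∀ y z, ∑ x ∈ G, θ x y z = 0)
    (hη : ∀ y z, ∑ x ∈ H, η x y z = 0) (hl : 0 < π * (G.card * H.card)) :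
    Ex p (crs B B') (fun A => if π * (G.card * H.card) / 2 ≤ Zc A G H then
      nrg U (Ph A G θ H η) else 0)
      ≤ 12 / (π * (G.card * H.card)) * (tot U G θ / G.card + tot U H η / H.card)
        + 24 / (π * (G.card * H.card)) := by
  set l := π * (G.card * H.card) with hldef
  have hGc : (0:ℝ) < G.card := by
    rcases Nat.eq_zero_or_pos G.card with h | h
    · exfalso; rw [hldef, h] at hl; simp at hl
    · exact_mod_cast h
  have hHc : (0:ℝ) < H.card := by
    rcases Nat.eq_zero_or_pos H.card with h | h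
    · exfalso; rw [hldef, h] at hl; simp at hl
    · exact_mod_cast h
  have hπ0 : 0 < π := by
    by_contra h
    push Not at h
    have : π * (G.card * H.card) ≤ 0 := mul_nonpos_of_nonpos_of_nonneg h (by positivity)
    linarith
  have h1 : ∀ A, A ⊆ crs B B' → (if l / 2 ≤ Zc A G H then nrg U (Ph A G θ H η) else 0)
      ≤ 12 / l ^ 2 *
      (nrg U (fun y z => ∑ x ∈ G, ∑ x' ∈ H, (if s(x, x') ∈ A then 1 else 0) * θ x y z) +
       nrg U (fun y z => ∑ x ∈ G, ∑ x' ∈ H, (if s(x, x') ∈ A then 1 else 0) * η x' y z))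
       + 24 / l := by
    intro A _
    split_ifs with h
    · exact nrg_Ph_le hl h
    · have a := nrg_nonneg U (fun y z => ∑ x ∈ G, ∑ x' ∈ H,
        (if s(x, x') ∈ A then 1 else 0) * θ x y z)
      have b := nrg_nonneg U (fun y z => ∑ x ∈ G, ∑ x' ∈ H,
        (if s(x, x') ∈ A then 1 else 0) * η x' y z)
      positivity
  refine (Ex_mono hp0 hp1 h1).trans ?_
  rw [Ex_add, Ex_mul_left, Ex_add, Ex_const]
  have h2 := Ex_lin (p := p) hp0 hp1 hd hG hH hπ U hθ
  have h3 := Ex_lin' (p := p) hp0 hp1 hd hG hH hπ U hη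
  have h4 : 12 / l * (tot U G θ / G.card + tot U H η / H.card)
      = 12 / l ^ 2 * (π * H.card * tot U G θ + π * G.card * tot U H η) := by
    rw [hldef]
    field_simp
  rw [h4]
  have h5 : (0:ℝ) ≤ 12 / l ^ 2 := by positivity
  have := mul_le_mul_of_nonneg_left (add_le_add h2 h3) h5
  linarith

end pair

/-- Edges outside of the cross edges are irrelevant for `Zc`. -/
lemma Zc_union {B B' G H : Finset V} (hG : G ⊆ B) (hH : H ⊆ B') {A₁ A₂ : Finset (Sym2 V)}
    (hA₁ : Disjoint A₁ (crs B B')) : Zc (A₁ ∪ A₂) G H = Zc A₂ G H := by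
  unfold Zc
  apply Finset.sum_congr rfl; intro x hx
  apply Finset.sum_congr rfl; intro x' hx'
  have : s(x, x') ∈ A₁ ∪ A₂ ↔ s(x, x') ∈ A₂ := by
    rw [Finset.mem_union, or_iff_right]
    intro h
    exact Finset.disjoint_left.1 hA₁ h (mem_crs (hG hx) (hH hx'))
  exact if_congr this rfl rfl

lemma Ph_union {B B' G H : Finset V} (hG : G ⊆ B) (hH : H ⊆ B') {A₁ A₂ : Finset (Sym2 V)}
    (hA₁ : Disjoint A₁ (crs B B')) (θ η : V → V → V → ℝ) :
    Ph (A₁ ∪ A₂) G θ H η = Ph A₂ G θ H η := by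
  funext y z
  unfold Ph
  rw [Zc_union hG hH hA₁]
  congr 1
  apply Finset.sum_congr rfl; intro x hx
  apply Finset.sum_congr rfl; intro x' hx'
  have : s(x, x') ∈ A₁ ∪ A₂ ↔ s(x, x') ∈ A₂ := by
    rw [Finset.mem_union, or_iff_right]
    intro h
    exact Finset.disjoint_left.1 hA₁ h (mem_crs (hG hx) (hH hx'))
  congr 1
  exact if_congr this rfl rfl

end cross

section det

variable {V ι : Type*}

/-- The merged flows. -/
noncomputable def mth (I : Finset ι) (A : Finset (Sym2 V)) (Gs : ι → Finset V)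
    (θs : ι → V → V → V → ℝ) (idx : V → ι) : V → V → V → ℝ := fun x y z =>
  if x ∈ I.biUnion Gs then
    θs (idx x) x y z + ∑ j ∈ I, (((Gs j).card : ℝ) / (∑ i ∈ I, ((Gs i).card : ℝ))) *
      Ph A (Gs (idx x)) (θs (idx x)) (Gs j) (θs j) y z
  else 0

variable {I : Finset ι} {A : Finset (Sym2 V)} {Gs : ι → Finset V}
    {θs : ι → V → V → V → ℝ} {idx : V → ι} {Bi : ι → Finset V} {U : Finset V}

lemma disj_of_idx (hidx : ∀ i ∈ I, ∀ x ∈ Bi i, idx x = i) {i j : ι} (hi : i ∈ I) (hj : j ∈ I)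
    (hij : i ≠ j) : Disjoint (Bi i) (Bi j) := by
  rw [Finset.disjoint_left]
  intro x hx hx'
  exact hij ((hidx i hi x hx).symm.trans (hidx j hj x hx'))

lemma mth_apply (hidx : ∀ i ∈ I, ∀ x ∈ Bi i, idx x = i) (hsub : ∀ i ∈ I, Gs i ⊆ Bi i)
    {i : ι} (hi : i ∈ I) {x : V} (hx : x ∈ Gs i) (y z : V) :
    mth I A Gs θs idx x y z = θs i x y z +
      ∑ j ∈ I, (((Gs j).card : ℝ) / (∑ i ∈ I, ((Gs i).card : ℝ))) *
      Ph A (Gs i) (θs i) (Gs j) (θs j) y z := by
  unfold mth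
  rw [if_pos (Finset.mem_biUnion.2 ⟨i, hi, hx⟩), hidx i hi x (hsub i hi hx)]

lemma pairwise_disj (hidx : ∀ i ∈ I, ∀ x ∈ Bi i, idx x = i) (hsub : ∀ i ∈ I, Gs i ⊆ Bi i) :
    (I : Set ι).PairwiseDisjoint Gs := by
  intro i hi j hj hij
  exact Finset.disjoint_of_subset_left (hsub i hi)
    (Finset.disjoint_of_subset_right (hsub j hj) (disj_of_idx hidx hi hj hij))

lemma card_biUnion_Gs (hidx : ∀ i ∈ I, ∀ x ∈ Bi i, idx x = i) (hsub : ∀ i ∈ I, Gs i ⊆ Bi i) :
    ((I.biUnion Gs).card : ℝ) = ∑ i ∈ I, ((Gs i).card : ℝ) := by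
  rw [Finset.card_biUnion (pairwise_disj hidx hsub)]
  push_cast; rfl

/-- Validity of the merged flows. -/
lemma mth_val (hidx : ∀ i ∈ I, ∀ x ∈ Bi i, idx x = i) (hBU : ∀ i ∈ I, Bi i ⊆ U)
    (hv : ∀ i ∈ I, Val U (Bi i) (A ∩ edg (Bi i)) (Gs i) (θs i))
    (hZ : ∀ i ∈ I, ∀ j ∈ I, i ≠ j → Gs i ≠ ∅ → Gs j ≠ ∅ → Zc A (Gs i) (Gs j) ≠ 0) :
    Val U (I.biUnion Bi) A (I.biUnion Gs) (mth I A Gs θs idx) := by
  have hsub : ∀ i ∈ I, Gs i ⊆ Bi i := fun i hi => (hv i hi).sub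
  set Y : ℝ := ∑ i ∈ I, ((Gs i).card : ℝ) with hY
  refine ⟨?_, ?_, ?_, ?_, ?_⟩
  · exact Finset.biUnion_mono hsub
  · intro x y z
    by_cases hx : x ∈ I.biUnion Gs
    · obtain ⟨i, hi, hxi⟩ := Finset.mem_biUnion.1 hx
      rw [mth_apply hidx hsub hi hxi, mth_apply hidx hsub hi hxi, (hv i hi).anti x y z, neg_add,
        ← Finset.sum_neg_distrib]
      congr 1
      apply Finset.sum_congr rfl
      intro j hj
      rw [Ph_anti (hv i hi).anti (hv j hj).anti y z]; ring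
    · unfold mth
      rw [if_neg hx, if_neg hx, neg_zero]
  · intro x y z hne
    by_cases hx : x ∈ I.biUnion Gs
    · obtain ⟨i, hi, hxi⟩ := Finset.mem_biUnion.1 hx
      rw [mth_apply hidx hsub hi hxi] at hne
      by_contra hyz
      apply hne
      have h1 : θs i x y z = 0 := by
        by_contra h1
        exact hyz (Finset.mem_inter.1 ((hv i hi).supp x y z h1)).1
      rw [h1, zero_add]
      apply Finset.sum_eq_zero
      intro j hj
      have h2 : Ph A (Gs i) (θs i) (Gs j) (θs j) y z = 0 := by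
        by_contra h2
        exact hyz (Ph_supp (fun x y z h => (Finset.mem_inter.1 ((hv i hi).supp x y z h)).1)
          (fun x y z h => (Finset.mem_inter.1 ((hv j hj).supp x y z h)).1) h2)
      rw [h2, mul_zero]
    · exfalso; apply hne; unfold mth; rw [if_neg hx]
  · intro x hx y
    obtain ⟨i, hi, hxi⟩ := Finset.mem_biUnion.1 hx
    have hYpos : 0 < Y := by
      rw [hY]
      apply Finset.sum_pos' (fun j _ => Nat.cast_nonneg _)
      exact ⟨i, hi, by exact_mod_cast Finset.card_pos.2 ⟨x, hxi⟩⟩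
    have e1 : ∑ z ∈ U, mth I A Gs θs idx x y z
        = ∑ z ∈ U, θs i x y z + ∑ j ∈ I, (((Gs j).card : ℝ) / Y) *
          ∑ z ∈ U, Ph A (Gs i) (θs i) (Gs j) (θs j) y z := by
      simp_rw [mth_apply hidx hsub hi hxi]
      rw [Finset.sum_add_distrib]
      congr 1
      rw [Finset.sum_comm]
      apply Finset.sum_congr rfl; intro j _
      rw [Finset.mul_sum]
    have e2 : ∀ j ∈ I, (((Gs j).card : ℝ) / Y) *
          ∑ z ∈ U, Ph A (Gs i) (θs i) (Gs j) (θs j) y z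
        = (((Gs j).card : ℝ) / Y) * (if y ∈ Gs i then 1 / ((Gs i).card : ℝ) else 0)
          - (if y ∈ Gs j then 1 / Y else 0) := by
      intro j hj
      by_cases hGj : Gs j = ∅
      · rw [hGj]; simp
      · have hcj : (0:ℝ) < (Gs j).card := by
          exact_mod_cast Finset.card_pos.2 (Finset.nonempty_iff_ne_empty.2 hGj)
        by_cases hij : i = j
        · subst hij
          have : ∑ z ∈ U, Ph A (Gs i) (θs i) (Gs i) (θs i) y z = 0 :=
            Finset.sum_eq_zero (fun z _ => Ph_self A (Gs i) (θs i) y z)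
          rw [this]
          by_cases hy : y ∈ Gs i
          · rw [if_pos hy, if_pos hy]; field_simp; ring
          · rw [if_neg hy, if_neg hy]; ring
        · rw [Ph_div (hv i hi) (hv j hj) ((hsub i hi).trans (hBU i hi))
            ((hsub j hj).trans (hBU j hj))
            (hZ i hi j hj hij (Finset.nonempty_iff_ne_empty.1 ⟨x, hxi⟩) hGj), mul_sub]
          congr 1
          by_cases hy : y ∈ Gs j
          · rw [if_pos hy, if_pos hy]; field_simp
          · rw [if_neg hy, if_neg hy]; ring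
    rw [e1, (hv i hi).div x hxi y, Finset.sum_congr rfl e2, Finset.sum_sub_distrib,
      ← Finset.sum_mul, ← Finset.sum_div, ← hY, div_self hYpos.ne', one_mul]
    have e3 : ∑ j ∈ I, (if y ∈ Gs j then 1 / Y else 0)
        = if y ∈ I.biUnion Gs then 1 / ((I.biUnion Gs).card : ℝ) else 0 := by
      rw [card_biUnion_Gs hidx hsub, ← hY]
      by_cases hy : y ∈ I.biUnion Gs
      · rw [if_pos hy]
        obtain ⟨j, hj, hyj⟩ := Finset.mem_biUnion.1 hy
        rw [Finset.sum_eq_single_of_mem j hj, if_pos hyj]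
        intro k hk hkj
        rw [if_neg]
        intro hyk
        exact hkj ((hidx k hk y (hsub k hk hyk)).symm.trans (hidx j hj y (hsub j hj hyj)))
      · rw [if_neg hy]
        apply Finset.sum_eq_zero; intro j hj
        rw [if_neg]
        intro hyj
        exact hy (Finset.mem_biUnion.2 ⟨j, hj, hyj⟩)
    rw [e3]
    ring
  · intro y z
    rw [Finset.sum_biUnion (pairwise_disj hidx hsub)]
    have e1 : ∀ i ∈ I, ∑ x ∈ Gs i, mth I A Gs θs idx x y z
        = ∑ j ∈ I, (((Gs i).card : ℝ) * ((Gs j).card : ℝ) / Y) *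
          Ph A (Gs i) (θs i) (Gs j) (θs j) y z := by
      intro i hi
      rw [Finset.sum_congr rfl (fun x hx => mth_apply hidx hsub hi hx y z),
        Finset.sum_add_distrib, (hv i hi).zero y z, zero_add, Finset.sum_const, nsmul_eq_mul,
        Finset.mul_sum]
      apply Finset.sum_congr rfl; intro j _
      ring
    rw [Finset.sum_congr rfl e1]
    set T := ∑ i ∈ I, ∑ j ∈ I, (((Gs i).card : ℝ) * ((Gs j).card : ℝ) / Y) *
          Ph A (Gs i) (θs i) (Gs j) (θs j) y z with hT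
    have e2 : T = - T := by
      conv_lhs => rw [hT, Finset.sum_comm]
      rw [hT, ← Finset.sum_neg_distrib]
      apply Finset.sum_congr rfl; intro i _
      rw [← Finset.sum_neg_distrib]
      apply Finset.sum_congr rfl; intro j _
      rw [Ph_symm A (Gs i) (θs i) (Gs j) (θs j) y z]
      ring
    linarith

/-- Energy of the merged flows. -/
lemma mth_tot (hidx : ∀ i ∈ I, ∀ x ∈ Bi i, idx x = i)
    (hv : ∀ i ∈ I, Val U (Bi i) (A ∩ edg (Bi i)) (Gs i) (θs i)) :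
    tot U (I.biUnion Gs) (mth I A Gs θs idx) ≤ ∑ i ∈ I, tot U (Gs i) (θs i)
      + ∑ i ∈ I, ∑ j ∈ I, (((Gs i).card : ℝ) * ((Gs j).card : ℝ) /
          (∑ i ∈ I, ((Gs i).card : ℝ))) * nrg U (Ph A (Gs i) (θs i) (Gs j) (θs j)) := by
  have hsub : ∀ i ∈ I, Gs i ⊆ Bi i := fun i hi => (hv i hi).sub
  set Y : ℝ := ∑ i ∈ I, ((Gs i).card : ℝ) with hY
  have hY0 : 0 ≤ Y := Finset.sum_nonneg (fun _ _ => Nat.cast_nonneg _)
  have hW1 : ∑ j ∈ I, ((Gs j).card : ℝ) / Y ≤ 1 := by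
    rw [← Finset.sum_div, ← hY]
    exact div_self_le_one Y
  unfold tot
  rw [Finset.sum_biUnion (pairwise_disj hidx hsub), ← Finset.sum_add_distrib]
  apply Finset.sum_le_sum
  intro i hi
  -- fixed `y z`
  have key : ∀ y z, ∑ x ∈ Gs i, (mth I A Gs θs idx x y z) ^ 2
      ≤ ∑ x ∈ Gs i, (θs i x y z) ^ 2 + ∑ j ∈ I, (((Gs i).card : ℝ) * ((Gs j).card : ℝ) / Y) *
        (Ph A (Gs i) (θs i) (Gs j) (θs j) y z) ^ 2 := by
    intro y z
    set Ψ : ℝ := ∑ j ∈ I, (((Gs j).card : ℝ) / Y) * Ph A (Gs i) (θs i) (Gs j) (θs j) y z with hΨ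
    have e1 : ∑ x ∈ Gs i, (mth I A Gs θs idx x y z) ^ 2
        = ∑ x ∈ Gs i, (θs i x y z) ^ 2 + ((Gs i).card : ℝ) * Ψ ^ 2 := by
      have e2 : ∀ x ∈ Gs i, (mth I A Gs θs idx x y z) ^ 2
          = (θs i x y z) ^ 2 + (2 * Ψ) * θs i x y z + Ψ ^ 2 := by
        intro x hx
        rw [mth_apply hidx hsub hi hx y z, ← hΨ]; ring
      rw [Finset.sum_congr rfl e2, Finset.sum_add_distrib, Finset.sum_add_distrib,
        ← Finset.mul_sum, (hv i hi).zero y z, Finset.sum_const, nsmul_eq_mul]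
      ring
    have e3 : Ψ ^ 2 ≤ ∑ j ∈ I, (((Gs j).card : ℝ) / Y) *
        (Ph A (Gs i) (θs i) (Gs j) (θs j) y z) ^ 2 := by
      rw [hΨ]
      exact jensen_sq I (fun j => ((Gs j).card : ℝ) / Y)
        (fun j => Ph A (Gs i) (θs i) (Gs j) (θs j) y z)
        (fun j _ => div_nonneg (Nat.cast_nonneg _) hY0) hW1
    rw [e1]
    have e4 : ∑ j ∈ I, (((Gs i).card : ℝ) * ((Gs j).card : ℝ) / Y) *
        (Ph A (Gs i) (θs i) (Gs j) (θs j) y z) ^ 2
        = ((Gs i).card : ℝ) * ∑ j ∈ I, (((Gs j).card : ℝ) / Y) *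
        (Ph A (Gs i) (θs i) (Gs j) (θs j) y z) ^ 2 := by
      rw [Finset.mul_sum]
      apply Finset.sum_congr rfl; intro j _; ring
    rw [e4]
    have := mul_le_mul_of_nonneg_left e3 (Nat.cast_nonneg (α := ℝ) (Gs i).card)
    linarith
  have e5 : ∑ x ∈ Gs i, nrg U (mth I A Gs θs idx x)
      = ∑ y ∈ U, ∑ z ∈ U, ∑ x ∈ Gs i, (mth I A Gs θs idx x y z) ^ 2 := by
    unfold nrg
    rw [Finset.sum_comm]
    apply Finset.sum_congr rfl; intro y _
    rw [Finset.sum_comm]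
  have e6 : ∑ x ∈ Gs i, nrg U (θs i x)
      = ∑ y ∈ U, ∑ z ∈ U, ∑ x ∈ Gs i, (θs i x y z) ^ 2 := by
    unfold nrg
    rw [Finset.sum_comm]
    apply Finset.sum_congr rfl; intro y _
    rw [Finset.sum_comm]
  have e7 : ∑ j ∈ I, (((Gs i).card : ℝ) * ((Gs j).card : ℝ) / Y) *
      nrg U (Ph A (Gs i) (θs i) (Gs j) (θs j))
      = ∑ y ∈ U, ∑ z ∈ U, ∑ j ∈ I, (((Gs i).card : ℝ) * ((Gs j).card : ℝ) / Y) *
        (Ph A (Gs i) (θs i) (Gs j) (θs j) y z) ^ 2 := by
    unfold nrg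
    simp_rw [Finset.mul_sum]
    rw [Finset.sum_comm]
    apply Finset.sum_congr rfl; intro y _
    rw [Finset.sum_comm]
  rw [e5, e6, e7, ← Finset.sum_add_distrib]
  apply Finset.sum_le_sum; intro y _
  rw [← Finset.sum_add_distrib]
  apply Finset.sum_le_sum; intro z _
  exact key y z

end det

end Pool.Agent.Lib.MP_133e92_pr
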