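import Mathlib

open MeasureTheory

namespace Pool.Agent.Lib.MP_133e92_pr

/-- The hierarchical group of order `N`: finitely supported sequences with entries in `ZMod N`.
The coordinate `x_i`, `i = 1, 2, ...`, is `x (i - 1)`. -/
abbrev HGroup (N : ℕ) : Type := ℕ →₀ ZMod N

/-- The hierarchical distance: `0` if `x = y`, and otherwise the largest `i` with `x_i ≠ y_i`. -/
noncomputable def hdist {N : ℕ} (x y : HGroup N) : ℕ :=
  (x - y).support.sup (fun i => i + 1)

/-- `c_k = C0 + C1 log k + C2 k^α`. -/
noncomputable def cseq (C0 C1 C2 α : ℝ) (k : ℕ) : ℝ :=
  C0 + C1 * Real.log k + C2 * (k : ℝ) ^ α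

/-- The connection probability `min (c_k / N^(2k)) 1` at distance `k`. -/
noncomputable def connProb (N : ℕ) (C0 C1 C2 α : ℝ) (k : ℕ) : ℝ :=
  min (cseq C0 C1 C2 α k / (N : ℝ) ^ (2 * k)) 1

section walk

variable {V : Type*} (G : SimpleGraph V)

open Classical in
/-- One-step transition probabilities of the simple random walk on `G`. -/
noncomputable def step (x y : V) : ℝ :=
  if G.Adj x y then 1 / ((G.neighborSet x).ncard : ℝ) else 0

/-- One application of the transition operator of the simple random walk on `G`:
`(P u) x = ∑ z, step x z * u z`. -/
noncomputable def stepOp (u : V → ℝ) : V → ℝ := fun x => ∑' z, step G x z * u z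

open Classical in
/-- `n`-step transition probabilities of the simple random walk on `G`:
`nstep n x y = (P^n 1_y) x`. -/
noncomputable def nstep (n : ℕ) (x y : V) : ℝ :=
  ((stepOp G)^[n] (fun z => if z = y then 1 else 0)) x

/-- Recurrence of the simple random walk at `x`: the expected number of visits to `x` is infinite.
-/
def Recurrent (x : V) : Prop := ¬ Summable (fun n => nstep G n x x)

/-- Transience of the simple random walk at `x`: the expected number of visits to `x` is finite. -/
def Transient (x : V) : Prop := Summable (fun n => nstep G n x x)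

end walk

end Pool.Agent.Lib.MP_133e92_pr
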