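import Mathlib

open Finset
open scoped BigOperators

namespace Pool.Agent.Lib.MP_133e92_pr

section ex

variable {E : Type*} [DecidableEq E]

/-- Weight of the configuration `A ⊆ S` under independent Bernoulli(`p e`) edges. -/
noncomputable def wgt (p : E → ℝ) (S A : Finset E) : ℝ :=
  (∏ e ∈ A, p e) * ∏ e ∈ S \ A, (1 - p e)

/-- Expectation over independent Bernoulli(`p e`), `e ∈ S`; a configuration is the set of open
elements. -/
noncomputable def Ex (p : E → ℝ) (S : Finset E) (f : Finset E → ℝ) : ℝ :=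
  ∑ A ∈ S.powerset, wgt p S A * f A

variable {p : E → ℝ}

lemma wgt_nonneg (hp0 : ∀ e, 0 ≤ p e) (hp1 : ∀ e, p e ≤ 1) (S A : Finset E) :
    0 ≤ wgt p S A :=
  mul_nonneg (Finset.prod_nonneg (fun e _ => hp0 e))
    (Finset.prod_nonneg (fun e _ => sub_nonneg.2 (hp1 e)))

lemma Ex_empty (f : Finset E → ℝ) : Ex p ∅ f = f ∅ := by
  simp [Ex, wgt]

lemma wgt_insert_insert {e : E} {S A : Finset E} (he : e ∉ S) (hA : A ⊆ S) :
    wgt p (insert e S) (insert e A) = p e * wgt p S A := by
  have heA : e ∉ A := fun h => he (hA h)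
  unfold wgt
  rw [Finset.prod_insert heA, Finset.insert_sdiff_insert, Finset.sdiff_insert_of_notMem he]
  ring

lemma wgt_insert_left {e : E} {S A : Finset E} (he : e ∉ S) (hA : A ⊆ S) :
    wgt p (insert e S) A = (1 - p e) * wgt p S A := by
  have heA : e ∉ A := fun h => he (hA h)
  unfold wgt
  rw [Finset.insert_sdiff_of_notMem _ heA, Finset.prod_insert (fun h => he (Finset.mem_sdiff.1 h).1)]
  ring

lemma Ex_insert {e : E} {S : Finset E} (he : e ∉ S) (f : Finset E → ℝ) :
    Ex p (insert e S) f = p e * Ex p S (fun A => f (insert e A)) + (1 - p e) * Ex p S f := by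
  unfold Ex
  rw [Finset.sum_powerset_insert he, Finset.mul_sum, Finset.mul_sum, add_comm]
  congr 1
  · apply Finset.sum_congr rfl
    intro A hA
    rw [wgt_insert_insert he (Finset.mem_powerset.1 hA)]; ring
  · apply Finset.sum_congr rfl
    intro A hA
    rw [wgt_insert_left he (Finset.mem_powerset.1 hA)]; ring

lemma Ex_congr {S : Finset E} {f g : Finset E → ℝ} (h : ∀ A, A ⊆ S → f A = g A) :
    Ex p S f = Ex p S g := by
  unfold Ex
  apply Finset.sum_congr rfl
  intro A hA
  rw [h A (Finset.mem_powerset.1 hA)]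

lemma Ex_mono (hp0 : ∀ e, 0 ≤ p e) (hp1 : ∀ e, p e ≤ 1) {S : Finset E} {f g : Finset E → ℝ}
    (h : ∀ A, A ⊆ S → f A ≤ g A) : Ex p S f ≤ Ex p S g := by
  unfold Ex
  apply Finset.sum_le_sum
  intro A hA
  exact mul_le_mul_of_nonneg_left (h A (Finset.mem_powerset.1 hA)) (wgt_nonneg hp0 hp1 S A)

lemma Ex_nonneg (hp0 : ∀ e, 0 ≤ p e) (hp1 : ∀ e, p e ≤ 1) {S : Finset E} {f : Finset E → ℝ}
    (h : ∀ A, A ⊆ S → 0 ≤ f A) : 0 ≤ Ex p S f := by
  unfold Ex
  apply Finset.sum_nonneg
  intro A hA
  exact mul_nonneg (wgt_nonneg hp0 hp1 S A) (h A (Finset.mem_powerset.1 hA))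

lemma Ex_const (S : Finset E) (c : ℝ) : Ex p S (fun _ => c) = c := by
  induction S using Finset.induction_on with
  | empty => rw [Ex_empty]
  | insert e S he ih => rw [Ex_insert he, ih]; ring

lemma Ex_add (S : Finset E) (f g : Finset E → ℝ) :
    Ex p S (fun A => f A + g A) = Ex p S f + Ex p S g := by
  unfold Ex
  rw [← Finset.sum_add_distrib]
  apply Finset.sum_congr rfl; intro A _; ring

lemma Ex_sub (S : Finset E) (f g : Finset E → ℝ) :
    Ex p S (fun A => f A - g A) = Ex p S f - Ex p S g := by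
  unfold Ex
  rw [← Finset.sum_sub_distrib]
  apply Finset.sum_congr rfl; intro A _; ring

lemma Ex_neg (S : Finset E) (f : Finset E → ℝ) :
    Ex p S (fun A => - f A) = - Ex p S f := by
  unfold Ex
  rw [← Finset.sum_neg_distrib]
  apply Finset.sum_congr rfl; intro A _; ring

lemma Ex_mul_left (S : Finset E) (c : ℝ) (f : Finset E → ℝ) :
    Ex p S (fun A => c * f A) = c * Ex p S f := by
  unfold Ex
  rw [Finset.mul_sum]
  apply Finset.sum_congr rfl; intro A _; ring

lemma Ex_mul_right (S : Finset E) (c : ℝ) (f : Finset E → ℝ) :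
    Ex p S (fun A => f A * c) = Ex p S f * c := by
  unfold Ex
  rw [Finset.sum_mul]
  apply Finset.sum_congr rfl; intro A _; ring

lemma Ex_sum {ι : Type*} (S : Finset E) (T : Finset ι) (f : ι → Finset E → ℝ) :
    Ex p S (fun A => ∑ i ∈ T, f i A) = ∑ i ∈ T, Ex p S (f i) := by
  unfold Ex
  rw [Finset.sum_comm]
  apply Finset.sum_congr rfl; intro A _
  rw [Finset.mul_sum]

lemma Ex_union {S T : Finset E} (h : Disjoint S T) (f : Finset E → ℝ) :
    Ex p (S ∪ T) f = Ex p S (fun A => Ex p T (fun B => f (A ∪ B))) := by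
  induction S using Finset.induction_on generalizing f with
  | empty => simp [Ex_empty]
  | insert e S he ih =>
    have hST : Disjoint S T := Finset.disjoint_of_subset_left (Finset.subset_insert e S) h
    have heT : e ∉ T := by
      intro h'
      exact (Finset.disjoint_left.1 h (Finset.mem_insert_self e S)) h'
    have he' : e ∉ S ∪ T := by
      rw [Finset.mem_union, not_or]; exact ⟨he, heT⟩
    rw [Finset.insert_union, Ex_insert he', Ex_insert he, ih hST, ih hST]
    simp only [Finset.insert_union]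

/-- Integrating out the edges outside of `S₁`. -/
lemma Ex_inter {S T : Finset E} (hTS : T ⊆ S) (f : Finset E → ℝ) :
    Ex p S (fun A => f (A ∩ T)) = Ex p T f := by
  have h1 : S = T ∪ (S \ T) := by rw [Finset.union_sdiff_of_subset hTS]
  conv_lhs => rw [h1]
  rw [Ex_union Finset.disjoint_sdiff]
  apply Ex_congr
  intro A hA
  have : ∀ B, B ⊆ S \ T → f ((A ∪ B) ∩ T) = f A := by
    intro B hB
    congr 1
    ext e
    simp only [Finset.mem_inter, Finset.mem_union]
    constructor
    · rintro ⟨h | h, hT⟩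
      · exact h
      · exact absurd hT (Finset.mem_sdiff.1 (hB h)).2
    · intro h; exact ⟨Or.inl h, hA h⟩
  rw [Ex_congr this, Ex_const]

/-- If `f` only depends on `A ∩ T` then the expectation can be taken over `T`. -/
lemma Ex_local {S T : Finset E} (hTS : T ⊆ S) (f : Finset E → ℝ)
    (hf : ∀ A, A ⊆ S → f A = f (A ∩ T)) : Ex p S f = Ex p T f := by
  rw [Ex_congr hf, Ex_inter hTS]

/-- Independence. -/
lemma Ex_mul_indep {S T₁ T₂ : Finset E} (h1 : T₁ ⊆ S) (h2 : T₂ ⊆ S) (hd : Disjoint T₁ T₂)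
    (f g : Finset E → ℝ) :
    Ex p S (fun A => f (A ∩ T₁) * g (A ∩ T₂)) = Ex p T₁ f * Ex p T₂ g := by
  have e1 : Ex p S (fun A => f (A ∩ T₁) * g (A ∩ T₂))
      = Ex p (T₁ ∪ T₂) (fun A => f (A ∩ T₁) * g (A ∩ T₂)) := by
    apply Ex_local (Finset.union_subset h1 h2)
    intro A _
    congr 2
    · ext e; simp only [Finset.mem_inter, Finset.mem_union]; tauto
    · ext e; simp only [Finset.mem_inter, Finset.mem_union]; tauto
  rw [e1, Ex_union hd]
  have e2 : ∀ A, A ⊆ T₁ → Ex p T₂ (fun B => f ((A ∪ B) ∩ T₁) * g ((A ∪ B) ∩ T₂))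
      = f A * Ex p T₂ g := by
    intro A hA
    rw [← Ex_mul_left]
    apply Ex_congr
    intro B hB
    have h3 : (A ∪ B) ∩ T₁ = A := by
      ext e
      simp only [Finset.mem_inter, Finset.mem_union]
      constructor
      · rintro ⟨h | h, hT⟩
        · exact h
        · exact absurd (hB h) (Finset.disjoint_left.1 hd hT)
      · intro h; exact ⟨Or.inl h, hA h⟩
    have h4 : (A ∪ B) ∩ T₂ = B := by
      ext e
      simp only [Finset.mem_inter, Finset.mem_union]
      constructor
      · rintro ⟨h | h, hT⟩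
        · exact absurd hT (Finset.disjoint_left.1 hd (hA h))
        · exact h
      · intro h; exact ⟨Or.inr h, hB h⟩
    rw [h3, h4]
  rw [Ex_congr e2, Ex_mul_right]

/-- Cauchy-Schwarz. -/
lemma Ex_sq_le (hp0 : ∀ e, 0 ≤ p e) (hp1 : ∀ e, p e ≤ 1) (S : Finset E) (f : Finset E → ℝ) :
    (Ex p S f) ^ 2 ≤ Ex p S (fun A => f A ^ 2) := by
  have h : 0 ≤ Ex p S (fun A => (f A - Ex p S f) ^ 2) :=
    Ex_nonneg hp0 hp1 (fun A _ => sq_nonneg _)
  have e : Ex p S (fun A => (f A - Ex p S f) ^ 2)
      = Ex p S (fun A => f A ^ 2) - (Ex p S f) ^ 2 := by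
    have h1 : ∀ A, A ⊆ S → (f A - Ex p S f) ^ 2
        = (f A ^ 2 + (-2 * Ex p S f) * f A) + (Ex p S f) ^ 2 := by
      intro A _; ring
    rw [Ex_congr h1, Ex_add, Ex_add, Ex_mul_left, Ex_const]
    ring
  linarith

lemma Ex_abs_le_sqrt (hp0 : ∀ e, 0 ≤ p e) (hp1 : ∀ e, p e ≤ 1) (S : Finset E)
    (f : Finset E → ℝ) {c : ℝ} (h : Ex p S (fun A => f A ^ 2) ≤ c) :
    Ex p S (fun A => |f A|) ≤ Real.sqrt c := by
  apply Real.le_sqrt_of_sq_le
  refine (Ex_sq_le hp0 hp1 S _).trans ?_
  simpa using h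

/-- The expectation of a product with a centred edge variable vanishes when the other factor does
not depend on the edge. -/
lemma Ex_centered {S : Finset E} {e : E} (he : e ∈ S) (g : Finset E → ℝ)
    (hg : ∀ A, A ⊆ S.erase e → g (insert e A) = g A) :
    Ex p S (fun A => g A * ((if e ∈ A then 1 else 0) - p e)) = 0 := by
  have hS : S = insert e (S.erase e) := (Finset.insert_erase he).symm
  have hne : e ∉ S.erase e := Finset.notMem_erase e S
  rw [hS, Ex_insert hne]
  have e1 : ∀ A, A ⊆ S.erase e → g (insert e A) * ((if e ∈ insert e A then 1 else 0) - p e)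
      = (1 - p e) * g A := by
    intro A hA
    rw [hg A hA, if_pos (Finset.mem_insert_self e A)]; ring
  have e2 : ∀ A, A ⊆ S.erase e → g A * ((if e ∈ A then 1 else 0) - p e)
      = (- p e) * g A := by
    intro A hA
    rw [if_neg (fun h => hne (hA h))]; ring
  rw [Ex_congr e1, Ex_congr e2, Ex_mul_left, Ex_mul_left]
  ring

/-- Second moment of a centred edge variable, times something not depending on the edge. -/
lemma Ex_centered_sq {S : Finset E} {e : E} (he : e ∈ S) (g : Finset E → ℝ)
    (hg : ∀ A, A ⊆ S.erase e → g (insert e A) = g A) :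
    Ex p S (fun A => g A * ((if e ∈ A then 1 else 0) - p e) ^ 2)
      = p e * (1 - p e) * Ex p S g := by
  have hS : S = insert e (S.erase e) := (Finset.insert_erase he).symm
  have hne : e ∉ S.erase e := Finset.notMem_erase e S
  rw [hS, Ex_insert hne, Ex_insert hne]
  have e1 : ∀ A, A ⊆ S.erase e → g (insert e A) * ((if e ∈ insert e A then 1 else 0) - p e) ^ 2
      = (1 - p e) ^ 2 * g A := by
    intro A hA
    rw [hg A hA, if_pos (Finset.mem_insert_self e A)]; ring
  have e2 : ∀ A, A ⊆ S.erase e → g A * ((if e ∈ A then 1 else 0) - p e) ^ 2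
      = (p e) ^ 2 * g A := by
    intro A hA
    rw [if_neg (fun h => hne (hA h))]; ring
  rw [Ex_congr e1, Ex_congr e2, Ex_mul_left, Ex_mul_left, Ex_congr hg]
  ring

/-- Two different centred edge variables. -/
lemma Ex_centered_two {S : Finset E} {e f : E} (he : e ∈ S) (hf : f ∈ S) (hef : e ≠ f)
    (g : Finset E → ℝ)
    (hg : ∀ A, A ⊆ (S.erase e).erase f →
      g (insert e (insert f A)) - g (insert e A) - g (insert f A) + g A = 0) :
    Ex p S (fun A => g A * ((if e ∈ A then 1 else 0) - p e) * ((if f ∈ A then 1 else 0) - p f))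
      = 0 := by
  have hne : e ∉ S.erase e := Finset.notMem_erase e S
  have hnf : f ∉ (S.erase e).erase f := Finset.notMem_erase f _
  have hne' : e ∉ (S.erase e).erase f := fun h => hne (Finset.mem_of_mem_erase h)
  have hS : S = insert e (insert f ((S.erase e).erase f)) := by
    rw [Finset.insert_erase (Finset.mem_erase.2 ⟨hef.symm, hf⟩), Finset.insert_erase he]
  have hne2 : e ∉ insert f ((S.erase e).erase f) := by
    rw [Finset.mem_insert, not_or]; exact ⟨hef, hne'⟩
  rw [hS, Ex_insert hne2, Ex_insert hnf, Ex_insert hnf]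
  set S' := (S.erase e).erase f
  have e1 : ∀ A, A ⊆ S' → g (insert e (insert f A)) *
      ((if e ∈ insert e (insert f A) then 1 else 0) - p e) *
      ((if f ∈ insert e (insert f A) then 1 else 0) - p f)
      = ((1 - p e) * (1 - p f)) * g (insert e (insert f A)) := by
    intro A hA
    rw [if_pos (Finset.mem_insert_self _ _),
      if_pos (Finset.mem_insert_of_mem (Finset.mem_insert_self _ _))]
    ring
  have e2 : ∀ A, A ⊆ S' → g (insert e A) * ((if e ∈ insert e A then 1 else 0) - p e) *
      ((if f ∈ insert e A then 1 else 0) - p f)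
      = (-(1 - p e) * p f) * g (insert e A) := by
    intro A hA
    have : f ∉ insert e A := by
      rw [Finset.mem_insert, not_or]; exact ⟨hef.symm, fun h => hnf (hA h)⟩
    rw [if_pos (Finset.mem_insert_self _ _), if_neg this]
    ring
  have e3 : ∀ A, A ⊆ S' → g (insert f A) * ((if e ∈ insert f A then 1 else 0) - p e) *
      ((if f ∈ insert f A then 1 else 0) - p f)
      = (-(p e) * (1 - p f)) * g (insert f A) := by
    intro A hA
    have : e ∉ insert f A := by
      rw [Finset.mem_insert, not_or]; exact ⟨hef, fun h => hne' (hA h)⟩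
    rw [if_pos (Finset.mem_insert_self _ _), if_neg this]
    ring
  have e4 : ∀ A, A ⊆ S' → g A * ((if e ∈ A then 1 else 0) - p e) *
      ((if f ∈ A then 1 else 0) - p f)
      = (p e * p f) * g A := by
    intro A hA
    rw [if_neg (fun h => hne' (hA h)), if_neg (fun h => hnf (hA h))]
    ring
  rw [Ex_congr e1, Ex_congr e2, Ex_congr e3, Ex_congr e4]
  simp only [Ex_mul_left]
  have h0 : Ex p S' (fun A => g (insert e (insert f A)) - g (insert e A) - g (insert f A) + g A)
      = 0 := by
    rw [Ex_congr hg, Ex_const]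
  rw [Ex_add, Ex_sub, Ex_sub] at h0
  linear_combination (p e * (1 - p e) * p f * (1 - p f)) * h0

end ex

end Pool.Agent.Lib.MP_133e92_pr
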