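import Pool.Agent.Lib.MP_133e92_pr.Defs

open MeasureTheory Finset
open scoped ENNReal BigOperators

namespace Pool.Agent.Lib.MP_133e92_pr

section geom
variable {N : ℕ}

lemma hdist_le_iff (x y : HGroup N) (k : ℕ) : hdist x y ≤ k ↔ ∀ i, k ≤ i → x i = y i := by
  unfold hdist
  rw [Finset.sup_le_iff]
  constructor
  · intro h i hi
    by_contra hne
    have : i ∈ (x - y).support := by
      rw [Finsupp.mem_support_iff, Finsupp.sub_apply]
      exact sub_ne_zero.2 hne
    have := h i this
    omega
  · intro h i hi
    by_contra hlt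
    rw [Finsupp.mem_support_iff, Finsupp.sub_apply] at hi
    exact hi (sub_eq_zero.2 (h i (by omega)))

lemma hdist_comm (x y : HGroup N) : hdist x y = hdist y x := by
  apply le_antisymm
  · rw [hdist_le_iff]; intro i hi; exact ((hdist_le_iff y x _).1 le_rfl i hi).symm
  · rw [hdist_le_iff]; intro i hi; exact ((hdist_le_iff x y _).1 le_rfl i hi).symm

lemma hdist_self (x : HGroup N) : hdist x x = 0 := by
  apply le_antisymm _ (Nat.zero_le _)
  rw [hdist_le_iff]; intros; rfl

lemma hdist_eq_zero_iff (x y : HGroup N) : hdist x y = 0 ↔ x = y := by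
  constructor
  · intro h
    ext i
    exact (hdist_le_iff x y 0).1 (le_of_eq h) i (Nat.zero_le _)
  · rintro rfl; exact hdist_self x

lemma hdist_triangle (x y z : HGroup N) : hdist x z ≤ max (hdist x y) (hdist y z) := by
  rw [hdist_le_iff]
  intro i hi
  rw [(hdist_le_iff x y _).1 le_rfl i (le_trans (le_max_left _ _) hi),
    (hdist_le_iff y z _).1 le_rfl i (le_trans (le_max_right _ _) hi)]

lemma hdist_isosceles {x y z : HGroup N} (h : hdist x y < hdist x z) :
    hdist y z = hdist x z := by
  apply le_antisymm
  · have := hdist_triangle y x z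
    rw [hdist_comm y x] at this
    omega
  · have := hdist_triangle x y z
    omega

lemma hdist_add_left (v x y : HGroup N) : hdist (v + x) (v + y) = hdist x y := by
  unfold hdist
  congr 2
  abel

variable [NeZero N]

/-- The ball of radius `k` around `0`. -/
noncomputable def ball0 (N k : ℕ) [NeZero N] : Finset (HGroup N) :=
  (Finset.range k).finsupp (fun _ => (Finset.univ : Finset (ZMod N)))

lemma mem_ball0 (k : ℕ) (x : HGroup N) : x ∈ ball0 N k ↔ hdist 0 x ≤ k := by
  unfold ball0
  rw [Finset.mem_finsupp_iff, hdist_le_iff]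
  constructor
  · rintro ⟨h, -⟩ i hi
    by_contra hne
    have : i ∈ x.support := by
      rw [Finsupp.mem_support_iff]
      intro h0; apply hne; rw [h0]; rfl
    have := h this
    rw [Finset.mem_range] at this
    omega
  · intro h
    refine ⟨?_, fun i _ => Finset.mem_univ _⟩
    intro i hi
    rw [Finset.mem_range]
    by_contra hlt
    rw [Finsupp.mem_support_iff] at hi
    exact hi (h i (by omega)).symm

lemma card_ball0 (k : ℕ) : (ball0 N k).card = N ^ k := by
  unfold ball0
  rw [Finset.card_finsupp]
  simp [ZMod.card]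

/-- The ball of radius `k` around `x`. -/
noncomputable def hball (k : ℕ) (x : HGroup N) : Finset (HGroup N) :=
  (ball0 N k).map (addLeftEmbedding x)

lemma mem_hball (k : ℕ) (x y : HGroup N) : y ∈ hball k x ↔ hdist x y ≤ k := by
  unfold hball
  rw [Finset.mem_map]
  constructor
  · rintro ⟨z, hz, rfl⟩
    rw [mem_ball0] at hz
    have := hdist_add_left x 0 z
    rw [add_zero] at this
    rw [addLeftEmbedding_apply, this]; exact hz
  · intro h
    refine ⟨y - x, ?_, ?_⟩
    · rw [mem_ball0]
      have := hdist_add_left x 0 (y - x)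
      rw [add_zero, add_sub_cancel] at this
      rw [← this]; exact h
    · simp

lemma card_hball (k : ℕ) (x : HGroup N) : (hball k x).card = N ^ k := by
  unfold hball; rw [Finset.card_map, card_ball0]

lemma hball_mono {k l : ℕ} (h : k ≤ l) (x : HGroup N) : hball k x ⊆ hball l x := by
  intro y; rw [mem_hball, mem_hball]; omega

lemma hball_eq {k : ℕ} {x y : HGroup N} (h : hdist x y ≤ k) : hball k x = hball k y := by
  ext z
  rw [mem_hball, mem_hball]
  constructor
  · intro hz
    have := hdist_triangle y x z
    rw [hdist_comm y x] at this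
    exact this.trans (max_le h hz)
  · intro hz
    exact (hdist_triangle x y z).trans (max_le h hz)

lemma self_mem_hball (k : ℕ) (x : HGroup N) : x ∈ hball k x := by
  rw [mem_hball, hdist_self]; exact Nat.zero_le _

open Classical in
/-- Summation over levels. -/
lemma tsum_level_le (x : HGroup N) (g : ℕ → ℝ≥0∞) :
    ∑' y, g (hdist x y) ≤ ∑' k, (N : ℝ≥0∞) ^ k * g k := by
  have h1 : ∀ y : HGroup N, g (hdist x y) = ∑' k, if hdist x y = k then g k else 0 := by
    intro y
    rw [tsum_eq_single (hdist x y)]
    · simp
    · intro k hk; rw [if_neg (Ne.symm hk)]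
  simp_rw [h1]
  rw [ENNReal.tsum_comm]
  apply ENNReal.tsum_le_tsum
  intro k
  have h2 : ∑' y : HGroup N, (if hdist x y = k then g k else 0)
      = ∑ y ∈ hball k x, if hdist x y = k then g k else 0 := by
    apply tsum_eq_sum
    intro y hy
    rw [mem_hball] at hy
    rw [if_neg (by omega)]
  rw [h2]
  calc ∑ y ∈ hball k x, (if hdist x y = k then g k else 0) ≤ ∑ y ∈ hball k x, g k := by
        apply Finset.sum_le_sum; intro y _; split_ifs <;> simp
    _ = (N : ℝ≥0∞) ^ k * g k := by
        rw [Finset.sum_const, card_hball, nsmul_eq_mul]; simp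

end geom

end Pool.Agent.Lib.MP_133e92_pr
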