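import Pool.Agent.Lib.MP_133e92_pr.Walk
import Pool.Agent.Lib.MP_133e92_pr.Geom

open MeasureTheory Finset
open scoped ENNReal BigOperators Classical

namespace Pool.Agent.Lib.MP_133e92_pr

section recur

variable {N : ℕ} [NeZero N] {Ω : Type*} [MeasurableSpace Ω] (P : Measure Ω)
  (G : Ω → SimpleGraph (HGroup N))

lemma ae_locally_finite (q : ℕ → ℝ)
    (hprob : ∀ x y, x ≠ y → P {ω | (G ω).Adj x y} ≤ ENNReal.ofReal (q (hdist x y)))
    (hsum : ∑' k, (N : ℝ≥0∞) ^ k * ENNReal.ofReal (q k) ≠ ∞) :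
    ∀ᵐ ω ∂P, ∀ x, ((G ω).neighborSet x).Finite := by
  rw [ae_all_iff]
  intro x
  have h1 : ∑' y : HGroup N, P {ω | (G ω).Adj x y} ≠ ∞ := by
    apply ne_top_of_le_ne_top hsum
    refine le_trans ?_ (tsum_level_le x (fun k => ENNReal.ofReal (q k)))
    apply ENNReal.tsum_le_tsum
    intro y
    by_cases hxy : x = y
    · subst hxy; simp
    · exact hprob x y hxy
  have h2 := ae_finite_setOfPred_mem (μ := P) (s := fun y : HGroup N => {ω | (G ω).Adj x y}) h1
  filter_upwards [h2] with ω hω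
  exact hω

/-- harmonic numbers -/
noncomputable def Hn (n : ℕ) : ℝ := ∑ k ∈ Finset.range n, 1 / ((k : ℝ) + 1)

lemma Hn_mono : Monotone Hn := by
  apply monotone_nat_of_le_succ
  intro n; unfold Hn; rw [Finset.sum_range_succ]
  have : (0:ℝ) ≤ 1 / ((n : ℝ) + 1) := by positivity
  linarith

lemma Hn_sub_le {i j : ℕ} (hij : i ≤ j) : Hn j - Hn i ≤ ((j : ℝ) - i) / (i + 1) := by
  induction j, hij using Nat.le_induction with
  | base => simp
  | succ j hij ih =>
    have h1 : Hn (j + 1) = Hn j + 1 / ((j : ℝ) + 1) := by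
      unfold Hn; rw [Finset.sum_range_succ]
    have h2 : 1 / ((j : ℝ) + 1) ≤ 1 / ((i : ℝ) + 1) := by
      apply one_div_le_one_div_of_le (by positivity)
      have : (i : ℝ) ≤ j := by exact_mod_cast hij
      linarith
    have h3 : (((j + 1 : ℕ) : ℝ) - i) / (i + 1) = ((j : ℝ) - i) / (i + 1) + 1 / ((i : ℝ) + 1) := by
      push_cast; field_simp; ring
    rw [h1, h3]; linarith

/-- test potential -/
noncomputable def phi (L i : ℕ) : ℝ := if i < L then (Hn L - Hn i) / Hn L else 0

lemma phi_zero {L : ℕ} (hL : 1 ≤ L) : phi L 0 = 1 := by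
  unfold phi
  rw [if_pos (by omega)]
  have : 0 < Hn L := by
    have := Hn_mono hL
    have h1 : Hn 1 = 1 := by simp [Hn]
    linarith
  have h0 : Hn 0 = 0 := by simp [Hn]
  rw [h0, sub_zero, div_self (ne_of_gt this)]

lemma phi_diff {L : ℕ} (hL : 1 ≤ L) {i j : ℕ} (hij : i ≤ j) :
    (phi L i - phi L j) ^ 2
      ≤ if i < L then (((j : ℝ) - i) / (i + 1) / Hn L) ^ 2 else 0 := by
  have hpos : 0 < Hn L := by
    have := Hn_mono hL
    have h1 : Hn 1 = 1 := by simp [Hn]
    linarith
  have hij' : (i : ℝ) ≤ j := by exact_mod_cast hij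
  unfold phi
  split_ifs with hi hj hj
  · have e : (Hn L - Hn i) / Hn L - (Hn L - Hn j) / Hn L = (Hn j - Hn i) / Hn L := by
      field_simp; ring
    rw [e]
    have h1 : 0 ≤ Hn j - Hn i := by linarith [Hn_mono hij]
    have h2 := Hn_sub_le hij
    apply pow_le_pow_left₀ (by positivity)
    exact div_le_div_of_nonneg_right h2 hpos.le
  · rw [sub_zero]
    have hiL : i ≤ L := hi.le
    have h1 : 0 ≤ Hn L - Hn i := by linarith [Hn_mono hiL]
    have h2 := Hn_sub_le hiL
    have h3 : ((L : ℝ) - i) / (i + 1) ≤ ((j : ℝ) - i) / (i + 1) := by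
      apply div_le_div_of_nonneg_right _ (by positivity)
      have : (L : ℝ) ≤ j := by exact_mod_cast (not_lt.1 hj)
      linarith
    apply pow_le_pow_left₀ (by positivity)
    exact div_le_div_of_nonneg_right (h2.trans h3) hpos.le
  · exfalso; omega
  · simp

/-- weights -/
noncomputable def wt (b : ℕ) : ℝ := (1 + (b : ℝ)) * (b : ℝ) ^ 2 * (1 / 2) ^ b

lemma wt_nonneg (b : ℕ) : 0 ≤ wt b := by unfold wt; positivity

lemma summable_wt : Summable wt := by
  have h1 : Summable (fun n : ℕ => (n : ℝ) ^ 2 * (1 / 2 : ℝ) ^ n) :=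
    summable_pow_mul_geometric_of_norm_lt_one 2 (by norm_num)
  have h2 : Summable (fun n : ℕ => (n : ℝ) ^ 3 * (1 / 2 : ℝ) ^ n) :=
    summable_pow_mul_geometric_of_norm_lt_one 3 (by norm_num)
  apply (h1.add h2).congr
  intro b; unfold wt; ring

lemma tsum_shift (i : ℕ) (g : ℕ → ℝ≥0∞) (h0 : g 0 = 0) :
    ∑' j, g (j - i) = ∑' b, g b := by
  have h1 := (add_left_injective i).tsum_eq (f := fun j => g (j - i)) (by
    intro j hj
    rw [Function.mem_support] at hj
    refine ⟨j - i, ?_⟩
    have : i ≤ j := by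
      by_contra hlt
      apply hj
      rw [show j - i = 0 by omega, h0]
    show j - i + i = j
    omega)
  rw [← h1]
  simp

lemma level_sum_bound {L : ℕ} (hL : 1 ≤ L) (hN : 2 ≤ N) (q : ℕ → ℝ) (K : ℝ) (hK : 0 ≤ K)
    (hq : ∀ k : ℕ, 1 ≤ k → q k ≤ K * k / (N : ℝ) ^ (2 * k)) :
    ∑' i, (N : ℝ≥0∞) ^ i * ∑' j, (N : ℝ≥0∞) ^ j *
      (if i < j then ENNReal.ofReal (q j) * ENNReal.ofReal ((phi L i - phi L j) ^ 2) else 0)
      ≤ ENNReal.ofReal (K * (∑' b, wt b) / Hn L) := by
  have hpos : 0 < Hn L := by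
    have := Hn_mono hL
    have h1 : Hn 1 = 1 := by simp [Hn]
    linarith
  set c : ℕ → ℝ := fun i => if i < L then K / (((i : ℝ) + 1) * Hn L ^ 2) else 0 with hc
  have hcnn : ∀ i, 0 ≤ c i := by
    intro i; simp only [hc]; split_ifs <;> positivity
  have hterm : ∀ i j : ℕ, (N : ℝ≥0∞) ^ i * ((N : ℝ≥0∞) ^ j *
      (if i < j then ENNReal.ofReal (q j) * ENNReal.ofReal ((phi L i - phi L j) ^ 2) else 0))
      ≤ ENNReal.ofReal (c i) * ENNReal.ofReal (wt (j - i)) := by
    intro i j
    split_ifs with hij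
    · have hN0 : (0:ℝ) < N := by positivity
      have hN1 : (2:ℝ) ≤ N := by exact_mod_cast hN
      have hj1 : 1 ≤ j := by omega
      have e1 : (N : ℝ≥0∞) ^ i * ((N : ℝ≥0∞) ^ j * (ENNReal.ofReal (q j) *
          ENNReal.ofReal ((phi L i - phi L j) ^ 2)))
          ≤ ENNReal.ofReal ((N : ℝ) ^ i * ((N : ℝ) ^ j * ((K * j / (N : ℝ) ^ (2 * j)) *
            (if i < L then (((j : ℝ) - i) / (i + 1) / Hn L) ^ 2 else 0)))) := by
        have a0 : ∀ k : ℕ, ENNReal.ofReal ((N : ℝ) ^ k) = (N : ℝ≥0∞) ^ k := by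
          intro k; rw [ENNReal.ofReal_pow hN0.le, ENNReal.ofReal_natCast]
        have a1 : ENNReal.ofReal (q j) ≤ ENNReal.ofReal (K * j / (N : ℝ) ^ (2 * j)) :=
          ENNReal.ofReal_le_ofReal (hq j hj1)
        have a2 := ENNReal.ofReal_le_ofReal (phi_diff hL hij.le)
        have a3 : 0 ≤ K * j / (N : ℝ) ^ (2 * j) := by positivity
        rw [ENNReal.ofReal_mul (by positivity), ENNReal.ofReal_mul (by positivity),
          ENNReal.ofReal_mul a3, a0, a0]
        gcongr
      refine e1.trans ?_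
      rw [← ENNReal.ofReal_mul (hcnn i)]
      apply ENNReal.ofReal_le_ofReal
      by_cases hi : i < L
      · simp only [if_pos hi, hc]
        obtain ⟨b, rfl⟩ : ∃ b, j = i + b := ⟨j - i, by omega⟩
        have hb : i + b - i = b := by omega
        rw [hb]
        unfold wt
        have e2 : (N : ℝ) ^ i * ((N : ℝ) ^ (i + b) * (K * ((i + b : ℕ) : ℝ) / (N : ℝ) ^ (2 * (i + b)) *
            ((((i + b : ℕ) : ℝ) - i) / (i + 1) / Hn L) ^ 2))
            = (K / (((i : ℝ) + 1) * Hn L ^ 2)) * ((((i + b : ℕ) : ℝ) / (i + 1)) * (b : ℝ) ^ 2 *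
              (1 / (N : ℝ)) ^ b) := by
          push_cast
          have h3 : (N : ℝ) ^ (2 * (i + b)) = (N : ℝ) ^ i * (N : ℝ) ^ (i + b) * (N : ℝ) ^ b := by
            rw [← pow_add, ← pow_add]; congr 1; ring
          rw [h3, one_div, inv_pow]
          field_simp
          ring
        rw [e2]
        apply mul_le_mul_of_nonneg_left _ (by positivity)
        have h4 : ((i + b : ℕ) : ℝ) / (i + 1) ≤ 1 + (b : ℝ) := by
          rw [div_le_iff₀ (by positivity)]
          push_cast
          have : (0:ℝ) ≤ (b:ℝ) * i := by positivity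
          nlinarith
        have h5 : (1 / (N : ℝ)) ^ b ≤ (1 / 2) ^ b := by
          apply pow_le_pow_left₀ (by positivity)
          apply one_div_le_one_div_of_le (by norm_num) hN1
        apply mul_le_mul _ h5 (by positivity) (by positivity)
        apply mul_le_mul_of_nonneg_right h4 (by positivity)
      · simp only [if_neg hi, hc]; simp
    · simp
  calc ∑' i, (N : ℝ≥0∞) ^ i * ∑' j, (N : ℝ≥0∞) ^ j *
      (if i < j then ENNReal.ofReal (q j) * ENNReal.ofReal ((phi L i - phi L j) ^ 2) else 0)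
      ≤ ∑' i, ∑' j, ENNReal.ofReal (c i) * ENNReal.ofReal (wt (j - i)) := by
        apply ENNReal.tsum_le_tsum; intro i
        rw [← ENNReal.tsum_mul_left]
        apply ENNReal.tsum_le_tsum; intro j
        exact hterm i j
    _ = ∑' i, ENNReal.ofReal (c i) * ENNReal.ofReal (∑' b, wt b) := by
        congr 1; ext i
        rw [ENNReal.tsum_mul_left, ENNReal.ofReal_tsum_of_nonneg wt_nonneg summable_wt]
        rw [tsum_shift i (fun b => ENNReal.ofReal (wt b)) (by simp [wt])]
    _ = ENNReal.ofReal (∑ i ∈ Finset.range L, c i) * ENNReal.ofReal (∑' b, wt b) := by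
        rw [ENNReal.tsum_mul_right]
        congr 1
        rw [ENNReal.ofReal_sum_of_nonneg (fun i _ => hcnn i)]
        apply tsum_eq_sum
        intro i hi
        rw [Finset.mem_range] at hi
        simp only [hc, if_neg hi, ENNReal.ofReal_zero]
    _ = ENNReal.ofReal (K * (∑' b, wt b) / Hn L) := by
        rw [← ENNReal.ofReal_mul (Finset.sum_nonneg (fun i _ => hcnn i))]
        congr 1
        have : ∑ i ∈ Finset.range L, c i = K / Hn L := by
          have h6 : ∀ i ∈ Finset.range L, c i = K / Hn L ^ 2 * (1 / ((i : ℝ) + 1)) := by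
            intro i hi
            rw [Finset.mem_range] at hi
            simp only [hc, if_pos hi]
            field_simp
          rw [Finset.sum_congr rfl h6, ← Finset.mul_sum]
          change K / Hn L ^ 2 * Hn L = _
          field_simp
        rw [this]; ring

lemma energy_bound {L : ℕ} (hL : 1 ≤ L) (hN : 2 ≤ N) (q : ℕ → ℝ) (K : ℝ) (hK : 0 ≤ K)
    (hq : ∀ k : ℕ, 1 ≤ k → q k ≤ K * k / (N : ℝ) ^ (2 * k))
    (hmeas : ∀ x y, MeasurableSet {ω | (G ω).Adj x y})
    (hprob : ∀ x y, x ≠ y → P {ω | (G ω).Adj x y} ≤ ENNReal.ofReal (q (hdist x y)))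
    (x : HGroup N) :
    ∫⁻ ω, En (G ω) (fun y => phi L (hdist x y)) ∂P
      ≤ ENNReal.ofReal (2 * (K * (∑' b, wt b) / Hn L)) := by
  set f : HGroup N → ℝ := fun y => phi L (hdist x y) with hf
  set s : HGroup N → HGroup N → ℝ≥0∞ := fun y z =>
    if hdist x y < hdist x z then ENNReal.ofReal (q (hdist x z)) *
      ENNReal.ofReal ((phi L (hdist x y) - phi L (hdist x z)) ^ 2) else 0 with hs
  have h1 : ∫⁻ ω, En (G ω) f ∂P
      = ∑' r : HGroup N × HGroup N, P {ω | (G ω).Adj r.1 r.2} * ENNReal.ofReal ((f r.1 - f r.2) ^ 2) := by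
    unfold En
    rw [lintegral_tsum]
    · congr 1; ext r
      have : ∀ ω, (if (G ω).Adj r.1 r.2 then ENNReal.ofReal ((f r.1 - f r.2) ^ 2) else 0)
          = Set.indicator {ω | (G ω).Adj r.1 r.2} (fun _ => ENNReal.ofReal ((f r.1 - f r.2) ^ 2)) ω := by
        intro ω; simp [Set.indicator]
      simp_rw [this]
      rw [lintegral_indicator (hmeas r.1 r.2), lintegral_const, Measure.restrict_apply_univ]
      ring
    · intro r
      apply Measurable.aemeasurable
      exact Measurable.ite (hmeas r.1 r.2) measurable_const measurable_const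
  have h2 : ∀ r : HGroup N × HGroup N, P {ω | (G ω).Adj r.1 r.2} *
      ENNReal.ofReal ((f r.1 - f r.2) ^ 2) ≤ s r.1 r.2 + s r.2 r.1 := by
    rintro ⟨y, z⟩
    simp only [hs, hf]
    rcases lt_trichotomy (hdist x y) (hdist x z) with h | h | h
    · rw [if_pos h, if_neg (by omega), add_zero]
      gcongr
      have hne : y ≠ z := by rintro rfl; omega
      have := hprob y z hne
      rwa [hdist_isosceles h] at this
    · rw [h]; simp
    · rw [if_neg (by omega), if_pos h, zero_add]
      have hne : y ≠ z := by rintro rfl; omega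
      have := hprob y z hne
      rw [hdist_comm y z, hdist_isosceles h] at this
      have e : (phi L (hdist x y) - phi L (hdist x z)) ^ 2
          = (phi L (hdist x z) - phi L (hdist x y)) ^ 2 := by ring
      rw [e]
      gcongr
  have h3 : ∑' y, ∑' z, s y z ≤ ENNReal.ofReal (K * (∑' b, wt b) / Hn L) := by
    refine le_trans ?_ (level_sum_bound hL hN q K hK hq)
    calc ∑' y, ∑' z, s y z ≤ ∑' y, ∑' j, (N : ℝ≥0∞) ^ j *
          (if hdist x y < j then ENNReal.ofReal (q j) *
            ENNReal.ofReal ((phi L (hdist x y) - phi L j) ^ 2) else 0) := by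
          apply ENNReal.tsum_le_tsum; intro y
          exact tsum_level_le x (fun j => if hdist x y < j then ENNReal.ofReal (q j) *
            ENNReal.ofReal ((phi L (hdist x y) - phi L j) ^ 2) else 0)
      _ ≤ _ := tsum_level_le x (fun i => ∑' j, (N : ℝ≥0∞) ^ j *
          (if i < j then ENNReal.ofReal (q j) *
            ENNReal.ofReal ((phi L i - phi L j) ^ 2) else 0))
  have h4 : ∑' r : HGroup N × HGroup N, s r.1 r.2 = ∑' y, ∑' z, s y z :=
    ENNReal.tsum_prod' (f := fun r : HGroup N × HGroup N => s r.1 r.2)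
  have h5 : ∑' r : HGroup N × HGroup N, s r.2 r.1 = ∑' y, ∑' z, s y z := by
    rw [ENNReal.tsum_prod' (f := fun r : HGroup N × HGroup N => s r.2 r.1), ENNReal.tsum_comm]
  calc ∫⁻ ω, En (G ω) f ∂P ≤ ∑' r : HGroup N × HGroup N, (s r.1 r.2 + s r.2 r.1) := by
        rw [h1]; exact ENNReal.tsum_le_tsum h2
    _ = ∑' y, ∑' z, s y z + ∑' y, ∑' z, s y z := by
        rw [ENNReal.tsum_add, h4, h5]
    _ ≤ ENNReal.ofReal (K * (∑' b, wt b) / Hn L) + ENNReal.ofReal (K * (∑' b, wt b) / Hn L) :=
        add_le_add h3 h3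
    _ = _ := by
        have hnn : 0 ≤ K * (∑' b, wt b) / Hn L := by
          have : 0 ≤ Hn L := by
            have := Hn_mono (Nat.zero_le L)
            have h0 : Hn 0 = 0 := by simp [Hn]
            linarith
          have h7 : 0 ≤ ∑' b, wt b := tsum_nonneg wt_nonneg
          positivity
        rw [← ENNReal.ofReal_add hnn hnn]; congr 1; ring

/-- Recurrence when `q k ≤ K k / N^(2k)` (no independence needed). -/
theorem recurrence_main (hN : 2 ≤ N) (q : ℕ → ℝ) (K : ℝ) (hK : 0 ≤ K)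
    (hq : ∀ k : ℕ, 1 ≤ k → q k ≤ K * k / (N : ℝ) ^ (2 * k))
    (hmeas : ∀ x y, MeasurableSet {ω | (G ω).Adj x y})
    (hprob : ∀ x y, x ≠ y → P {ω | (G ω).Adj x y} ≤ ENNReal.ofReal (q (hdist x y)))
    (hfin : ∀ᵐ ω ∂P, ∀ x, ((G ω).neighborSet x).Finite) :
    ∀ᵐ ω ∂P, ∀ x, ((G ω).neighborSet x).Nonempty →
      ¬ Summable (fun n => nstep (G ω) n x x) := by
  have hEn_meas : ∀ (f : HGroup N → ℝ), Measurable (fun ω => En (G ω) f) := by
    intro f
    unfold En
    apply Measurable.tsum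
    intro r
    exact Measurable.ite (hmeas r.1 r.2) measurable_const measurable_const
  have key : ∀ (x : HGroup N) (m : ℕ), ∀ᵐ ω ∂P, ∃ L : ℕ, 1 ≤ L ∧
      En (G ω) (fun y => phi L (hdist x y)) < ENNReal.ofReal (1 / ((m : ℝ) + 1)) := by
    intro x m
    set ε : ℝ≥0∞ := ENNReal.ofReal (1 / ((m : ℝ) + 1)) with hε
    have hε0 : ε ≠ 0 := by
      rw [hε]; apply ne_of_gt; rw [ENNReal.ofReal_pos]; positivity
    have hεt : ε ≠ ∞ := ENNReal.ofReal_ne_top
    rw [ae_iff]
    have hsub : ∀ L : ℕ, 1 ≤ L → P {ω | ¬ ∃ L : ℕ, 1 ≤ L ∧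
        En (G ω) (fun y => phi L (hdist x y)) < ε}
        ≤ ENNReal.ofReal (2 * (K * (∑' b, wt b) / Hn L)) / ε := by
      intro L hL
      calc _ ≤ P {ω | ε ≤ En (G ω) (fun y => phi L (hdist x y))} := by
            apply measure_mono
            intro ω hω
            simp only [Set.mem_ofPred_eq] at hω ⊢
            push Not at hω
            exact hω L hL
        _ ≤ (∫⁻ ω, En (G ω) (fun y => phi L (hdist x y)) ∂P) / ε :=
            meas_ge_le_lintegral_div (hEn_meas _).aemeasurable hε0 hεt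
        _ ≤ _ := by
            gcongr
            exact energy_bound P G hL hN q K hK hq hmeas hprob x
    have hlim : Filter.Tendsto (fun L : ℕ => ENNReal.ofReal (2 * (K * (∑' b, wt b) / Hn L)) / ε)
        Filter.atTop (nhds 0) := by
      have h1 : Filter.Tendsto Hn Filter.atTop Filter.atTop := by
        exact Real.tendsto_sum_range_one_div_nat_succ_atTop
      have h2 : Filter.Tendsto (fun L : ℕ => 2 * (K * (∑' b, wt b) / Hn L)) Filter.atTop (nhds 0) := by
        have := (Filter.Tendsto.const_div_atTop h1 (K * (∑' b, wt b))).const_mul 2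
        simpa using this
      have h3 : Filter.Tendsto (fun L : ℕ => ENNReal.ofReal (2 * (K * (∑' b, wt b) / Hn L)))
          Filter.atTop (nhds 0) := by
        have := ENNReal.tendsto_ofReal h2
        simpa using this
      have h4 := ENNReal.Tendsto.div_const h3 (Or.inr hε0) (b := ε)
      simpa using h4
    apply le_antisymm _ (zero_le)
    apply ge_of_tendsto hlim
    filter_upwards [Filter.eventually_ge_atTop 1] with L hL
    exact hsub L hL
  have key2 : ∀ᵐ ω ∂P, ∀ (x : HGroup N) (m : ℕ), ∃ L : ℕ, 1 ≤ L ∧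
      En (G ω) (fun y => phi L (hdist x y)) < ENNReal.ofReal (1 / ((m : ℝ) + 1)) := by
    rw [ae_all_iff]; intro x
    rw [ae_all_iff]; intro m
    exact key x m
  filter_upwards [key2, hfin] with ω hω hfinω x hx
  apply not_summable_nstep (G ω) hfinω x hx
  intro ε hε
  obtain ⟨m, hm⟩ := exists_nat_one_div_lt hε
  obtain ⟨L, hL, hE⟩ := hω x m
  refine ⟨fun y => phi L (hdist x y), ?_, ?_, ?_⟩
  · apply (hball L x).finite_toSet.subset
    intro y hy
    rw [Function.mem_support] at hy
    rw [Finset.mem_coe, mem_hball]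
    by_contra hlt
    apply hy
    unfold phi
    rw [if_neg (by omega)]
  · show phi L (hdist x x) = 1
    rw [hdist_self]; exact phi_zero hL
  · exact hE.le.trans (ENNReal.ofReal_le_ofReal hm.le)

end recur

end Pool.Agent.Lib.MP_133e92_pr
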