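import Pool.Agent.Lib.MP_133e92_pr.Trans
import Pool.Agent.Lib.MP_133e92_pr.Recur
import Pool.Agent.Lib.MP_133e92_pr.Conn

open Finset MeasureTheory ProbabilityTheory
open scoped BigOperators Classical ENNReal

namespace Pool.Agent.Lib.MP_133e92_pr

section det

variable {V : Type*}

lemma TQ.infC {C : ℕ} {x : V} {O : Set (Sym2 V)} (h : TQ C x O) : InfC O x := by
  intro hfin
  set g : V →₀ ℚ := Finsupp.onFinset hfin.toFinset (fun y => if Rs O x y then 1 else 0) (by
    intro y hy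
    rw [Set.Finite.mem_toFinset]
    by_contra hn
    have hn' : ¬ Rs O x y := hn
    apply hy
    rw [if_neg hn']) with hg
  have hgy : ∀ y, g y = if Rs O x y then 1 else 0 := fun y => by rw [hg, Finsupp.onFinset_apply]
  have h1 := h g
  have h2 : EnO O (fun y => ((g y : ℚ) : ℝ)) = 0 := by
    unfold EnO
    rw [ENNReal.tsum_eq_zero]
    intro r
    split_ifs with hr
    · have h3 : g r.1 = g r.2 := by
        rw [hgy, hgy]
        apply if_congr _ rfl rfl
        constructor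
        · intro h4; exact Relation.ReflTransGen.tail h4 hr
        · intro h4
          apply Relation.ReflTransGen.tail h4
          rwa [Sym2.eq_swap]
      simp only [h3]; simp
    · rfl
  have hxx : Rs O x x := Relation.ReflTransGen.refl
  have h4 : g x = 1 := by
    rw [hgy, if_pos hxx]
  rw [h2, h4, mul_zero] at h1
  simp at h1

lemma TQ.step {C : ℕ} {x y : V} {O : Set (Sym2 V)} (h : TQ C x O) (hxy : s(x, y) ∈ O) :
    TQ (2 * C + 2) y O := by
  intro g
  have h1 := h g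
  set E := EnO O (fun y => ((g y : ℚ) : ℝ)) with hE
  have h2 : ENNReal.ofReal ((((g x : ℚ) : ℝ) - ((g y : ℚ) : ℝ)) ^ 2) ≤ E := by
    rw [hE]
    unfold EnO
    refine le_trans (le_of_eq ?_) (ENNReal.le_tsum (x, y))
    simp only
    rw [if_pos hxy]
  have h3 : ((g y : ℚ) : ℝ) ^ 2 ≤ 2 * ((g x : ℚ) : ℝ) ^ 2
      + 2 * (((g x : ℚ) : ℝ) - ((g y : ℚ) : ℝ)) ^ 2 := by
    nlinarith [sq_nonneg (2 * ((g x : ℚ) : ℝ) - ((g y : ℚ) : ℝ))]
  calc ENNReal.ofReal (((g y : ℚ) : ℝ) ^ 2)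
      ≤ ENNReal.ofReal (2 * ((g x : ℚ) : ℝ) ^ 2
      + 2 * (((g x : ℚ) : ℝ) - ((g y : ℚ) : ℝ)) ^ 2) := ENNReal.ofReal_le_ofReal h3
    _ = 2 * ENNReal.ofReal (((g x : ℚ) : ℝ) ^ 2) +
        2 * ENNReal.ofReal ((((g x : ℚ) : ℝ) - ((g y : ℚ) : ℝ)) ^ 2) := by
        rw [ENNReal.ofReal_add (by positivity) (by positivity), ENNReal.ofReal_mul (by norm_num),
          ENNReal.ofReal_mul (by norm_num)]
        norm_num
    _ ≤ 2 * ((C : ℝ≥0∞) * E) + 2 * E := by gcongr
    _ = ((2 * C + 2 : ℕ) : ℝ≥0∞) * E := by push_cast; ring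

lemma TQ.along {C : ℕ} {x y : V} {O : Set (Sym2 V)} (h : TQ C x O) (hxy : Rs O x y) :
    ∃ C', TQ C' y O := by
  induction hxy with
  | refl => exact ⟨C, h⟩
  | tail _ h2 ih =>
    obtain ⟨C', hC'⟩ := ih
    exact ⟨_, hC'.step h2⟩

lemma EnO_edgeSet (G : SimpleGraph V) (f : V → ℝ) : EnO G.edgeSet f = En G f := by
  unfold EnO En
  apply tsum_congr
  intro r
  exact if_congr (SimpleGraph.mem_edgeSet G) rfl rfl

/-- From rational test functions to real ones. -/
lemma TQ.real {G : SimpleGraph V} (hfin : ∀ x, (G.neighborSet x).Finite) {C : ℕ} {x : V}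
    (h : TQ C x G.edgeSet) (f : V → ℝ) (hf : (Function.support f).Finite) :
    ENNReal.ofReal (f x ^ 2) ≤ ENNReal.ofReal C * En G f := by
  set B : Finset V := hf.toFinset with hB
  have hfB : ∀ y, y ∉ B → f y = 0 := by
    intro y hy
    rw [hB, Set.Finite.mem_toFinset] at hy
    exact Function.notMem_support.1 hy
  -- rational approximations
  set g : ℕ → V →₀ ℚ := fun n => Finsupp.onFinset B
    (fun y => ((⌊((n : ℝ) + 1) * f y⌋ : ℤ) : ℚ) / ((n : ℚ) + 1)) (by
      intro y hy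
      by_contra hyB
      apply hy
      rw [hfB y hyB]; simp) with hg
  have hgy : ∀ n y, (((g n) y : ℚ) : ℝ) = (⌊((n : ℝ) + 1) * f y⌋ : ℝ) / ((n : ℝ) + 1) := by
    intro n y
    rw [hg]
    simp only [Finsupp.onFinset_apply]
    push_cast
    rfl
  have hlim : ∀ y, Filter.Tendsto (fun n => (((g n) y : ℚ) : ℝ)) Filter.atTop (nhds (f y)) := by
    intro y
    have h1 : Filter.Tendsto (fun n : ℕ => f y - 1 / ((n : ℝ) + 1)) Filter.atTop (nhds (f y)) := by
      have := (tendsto_const_nhds (x := f y)).sub (tendsto_one_div_add_atTop_nhds_zero_nat (𝕜 := ℝ))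
      rwa [sub_zero] at this
    apply tendsto_of_tendsto_of_tendsto_of_le_of_le h1 (tendsto_const_nhds (x := f y))
    · intro n
      have hn : (0:ℝ) < (n : ℝ) + 1 := by positivity
      simp only
      rw [hgy, le_div_iff₀ hn]
      have := Int.lt_floor_add_one (((n : ℝ) + 1) * f y)
      have e : (f y - 1 / ((n : ℝ) + 1)) * ((n : ℝ) + 1) = ((n : ℝ) + 1) * f y - 1 := by
        field_simp
      rw [e]; linarith
    · intro n
      have hn : (0:ℝ) < (n : ℝ) + 1 := by positivity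
      simp only
      rw [hgy, div_le_iff₀ hn]
      have := Int.floor_le (((n : ℝ) + 1) * f y)
      linarith
  have hgB : ∀ n y, y ∉ B → (((g n) y : ℚ) : ℝ) = 0 := by
    intro n y hy
    rw [hgy, hfB y hy]; simp
  -- inequalities for the approximations
  have hineq : ∀ n, (((g n) x : ℚ) : ℝ) ^ 2 ≤ C * (2 * Dform G B (fun y => (((g n) y : ℚ) : ℝ))) := by
    intro n
    have h1 := h (g n)
    obtain ⟨h2, h3⟩ := En_eq G hfin B (fun y => (((g n) y : ℚ) : ℝ)) (hgB n)
    rw [EnO_edgeSet, h2, ← ENNReal.ofReal_natCast C, ← ENNReal.ofReal_mul (Nat.cast_nonneg _)] at h1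
    exact (ENNReal.ofReal_le_ofReal_iff (by positivity)).1 h1
  have hDlim : Filter.Tendsto (fun n => C * (2 * Dform G B (fun y => (((g n) y : ℚ) : ℝ))))
      Filter.atTop (nhds (C * (2 * Dform G B f))) := by
    apply Filter.Tendsto.const_mul
    apply Filter.Tendsto.const_mul
    unfold Dform
    apply Filter.Tendsto.sub
    · apply tendsto_finsetSum; intro y _
      exact ((hlim y).pow 2).const_mul _
    · apply tendsto_finsetSum; intro y _
      apply tendsto_finsetSum; intro z _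
      exact ((hlim y).mul (hlim z)).const_mul _
  have hfin' : f x ^ 2 ≤ C * (2 * Dform G B f) :=
    le_of_tendsto_of_tendsto' ((hlim x).pow 2) hDlim hineq
  obtain ⟨h2, h3⟩ := En_eq G hfin B f hfB
  rw [h2, ← ENNReal.ofReal_mul (Nat.cast_nonneg _)]
  exact ENNReal.ofReal_le_ofReal hfin'

lemma rs_edgeSet (G : SimpleGraph V) (x y : V) : Rs G.edgeSet x y ↔ G.Reachable x y := by
  rw [SimpleGraph.reachable_iff_reflTransGen]
  rfl

lemma infC_edgeSet (G : SimpleGraph V) (x : V) :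
    InfC G.edgeSet x ↔ {y | G.Reachable x y}.Infinite := by
  unfold InfC
  have : {y | Rs G.edgeSet x y} = {y | G.Reachable x y} := by
    ext y; exact rs_edgeSet G x y
  rw [this]

end det

section main

variable {N : ℕ} [NeZero N] {Ω : Type*} [MeasurableSpace Ω] {μ : Measure Ω}
  [IsProbabilityMeasure μ] {G : Ω → SimpleGraph (HGroup N)}

/-- Transience of all infinite components. -/
theorem transience_main (hN : 2 ≤ N) {q : ℕ → ℝ} {K κ α : ℝ} (hK : 0 < K) (hκ : 0 < κ)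
    (hα : 1 < α) (hq0 : ∀ k, 0 ≤ q k) (hq1 : ∀ k, q k ≤ 1)
    (hKq : ∀ k : ℕ, 1 ≤ k → q k ≤ K * (k : ℝ) ^ α / (N : ℝ) ^ (2 * k))
    (hκq : ∀ k : ℕ, 1 ≤ k → κ * (k : ℝ) ^ α / (N : ℝ) ^ (2 * k) ≤ q k)
    (hmeas : ∀ x y, MeasurableSet {ω | (G ω).Adj x y})
    (hprob : ∀ x y, x ≠ y → μ {ω | (G ω).Adj x y} = ENNReal.ofReal (q (hdist x y)))
    (hind : iIndepSet (fun e : Sym2 (HGroup N) => {ω | e ∈ (G ω).edgeSet}) μ)
    (hfin : ∀ᵐ ω ∂μ, ∀ x, ((G ω).neighborSet x).Finite) :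
    ∀ᵐ ω ∂μ, ∀ x, {y | (G ω).Reachable x y}.Infinite → Transient (G ω) x := by
  have hP : Perc q μ (fun ω => (G ω).edgeSet) := by
    refine ⟨hq0, hq1, ?_, hind, ?_, ?_⟩
    · intro e
      induction e using Sym2.ind with
      | _ x y => exact hmeas x y
    · intro x y hxy
      have h1 := hprob x y hxy
      change (μ {ω | (G ω).Adj x y}).toReal = q (hdist x y)
      rw [h1, ENNReal.toReal_ofReal (hq0 _)]
    · intro x ω h
      exact (G ω).irrefl h
  by_cases hθ : 0 < μ.real {ω | InfC ((G ω).edgeSet) 0}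
  · have h1 := hP.tra hN hK hκ hα hKq hκq hθ
    have h2 := hP.unique hN hK hκ (by linarith) hKq hκq
    filter_upwards [h1, h2, hfin] with ω hT hU hF x hx
    obtain ⟨x0, C, hC⟩ := hT
    have h3 : InfC (G ω).edgeSet x0 := hC.infC
    have h4 : InfC (G ω).edgeSet x := (infC_edgeSet (G ω) x).2 hx
    obtain ⟨C', hC'⟩ := hC.along (hU x0 x h3 h4)
    exact summable_nstep (G ω) hF x C' (Nat.cast_nonneg _) (fun f hf => hC'.real hF f hf)
  · have h0 : μ.real {ω | InfC ((G ω).edgeSet) 0} = 0 :=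
      le_antisymm (not_lt.1 hθ) measureReal_nonneg
    have h1 : ∀ᵐ ω ∂μ, ∀ x, ¬ InfC (G ω).edgeSet x := by
      rw [ae_all_iff]; intro x
      have h2 := hP.inv_InfC x
      rw [h0] at h2
      rw [ae_iff]
      simp only [not_not]
      exact (measureReal_eq_zero_iff (measure_ne_top _ _)).1 h2
    filter_upwards [h1] with ω hω x hx
    exact absurd ((infC_edgeSet (G ω) x).2 hx) (hω x)

/-- Uniqueness of the infinite component. -/
theorem uniqueness_main (hN : 2 ≤ N) {q : ℕ → ℝ} {K κ α : ℝ} (hK : 0 < K) (hκ : 0 < κ)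
    (hα : 0 < α) (hq0 : ∀ k, 0 ≤ q k) (hq1 : ∀ k, q k ≤ 1)
    (hKq : ∀ k : ℕ, 1 ≤ k → q k ≤ K * (k : ℝ) ^ α / (N : ℝ) ^ (2 * k))
    (hκq : ∀ k : ℕ, 1 ≤ k → κ * (k : ℝ) ^ α / (N : ℝ) ^ (2 * k) ≤ q k)
    (hmeas : ∀ x y, MeasurableSet {ω | (G ω).Adj x y})
    (hprob : ∀ x y, x ≠ y → μ {ω | (G ω).Adj x y} = ENNReal.ofReal (q (hdist x y)))
    (hind : iIndepSet (fun e : Sym2 (HGroup N) => {ω | e ∈ (G ω).edgeSet}) μ) :
    ∀ᵐ ω ∂μ, ∀ x y, {z | (G ω).Reachable x z}.Infinite → {z | (G ω).Reachable y z}.Infinite →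
      (G ω).Reachable x y := by
  have hP : Perc q μ (fun ω => (G ω).edgeSet) := by
    refine ⟨hq0, hq1, ?_, hind, ?_, ?_⟩
    · intro e
      induction e using Sym2.ind with
      | _ x y => exact hmeas x y
    · intro x y hxy
      have h1 := hprob x y hxy
      change (μ {ω | (G ω).Adj x y}).toReal = q (hdist x y)
      rw [h1, ENNReal.toReal_ofReal (hq0 _)]
    · intro x ω h
      exact (G ω).irrefl h
  filter_upwards [hP.unique hN hK hκ hα hKq hκq] with ω hU x y hx hy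
  exact (rs_edgeSet (G ω) x y).1 (hU x y ((infC_edgeSet (G ω) x).2 hx)
    ((infC_edgeSet (G ω) y).2 hy))

end main

end Pool.Agent.Lib.MP_133e92_pr
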