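import Pool.Agent.Lib.MP_133e92_pr.Ex
import Pool.Agent.Lib.MP_133e92_pr.Bfs

open Finset
open scoped BigOperators Classical

namespace Pool.Agent.Lib.MP_133e92_pr

section cond

variable {E : Type*} [DecidableEq E] {p : E → ℝ}

/-- Weighted Jensen inequality for squares. -/
lemma jensen_sq {ι : Type*} (I : Finset ι) (w φ : ι → ℝ) (hw : ∀ j ∈ I, 0 ≤ w j)
    (hW : ∑ j ∈ I, w j ≤ 1) : (∑ j ∈ I, w j * φ j) ^ 2 ≤ ∑ j ∈ I, w j * φ j ^ 2 := by
  have hcs := Finset.sum_sq_le_sum_mul_sum_of_sq_le_mul I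
    (r := fun j => w j * φ j) (f := w) (g := fun j => w j * φ j ^ 2)
    hw (fun j hj => mul_nonneg (hw j hj) (sq_nonneg _)) (fun j _ => le_of_eq (by ring))
  refine hcs.trans ?_
  have hnn : 0 ≤ ∑ j ∈ I, w j * φ j ^ 2 :=
    Finset.sum_nonneg (fun j hj => mul_nonneg (hw j hj) (sq_nonneg _))
  calc _ ≤ 1 * _ := mul_le_mul_of_nonneg_right hW hnn
    _ = _ := one_mul _

/-- Comparison of expectations by conditioning on the edges outside of `T`. -/
lemma Ex_cond (hp0 : ∀ e, 0 ≤ p e) (hp1 : ∀ e, p e ≤ 1) {S T : Finset E} (hTS : T ⊆ S)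
    {f g : Finset E → ℝ}
    (h : ∀ A₁, A₁ ⊆ S \ T → Ex p T (fun A₂ => f (A₁ ∪ A₂)) ≤ Ex p T (fun A₂ => g (A₁ ∪ A₂))) :
    Ex p S f ≤ Ex p S g := by
  have h1 : S = (S \ T) ∪ T := (Finset.sdiff_union_of_subset hTS).symm
  rw [h1, Ex_union Finset.sdiff_disjoint, Ex_union Finset.sdiff_disjoint]
  exact Ex_mono hp0 hp1 h

/-- Variance bound for a weighted sum of independent centred edge variables. -/
lemma Ex_var {ι : Type*} (hp0 : ∀ e, 0 ≤ p e) {T : Finset E}
    {P : Finset ι} {e : ι → E} (heT : ∀ a ∈ P, e a ∈ T) (hinj : Set.InjOn e P) (c : ι → ℝ) :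
    Ex p T (fun A => (∑ a ∈ P, c a * ((if e a ∈ A then 1 else 0) - p (e a))) ^ 2)
      ≤ ∑ a ∈ P, c a ^ 2 * p (e a) := by
  have h1 : ∀ A, A ⊆ T → (∑ a ∈ P, c a * ((if e a ∈ A then 1 else 0) - p (e a))) ^ 2
      = ∑ a ∈ P, ∑ b ∈ P, (c a * ((if e a ∈ A then 1 else 0) - p (e a))) *
        (c b * ((if e b ∈ A then 1 else 0) - p (e b))) := by
    intro A _
    rw [sq, Finset.sum_mul_sum]
  rw [Ex_congr h1, Ex_sum]
  apply Finset.sum_le_sum
  intro a ha
  rw [Ex_sum, Finset.sum_eq_single_of_mem a ha]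
  · have h2 : ∀ A, A ⊆ T → (c a * ((if e a ∈ A then 1 else 0) - p (e a))) *
        (c a * ((if e a ∈ A then 1 else 0) - p (e a)))
        = (c a ^ 2) * ((if e a ∈ A then 1 else 0) - p (e a)) ^ 2 := by
      intro A _; ring
    rw [Ex_congr h2, Ex_centered_sq (heT a ha) (fun _ => c a ^ 2) (fun _ _ => rfl), Ex_const]
    have := hp0 (e a)
    nlinarith [sq_nonneg (c a), mul_nonneg (sq_nonneg (c a)) (mul_nonneg this this)]
  · intro b hb hab
    have hne : e a ≠ e b := fun h => hab (hinj hb ha h.symm)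
    have h3 : ∀ A, A ⊆ T → (c a * ((if e a ∈ A then 1 else 0) - p (e a))) *
        (c b * ((if e b ∈ A then 1 else 0) - p (e b)))
        = (c a * c b) * ((if e a ∈ A then 1 else 0) - p (e a)) *
          ((if e b ∈ A then 1 else 0) - p (e b)) := by
      intro A _; ring
    rw [Ex_congr h3]
    exact Ex_centered_two (heT a ha) (heT b hb) hne (fun _ => c a * c b) (fun _ _ => by ring)

end cond

section flow

variable {V : Type*}

/-- Energy of `φ`, summed over ordered pairs of `U`. -/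
noncomputable def nrg (U : Finset V) (φ : V → V → ℝ) : ℝ := ∑ y ∈ U, ∑ z ∈ U, φ y z ^ 2

lemma nrg_nonneg (U : Finset V) (φ : V → V → ℝ) : 0 ≤ nrg U φ :=
  Finset.sum_nonneg (fun _ _ => Finset.sum_nonneg (fun _ _ => sq_nonneg _))

lemma nrg_mul (U : Finset V) (c : ℝ) (φ : V → V → ℝ) :
    nrg U (fun y z => c * φ y z) = c ^ 2 * nrg U φ := by
  unfold nrg
  rw [Finset.mul_sum]
  apply Finset.sum_congr rfl; intro y _
  rw [Finset.mul_sum]
  apply Finset.sum_congr rfl; intro z _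
  ring

lemma nrg_add3_le (U : Finset V) (φ₁ φ₂ φ₃ : V → V → ℝ) :
    nrg U (fun y z => φ₁ y z + φ₂ y z + φ₃ y z) ≤ 3 * (nrg U φ₁ + nrg U φ₂ + nrg U φ₃) := by
  unfold nrg
  rw [← Finset.sum_add_distrib, ← Finset.sum_add_distrib, Finset.mul_sum]
  apply Finset.sum_le_sum; intro y _
  rw [← Finset.sum_add_distrib, ← Finset.sum_add_distrib, Finset.mul_sum]
  apply Finset.sum_le_sum; intro z _
  nlinarith [sq_nonneg (φ₁ y z - φ₂ y z), sq_nonneg (φ₁ y z - φ₃ y z),
    sq_nonneg (φ₂ y z - φ₃ y z)]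

lemma nrg_neg (U : Finset V) (φ : V → V → ℝ) :
    nrg U (fun y z => - φ y z) = nrg U φ := by
  unfold nrg
  apply Finset.sum_congr rfl; intro y _
  apply Finset.sum_congr rfl; intro z _
  ring

/-- Validity of the flows `θ x`, `x ∈ G`, in the configuration `A` on `B`: the flow `θ x` is carried
by open edges and goes from `x` to the uniform distribution on `G`; the flows sum up to zero. -/
structure Val (U B : Finset V) (A : Finset (Sym2 V)) (G : Finset V) (θ : V → V → V → ℝ) :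
    Prop where
  sub : G ⊆ B
  anti : ∀ x y z, θ x z y = - θ x y z
  supp : ∀ x y z, θ x y z ≠ 0 → s(y, z) ∈ A
  div : ∀ x ∈ G, ∀ y, ∑ z ∈ U, θ x y z
    = (if y = x then 1 else 0) - (if y ∈ G then 1 / (G.card : ℝ) else 0)
  zero : ∀ y z, ∑ x ∈ G, θ x y z = 0

/-- Total energy of the flows. -/
noncomputable def tot (U G : Finset V) (θ : V → V → V → ℝ) : ℝ := ∑ x ∈ G, nrg U (θ x)

lemma tot_nonneg (U G : Finset V) (θ : V → V → V → ℝ) : 0 ≤ tot U G θ :=
  Finset.sum_nonneg (fun _ _ => nrg_nonneg _ _)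

/-- Number of open cross edges. -/
noncomputable def Zc (A : Finset (Sym2 V)) (G H : Finset V) : ℝ :=
  ∑ x ∈ G, ∑ x' ∈ H, (if s(x, x') ∈ A then 1 else 0)

lemma Zc_symm (A : Finset (Sym2 V)) (G H : Finset V) : Zc A G H = Zc A H G := by
  unfold Zc
  rw [Finset.sum_comm]
  apply Finset.sum_congr rfl; intro x _
  apply Finset.sum_congr rfl; intro y _
  rw [Sym2.eq_swap]

lemma Zc_nonneg (A : Finset (Sym2 V)) (G H : Finset V) : 0 ≤ Zc A G H := by
  unfold Zc
  apply Finset.sum_nonneg; intro x _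
  apply Finset.sum_nonneg; intro y _
  split_ifs <;> norm_num

/-- The connecting flow from the uniform distribution on `G` to the uniform distribution on `H`. -/
noncomputable def Ph (A : Finset (Sym2 V)) (G : Finset V) (θ : V → V → V → ℝ) (H : Finset V)
    (η : V → V → V → ℝ) (y z : V) : ℝ :=
  (1 / Zc A G H) * ∑ x ∈ G, ∑ x' ∈ H, (if s(x, x') ∈ A then 1 else 0) *
    (- θ x y z + (if y = x ∧ z = x' then 1 else 0) - (if y = x' ∧ z = x then 1 else 0)
      + η x' y z)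

lemma Ph_symm (A : Finset (Sym2 V)) (G : Finset V) (θ : V → V → V → ℝ) (H : Finset V)
    (η : V → V → V → ℝ) (y z : V) : Ph A H η G θ y z = - Ph A G θ H η y z := by
  unfold Ph
  rw [Zc_symm A H G, Finset.sum_comm, ← mul_neg]
  congr 1
  rw [← Finset.sum_neg_distrib]
  apply Finset.sum_congr rfl; intro x _
  rw [← Finset.sum_neg_distrib]
  apply Finset.sum_congr rfl; intro x' _
  rw [show s(x', x) = s(x, x') from Sym2.eq_swap]
  ring

lemma Ph_self (A : Finset (Sym2 V)) (G : Finset V) (θ : V → V → V → ℝ) (y z : V) :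
    Ph A G θ G θ y z = 0 := by
  have := Ph_symm A G θ G θ y z
  linarith

lemma Ph_anti {A : Finset (Sym2 V)} {G : Finset V} {θ : V → V → V → ℝ} {H : Finset V}
    {η : V → V → V → ℝ} (hθ : ∀ x y z, θ x z y = - θ x y z) (hη : ∀ x y z, η x z y = - η x y z)
    (y z : V) : Ph A G θ H η z y = - Ph A G θ H η y z := by
  unfold Ph
  rw [← mul_neg]
  congr 1
  rw [← Finset.sum_neg_distrib]
  apply Finset.sum_congr rfl; intro x _
  rw [← Finset.sum_neg_distrib]
  apply Finset.sum_congr rfl; intro x' _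
  have e1 : (if z = x ∧ y = x' then (1:ℝ) else 0) = if y = x' ∧ z = x then 1 else 0 :=
    if_congr and_comm rfl rfl
  have e2 : (if z = x' ∧ y = x then (1:ℝ) else 0) = if y = x ∧ z = x' then 1 else 0 :=
    if_congr and_comm rfl rfl
  rw [hθ x y z, hη x' y z, e1, e2]
  ring

lemma Ph_supp {A : Finset (Sym2 V)} {G : Finset V} {θ : V → V → V → ℝ} {H : Finset V}
    {η : V → V → V → ℝ} (hθ : ∀ x y z, θ x y z ≠ 0 → s(y, z) ∈ A)
    (hη : ∀ x y z, η x y z ≠ 0 → s(y, z) ∈ A) {y z : V}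
    (h : Ph A G θ H η y z ≠ 0) : s(y, z) ∈ A := by
  by_contra hyz
  apply h
  unfold Ph
  rw [Finset.sum_eq_zero, mul_zero]
  intro x _
  apply Finset.sum_eq_zero
  intro x' _
  have h1 : θ x y z = 0 := by
    by_contra h1; exact hyz (hθ x y z h1)
  have h2 : η x' y z = 0 := by
    by_contra h1; exact hyz (hη x' y z h1)
  rw [h1, h2]
  by_cases hx : s(x, x') ∈ A
  · have h3 : ¬ (y = x ∧ z = x') := by
      rintro ⟨rfl, rfl⟩; exact hyz hx
    have h4 : ¬ (y = x' ∧ z = x) := by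
      rintro ⟨rfl, rfl⟩
      apply hyz
      rwa [Sym2.eq_swap]
    rw [if_neg h3, if_neg h4]; ring
  · rw [if_neg hx]; ring

lemma Ph_div {U A : _} {G : Finset V} {θ : V → V → V → ℝ} {H : Finset V}
    {η : V → V → V → ℝ} {B B' : Finset V} {A₁ A₂ : Finset (Sym2 V)}
    (hG : Val U B A₁ G θ) (hH : Val U B' A₂ H η)
    (hGU : G ⊆ U) (hHU : H ⊆ U) (hZ : Zc A G H ≠ 0) (y : V) :
    ∑ z ∈ U, Ph A G θ H η y z
      = (if y ∈ G then 1 / (G.card : ℝ) else 0) - (if y ∈ H then 1 / (H.card : ℝ) else 0) := by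
  unfold Ph
  rw [← Finset.mul_sum, Finset.sum_comm]
  have h1 : ∀ x ∈ G, ∑ z ∈ U, ∑ x' ∈ H, (if s(x, x') ∈ A then (1:ℝ) else 0) *
      (- θ x y z + (if y = x ∧ z = x' then 1 else 0) - (if y = x' ∧ z = x then 1 else 0)
      + η x' y z)
      = ∑ x' ∈ H, (if s(x, x') ∈ A then (1:ℝ) else 0) *
        ((if y ∈ G then 1 / (G.card : ℝ) else 0) - (if y ∈ H then 1 / (H.card : ℝ) else 0)) := by
    intro x hx
    rw [Finset.sum_comm]
    apply Finset.sum_congr rfl
    intro x' hx'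
    rw [← Finset.mul_sum]
    congr 1
    rw [Finset.sum_add_distrib, Finset.sum_sub_distrib, Finset.sum_add_distrib,
      Finset.sum_neg_distrib, hG.div x hx y, hH.div x' hx' y]
    have e1 : ∑ z ∈ U, (if y = x ∧ z = x' then (1:ℝ) else 0) = if y = x then 1 else 0 := by
      by_cases hyx : y = x
      · simp [hyx, hHU hx']
      · simp [hyx]
    have e2 : ∑ z ∈ U, (if y = x' ∧ z = x then (1:ℝ) else 0) = if y = x' then 1 else 0 := by
      by_cases hyx : y = x'
      · simp [hyx, hGU hx]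
      · simp [hyx]
    rw [e1, e2]; ring
  rw [Finset.sum_congr rfl h1]
  simp_rw [← Finset.sum_mul]
  rw [← mul_assoc]
  have : (1 / Zc A G H) * ∑ x ∈ G, ∑ x' ∈ H, (if s(x, x') ∈ A then (1:ℝ) else 0) = 1 := by
    change (1 / Zc A G H) * Zc A G H = 1
    field_simp
  rw [this, one_mul]

/-- Energy of the connecting flow. -/
lemma nrg_Ph_le {U : Finset V} {A : Finset (Sym2 V)} {G : Finset V} {θ : V → V → V → ℝ}
    {H : Finset V} {η : V → V → V → ℝ} {l : ℝ} (hl : 0 < l) (hZ : l / 2 ≤ Zc A G H) :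
    nrg U (Ph A G θ H η) ≤ 12 / l ^ 2 *
      (nrg U (fun y z => ∑ x ∈ G, ∑ x' ∈ H, (if s(x, x') ∈ A then 1 else 0) * θ x y z) +
       nrg U (fun y z => ∑ x ∈ G, ∑ x' ∈ H, (if s(x, x') ∈ A then 1 else 0) * η x' y z))
       + 24 / l := by
  have hZ0 : 0 < Zc A G H := by linarith
  set Z := Zc A G H with hZdef
  set φ₁ := fun y z => ∑ x ∈ G, ∑ x' ∈ H, (if s(x, x') ∈ A then (1:ℝ) else 0) * θ x y z
  set φ₂ := fun y z => ∑ x ∈ G, ∑ x' ∈ H, (if s(x, x') ∈ A then (1:ℝ) else 0) * η x' y z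
  set φ₃ := fun y z => ∑ x ∈ G, ∑ x' ∈ H, (if s(x, x') ∈ A then (1:ℝ) else 0) *
    ((if y = x ∧ z = x' then 1 else 0) - (if y = x' ∧ z = x then 1 else 0)) with hφ₃
  have h1 : Ph A G θ H η = fun y z => (1 / Z) * ((- φ₁ y z) + φ₂ y z + φ₃ y z) := by
    funext y z
    unfold Ph
    congr 1
    simp only [φ₁, φ₂, φ₃]
    rw [← Finset.sum_neg_distrib, ← Finset.sum_add_distrib, ← Finset.sum_add_distrib]
    apply Finset.sum_congr rfl; intro x _
    rw [← Finset.sum_neg_distrib, ← Finset.sum_add_distrib, ← Finset.sum_add_distrib]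
    apply Finset.sum_congr rfl; intro x' _
    ring
  have h3 : nrg U φ₃ ≤ 4 * Z := by
    have e1 : ∀ y z, ∑ x ∈ G, ∑ x' ∈ H, (if s(x, x') ∈ A then (1:ℝ) else 0) *
        (if y = x ∧ z = x' then 1 else 0) = if (y ∈ G ∧ z ∈ H) ∧ s(y, z) ∈ A then 1 else 0 := by
      intro y z
      by_cases hy : y ∈ G
      · rw [Finset.sum_eq_single_of_mem y hy]
        · by_cases hz : z ∈ H
          · rw [Finset.sum_eq_single_of_mem z hz]
            · by_cases hA : s(y, z) ∈ A <;> simp [hy, hz, hA]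
            · intro x' _ hx'
              rw [if_neg (fun (h : y = y ∧ z = x') => hx' h.2.symm), mul_zero]
          · rw [Finset.sum_eq_zero, if_neg (fun h => hz h.1.2)]
            intro x' hx'
            rw [if_neg (fun (h : y = y ∧ z = x') => hz (h.2 ▸ hx')), mul_zero]
        · intro x _ hx
          apply Finset.sum_eq_zero; intro x' _
          rw [if_neg (fun (h : y = x ∧ z = x') => hx h.1.symm), mul_zero]
      · rw [Finset.sum_eq_zero, if_neg (fun h => hy h.1.1)]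
        intro x hx
        apply Finset.sum_eq_zero; intro x' _
        rw [if_neg (fun (h : y = x ∧ z = x') => hy (h.1 ▸ hx)), mul_zero]
    have e2 : ∀ y z, ∑ x ∈ G, ∑ x' ∈ H, (if s(x, x') ∈ A then (1:ℝ) else 0) *
        (if y = x' ∧ z = x then 1 else 0) = if (z ∈ G ∧ y ∈ H) ∧ s(z, y) ∈ A then 1 else 0 := by
      intro y z
      rw [← e1 z y]
      apply Finset.sum_congr rfl; intro x _
      apply Finset.sum_congr rfl; intro x' _
      congr 1
      exact if_congr and_comm rfl rfl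
    have e3 : ∀ y z, φ₃ y z = (if (y ∈ G ∧ z ∈ H) ∧ s(y, z) ∈ A then (1:ℝ) else 0) -
        (if (z ∈ G ∧ y ∈ H) ∧ s(z, y) ∈ A then 1 else 0) := by
      intro y z
      rw [← e1 y z, ← e2 y z]
      simp only [hφ₃, mul_sub, Finset.sum_sub_distrib]
    have e4 : ∑ y ∈ U, ∑ z ∈ U, (if (y ∈ G ∧ z ∈ H) ∧ s(y, z) ∈ A then (1:ℝ) else 0) ≤ Z := by
      have : Z = ∑ y ∈ G, ∑ z ∈ H, (if (y ∈ G ∧ z ∈ H) ∧ s(y, z) ∈ A then (1:ℝ) else 0) := by
        rw [hZdef]; unfold Zc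
        apply Finset.sum_congr rfl; intro y hy
        apply Finset.sum_congr rfl; intro z hz
        simp [hy, hz]
      rw [this]
      have nn : ∀ y z, 0 ≤ (if (y ∈ G ∧ z ∈ H) ∧ s(y, z) ∈ A then (1:ℝ) else 0) := by
        intro y z; split_ifs <;> norm_num
      have hsub : ∀ y, ∑ z ∈ U, (if (y ∈ G ∧ z ∈ H) ∧ s(y, z) ∈ A then (1:ℝ) else 0)
          ≤ ∑ z ∈ H, (if (y ∈ G ∧ z ∈ H) ∧ s(y, z) ∈ A then (1:ℝ) else 0) := by
        intro y
        calc _ ≤ ∑ z ∈ U ∪ H, (if (y ∈ G ∧ z ∈ H) ∧ s(y, z) ∈ A then (1:ℝ) else 0) :=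
              Finset.sum_le_sum_of_subset_of_nonneg Finset.subset_union_left (fun z _ _ => nn y z)
          _ = _ := by
              symm
              apply Finset.sum_subset Finset.subset_union_right
              intro z _ hz
              rw [if_neg (fun h => hz h.1.2)]
      calc _ ≤ ∑ y ∈ U, ∑ z ∈ H, (if (y ∈ G ∧ z ∈ H) ∧ s(y, z) ∈ A then (1:ℝ) else 0) :=
            Finset.sum_le_sum (fun y _ => hsub y)
        _ ≤ ∑ y ∈ U ∪ G, ∑ z ∈ H, (if (y ∈ G ∧ z ∈ H) ∧ s(y, z) ∈ A then (1:ℝ) else 0) :=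
            Finset.sum_le_sum_of_subset_of_nonneg Finset.subset_union_left
              (fun y _ _ => Finset.sum_nonneg (fun z _ => nn y z))
        _ = _ := by
            symm
            apply Finset.sum_subset Finset.subset_union_right
            intro y _ hy
            apply Finset.sum_eq_zero; intro z _
            rw [if_neg (fun h => hy h.1.1)]
    have e5 : ∑ y ∈ U, ∑ z ∈ U, (if (z ∈ G ∧ y ∈ H) ∧ s(z, y) ∈ A then (1:ℝ) else 0) ≤ Z := by
      rw [Finset.sum_comm]; exact e4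
    calc nrg U φ₃ ≤ ∑ y ∈ U, ∑ z ∈ U, (2 * (if (y ∈ G ∧ z ∈ H) ∧ s(y, z) ∈ A then (1:ℝ) else 0)
          + 2 * (if (z ∈ G ∧ y ∈ H) ∧ s(z, y) ∈ A then 1 else 0)) := by
          unfold nrg
          apply Finset.sum_le_sum; intro y _
          apply Finset.sum_le_sum; intro z _
          rw [e3]
          split_ifs <;> norm_num
      _ = 2 * (∑ y ∈ U, ∑ z ∈ U, (if (y ∈ G ∧ z ∈ H) ∧ s(y, z) ∈ A then (1:ℝ) else 0)) +
          2 * (∑ y ∈ U, ∑ z ∈ U, (if (z ∈ G ∧ y ∈ H) ∧ s(z, y) ∈ A then (1:ℝ) else 0)) := by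
          simp only [Finset.sum_add_distrib, Finset.mul_sum]
      _ ≤ 4 * Z := by linarith
  have h4 := nrg_add3_le U (fun y z => - φ₁ y z) φ₂ φ₃
  rw [nrg_neg] at h4
  rw [h1, nrg_mul]
  have hn1 := nrg_nonneg U φ₁
  have hn2 := nrg_nonneg U φ₂
  have h5 : (1 / Z) ^ 2 ≤ 4 / l ^ 2 := by
    rw [one_div, inv_pow, inv_eq_one_div, div_le_div_iff₀ (by positivity) (by positivity)]
    nlinarith
  have h6 : (1 / Z) ≤ 2 / l := by
    rw [div_le_div_iff₀ hZ0 hl]; linarith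
  calc (1 / Z) ^ 2 * nrg U (fun y z => - φ₁ y z + φ₂ y z + φ₃ y z)
      ≤ (1 / Z) ^ 2 * (3 * (nrg U φ₁ + nrg U φ₂ + 4 * Z)) := by
        apply mul_le_mul_of_nonneg_left _ (sq_nonneg _)
        linarith
    _ = (1 / Z) ^ 2 * (3 * (nrg U φ₁ + nrg U φ₂)) + 12 * (1 / Z) := by
        field_simp
        ring
    _ ≤ (4 / l ^ 2) * (3 * (nrg U φ₁ + nrg U φ₂)) + 12 * (2 / l) := by
        apply add_le_add
        · exact mul_le_mul_of_nonneg_right h5 (by positivity)
        · linarith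
    _ = _ := by ring

end flow

end Pool.Agent.Lib.MP_133e92_pr
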