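import Pool.Agent.Lib.MP_133e92_pr.Merge2

open Finset
open scoped BigOperators Classical

namespace Pool.Agent.Lib.MP_133e92_pr

section init

variable {V : Type*} {p : Sym2 V → ℝ}

lemma bfs_stab (B : Finset V) (A : Finset (Sym2 V)) (z : V) (hz : z ∈ B) :
    ∃ n, n ≤ B.card ∧ ∀ m, bfs B A z m ⊆ bfs B A z n := by
  have h1 : ∃ n, n ≤ B.card ∧ bfs B A z (n + 1) = bfs B A z n := by
    by_contra hcon
    push Not at hcon
    have h2 : ∀ n, n ≤ B.card + 1 → n + 1 ≤ (bfs B A z n).card := by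
      intro n
      induction n with
      | zero => intro _; simp [bfs]
      | succ n ih =>
        intro hn
        have h3 := ih (by omega)
        have h4 : bfs B A z n ⊂ bfs B A z (n + 1) := by
          rw [Finset.ssubset_iff_subset_ne]
          exact ⟨bfs_mono B A z (Nat.le_succ n), fun h => hcon n (by omega) h.symm⟩
        have h5 := Finset.card_lt_card h4
        omega
    have h6 := h2 B.card (by omega)
    have h7 := Finset.card_le_card (bfs_subset (A := A) hz B.card)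
    omega
  obtain ⟨n, hn, hstab⟩ := h1
  refine ⟨n, hn, ?_⟩
  have h8 : ∀ m, bfs B A z (n + m) = bfs B A z n := by
    intro m
    induction m with
    | zero => rfl
    | succ m ih =>
      rw [← add_assoc, bfs_succ, ih, ← bfs_succ, hstab]
  intro m
  rcases le_total m n with h | h
  · exact bfs_mono B A z h
  · obtain ⟨k, rfl⟩ := Nat.exists_eq_add_of_le h
    rw [h8]

/-- Path flows. -/
lemma path_flow {U B : Finset V} (hBU : B ⊆ U) {A : Finset (Sym2 V)} (hA : A ⊆ edg B) {z : V}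
    (hz : z ∈ B) (n : ℕ) : ∀ y ∈ bfs B A z n, ∃ φ : V → V → ℝ, (∀ a b, φ b a = - φ a b) ∧
      (∀ a b, φ a b ≠ 0 → s(a, b) ∈ A) ∧ (∀ a b, |φ a b| ≤ n) ∧
      ∀ a, ∑ b ∈ U, φ a b = (if a = z then 1 else 0) - (if a = y then 1 else 0) := by
  induction n with
  | zero =>
    intro y hy
    have hyz : y = z := by simpa [bfs] using hy
    subst hyz
    refine ⟨fun _ _ => 0, ?_, ?_, ?_, ?_⟩
    · intro a b; simp
    · intro a b h; exact absurd rfl h
    · intro a b; simp
    · intro a; simp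
  | succ n ih =>
    intro y hy
    rw [bfs_succ, Finset.mem_union, Finset.mem_filter] at hy
    rcases hy with hy | ⟨hyB, x, hx, hxy⟩
    · obtain ⟨φ, h1, h2, h3, h4⟩ := ih y hy
      refine ⟨φ, h1, h2, ?_, h4⟩
      intro a b
      refine (h3 a b).trans ?_
      push_cast; linarith
    · obtain ⟨φ, h1, h2, h3, h4⟩ := ih x hx
      have hxB := bfs_subset hz n hx
      refine ⟨fun a b => φ a b + ((if a = x ∧ b = y then 1 else 0) -
        (if a = y ∧ b = x then 1 else 0)), ?_, ?_, ?_, ?_⟩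
      · intro a b
        have e1 : (if b = x ∧ a = y then (1:ℝ) else 0) = if a = y ∧ b = x then 1 else 0 :=
          if_congr and_comm rfl rfl
        have e2 : (if b = y ∧ a = x then (1:ℝ) else 0) = if a = x ∧ b = y then 1 else 0 :=
          if_congr and_comm rfl rfl
        simp only
        rw [h1 a b, e1, e2]; ring
      · intro a b hab
        by_contra hA'
        apply hab
        have e0 : φ a b = 0 := by
          by_contra h; exact hA' (h2 a b h)
        have e1 : ¬ (a = x ∧ b = y) := by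
          rintro ⟨rfl, rfl⟩; exact hA' hxy
        have e2 : ¬ (a = y ∧ b = x) := by
          rintro ⟨rfl, rfl⟩
          apply hA'; rwa [Sym2.eq_swap]
        simp only
        rw [e0, if_neg e1, if_neg e2]; ring
      · intro a b
        have e1 : |(if a = x ∧ b = y then (1:ℝ) else 0) - (if a = y ∧ b = x then 1 else 0)| ≤ 1 := by
          split_ifs <;> norm_num
        have := abs_add_le (φ a b) ((if a = x ∧ b = y then (1:ℝ) else 0) -
          (if a = y ∧ b = x then 1 else 0))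
        have := h3 a b
        push_cast
        linarith
      · intro a
        simp only
        rw [Finset.sum_add_distrib, h4 a, Finset.sum_sub_distrib]
        have e1 : ∑ b ∈ U, (if a = x ∧ b = y then (1:ℝ) else 0) = if a = x then 1 else 0 := by
          by_cases hax : a = x
          · simp [hax, hBU hyB]
          · simp [hax]
        have e2 : ∑ b ∈ U, (if a = y ∧ b = x then (1:ℝ) else 0) = if a = y then 1 else 0 := by
          by_cases hax : a = y
          · simp [hax, hBU hxB]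
          · simp [hax]
        rw [e1, e2]; ring

/-- Flow between two connected vertices with a crude energy bound. -/
lemma conn_flow {U B : Finset V} (hBU : B ⊆ U) {A : Finset (Sym2 V)} (hA : A ⊆ edg B) {z y : V}
    (hz : z ∈ B) (hzy : Rch A z y) : ∃ φ : V → V → ℝ, (∀ a b, φ b a = - φ a b) ∧
      (∀ a b, φ a b ≠ 0 → s(a, b) ∈ A) ∧ nrg U φ ≤ (B.card : ℝ) ^ 4 ∧
      ∀ a, ∑ b ∈ U, φ a b = (if a = z then 1 else 0) - (if a = y then 1 else 0) := by
  obtain ⟨n, hn, hst⟩ := bfs_stab B A z hz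
  obtain ⟨m, hm⟩ := exists_mem_bfs hA hzy
  obtain ⟨φ, h1, h2, h3, h4⟩ := path_flow hBU hA hz n y (hst m hm)
  refine ⟨φ, h1, h2, ?_, h4⟩
  have hn' : (n:ℝ) ≤ B.card := by exact_mod_cast hn
  have h5 : ∀ a b, φ a b ^ 2 ≤ if a ∈ B ∧ b ∈ B then (B.card : ℝ) ^ 2 else 0 := by
    intro a b
    by_cases h : φ a b = 0
    · rw [h, zero_pow two_ne_zero]
      split_ifs
      · exact sq_nonneg _
      · exact le_refl _
    · have h6 := mem_edg.1 (hA (h2 a b h))
      rw [if_pos ⟨h6.1, h6.2.1⟩]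
      have h7 := abs_le.1 ((h3 a b).trans hn')
      exact sq_le_sq' h7.1 h7.2
  unfold nrg
  calc ∑ y ∈ U, ∑ z ∈ U, φ y z ^ 2
      ≤ ∑ a ∈ U, ∑ b ∈ U, (if a ∈ B ∧ b ∈ B then (B.card : ℝ) ^ 2 else 0) :=
        Finset.sum_le_sum (fun a _ => Finset.sum_le_sum (fun b _ => h5 a b))
    _ = ∑ a ∈ B, ∑ b ∈ B, (B.card : ℝ) ^ 2 := by
        symm
        rw [← Finset.sum_subset hBU]
        · apply Finset.sum_congr rfl; intro a ha
          rw [← Finset.sum_subset hBU]
          · apply Finset.sum_congr rfl; intro b hb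
            rw [if_pos ⟨ha, hb⟩]
          · intro b _ hb; rw [if_neg (fun h => hb h.2)]
        · intro a _ ha
          apply Finset.sum_eq_zero; intro b _
          rw [if_neg (fun h => ha h.1)]
    _ = (B.card : ℝ) ^ 4 := by
        rw [Finset.sum_const, Finset.sum_const, nsmul_eq_mul, nsmul_eq_mul]; ring

/-- Maximal cluster size. -/
noncomputable def mx (B : Finset V) (A : Finset (Sym2 V)) : ℕ := B.sup (fun z => (cl B A z).card)

lemma mx_le (B : Finset V) (A : Finset (Sym2 V)) : mx B A ≤ B.card := by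
  unfold mx
  apply Finset.sup_le
  intro z _
  exact Finset.card_le_card (Finset.filter_subset _ _)

lemma exists_eq_mx {B : Finset V} (hB : B.Nonempty) (A : Finset (Sym2 V)) :
    ∃ z ∈ B, (cl B A z).card = mx B A := by
  obtain ⟨z, hz, h⟩ := Finset.exists_mem_eq_sup B hB (fun z => (cl B A z).card)
  exact ⟨z, hz, h.symm⟩

lemma aux_fs1 {g : ℝ} (c : ℝ) (hg : 0 < g) : (1 / g) * (g * c - 1) = c - 1 / g := by
  field_simp

lemma aux_fs2 {g : ℝ} (c : ℝ) (hg : 0 < g) : (1 / g) * (g * c - 0) = c - 0 := by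
  field_simp; ring

lemma aux_fs3 {g : ℝ} (hg : 0 < g) : g * (1 / g) = 1 := by
  field_simp

lemma aux_fs4 {g : ℝ} (c : ℝ) (hg : 0 < g) : g * ((1 / g) * c) = c := by
  field_simp

/-- Flows on a cluster. -/
lemma cluster_flow {U B : Finset V} (hBU : B ⊆ U) {A : Finset (Sym2 V)} (hA : A ⊆ edg B) {z : V}
    (hz : z ∈ B) : ∃ θ : V → V → V → ℝ, Val U B A (cl B A z) θ ∧
      tot U (cl B A z) θ ≤ (B.card : ℝ) ^ 4 * B.card := by
  set G := cl B A z with hG
  have hzG : z ∈ G := mem_cl.2 ⟨hz, Rch.refl A z⟩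
  have hGB : G ⊆ B := Finset.filter_subset _ _
  have hGc : (0:ℝ) < G.card := by exact_mod_cast Finset.card_pos.2 ⟨z, hzG⟩
  have hconn : ∀ x ∈ G, ∀ y ∈ G, Rch A x y := by
    intro x hx y hy
    exact ((mem_cl.1 hx).2.symm).trans (mem_cl.1 hy).2
  have hex : ∀ x y, ∃ φ : V → V → ℝ, x ∈ G → y ∈ G → (∀ a b, φ b a = - φ a b) ∧
      (∀ a b, φ a b ≠ 0 → s(a, b) ∈ A) ∧ nrg U φ ≤ (B.card : ℝ) ^ 4 ∧
      ∀ a, ∑ b ∈ U, φ a b = (if a = x then 1 else 0) - (if a = y then 1 else 0) := by
    intro x y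
    by_cases hxy : x ∈ G ∧ y ∈ G
    · obtain ⟨φ, h⟩ := conn_flow hBU hA (hGB hxy.1) (hconn x hxy.1 y hxy.2)
      exact ⟨φ, fun _ _ => h⟩
    · exact ⟨fun _ _ => 0, fun hx hy => absurd ⟨hx, hy⟩ hxy⟩
  choose φ hφ using hex
  -- antisymmetrised flows
  set ψ : V → V → V → V → ℝ := fun x y a b => (1 / 2) * (φ x y a b - φ y x a b) with hψ
  have hψanti : ∀ x y a b, ψ y x a b = - ψ x y a b := by
    intro x y a b; rw [hψ]; ring
  have hψ1 : ∀ x ∈ G, ∀ y ∈ G, ∀ a b, ψ x y b a = - ψ x y a b := by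
    intro x hx y hy a b
    rw [hψ]; simp only
    rw [(hφ x y hx hy).1 a b, (hφ y x hy hx).1 a b]; ring
  have hψ2 : ∀ x ∈ G, ∀ y ∈ G, ∀ a b, ψ x y a b ≠ 0 → s(a, b) ∈ A := by
    intro x hx y hy a b hne
    by_contra hA'
    apply hne
    have e1 : φ x y a b = 0 := by
      by_contra h; exact hA' ((hφ x y hx hy).2.1 a b h)
    have e2 : φ y x a b = 0 := by
      by_contra h; exact hA' ((hφ y x hy hx).2.1 a b h)
    rw [hψ]; simp only
    rw [e1, e2]; ring
  have hψ3 : ∀ x ∈ G, ∀ y ∈ G, nrg U (ψ x y) ≤ (B.card : ℝ) ^ 4 := by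
    intro x hx y hy
    have h1 := (hφ x y hx hy).2.2.1
    have h2 := (hφ y x hy hx).2.2.1
    have h3 : nrg U (ψ x y) ≤ (1 / 2) * (nrg U (φ x y) + nrg U (φ y x)) := by
      unfold nrg
      rw [← Finset.sum_add_distrib, Finset.mul_sum]
      apply Finset.sum_le_sum; intro a _
      rw [← Finset.sum_add_distrib, Finset.mul_sum]
      apply Finset.sum_le_sum; intro b _
      rw [hψ]; simp only
      nlinarith [sq_nonneg (φ x y a b + φ y x a b)]
    linarith
  have hψ4 : ∀ x ∈ G, ∀ y ∈ G, ∀ a, ∑ b ∈ U, ψ x y a b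
      = (if a = x then 1 else 0) - (if a = y then 1 else 0) := by
    intro x hx y hy a
    rw [hψ]; simp only
    rw [← Finset.mul_sum, Finset.sum_sub_distrib, (hφ x y hx hy).2.2.2 a,
      (hφ y x hy hx).2.2.2 a]
    ring
  set θ : V → V → V → ℝ := fun x a b => if x ∈ G then (1 / (G.card : ℝ)) * ∑ y ∈ G, ψ x y a b
    else 0 with hθ
  refine ⟨θ, ⟨hGB, ?_, ?_, ?_, ?_⟩, ?_⟩
  · intro x a b
    rw [hθ]; simp only
    by_cases hx : x ∈ G
    · rw [if_pos hx, if_pos hx, ← mul_neg, ← Finset.sum_neg_distrib]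
      congr 1
      apply Finset.sum_congr rfl; intro y hy
      exact hψ1 x hx y hy a b
    · rw [if_neg hx, if_neg hx, neg_zero]
  · intro x a b hne
    by_contra hA'
    apply hne
    rw [hθ]; simp only
    by_cases hx : x ∈ G
    · rw [if_pos hx, Finset.sum_eq_zero, mul_zero]
      intro y hy
      by_contra h
      exact hA' (hψ2 x hx y hy a b h)
    · rw [if_neg hx]
  · intro x hx a
    have e1 : ∀ b ∈ U, θ x a b = (1 / (G.card : ℝ)) * ∑ y ∈ G, ψ x y a b := by
      intro b _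
      rw [hθ]; simp only
      rw [if_pos hx]
    rw [Finset.sum_congr rfl e1, ← Finset.mul_sum, Finset.sum_comm,
      Finset.sum_congr rfl (fun y hy => hψ4 x hx y hy a), Finset.sum_sub_distrib,
      Finset.sum_const, nsmul_eq_mul]
    have e2 : ∑ y ∈ G, (if a = y then (1:ℝ) else 0) = if a ∈ G then 1 else 0 := by
      simp
    rw [e2]
    by_cases ha : a ∈ G
    · rw [if_pos ha, if_pos ha]; exact aux_fs1 _ hGc
    · rw [if_neg ha, if_neg ha]; exact aux_fs2 _ hGc
  · intro a b
    have e1 : ∀ x ∈ G, θ x a b = (1 / (G.card : ℝ)) * ∑ y ∈ G, ψ x y a b := by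
      intro x hx
      rw [hθ]; simp only
      rw [if_pos hx]
    rw [Finset.sum_congr rfl e1, ← Finset.mul_sum]
    set T := ∑ x ∈ G, ∑ y ∈ G, ψ x y a b with hT
    have e2 : T = - T := by
      conv_lhs => rw [hT, Finset.sum_comm]
      rw [hT, ← Finset.sum_neg_distrib]
      apply Finset.sum_congr rfl; intro x _
      rw [← Finset.sum_neg_distrib]
      apply Finset.sum_congr rfl; intro y _
      exact hψanti x y a b
    have e3 : T = 0 := by linarith
    rw [e3, mul_zero]
  · unfold tot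
    have h1 : ∀ x ∈ G, nrg U (θ x) ≤ (B.card : ℝ) ^ 4 := by
      intro x hx
      have h2 : nrg U (θ x) ≤ ∑ y ∈ G, (1 / (G.card : ℝ)) * nrg U (ψ x y) := by
        have h3 : ∑ y ∈ G, (1 / (G.card : ℝ)) * nrg U (ψ x y)
            = ∑ a ∈ U, ∑ b ∈ U, ∑ y ∈ G, (1 / (G.card : ℝ)) * ψ x y a b ^ 2 := by
          unfold nrg
          simp_rw [Finset.mul_sum]
          rw [Finset.sum_comm]
          apply Finset.sum_congr rfl; intro a _
          rw [Finset.sum_comm]
        rw [h3]
        unfold nrg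
        apply Finset.sum_le_sum; intro a _
        apply Finset.sum_le_sum; intro b _
        rw [hθ]; simp only
        rw [if_pos hx, Finset.mul_sum]
        apply jensen_sq G (fun _ => 1 / (G.card : ℝ)) (fun y => ψ x y a b)
          (fun _ _ => one_div_nonneg.2 (Nat.cast_nonneg _))
        rw [Finset.sum_const, nsmul_eq_mul]
        exact le_of_eq (aux_fs3 hGc)
      refine h2.trans ?_
      calc ∑ y ∈ G, (1 / (G.card : ℝ)) * nrg U (ψ x y)
          ≤ ∑ y ∈ G, (1 / (G.card : ℝ)) * (B.card : ℝ) ^ 4 := by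
            apply Finset.sum_le_sum; intro y hy
            exact mul_le_mul_of_nonneg_left (hψ3 x hx y hy) (one_div_nonneg.2 (Nat.cast_nonneg _))
        _ = (B.card : ℝ) ^ 4 := by
            rw [Finset.sum_const, nsmul_eq_mul]; exact aux_fs4 _ hGc
    calc ∑ x ∈ G, nrg U (θ x) ≤ ∑ x ∈ G, (B.card : ℝ) ^ 4 := Finset.sum_le_sum h1
      _ = G.card * (B.card : ℝ) ^ 4 := by rw [Finset.sum_const, nsmul_eq_mul]
      _ ≤ B.card * (B.card : ℝ) ^ 4 := by
          apply mul_le_mul_of_nonneg_right _ (pow_nonneg (Nat.cast_nonneg _) _)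
          exact_mod_cast Finset.card_le_card hGB
      _ = _ := by ring

/-- Initial data. -/
theorem init_dat (hp0 : ∀ e, 0 ≤ p e) (hp1 : ∀ e, p e ≤ 1) {U B : Finset V} (hBU : B ⊆ U)
    (hB : B.Nonempty) {t : ℝ} (ht : 0 < t)
    (h : 5 * t * B.card ≤ Ex p (edg B) (fun A => (mx B A : ℝ))) :
    Dat p t U B (3 * t) ((B.card : ℝ) ^ 4) := by
  have hBc : (0:ℝ) < B.card := by exact_mod_cast Finset.card_pos.2 hB
  have hex : ∀ A : Finset (Sym2 V), ∃ (G : Finset V) (θ : V → V → V → ℝ), A ⊆ edg B →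
      Val U B A G θ ∧ tot U G θ ≤ (B.card : ℝ) ^ 4 * B.card ∧
      (G = ∅ ∨ t * B.card ≤ G.card) ∧ (mx B A : ℝ) - t * B.card ≤ G.card := by
    intro A
    by_cases hA : A ⊆ edg B
    · by_cases hbig : t * B.card ≤ (mx B A : ℝ)
      · obtain ⟨z, hz, hzm⟩ := exists_eq_mx hB A
        obtain ⟨θ, h1, h2⟩ := cluster_flow hBU hA hz
        refine ⟨cl B A z, θ, fun _ => ⟨h1, h2, Or.inr ?_, ?_⟩⟩
        · rw [hzm]; exact hbig
        · rw [hzm]
          have : 0 < t * B.card := by positivity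
          linarith
      · push Not at hbig
        refine ⟨∅, fun _ _ _ => 0, fun _ => ⟨val_empty U B A, ?_, Or.inl rfl, ?_⟩⟩
        · unfold tot; simp; positivity
        · simp; linarith
    · exact ⟨∅, fun _ _ _ => 0, fun h => absurd h hA⟩
  choose G θ hGθ using hex
  refine ⟨G, θ, fun A hA => (hGθ A hA).1, fun A hA => (hGθ A hA).2.2.1, ?_, ?_⟩
  · have hmean : 4 * t * B.card ≤ Ex p (edg B) (fun A => ((G A).card : ℝ)) := by
      have h1 : Ex p (edg B) (fun A => (mx B A : ℝ) - t * B.card)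
          ≤ Ex p (edg B) (fun A => ((G A).card : ℝ)) :=
        Ex_mono hp0 hp1 (fun A hA => (hGθ A hA).2.2.2)
      rw [Ex_sub, Ex_const] at h1
      linarith
    have hvar : Ex p (edg B) (fun A => (((G A).card : ℝ) -
        Ex p (edg B) (fun A => ((G A).card : ℝ))) ^ 2) ≤ (B.card : ℝ) ^ 2 := by
      refine (Ex_var_le _ _ 0).trans ?_
      refine (Ex_mono hp0 hp1 (g := fun _ => (B.card : ℝ) ^ 2) (fun A hA => ?_)).trans
        (le_of_eq (Ex_const _ _))
      have h2 : ((G A).card : ℝ) ≤ B.card := by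
        exact_mod_cast Finset.card_le_card (hGθ A hA).1.sub
      rw [sub_zero]
      exact pow_le_pow_left₀ (Nat.cast_nonneg _) h2 2
    have h3 : (t / B.card) * Ex p (edg B) (fun A => (((G A).card : ℝ) -
        Ex p (edg B) (fun A => ((G A).card : ℝ))) ^ 2) ≤ t * B.card := by
      calc _ ≤ (t / B.card) * (B.card : ℝ) ^ 2 := mul_le_mul_of_nonneg_left hvar (by positivity)
        _ = _ := by field_simp
    linarith
  · refine (Ex_mono hp0 hp1 (g := fun _ => (B.card : ℝ) ^ 4 * B.card)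
      (fun A hA => (hGθ A hA).2.1)).trans (le_of_eq (Ex_const _ _))

end init

end Pool.Agent.Lib.MP_133e92_pr
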