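import Pool.Agent.Lib.MP_133e92_pr.Merge2
import Pool.Agent.Lib.MP_133e92_pr.Geom

open Finset
open scoped BigOperators Classical

namespace Pool.Agent.Lib.MP_133e92_pr

section gen

variable {V : Type*} {p : Sym2 V → ℝ}

lemma Dat.mono {t : ℝ} {U B : Finset V} {Ψ Ψ' s s' : ℝ} (h : Dat p t U B Ψ s) (hΨ : Ψ' ≤ Ψ)
    (hs : s ≤ s') : Dat p t U B Ψ' s' := by
  obtain ⟨G, θ, h1, h2, h3, h4⟩ := h
  refine ⟨G, θ, h1, h2, ?_, ?_⟩
  · exact (mul_le_mul_of_nonneg_right hΨ (Nat.cast_nonneg _)).trans h3
  · exact h4.trans (mul_le_mul_of_nonneg_right hs (Nat.cast_nonneg _))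

/-- A flow from `x` to a spread out (signed) measure, carried by the open edges of `A`. -/
def FlowEv (B : Finset V) (x : V) (C ε : ℝ) (A : Finset (Sym2 V)) : Prop :=
  ∃ (φ : V → V → ℝ) (ν : V → ℝ), (∀ y z, φ z y = - φ y z) ∧ (∀ y z, φ y z ≠ 0 → s(y, z) ∈ A) ∧
    nrg B φ ≤ C ∧ (∀ y, |ν y| ≤ ε) ∧ ∀ y, ∑ z ∈ B, φ y z = (if y = x then 1 else 0) - ν y

/-- Extraction of a vertex with a good flow with probability bounded below. -/
theorem Dat.extract (hp0 : ∀ e, 0 ≤ p e) (hp1 : ∀ e, p e ≤ 1) {t s : ℝ} {B : Finset V}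
    (ht : 0 < t) (hs : 0 < s) (hB : B.Nonempty) (h : Dat p t B B (2 * t) s) :
    ∃ x ∈ B, t ≤ Ex p (edg B) (fun A => if FlowEv B x (s / t) (1 / (t * B.card)) A
      then 1 else 0) := by
  obtain ⟨G, θ, h1, h2, h3, h4⟩ := h
  have hBc : (0:ℝ) < B.card := by exact_mod_cast Finset.card_pos.2 hB
  have hC : 0 < s / t := by positivity
  have hmean : 2 * t * B.card ≤ Ex p (edg B) (fun A => ((G A).card : ℝ)) := by
    have h5 : 0 ≤ (t / B.card) *
      Ex p (edg B) (fun A => (((G A).card : ℝ) - Ex p (edg B) (fun A => ((G A).card : ℝ))) ^ 2) :=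
      mul_nonneg (by positivity) (Ex_nonneg hp0 hp1 (fun A _ => sq_nonneg _))
    linarith
  by_contra hcon
  push Not at hcon
  have hsum : ∑ x ∈ B, Ex p (edg B) (fun A => if FlowEv B x (s / t) (1 / (t * B.card)) A
      then (1:ℝ) else 0) < t * B.card := by
    calc _ < ∑ x ∈ B, t := Finset.sum_lt_sum_of_nonempty hB hcon
      _ = _ := by rw [Finset.sum_const, nsmul_eq_mul]; ring
  rw [← Ex_sum] at hsum
  have hpt : ∀ A, A ⊆ edg B → ((G A).card : ℝ) - tot B (G A) (θ A) * (t / s)
      ≤ ∑ x ∈ B, if FlowEv B x (s / t) (1 / (t * B.card)) A then (1:ℝ) else 0 := by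
    intro A hA
    have hv := h1 A hA
    have hGB : G A ⊆ B := hv.sub
    calc ((G A).card : ℝ) - tot B (G A) (θ A) * (t / s)
        = ∑ x ∈ G A, (1 - nrg B (θ A x) * (t / s)) := by
          unfold tot
          rw [Finset.sum_sub_distrib, Finset.sum_const, nsmul_eq_mul, mul_one, Finset.sum_mul]
      _ ≤ ∑ x ∈ G A, (if FlowEv B x (s / t) (1 / (t * B.card)) A then (1:ℝ) else 0) := by
          apply Finset.sum_le_sum
          intro x hx
          by_cases hn : nrg B (θ A x) ≤ s / t
          · have hF : FlowEv B x (s / t) (1 / (t * B.card)) A := by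
              refine ⟨θ A x, fun y => if y ∈ G A then 1 / ((G A).card : ℝ) else 0, ?_, ?_, hn, ?_,
                ?_⟩
              · exact fun y z => hv.anti x y z
              · exact fun y z => hv.supp x y z
              · intro y
                have hne : G A ≠ ∅ := Finset.nonempty_iff_ne_empty.1 ⟨x, hx⟩
                have h6 := (h2 A hA).resolve_left hne
                have h7 : (0:ℝ) < t * B.card := by positivity
                have h8 : 1 / ((G A).card : ℝ) ≤ 1 / (t * B.card) :=
                  one_div_le_one_div_of_le h7 h6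
                simp only
                split_ifs
                · rw [abs_of_nonneg (by positivity)]; exact h8
                · rw [abs_zero]; positivity
              · exact fun y => hv.div x hx y
            rw [if_pos hF]
            have := nrg_nonneg B (θ A x)
            have h9 : 0 ≤ nrg B (θ A x) * (t / s) := by positivity
            linarith
          · push Not at hn
            have h9 : 1 ≤ nrg B (θ A x) * (t / s) := by
              calc (1:ℝ) = (s / t) * (t / s) := by field_simp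
                _ ≤ _ := mul_le_mul_of_nonneg_right hn.le (by positivity)
            split_ifs <;> linarith
      _ ≤ _ := Finset.sum_le_sum_of_subset_of_nonneg hGB
          (fun x _ _ => by split_ifs <;> norm_num)
  have h10 := Ex_mono (p := p) hp0 hp1 hpt
  rw [Ex_sub, Ex_mul_right] at h10
  have h11 : Ex p (edg B) (fun A => tot B (G A) (θ A)) * (t / s) ≤ t * B.card := by
    calc _ ≤ (s * B.card) * (t / s) := mul_le_mul_of_nonneg_right h4 (by positivity)
      _ = _ := by field_simp
  linarith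

end gen

section hier

attribute [-instance] Finsupp.instDecidableEq

variable {N : ℕ}

/-- Edge probabilities depending on the distance. -/
noncomputable def lvl (N : ℕ) (q : ℕ → ℝ) : Sym2 (HGroup N) → ℝ :=
  Sym2.lift ⟨fun x y => q (hdist x y), fun x y => by simp only [hdist_comm x y]⟩

lemma lvl_mk (q : ℕ → ℝ) (x y : HGroup N) : lvl N q s(x, y) = q (hdist x y) := rfl

lemma lvl_nonneg {q : ℕ → ℝ} (hq : ∀ k, 0 ≤ q k) (e : Sym2 (HGroup N)) : 0 ≤ lvl N q e := by
  induction e using Sym2.ind with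
  | _ x y => exact hq _

lemma lvl_le_one {q : ℕ → ℝ} (hq : ∀ k, q k ≤ 1) (e : Sym2 (HGroup N)) : lvl N q e ≤ 1 := by
  induction e using Sym2.ind with
  | _ x y => exact hq _

variable [NeZero N]

/-- Decomposition of a ball into sub-balls. -/
lemma hball_decomp (k b : ℕ) (x : HGroup N) :
    ((hball (k + b) x).image (hball k)).biUnion id = hball (k + b) x ∧
    (((hball (k + b) x).image (hball k)).card : ℝ) = (N : ℝ) ^ b := by
  have hU : ((hball (k + b) x).image (hball k)).biUnion id = hball (k + b) x := by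
    ext y
    rw [Finset.mem_biUnion]
    constructor
    · rintro ⟨i, hi, hy⟩
      rw [Finset.mem_image] at hi
      obtain ⟨z, hz, rfl⟩ := hi
      rw [id, mem_hball] at hy
      rw [mem_hball] at hz ⊢
      have := hdist_triangle x z y
      omega
    · intro hy
      exact ⟨hball k y, Finset.mem_image_of_mem _ hy, self_mem_hball k y⟩
  refine ⟨hU, ?_⟩
  have hdisj : (((hball (k + b) x).image (hball k) : Finset (Finset (HGroup N))) :
      Set (Finset (HGroup N))).PairwiseDisjoint id := by
    intro i hi j hj hij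
    rw [Finset.mem_coe, Finset.mem_image] at hi hj
    obtain ⟨y, _, rfl⟩ := hi
    obtain ⟨z, _, rfl⟩ := hj
    simp only [Function.onFun, id]
    rw [Finset.disjoint_left]
    intro w hw hw'
    rw [mem_hball] at hw hw'
    exact hij ((hball_eq hw).trans (hball_eq hw').symm)
  have hc := Finset.card_biUnion hdisj
  rw [hU, card_hball] at hc
  have hc2 : ∑ u ∈ (hball (k + b) x).image (hball k), (id u).card
      = ((hball (k + b) x).image (hball k)).card * N ^ k := by
    rw [Finset.sum_congr rfl (g := fun _ => N ^ k), Finset.sum_const, smul_eq_mul]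
    intro u hu
    rw [Finset.mem_image] at hu
    obtain ⟨y, _, rfl⟩ := hu
    exact card_hball k y
  rw [hc2, pow_add, mul_comm] at hc
  have hNk : 0 < N ^ k := pow_pos (Nat.pos_of_ne_zero (NeZero.ne N)) k
  have := Nat.eq_of_mul_eq_mul_right hNk hc
  rw [← this]; push_cast; rfl

/-- One merging step in the hierarchical group. -/
theorem step_dat {q : ℕ → ℝ} (hq0 : ∀ k, 0 ≤ q k) (hq1 : ∀ k, q k ≤ 1) {k b : ℕ} {t : ℝ}
    (ht : 0 < t) (ht1 : t ≤ 1) (hM : 1 + 2 / t ^ 2 ≤ (N : ℝ) ^ b) {U : Finset (HGroup N)}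
    {x : HGroup N} (hU : hball (k + b) x ⊆ U) {Λ : ℝ} (hΛ : 0 < Λ)
    (hΛq : ∀ d, k < d → d ≤ k + b → Λ ≤ q d * (t * (N : ℝ) ^ k) ^ 2) {Ψ s : ℝ}
    (hΨ : 2 * t ≤ Ψ)
    (hdat : ∀ y ∈ hball (k + b) x, Dat (lvl N q) t U (hball k y) Ψ s) :
    Dat (lvl N q) t U (hball (k + b) x) (Ψ - 2 * (((N : ℝ) ^ b) ^ 2 * (4 / Λ)))
      ((1 + 24 / Λ) * s + 24 / Λ) := by
  obtain ⟨hU1, hI⟩ := hball_decomp k b x
  set I := (hball (k + b) x).image (hball k) with hIdef
  have hmem : ∀ i ∈ I, ∃ y ∈ hball (k + b) x, hball k y = i := fun i hi => Finset.mem_image.1 hi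
  have hidx : ∀ i ∈ I, ∀ y ∈ id i, hball k y = i := by
    intro i hi y hy
    obtain ⟨z, _, rfl⟩ := hmem i hi
    rw [id, mem_hball] at hy
    exact (hball_eq hy).symm
  rw [← hI, ← hU1]
  apply merge (p := lvl N q) (I := I) (idx := hball k) (Bi := id) (n := N ^ k)
    (π := fun i j => if h : i.Nonempty ∧ j.Nonempty then
      lvl N q s(h.1.choose, h.2.choose) else 0)
    (lvl_nonneg hq0) (lvl_le_one hq1) hidx
  · intro i hi
    refine Finset.Subset.trans ?_ hU
    rw [← hU1]
    exact Finset.subset_biUnion_of_mem id hi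
  · intro i hi
    obtain ⟨z, _, rfl⟩ := hmem i hi
    exact card_hball k z
  · exact pow_pos (Nat.pos_of_ne_zero (NeZero.ne N)) k
  · exact ht
  · exact ht1
  · rw [hI]; exact hM
  · intro i hi j hj hij y hy z hz
    have hne : i.Nonempty ∧ j.Nonempty := ⟨⟨y, hy⟩, ⟨z, hz⟩⟩
    rw [dif_pos hne, lvl_mk, lvl_mk]
    have hy' := hne.1.choose_spec
    have hz' := hne.2.choose_spec
    set y' := hne.1.choose
    set z' := hne.2.choose
    have e1 : hball k y = i := hidx i hi y hy
    have e2 : hball k y' = i := hidx i hi y' hy'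
    have e3 : hball k z = j := hidx j hj z hz
    have e4 : hball k z' = j := hidx j hj z' hz'
    have d1 : hdist y y' ≤ k := by
      rw [← mem_hball, e1, ← e2]; exact self_mem_hball k y'
    have d2 : hdist z z' ≤ k := by
      rw [← mem_hball, e3, ← e4]; exact self_mem_hball k z'
    have d3 : k < hdist y z := by
      by_contra h
      push Not at h
      exact hij (by rw [← e1, ← e3]; exact hball_eq h)
    have h1 : hdist y' z = hdist y z := hdist_isosceles (lt_of_le_of_lt d1 d3)
    have h2 : hdist z' y' = hdist z y' := by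
      apply hdist_isosceles
      rw [hdist_comm z y', h1]
      exact lt_of_le_of_lt d2 d3
    rw [← h1, hdist_comm y' z, ← h2, hdist_comm]
  · exact hΛ
  · intro i hi j hj hij
    obtain ⟨y, hyb, hyi⟩ := hmem i hi
    obtain ⟨z, hzb, hzj⟩ := hmem j hj
    have hne : i.Nonempty ∧ j.Nonempty :=
      ⟨⟨y, by rw [← hyi]; exact self_mem_hball k y⟩, ⟨z, by rw [← hzj]; exact self_mem_hball k z⟩⟩
    rw [dif_pos hne, lvl_mk]
    have hy' := hne.1.choose_spec
    have hz' := hne.2.choose_spec
    set y' := hne.1.choose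
    set z' := hne.2.choose
    have e2 : hball k y' = i := hidx i hi y' hy'
    have e4 : hball k z' = j := hidx j hj z' hz'
    have d3 : k < hdist y' z' := by
      by_contra h
      push Not at h
      exact hij (by rw [← e2, ← e4]; exact hball_eq h)
    have d4 : hdist y' z' ≤ k + b := by
      have f1 : y' ∈ hball (k + b) x := by
        rw [← hU1]; exact Finset.mem_biUnion.2 ⟨i, hi, hy'⟩
      have f2 : z' ∈ hball (k + b) x := by
        rw [← hU1]; exact Finset.mem_biUnion.2 ⟨j, hj, hz'⟩
      rw [mem_hball] at f1 f2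
      have := hdist_triangle y' x z'
      rw [hdist_comm y' x] at this
      omega
    push_cast
    exact hΛq _ d3 d4
  · exact hΨ
  · intro i hi
    obtain ⟨y, hy, rfl⟩ := hmem i hi
    exact hdat y hy

/-- Iteration of the merging step. -/
theorem iter_dat (hN : 2 ≤ N) {q : ℕ → ℝ} (hq0 : ∀ k, 0 ≤ q k) (hq1 : ∀ k, q k ≤ 1) {κ α : ℝ}
    (hκ : 0 < κ) (hα : 1 < α) (hκq : ∀ k : ℕ, 1 ≤ k → κ * (k : ℝ) ^ α / (N : ℝ) ^ (2 * k) ≤ q k)
    {t : ℝ} (ht : 0 < t) (ht1 : t ≤ 1) {b : ℕ} (hb : 1 ≤ b)
    (hM : 1 + 2 / t ^ 2 ≤ (N : ℝ) ^ b) :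
    ∃ k1 : ℕ, ∀ k0, k1 ≤ k0 → ∀ s0 : ℝ, 0 ≤ s0 → ∃ s1 : ℝ, 0 < s1 ∧ ∀ U : Finset (HGroup N),
      (∀ x, hball k0 x ⊆ U → Dat (lvl N q) t U (hball k0 x) (3 * t) s0) →
      ∀ r x, hball (k0 + b * r) x ⊆ U → Dat (lvl N q) t U (hball (k0 + b * r) x) (2 * t) s1 := by
  have hNpos : (0:ℝ) < N := by positivity
  set w : ℕ → ℝ := fun k => 1 / (k : ℝ) ^ α with hw
  have hwsum : Summable w := Real.summable_one_div_nat_rpow.2 hα
  have hw0 : ∀ k, 0 ≤ w k := fun k => by rw [hw]; positivity
  set c : ℝ := 8 * (N : ℝ) ^ (4 * b) / (κ * t ^ 2) with hc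
  set c' : ℝ := 24 * (N : ℝ) ^ (2 * b) / (κ * t ^ 2) with hc'
  have hcpos : 0 < c := by positivity
  have hcpos' : 0 < c' := by positivity
  have htail : Filter.Tendsto (fun i => ∑' k, w (k + i)) Filter.atTop (nhds 0) :=
    tendsto_sum_nat_add w
  have hev := (htail.eventually (gt_mem_nhds (show (0:ℝ) < t / c by positivity)))
  rw [Filter.eventually_atTop] at hev
  obtain ⟨k1, hk1⟩ := hev
  refine ⟨max k1 1, ?_⟩
  intro k0 hk0 s0 hs0
  have hk0' : k1 ≤ k0 := le_trans (le_max_left _ _) hk0
  have hk0'' : 1 ≤ k0 := le_trans (le_max_right _ _) hk0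
  have hW := hk1 k0 hk0'
  set W := ∑' k, w (k + k0) with hWdef
  have hsum' : Summable (fun k => w (k + k0)) := (summable_nat_add_iff k0).2 hwsum
  have hpart : ∀ r, ∑ u ∈ Finset.range r, w (u + k0) ≤ W := fun r =>
    hsum'.sum_le_tsum (Finset.range r) (fun i _ => hw0 _)
  refine ⟨(1 + s0) * Real.exp (c' * W), by positivity, ?_⟩
  intro U hinit
  have main : ∀ r x, hball (k0 + b * r) x ⊆ U → Dat (lvl N q) t U (hball (k0 + b * r) x)
      (3 * t - c * ∑ u ∈ Finset.range r, w (u + k0))
      ((1 + s0) * Real.exp (c' * ∑ u ∈ Finset.range r, w (u + k0)) - 1) := by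
    intro r
    induction r with
    | zero =>
      intro x hx
      simp only [mul_zero, add_zero, Finset.range_zero, Finset.sum_empty, Real.exp_zero, mul_one,
        sub_zero] at hx ⊢
      exact (hinit x hx).mono le_rfl (by linarith)
    | succ r ih =>
      intro x hx
      set k := k0 + b * r with hk
      have hkk : k0 + b * (r + 1) = k + b := by rw [hk]; ring
      rw [hkk] at hx ⊢
      have hk1' : 1 ≤ k := by omega
      have hkpos : (0:ℝ) < k := by exact_mod_cast hk1'
      set Λ : ℝ := κ * t ^ 2 * (k : ℝ) ^ α / (N : ℝ) ^ (2 * b) with hΛdef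
      have hkα : (0:ℝ) < (k : ℝ) ^ α := Real.rpow_pos_of_pos hkpos α
      have hΛ : 0 < Λ := by positivity
      have hwk : w k ≤ w (r + k0) := by
        rw [hw]
        simp only
        have h1 : (0:ℝ) < ((r + k0 : ℕ) : ℝ) := by
          have : 1 ≤ r + k0 := by omega
          exact_mod_cast this
        apply one_div_le_one_div_of_le (Real.rpow_pos_of_pos h1 α)
        apply Real.rpow_le_rpow h1.le _ (by linarith)
        have : r + k0 ≤ k := by
          rw [hk]; nlinarith
        exact_mod_cast this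
      have e1 : 2 * (((N : ℝ) ^ b) ^ 2 * (4 / Λ)) = c * w k := by
        rw [hΛdef, hc, hw]
        simp only
        have e2 : (N : ℝ) ^ (4 * b) = ((N : ℝ) ^ b) ^ 2 * (N : ℝ) ^ (2 * b) := by
          rw [← pow_mul, ← pow_add]; congr 1; ring
        rw [e2]
        field_simp
        ring
      have e3 : 24 / Λ = c' * w k := by
        rw [hΛdef, hc', hw]
        simp only
        field_simp
      have hsr : ∑ u ∈ Finset.range (r + 1), w (u + k0)
          = ∑ u ∈ Finset.range r, w (u + k0) + w (r + k0) := Finset.sum_range_succ _ _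
      have hΨ : 2 * t ≤ 3 * t - c * ∑ u ∈ Finset.range r, w (u + k0) := by
        have h1 : c * ∑ u ∈ Finset.range r, w (u + k0) ≤ c * (t / c) :=
          mul_le_mul_of_nonneg_left ((hpart r).trans hW.le) hcpos.le
        have h2 : c * (t / c) = t := by field_simp
        linarith
      have hΛq : ∀ d, k < d → d ≤ k + b → Λ ≤ q d * (t * (N : ℝ) ^ k) ^ 2 := by
        intro d hd1 hd2
        have hd0 : 1 ≤ d := by omega
        have h1 := hκq d hd0
        have hdk : (k:ℝ) ^ α ≤ (d:ℝ) ^ α :=
          Real.rpow_le_rpow hkpos.le (by exact_mod_cast hd1.le) (by linarith)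
        have hNd : (N : ℝ) ^ (2 * d) ≤ (N : ℝ) ^ (2 * k) * (N : ℝ) ^ (2 * b) := by
          rw [← pow_add]
          apply pow_le_pow_right₀ (by exact_mod_cast (by omega : 1 ≤ N))
          omega
        have h2 : κ * (k : ℝ) ^ α / ((N : ℝ) ^ (2 * k) * (N : ℝ) ^ (2 * b)) ≤ q d := by
          refine le_trans ?_ h1
          apply div_le_div₀ (by positivity) _ (by positivity) hNd
          exact mul_le_mul_of_nonneg_left hdk hκ.le
        calc Λ = κ * (k : ℝ) ^ α / ((N : ℝ) ^ (2 * k) * (N : ℝ) ^ (2 * b)) *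
              (t * (N : ℝ) ^ k) ^ 2 := by
              rw [hΛdef]
              have : ((N : ℝ) ^ k) ^ 2 = (N : ℝ) ^ (2 * k) := by
                rw [← pow_mul]; congr 1; ring
              rw [mul_pow, this]
              field_simp
          _ ≤ _ := mul_le_mul_of_nonneg_right h2 (sq_nonneg _)
      have hdat : ∀ y ∈ hball (k + b) x, Dat (lvl N q) t U (hball k y)
          (3 * t - c * ∑ u ∈ Finset.range r, w (u + k0))
          ((1 + s0) * Real.exp (c' * ∑ u ∈ Finset.range r, w (u + k0)) - 1) := by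
        intro y hy
        apply ih
        refine Finset.Subset.trans ?_ hx
        intro z hz
        rw [mem_hball] at hy hz ⊢
        have := hdist_triangle x y z
        omega
      refine (step_dat hq0 hq1 ht ht1 hM hx hΛ hΛq hΨ hdat).mono ?_ ?_
      · rw [e1, hsr, mul_add]
        have := mul_le_mul_of_nonneg_left hwk hcpos.le
        linarith
      · rw [e3, hsr, mul_add, Real.exp_add]
        set X := Real.exp (c' * ∑ u ∈ Finset.range r, w (u + k0)) with hX
        have hXpos : 0 < X := Real.exp_pos _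
        have h1 : 1 + c' * w k ≤ Real.exp (c' * w (r + k0)) := by
          have h2 := Real.add_one_le_exp (c' * w (r + k0))
          have h3 := mul_le_mul_of_nonneg_left hwk hcpos'.le
          linarith
        have h4 : (1 + c' * w k) * ((1 + s0) * X) ≤ Real.exp (c' * w (r + k0)) * ((1 + s0) * X) :=
          mul_le_mul_of_nonneg_right h1 (by positivity)
        nlinarith
  intro r x hx
  refine (main r x hx).mono ?_ ?_
  · have h1 : c * ∑ u ∈ Finset.range r, w (u + k0) ≤ c * (t / c) :=
      mul_le_mul_of_nonneg_left ((hpart r).trans hW.le) hcpos.le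
    have h2 : c * (t / c) = t := by field_simp
    linarith
  · have h1 : Real.exp (c' * ∑ u ∈ Finset.range r, w (u + k0)) ≤ Real.exp (c' * W) :=
      Real.exp_le_exp.2 (mul_le_mul_of_nonneg_left (hpart r) hcpos'.le)
    have h2 : (1 + s0) * Real.exp (c' * ∑ u ∈ Finset.range r, w (u + k0))
        ≤ (1 + s0) * Real.exp (c' * W) := mul_le_mul_of_nonneg_left h1 (by linarith)
    linarith

end hier

end Pool.Agent.Lib.MP_133e92_pr
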