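import Pool.Agent.Lib.MP_133e92_pr.Akn

open Finset MeasureTheory ProbabilityTheory
open scoped BigOperators Classical ENNReal

namespace Pool.Agent.Lib.MP_133e92_pr

section link

variable {V Ω : Type*} [MeasurableSpace Ω] {μ : Measure Ω}
  {O : Ω → Set (Sym2 V)} {p : Sym2 V → ℝ}

/-- The open edges in the finite set `S`. -/
noncomputable def opn (O : Set (Sym2 V)) (S : Finset (Sym2 V)) : Finset (Sym2 V) :=
  S.filter (fun e => e ∈ O)

lemma mem_opn {O : Set (Sym2 V)} {S : Finset (Sym2 V)} {e : Sym2 V} :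
    e ∈ opn O S ↔ e ∈ S ∧ e ∈ O := by
  unfold opn; rw [Finset.mem_filter]

lemma opn_subset (O : Set (Sym2 V)) (S : Finset (Sym2 V)) : opn O S ⊆ S :=
  Finset.filter_subset _ _

lemma opn_inter {O : Set (Sym2 V)} {S T : Finset (Sym2 V)} (h : T ⊆ S) :
    opn O S ∩ T = opn O T := by
  ext e
  rw [Finset.mem_inter, mem_opn, mem_opn]
  constructor
  · rintro ⟨⟨_, h2⟩, h3⟩; exact ⟨h3, h2⟩
  · rintro ⟨h1, h2⟩; exact ⟨⟨h h1, h2⟩, h1⟩

lemma atom_eq (S A : Finset (Sym2 V)) (hA : A ⊆ S) :
    {ω | opn (O ω) S = A}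
      = ⋂ e ∈ S, (if e ∈ A then {ω | e ∈ O ω} else {ω | e ∈ O ω}ᶜ) := by
  ext ω
  simp only [Set.mem_ofPred_eq, Set.mem_iInter]
  constructor
  · intro h e he
    by_cases heA : e ∈ A
    · rw [if_pos heA]
      rw [← h, mem_opn] at heA
      exact heA.2
    · rw [if_neg heA]
      intro h'
      apply heA
      rw [← h, mem_opn]
      exact ⟨he, h'⟩
  · intro h
    ext e
    rw [mem_opn]
    constructor
    · rintro ⟨he, he'⟩
      by_contra heA
      have := h e he
      rw [if_neg heA] at this
      exact this he'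
    · intro heA
      have := h e (hA heA)
      rw [if_pos heA] at this
      exact ⟨hA heA, this⟩

lemma measurableSet_atom (hm : ∀ e, MeasurableSet {ω | e ∈ O ω}) (S A : Finset (Sym2 V)) :
    MeasurableSet {ω | opn (O ω) S = A} := by
  by_cases hA : A ⊆ S
  · rw [atom_eq S A hA]
    apply Finset.measurableSet_biInter
    intro e _
    split_ifs
    · exact hm e
    · exact (hm e).compl
  · have : {ω | opn (O ω) S = A} = ∅ := by
      ext ω
      simp only [Set.mem_ofPred_eq, Set.mem_empty_iff_false, iff_false]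
      intro h
      apply hA
      rw [← h]; exact opn_subset _ _
    rw [this]; exact MeasurableSet.empty

lemma event_eq (S : Finset (Sym2 V)) (Q : Finset (Sym2 V) → Prop) :
    {ω | Q (opn (O ω) S)} = ⋃ A ∈ S.powerset.filter Q, {ω | opn (O ω) S = A} := by
  ext ω
  simp only [Set.mem_ofPred_eq, Set.mem_iUnion, Finset.mem_filter, Finset.mem_powerset,
    exists_prop]
  constructor
  · intro h; exact ⟨_, ⟨opn_subset _ _, h⟩, rfl⟩
  · rintro ⟨A, ⟨_, h⟩, rfl⟩; exact h

lemma measurableSet_opn (hm : ∀ e, MeasurableSet {ω | e ∈ O ω}) (S : Finset (Sym2 V))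
    (Q : Finset (Sym2 V) → Prop) : MeasurableSet {ω | Q (opn (O ω) S)} := by
  rw [event_eq]
  exact Finset.measurableSet_biUnion _ (fun A _ => measurableSet_atom hm S A)

variable [IsProbabilityMeasure μ]

lemma link_atom (hm : ∀ e, MeasurableSet {ω | e ∈ O ω})
    (hind : iIndepSet (fun e => {ω | e ∈ O ω}) μ) {S : Finset (Sym2 V)}
    (hp : ∀ e ∈ S, μ.real {ω | e ∈ O ω} = p e) {A : Finset (Sym2 V)} (hA : A ⊆ S) :
    μ.real {ω | opn (O ω) S = A} = wgt p S A := by
  rw [atom_eq S A hA]
  have h1 : μ (⋂ e ∈ S, (if e ∈ A then {ω | e ∈ O ω} else {ω | e ∈ O ω}ᶜ))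
      = ∏ e ∈ S, μ (if e ∈ A then {ω | e ∈ O ω} else {ω | e ∈ O ω}ᶜ) := by
    apply ((iIndepSet_iff_iIndep _ _).1 hind).meas_biInter
    intro e _
    have hg : MeasurableSet[MeasurableSpace.generateFrom {{ω | e ∈ O ω}}] {ω | e ∈ O ω} :=
      MeasurableSpace.measurableSet_generateFrom rfl
    split_ifs
    · exact hg
    · exact hg.compl
  rw [measureReal_def, h1, ENNReal.toReal_prod]
  have h2 : ∀ e ∈ S, (μ (if e ∈ A then {ω | e ∈ O ω} else {ω | e ∈ O ω}ᶜ)).toReal
      = if e ∈ A then p e else 1 - p e := by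
    intro e he
    split_ifs
    · exact hp e he
    · have := probReal_compl_eq_one_sub (μ := μ) (hm e)
      rw [hp e he] at this
      exact this
  rw [Finset.prod_congr rfl h2]
  unfold wgt
  rw [← Finset.prod_sdiff hA, mul_comm]
  congr 1
  · apply Finset.prod_congr rfl
    intro e he; rw [if_pos he]
  · apply Finset.prod_congr rfl
    intro e he; rw [if_neg (Finset.mem_sdiff.1 he).2]

/-- Probabilities of cylinder events. -/
theorem link (hm : ∀ e, MeasurableSet {ω | e ∈ O ω})
    (hind : iIndepSet (fun e => {ω | e ∈ O ω}) μ) {S : Finset (Sym2 V)}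
    (hp : ∀ e ∈ S, μ.real {ω | e ∈ O ω} = p e) (Q : Finset (Sym2 V) → Prop) :
    μ.real {ω | Q (opn (O ω) S)} = Ex p S (fun A => if Q A then 1 else 0) := by
  rw [event_eq, measureReal_biUnion_finset]
  · unfold Ex
    rw [Finset.sum_filter]
    apply Finset.sum_congr rfl
    intro A hA
    rw [Finset.mem_powerset] at hA
    simp only
    split_ifs
    · rw [link_atom hm hind hp hA, mul_one]
    · rw [mul_zero]
  · intro A _ A' _ hne
    simp only [Function.onFun]
    rw [Set.disjoint_left]
    intro ω h h'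
    exact hne (h.symm.trans h')
  · intro A _
    exact measurableSet_atom hm S A

end link

section law

variable {E Ω : Type*} [MeasurableSpace Ω] {μ : Measure Ω} [IsProbabilityMeasure μ]

/-- Random subsets with independent membership events and the same marginals have the same
law. -/
theorem law_eq {O₁ O₂ : Ω → Set E} (hm₁ : ∀ e, MeasurableSet {ω | e ∈ O₁ ω})
    (hm₂ : ∀ e, MeasurableSet {ω | e ∈ O₂ ω})
    (hind₁ : iIndepSet (fun e => {ω | e ∈ O₁ ω}) μ)
    (hind₂ : iIndepSet (fun e => {ω | e ∈ O₂ ω}) μ)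
    (h : ∀ e, μ {ω | e ∈ O₁ ω} = μ {ω | e ∈ O₂ ω}) {T : Set (Set E)} (hT : MeasurableSet T) :
    μ {ω | O₁ ω ∈ T} = μ {ω | O₂ ω ∈ T} := by
  have hM₁ : Measurable O₁ := by
    rw [measurable_set_iff]
    intro e
    exact measurableSet_setOfPred.1 (hm₁ e)
  have hM₂ : Measurable O₂ := by
    rw [measurable_set_iff]
    intro e
    exact measurableSet_setOfPred.1 (hm₂ e)
  have key : μ.map O₁ = μ.map O₂ := by
    have : IsProbabilityMeasure (μ.map O₁) := Measure.isProbabilityMeasure_map hM₁.aemeasurable
    have : IsProbabilityMeasure (μ.map O₂) := Measure.isProbabilityMeasure_map hM₂.aemeasurable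
    set C : Set (Set (Set E)) := {T | ∃ S : Finset E, T = {s | (S : Set E) ⊆ s}} with hC
    have hgen : (inferInstance : MeasurableSpace (Set E)) = MeasurableSpace.generateFrom C := by
      apply le_antisymm
      · have : Measurable[MeasurableSpace.generateFrom C] (id : Set E → Set E) := by
          rw [@measurable_set_iff]
          intro a
          apply (@measurableSet_setOfPred _ (MeasurableSpace.generateFrom C) _).1
          apply MeasurableSpace.measurableSet_generateFrom
          refine ⟨{a}, ?_⟩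
          ext s
          simp
        intro T hT
        exact this hT
      · apply MeasurableSpace.generateFrom_le
        rintro T ⟨S, rfl⟩
        have : {s : Set E | (S : Set E) ⊆ s} = ⋂ e ∈ S, {s : Set E | e ∈ s} := by
          ext s
          simp [Set.subset_def]
        rw [this]
        apply Finset.measurableSet_biInter
        intro e _
        exact measurableSet_setOfPred.2 (measurable_set_mem e)
    have hpi : IsPiSystem C := by
      rintro T ⟨S, rfl⟩ T' ⟨S', rfl⟩ _
      refine ⟨S ∪ S', ?_⟩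
      ext s
      simp
    apply MeasureTheory.ext_of_generate_finite C hgen hpi
    · rintro T ⟨S, rfl⟩
      have hTm : MeasurableSet {s : Set E | (S : Set E) ⊆ s} := by
        have : {s : Set E | (S : Set E) ⊆ s} = ⋂ e ∈ S, {s : Set E | e ∈ s} := by
          ext s
          simp [Set.subset_def]
        rw [this]
        apply Finset.measurableSet_biInter
        intro e _
        exact measurableSet_setOfPred.2 (measurable_set_mem e)
      rw [Measure.map_apply hM₁ hTm, Measure.map_apply hM₂ hTm]
      have e1 : ∀ O : Ω → Set E, O ⁻¹' {s : Set E | (S : Set E) ⊆ s} = ⋂ e ∈ S, {ω | e ∈ O ω} := by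
        intro O
        ext ω
        simp [Set.subset_def]
      rw [e1 O₁, e1 O₂]
      rw [((iIndepSet_iff_iIndep _ _).1 hind₁).meas_biInter
        (fun e _ => MeasurableSpace.measurableSet_generateFrom rfl),
        ((iIndepSet_iff_iIndep _ _).1 hind₂).meas_biInter
        (fun e _ => MeasurableSpace.measurableSet_generateFrom rfl)]
      exact Finset.prod_congr rfl (fun e _ => h e)
    · rw [measure_univ, measure_univ]
  have h1 := Measure.map_apply (μ := μ) hM₁ hT
  have h2 := Measure.map_apply (μ := μ) hM₂ hT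
  change μ (O₁ ⁻¹' T) = μ (O₂ ⁻¹' T)
  rw [← h1, ← h2, key]

end law

section reach

variable {V : Type*}

/-- Connectivity by open edges. -/
def Rs (O : Set (Sym2 V)) (x y : V) : Prop :=
  Relation.ReflTransGen (fun a b => s(a, b) ∈ O) x y

/-- The component of `x` is infinite. -/
def InfC (O : Set (Sym2 V)) (x : V) : Prop := {y | Rs O x y}.Infinite

lemma Rs.symm {O : Set (Sym2 V)} {x y : V} (h : Rs O x y) : Rs O y x := by
  induction h with
  | refl => exact Relation.ReflTransGen.refl
  | tail _ h2 ih =>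
    apply Relation.ReflTransGen.head _ ih
    rwa [Sym2.eq_swap]

lemma rch_opn_rs {O : Set (Sym2 V)} {S : Finset (Sym2 V)} {x y : V} (h : Rch (opn O S) x y) :
    Rs O x y := by
  induction h with
  | refl => exact Relation.ReflTransGen.refl
  | tail _ h2 ih => exact Relation.ReflTransGen.tail ih (mem_opn.1 h2).2

/-- Connection in exactly `n` steps. -/
def Rn (O : Set (Sym2 V)) (x : V) : ℕ → V → Prop
  | 0, y => x = y
  | n + 1, y => ∃ z, Rn O x n z ∧ s(z, y) ∈ O

lemma rs_iff (O : Set (Sym2 V)) (x y : V) : Rs O x y ↔ ∃ n, Rn O x n y := by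
  constructor
  · intro h
    induction h with
    | refl => exact ⟨0, rfl⟩
    | tail _ h2 ih =>
      obtain ⟨n, hn⟩ := ih
      exact ⟨n + 1, _, hn, h2⟩
  · rintro ⟨n, hn⟩
    induction n generalizing y with
    | zero => rw [show y = x from hn.symm]; exact Relation.ReflTransGen.refl
    | succ n ih =>
      obtain ⟨z, hz, hzy⟩ := hn
      exact Relation.ReflTransGen.tail (ih z hz) hzy

variable {Ω : Type*} [MeasurableSpace Ω] {O : Ω → Set (Sym2 V)} [Countable V]

lemma measurableSet_Rs (hm : ∀ e, MeasurableSet {ω | e ∈ O ω}) (x y : V) :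
    MeasurableSet {ω | Rs (O ω) x y} := by
  have h1 : ∀ n y, MeasurableSet {ω | Rn (O ω) x n y} := by
    intro n
    induction n with
    | zero =>
      intro y
      by_cases h : x = y
      · have : {ω | Rn (O ω) x 0 y} = Set.univ := by
          ext ω; simp [Rn, h]
        rw [this]; exact MeasurableSet.univ
      · have : {ω | Rn (O ω) x 0 y} = ∅ := by
          ext ω; simp [Rn, h]
        rw [this]; exact MeasurableSet.empty
    | succ n ih =>
      intro y
      have : {ω | Rn (O ω) x (n + 1) y} = ⋃ z, ({ω | Rn (O ω) x n z} ∩ {ω | s(z, y) ∈ O ω}) := by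
        ext ω; simp [Rn]
      rw [this]
      exact MeasurableSet.iUnion (fun z => (ih z).inter (hm _))
  have : {ω | Rs (O ω) x y} = ⋃ n, {ω | Rn (O ω) x n y} := by
    ext ω; simp [rs_iff]
  rw [this]
  exact MeasurableSet.iUnion (fun n => h1 n y)

lemma measurableSet_InfC (hm : ∀ e, MeasurableSet {ω | e ∈ O ω}) (x : V) :
    MeasurableSet {ω | InfC (O ω) x} := by
  have : {ω | InfC (O ω) x} = ⋂ S : Finset V, ⋃ y : V, ⋃ (_ : y ∉ S), {ω | Rs (O ω) x y} := by
    ext ω
    simp only [Set.mem_ofPred_eq, Set.mem_iInter, Set.mem_iUnion, exists_prop]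
    constructor
    · intro h S
      obtain ⟨y, hy, hyS⟩ := Set.Infinite.exists_notMem_finset h S
      exact ⟨y, hyS, hy⟩
    · intro h
      unfold InfC
      intro hfin
      obtain ⟨y, hy, hy'⟩ := h hfin.toFinset
      exact hy (hfin.mem_toFinset.2 hy')
  rw [this]
  apply MeasurableSet.iInter
  intro S
  apply MeasurableSet.iUnion
  intro y
  apply MeasurableSet.iUnion
  intro _
  exact measurableSet_Rs hm x y

end reach

end Pool.Agent.Lib.MP_133e92_pr
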