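import Pool.Agent.Lib.MP_133e92_pr.Cross

open Finset
open scoped BigOperators Classical

namespace Pool.Agent.Lib.MP_133e92_pr

section indep

variable {E ι : Type*} [DecidableEq E] {p : E → ℝ}

/-- The variance of a sum of independent centred variables. -/
lemma Ex_sum_sq {S : Finset E} {I : Finset ι} {T : ι → Finset E} (hT : ∀ i ∈ I, T i ⊆ S)
    (hd : ∀ i ∈ I, ∀ j ∈ I, i ≠ j → Disjoint (T i) (T j)) (f : ι → Finset E → ℝ)
    (hf : ∀ i ∈ I, Ex p (T i) (f i) = 0) :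
    Ex p S (fun A => (∑ i ∈ I, f i (A ∩ T i)) ^ 2) = ∑ i ∈ I, Ex p (T i) (fun A => f i A ^ 2) := by
  have h1 : ∀ A, A ⊆ S → (∑ i ∈ I, f i (A ∩ T i)) ^ 2
      = ∑ i ∈ I, ∑ j ∈ I, f i (A ∩ T i) * f j (A ∩ T j) := by
    intro A _
    rw [sq, Finset.sum_mul_sum]
  rw [Ex_congr h1, Ex_sum]
  apply Finset.sum_congr rfl
  intro i hi
  rw [Ex_sum, Finset.sum_eq_single_of_mem i hi]
  · rw [← Ex_inter (hT i hi)]
    apply Ex_congr
    intro A _; ring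
  · intro j hj hji
    rw [Ex_mul_indep (hT i hi) (hT j hj) (hd i hi j hj hji.symm), hf i hi, zero_mul]

/-- The variance is the minimal second moment. -/
lemma Ex_var_le (S : Finset E) (f : Finset E → ℝ) (c : ℝ) :
    Ex p S (fun A => (f A - Ex p S f) ^ 2) ≤ Ex p S (fun A => (f A - c) ^ 2) := by
  have h1 : ∀ A, A ⊆ S → (f A - c) ^ 2
      = (f A - Ex p S f) ^ 2 + (2 * (Ex p S f - c)) * (f A - Ex p S f) + (Ex p S f - c) ^ 2 := by
    intro A _; ring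
  rw [Ex_congr h1, Ex_add, Ex_add, Ex_mul_left, Ex_const, Ex_sub, Ex_const]
  nlinarith [sq_nonneg (Ex p S f - c)]

end indep

section merge

variable {V : Type*} {p : Sym2 V → ℝ}

/-- Random data on `B`: in every configuration a set `G` (a part of a cluster, possibly empty) and
flows `θ x`, `x ∈ G`. -/
def Dat (p : Sym2 V → ℝ) (t : ℝ) (U B : Finset V) (Ψ s : ℝ) : Prop :=
  ∃ (G : Finset (Sym2 V) → Finset V) (θ : Finset (Sym2 V) → V → V → V → ℝ),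
    (∀ A, A ⊆ edg B → Val U B A (G A) (θ A)) ∧
    (∀ A, A ⊆ edg B → G A = ∅ ∨ t * B.card ≤ (G A).card) ∧
    Ψ * B.card ≤ Ex p (edg B) (fun A => ((G A).card : ℝ)) - (t / B.card) *
      Ex p (edg B) (fun A => (((G A).card : ℝ) - Ex p (edg B) (fun A => ((G A).card : ℝ))) ^ 2) ∧
    Ex p (edg B) (fun A => tot U (G A) (θ A)) ≤ s * B.card

lemma val_empty (U B : Finset V) (A : Finset (Sym2 V)) :
    Val U B A ∅ (fun _ _ _ => 0) := by
  refine ⟨Finset.empty_subset _, ?_, ?_, ?_, ?_⟩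
  · intro x y z; simp
  · intro x y z h; exact absurd rfl h
  · intro x hx; simp at hx
  · intro y z; simp

lemma crs_disj_edg {ι : Type*} {I : Finset ι} {idx : V → ι} {Bi : ι → Finset V}
    (hidx : ∀ i ∈ I, ∀ x ∈ Bi i, idx x = i) {i j k : ι} (hi : i ∈ I) (hj : j ∈ I) (hk : k ∈ I)
    (hij : i ≠ j) : Disjoint (crs (Bi i) (Bi j)) (edg (Bi k)) := by
  rw [Finset.disjoint_left]
  intro e he hek
  unfold crs at he
  rw [Finset.mem_image] at he
  obtain ⟨⟨x, x'⟩, hq, rfl⟩ := he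
  rw [Finset.mem_product] at hq
  simp only at hq hek
  rw [mem_edg] at hek
  have h1 := hidx i hi x hq.1
  have h2 := hidx k hk x hek.1
  have h3 := hidx j hj x' hq.2
  have h4 := hidx k hk x' hek.2.1
  apply hij
  rw [← h1, h2, ← h4, h3]

lemma edg_disj {B B' : Finset V} (h : Disjoint B B') : Disjoint (edg B) (edg B') := by
  rw [Finset.disjoint_left]
  intro e
  induction e using Sym2.ind with
  | _ x y =>
    rw [mem_edg, mem_edg]
    rintro ⟨h1, _, _⟩ ⟨h2, _, _⟩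
    exact Finset.disjoint_left.1 h h1 h2

variable {ι : Type*} {I : Finset ι} {idx : V → ι} {Bi : ι → Finset V} {U : Finset V}
  {G : ι → Finset (Sym2 V) → Finset V} {θ : ι → Finset (Sym2 V) → V → V → V → ℝ}
  {π : ι → ι → ℝ} {t Λ : ℝ} {n : ℕ}

lemma union_inter_of_disj {E : Type*} [DecidableEq E] {A₁ A₂ T : Finset E} (h : Disjoint A₂ T) :
    (A₁ ∪ A₂) ∩ T = A₁ ∩ T := by
  rw [Finset.union_inter_distrib_right, Finset.disjoint_iff_inter_eq_empty.1 h,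
    Finset.union_empty]

/-- Probability that there are too few cross edges. -/
lemma Ex_bad (hp0 : ∀ e, 0 ≤ p e) (hp1 : ∀ e, p e ≤ 1)
    (hidx : ∀ i ∈ I, ∀ x ∈ Bi i, idx x = i)
    (hcard : ∀ i ∈ I, (Bi i).card = n) (ht : 0 < t) (hn : 0 < n) (hΛ : 0 < Λ)
    (hv : ∀ i ∈ I, ∀ A, A ⊆ edg (Bi i) → Val U (Bi i) A (G i A) (θ i A))
    (hthr : ∀ i ∈ I, ∀ A, A ⊆ edg (Bi i) → G i A = ∅ ∨ t * (Bi i).card ≤ (G i A).card)
    (hπ : ∀ i ∈ I, ∀ j ∈ I, i ≠ j → ∀ x ∈ Bi i, ∀ x' ∈ Bi j, p s(x, x') = π i j)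
    (hΛπ : ∀ i ∈ I, ∀ j ∈ I, i ≠ j → Λ ≤ π i j * (t * n) ^ 2)
    {i j : ι} (hi : i ∈ I) (hj : j ∈ I) (hij : i ≠ j) :
    Ex p (edg (I.biUnion Bi)) (fun A =>
      if Zc A (G i (A ∩ edg (Bi i))) (G j (A ∩ edg (Bi j))) <
        π i j * (((G i (A ∩ edg (Bi i))).card : ℝ) * ((G j (A ∩ edg (Bi j))).card : ℝ)) / 2
      then 1 else 0) ≤ 4 / Λ := by
  have hdij := disj_of_idx hidx hi hj hij
  have hTS : crs (Bi i) (Bi j) ⊆ edg (I.biUnion Bi) :=
    crs_subset_edg hdij (Finset.subset_biUnion_of_mem Bi hi) (Finset.subset_biUnion_of_mem Bi hj)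
  have htn : (0:ℝ) < t * n := mul_pos ht (by exact_mod_cast hn)
  have hπpos : 0 < π i j := by
    by_contra h
    push Not at h
    have h1 := hΛπ i hi j hj hij
    have h2 : π i j * (t * n) ^ 2 ≤ 0 := mul_nonpos_of_nonpos_of_nonneg h (sq_nonneg _)
    linarith
  rw [show (4 / Λ) = Ex p (edg (I.biUnion Bi)) (fun _ => 4 / Λ) from (Ex_const _ _).symm]
  apply Ex_cond hp0 hp1 hTS
  intro A₁ hA₁
  rw [Ex_const]
  have hA₁d : Disjoint A₁ (crs (Bi i) (Bi j)) :=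
    Finset.disjoint_of_subset_left hA₁ Finset.sdiff_disjoint
  have e1 : ∀ A₂, A₂ ⊆ crs (Bi i) (Bi j) → ∀ k ∈ I, (A₁ ∪ A₂) ∩ edg (Bi k) = A₁ ∩ edg (Bi k) := by
    intro A₂ hA₂ k hk
    exact union_inter_of_disj (Finset.disjoint_of_subset_left hA₂ (crs_disj_edg hidx hi hj hk hij))
  set Gi := G i (A₁ ∩ edg (Bi i)) with hGi
  set Gj := G j (A₁ ∩ edg (Bi j)) with hGj
  have hGiB : Gi ⊆ Bi i := (hv i hi _ Finset.inter_subset_right).sub
  have hGjB : Gj ⊆ Bi j := (hv j hj _ Finset.inter_subset_right).sub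
  have e2 : ∀ A₂, A₂ ⊆ crs (Bi i) (Bi j) →
      (if Zc (A₁ ∪ A₂) (G i ((A₁ ∪ A₂) ∩ edg (Bi i))) (G j ((A₁ ∪ A₂) ∩ edg (Bi j))) <
        π i j * (((G i ((A₁ ∪ A₂) ∩ edg (Bi i))).card : ℝ) *
          ((G j ((A₁ ∪ A₂) ∩ edg (Bi j))).card : ℝ)) / 2
      then (1:ℝ) else 0) = if Zc A₂ Gi Gj < π i j * ((Gi.card : ℝ) * Gj.card) / 2 then 1 else 0 := by
    intro A₂ hA₂
    rw [e1 A₂ hA₂ i hi, e1 A₂ hA₂ j hj, Zc_union hGiB hGjB hA₁d]
  rw [Ex_congr e2]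
  by_cases h0 : Gi = ∅ ∨ Gj = ∅
  · have e3 : ∀ A₂, A₂ ⊆ crs (Bi i) (Bi j) →
        (if Zc A₂ Gi Gj < π i j * ((Gi.card : ℝ) * Gj.card) / 2 then (1:ℝ) else 0) = 0 := by
      intro A₂ _
      rw [if_neg]
      have : π i j * ((Gi.card : ℝ) * Gj.card) / 2 = 0 := by
        rcases h0 with h | h
        · rw [h]; simp
        · rw [h]; simp
      rw [this]
      exact not_lt.2 (Zc_nonneg _ _ _)
    rw [Ex_congr e3, Ex_const]
    positivity
  · rw [not_or] at h0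
    have h1 : t * n ≤ Gi.card := by
      have := (hthr i hi (A₁ ∩ edg (Bi i)) Finset.inter_subset_right).resolve_left h0.1
      rwa [hcard i hi] at this
    have h2 : t * n ≤ Gj.card := by
      have := (hthr j hj (A₁ ∩ edg (Bi j)) Finset.inter_subset_right).resolve_left h0.2
      rwa [hcard j hj] at this
    have h3 : (t * n) ^ 2 ≤ (Gi.card : ℝ) * Gj.card := by
      rw [sq]; exact mul_le_mul h1 h2 htn.le (Nat.cast_nonneg _)
    have h4 : Λ ≤ π i j * ((Gi.card : ℝ) * Gj.card) :=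
      (hΛπ i hi j hj hij).trans (mul_le_mul_of_nonneg_left h3 hπpos.le)
    have h5 : 0 < π i j * ((Gi.card : ℝ) * Gj.card) := lt_of_lt_of_le hΛ h4
    refine (Ex_Z_small hp0 hp1 hdij hGiB hGjB (hπ i hi j hj hij) h5).trans ?_
    exact div_le_div_of_nonneg_left (by norm_num) hΛ h4

/-- Expected weighted energy of the connecting flow. -/
lemma Ex_conn (hp0 : ∀ e, 0 ≤ p e) (hp1 : ∀ e, p e ≤ 1)
    (hidx : ∀ i ∈ I, ∀ x ∈ Bi i, idx x = i)
    (hcard : ∀ i ∈ I, (Bi i).card = n) (ht : 0 < t) (hn : 0 < n) (hΛ : 0 < Λ)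
    (hv : ∀ i ∈ I, ∀ A, A ⊆ edg (Bi i) → Val U (Bi i) A (G i A) (θ i A))
    (hthr : ∀ i ∈ I, ∀ A, A ⊆ edg (Bi i) → G i A = ∅ ∨ t * (Bi i).card ≤ (G i A).card)
    (hπ : ∀ i ∈ I, ∀ j ∈ I, i ≠ j → ∀ x ∈ Bi i, ∀ x' ∈ Bi j, p s(x, x') = π i j)
    (hΛπ : ∀ i ∈ I, ∀ j ∈ I, i ≠ j → Λ ≤ π i j * (t * n) ^ 2)
    {i j : ι} (hi : i ∈ I) (hj : j ∈ I) (hij : i ≠ j) :
    Ex p (edg (I.biUnion Bi)) (fun A =>
      (((G i (A ∩ edg (Bi i))).card : ℝ) * ((G j (A ∩ edg (Bi j))).card : ℝ) /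
          (∑ k ∈ I, ((G k (A ∩ edg (Bi k))).card : ℝ))) *
      (if π i j * (((G i (A ∩ edg (Bi i))).card : ℝ) * ((G j (A ∩ edg (Bi j))).card : ℝ)) / 2
        ≤ Zc A (G i (A ∩ edg (Bi i))) (G j (A ∩ edg (Bi j)))
      then nrg U (Ph A (G i (A ∩ edg (Bi i))) (θ i (A ∩ edg (Bi i)))
        (G j (A ∩ edg (Bi j))) (θ j (A ∩ edg (Bi j)))) else 0))
    ≤ Ex p (edg (I.biUnion Bi)) (fun A =>
      (12 / Λ) * ((((G j (A ∩ edg (Bi j))).card : ℝ) *
          tot U (G i (A ∩ edg (Bi i))) (θ i (A ∩ edg (Bi i))) +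
        ((G i (A ∩ edg (Bi i))).card : ℝ) *
          tot U (G j (A ∩ edg (Bi j))) (θ j (A ∩ edg (Bi j)))) /
          (∑ k ∈ I, ((G k (A ∩ edg (Bi k))).card : ℝ)))
      + (24 / Λ) * (((G i (A ∩ edg (Bi i))).card : ℝ) * ((G j (A ∩ edg (Bi j))).card : ℝ) /
          (∑ k ∈ I, ((G k (A ∩ edg (Bi k))).card : ℝ)))) := by
  have hdij := disj_of_idx hidx hi hj hij
  have hTS : crs (Bi i) (Bi j) ⊆ edg (I.biUnion Bi) :=
    crs_subset_edg hdij (Finset.subset_biUnion_of_mem Bi hi) (Finset.subset_biUnion_of_mem Bi hj)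
  have htn : (0:ℝ) < t * n := mul_pos ht (by exact_mod_cast hn)
  have hπpos : 0 < π i j := by
    by_contra h
    push Not at h
    have h1 := hΛπ i hi j hj hij
    have h2 : π i j * (t * n) ^ 2 ≤ 0 := mul_nonpos_of_nonpos_of_nonneg h (sq_nonneg _)
    linarith
  apply Ex_cond hp0 hp1 hTS
  intro A₁ hA₁
  have hA₁d : Disjoint A₁ (crs (Bi i) (Bi j)) :=
    Finset.disjoint_of_subset_left hA₁ Finset.sdiff_disjoint
  have e1 : ∀ A₂, A₂ ⊆ crs (Bi i) (Bi j) → ∀ k ∈ I, (A₁ ∪ A₂) ∩ edg (Bi k) = A₁ ∩ edg (Bi k) := by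
    intro A₂ hA₂ k hk
    exact union_inter_of_disj (Finset.disjoint_of_subset_left hA₂ (crs_disj_edg hidx hi hj hk hij))
  have hvi := hv i hi (A₁ ∩ edg (Bi i)) Finset.inter_subset_right
  have hvj := hv j hj (A₁ ∩ edg (Bi j)) Finset.inter_subset_right
  set Gi := G i (A₁ ∩ edg (Bi i)) with hGi
  set Gj := G j (A₁ ∩ edg (Bi j)) with hGj
  set θi := θ i (A₁ ∩ edg (Bi i)) with hθi
  set θj := θ j (A₁ ∩ edg (Bi j)) with hθj
  set Y := ∑ k ∈ I, ((G k (A₁ ∩ edg (Bi k))).card : ℝ) with hY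
  have hY0 : 0 ≤ Y := Finset.sum_nonneg (fun _ _ => Nat.cast_nonneg _)
  have eY : ∀ A₂, A₂ ⊆ crs (Bi i) (Bi j) →
      (∑ k ∈ I, ((G k ((A₁ ∪ A₂) ∩ edg (Bi k))).card : ℝ)) = Y := by
    intro A₂ hA₂
    apply Finset.sum_congr rfl
    intro k hk
    rw [e1 A₂ hA₂ k hk]
  have e2 : ∀ A₂, A₂ ⊆ crs (Bi i) (Bi j) →
      (((G i ((A₁ ∪ A₂) ∩ edg (Bi i))).card : ℝ) * ((G j ((A₁ ∪ A₂) ∩ edg (Bi j))).card : ℝ) /
          (∑ k ∈ I, ((G k ((A₁ ∪ A₂) ∩ edg (Bi k))).card : ℝ))) *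
      (if π i j * (((G i ((A₁ ∪ A₂) ∩ edg (Bi i))).card : ℝ) *
          ((G j ((A₁ ∪ A₂) ∩ edg (Bi j))).card : ℝ)) / 2
        ≤ Zc (A₁ ∪ A₂) (G i ((A₁ ∪ A₂) ∩ edg (Bi i))) (G j ((A₁ ∪ A₂) ∩ edg (Bi j)))
      then nrg U (Ph (A₁ ∪ A₂) (G i ((A₁ ∪ A₂) ∩ edg (Bi i))) (θ i ((A₁ ∪ A₂) ∩ edg (Bi i)))
        (G j ((A₁ ∪ A₂) ∩ edg (Bi j))) (θ j ((A₁ ∪ A₂) ∩ edg (Bi j)))) else 0)
      = ((Gi.card : ℝ) * Gj.card / Y) * (if π i j * ((Gi.card : ℝ) * Gj.card) / 2 ≤ Zc A₂ Gi Gj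
        then nrg U (Ph A₂ Gi θi Gj θj) else 0) := by
    intro A₂ hA₂
    rw [eY A₂ hA₂, e1 A₂ hA₂ i hi, e1 A₂ hA₂ j hj, ← hGi, ← hGj,
      Zc_union hvi.sub hvj.sub hA₁d, Ph_union hvi.sub hvj.sub hA₁d]
  have e3 : ∀ A₂, A₂ ⊆ crs (Bi i) (Bi j) →
      (12 / Λ) * ((((G j ((A₁ ∪ A₂) ∩ edg (Bi j))).card : ℝ) *
          tot U (G i ((A₁ ∪ A₂) ∩ edg (Bi i))) (θ i ((A₁ ∪ A₂) ∩ edg (Bi i))) +
        ((G i ((A₁ ∪ A₂) ∩ edg (Bi i))).card : ℝ) *
          tot U (G j ((A₁ ∪ A₂) ∩ edg (Bi j))) (θ j ((A₁ ∪ A₂) ∩ edg (Bi j)))) /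
          (∑ k ∈ I, ((G k ((A₁ ∪ A₂) ∩ edg (Bi k))).card : ℝ)))
      + (24 / Λ) * (((G i ((A₁ ∪ A₂) ∩ edg (Bi i))).card : ℝ) *
          ((G j ((A₁ ∪ A₂) ∩ edg (Bi j))).card : ℝ) /
          (∑ k ∈ I, ((G k ((A₁ ∪ A₂) ∩ edg (Bi k))).card : ℝ)))
      = (12 / Λ) * (((Gj.card : ℝ) * tot U Gi θi + (Gi.card : ℝ) * tot U Gj θj) / Y)
        + (24 / Λ) * ((Gi.card : ℝ) * Gj.card / Y) := by
    intro A₂ hA₂
    rw [eY A₂ hA₂, e1 A₂ hA₂ i hi, e1 A₂ hA₂ j hj, ← hGi, ← hGj]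
  rw [Ex_congr e2, Ex_congr e3, Ex_mul_left, Ex_const]
  have ti := tot_nonneg U Gi θi
  have tj := tot_nonneg U Gj θj
  have hthri : Gi ≠ ∅ → t * n ≤ (Gi.card : ℝ) := by
    intro h
    have := (hthr i hi (A₁ ∩ edg (Bi i)) Finset.inter_subset_right).resolve_left h
    rwa [hcard i hi] at this
  have hthrj : Gj ≠ ∅ → t * n ≤ (Gj.card : ℝ) := by
    intro h
    have := (hthr j hj (A₁ ∩ edg (Bi j)) Finset.inter_subset_right).resolve_left h
    rwa [hcard j hj] at this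
  clear_value Gi Gj θi θj Y
  clear e1 e2 e3 eY hY hGi hGj hθi hθj
  by_cases h0 : Gi = ∅ ∨ Gj = ∅
  · have : (Gi.card : ℝ) * Gj.card / Y = 0 := by
      rcases h0 with h | h
      · rw [h]; simp
      · rw [h]; simp
    rw [this, zero_mul, mul_zero, add_zero]
    positivity
  · rw [not_or] at h0
    have h1 : t * n ≤ Gi.card := hthri h0.1
    have h2 : t * n ≤ Gj.card := hthrj h0.2
    have h3 : (t * n) ^ 2 ≤ (Gi.card : ℝ) * Gj.card := by
      rw [sq]; exact mul_le_mul h1 h2 htn.le (Nat.cast_nonneg _)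
    have h4 : Λ ≤ π i j * ((Gi.card : ℝ) * Gj.card) :=
      (hΛπ i hi j hj hij).trans (mul_le_mul_of_nonneg_left h3 hπpos.le)
    have h5 : 0 < π i j * ((Gi.card : ℝ) * Gj.card) := lt_of_lt_of_le hΛ h4
    have hgi : (0:ℝ) < Gi.card := lt_of_lt_of_le htn h1
    have hgj : (0:ℝ) < Gj.card := lt_of_lt_of_le htn h2
    have h6 := Ex_Ph (p := p) hp0 hp1 hdij hvi.sub hvj.sub (hπ i hi j hj hij) U hvi.zero hvj.zero h5
    have h7 : 12 / (π i j * ((Gi.card : ℝ) * Gj.card)) *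
        (tot U Gi θi / Gi.card + tot U Gj θj / Gj.card) + 24 / (π i j * ((Gi.card : ℝ) * Gj.card))
        ≤ 12 / Λ * (tot U Gi θi / Gi.card + tot U Gj θj / Gj.card) + 24 / Λ := by
      apply add_le_add
      · apply mul_le_mul_of_nonneg_right _ (by positivity)
        exact div_le_div_of_nonneg_left (by norm_num) hΛ h4
      · exact div_le_div_of_nonneg_left (by norm_num) hΛ h4
    refine (mul_le_mul_of_nonneg_left (h6.trans h7) (by positivity)).trans (le_of_eq ?_)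
    field_simp

/-- Total size of the pieces. -/
noncomputable def Yf (I : Finset ι) (Bi : ι → Finset V) (G : ι → Finset (Sym2 V) → Finset V)
    (A : Finset (Sym2 V)) : ℝ := ∑ i ∈ I, ((G i (A ∩ edg (Bi i))).card : ℝ)

/-- There are too few open edges between the pieces `i` and `j`. -/
def badp (Bi : ι → Finset V) (G : ι → Finset (Sym2 V) → Finset V) (π : ι → ι → ℝ)
    (i j : ι) (A : Finset (Sym2 V)) : Prop :=
  Zc A (G i (A ∩ edg (Bi i))) (G j (A ∩ edg (Bi j))) <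
        π i j * (((G i (A ∩ edg (Bi i))).card : ℝ) * ((G j (A ∩ edg (Bi j))).card : ℝ)) / 2

/-- The event that the merged data is kept. -/
def kept (t : ℝ) (I : Finset ι) (Bi : ι → Finset V) (G : ι → Finset (Sym2 V) → Finset V)
    (π : ι → ι → ℝ) (A : Finset (Sym2 V)) : Prop :=
  t * (I.biUnion Bi).card ≤ Yf I Bi G A ∧ ∀ i ∈ I, ∀ j ∈ I, i ≠ j → ¬ badp Bi G π i j A

/-- Number of bad pairs. -/
noncomputable def Rf (I : Finset ι) (Bi : ι → Finset V) (G : ι → Finset (Sym2 V) → Finset V)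
    (π : ι → ι → ℝ) (A : Finset (Sym2 V)) : ℝ :=
  ∑ i ∈ I, ∑ j ∈ I, if i ≠ j ∧ badp Bi G π i j A then 1 else 0

/-- The merged set. -/
noncomputable def newG (t : ℝ) (I : Finset ι) (Bi : ι → Finset V)
    (G : ι → Finset (Sym2 V) → Finset V) (π : ι → ι → ℝ) (A : Finset (Sym2 V)) : Finset V :=
  if kept t I Bi G π A then I.biUnion (fun i => G i (A ∩ edg (Bi i))) else ∅

/-- The merged flows. -/
noncomputable def newθ (t : ℝ) (I : Finset ι) (Bi : ι → Finset V)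
    (G : ι → Finset (Sym2 V) → Finset V) (θ : ι → Finset (Sym2 V) → V → V → V → ℝ) (idx : V → ι)
    (π : ι → ι → ℝ) (A : Finset (Sym2 V)) : V → V → V → ℝ :=
  if kept t I Bi G π A then mth I A (fun i => G i (A ∩ edg (Bi i)))
    (fun i => θ i (A ∩ edg (Bi i))) idx else fun _ _ _ => 0

lemma Yf_nonneg (A : Finset (Sym2 V)) : 0 ≤ Yf I Bi G A :=
  Finset.sum_nonneg (fun _ _ => Nat.cast_nonneg _)

lemma Rf_nonneg (A : Finset (Sym2 V)) : 0 ≤ Rf I Bi G π A :=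
  Finset.sum_nonneg (fun _ _ => Finset.sum_nonneg (fun _ _ => by split_ifs <;> norm_num))

lemma Yf_le (hcard : ∀ i ∈ I, (Bi i).card = n)
    (hv : ∀ i ∈ I, ∀ A, A ⊆ edg (Bi i) → Val U (Bi i) A (G i A) (θ i A))
    (A : Finset (Sym2 V)) : Yf I Bi G A ≤ I.card * n := by
  unfold Yf
  calc ∑ i ∈ I, ((G i (A ∩ edg (Bi i))).card : ℝ) ≤ ∑ i ∈ I, (n : ℝ) := by
        apply Finset.sum_le_sum
        intro i hi
        have := Finset.card_le_card (hv i hi _ (Finset.inter_subset_right (s₁ := A))).sub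
        rw [hcard i hi] at this
        exact_mod_cast this
    _ = I.card * n := by rw [Finset.sum_const, nsmul_eq_mul]

lemma newG_card (hidx : ∀ i ∈ I, ∀ x ∈ Bi i, idx x = i)
    (hv : ∀ i ∈ I, ∀ A, A ⊆ edg (Bi i) → Val U (Bi i) A (G i A) (θ i A))
    (A : Finset (Sym2 V)) :
    ((newG t I Bi G π A).card : ℝ) = if kept t I Bi G π A then Yf I Bi G A else 0 := by
  unfold newG
  split_ifs with h
  · rw [card_biUnion_Gs (Gs := fun i => G i (A ∩ edg (Bi i))) hidx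
      (fun i hi => (hv i hi _ (Finset.inter_subset_right (s₁ := A))).sub)]
    rfl
  · simp

lemma one_le_Rf {A : Finset (Sym2 V)} {i j : ι} (hi : i ∈ I) (hj : j ∈ I) (hij : i ≠ j)
    (hb : badp Bi G π i j A) : 1 ≤ Rf I Bi G π A := by
  unfold Rf
  have h1 : (1:ℝ) ≤ ∑ j ∈ I, (if i ≠ j ∧ badp Bi G π i j A then 1 else 0) := by
    refine le_trans ?_ (Finset.single_le_sum (f := fun j =>
      (if i ≠ j ∧ badp Bi G π i j A then (1:ℝ) else 0)) (fun _ _ => by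
        split_ifs <;> norm_num) hj)
    rw [if_pos ⟨hij, hb⟩]
  refine h1.trans ?_
  exact Finset.single_le_sum (f := fun i => ∑ j ∈ I,
      (if i ≠ j ∧ badp Bi G π i j A then (1:ℝ) else 0)) (fun _ _ => Finset.sum_nonneg
        (fun _ _ => by split_ifs <;> norm_num)) hi

lemma Ex_Rf (hp0 : ∀ e, 0 ≤ p e) (hp1 : ∀ e, p e ≤ 1)
    (hidx : ∀ i ∈ I, ∀ x ∈ Bi i, idx x = i)
    (hcard : ∀ i ∈ I, (Bi i).card = n) (ht : 0 < t) (hn : 0 < n) (hΛ : 0 < Λ)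
    (hv : ∀ i ∈ I, ∀ A, A ⊆ edg (Bi i) → Val U (Bi i) A (G i A) (θ i A))
    (hthr : ∀ i ∈ I, ∀ A, A ⊆ edg (Bi i) → G i A = ∅ ∨ t * (Bi i).card ≤ (G i A).card)
    (hπ : ∀ i ∈ I, ∀ j ∈ I, i ≠ j → ∀ x ∈ Bi i, ∀ x' ∈ Bi j, p s(x, x') = π i j)
    (hΛπ : ∀ i ∈ I, ∀ j ∈ I, i ≠ j → Λ ≤ π i j * (t * n) ^ 2) :
    Ex p (edg (I.biUnion Bi)) (Rf I Bi G π) ≤ (I.card : ℝ) ^ 2 * (4 / Λ) := by
  unfold Rf
  rw [Ex_sum]
  have h1 : ∀ i ∈ I, Ex p (edg (I.biUnion Bi)) (fun A => ∑ j ∈ I,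
      (if i ≠ j ∧ badp Bi G π i j A then (1:ℝ) else 0)) ≤ I.card * (4 / Λ) := by
    intro i hi
    rw [Ex_sum]
    calc ∑ j ∈ I, Ex p (edg (I.biUnion Bi)) (fun A =>
          (if i ≠ j ∧ badp Bi G π i j A then (1:ℝ) else 0)) ≤ ∑ j ∈ I, (4 / Λ) := by
          apply Finset.sum_le_sum
          intro j hj
          by_cases hij : i = j
          · have : ∀ A, A ⊆ edg (I.biUnion Bi) →
                (if i ≠ j ∧ badp Bi G π i j A then (1:ℝ) else 0) = 0 := by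
              intro A _
              rw [if_neg]
              rintro ⟨h, _⟩; exact h hij
            rw [Ex_congr this, Ex_const]
            positivity
          · refine le_trans (le_of_eq ?_) (Ex_bad hp0 hp1 hidx hcard ht hn hΛ hv hthr hπ hΛπ
              hi hj hij)
            apply Ex_congr
            intro A _
            refine if_congr ?_ rfl rfl
            unfold badp
            exact and_iff_right hij
      _ = _ := by rw [Finset.sum_const, nsmul_eq_mul]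
  calc _ ≤ ∑ i ∈ I, (I.card : ℝ) * (4 / Λ) := Finset.sum_le_sum h1
    _ = _ := by rw [Finset.sum_const, nsmul_eq_mul]; ring

/-- Energy of the merged flows. -/
lemma Ex_newtot (hp0 : ∀ e, 0 ≤ p e) (hp1 : ∀ e, p e ≤ 1)
    (hidx : ∀ i ∈ I, ∀ x ∈ Bi i, idx x = i)
    (hcard : ∀ i ∈ I, (Bi i).card = n) (ht : 0 < t) (hn : 0 < n) (hΛ : 0 < Λ)
    (hv : ∀ i ∈ I, ∀ A, A ⊆ edg (Bi i) → Val U (Bi i) A (G i A) (θ i A))
    (hthr : ∀ i ∈ I, ∀ A, A ⊆ edg (Bi i) → G i A = ∅ ∨ t * (Bi i).card ≤ (G i A).card)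
    (hπ : ∀ i ∈ I, ∀ j ∈ I, i ≠ j → ∀ x ∈ Bi i, ∀ x' ∈ Bi j, p s(x, x') = π i j)
    (hΛπ : ∀ i ∈ I, ∀ j ∈ I, i ≠ j → Λ ≤ π i j * (t * n) ^ 2) {s : ℝ}
    (hs : ∀ i ∈ I, Ex p (edg (Bi i)) (fun A => tot U (G i A) (θ i A)) ≤ s * n) :
    Ex p (edg (I.biUnion Bi)) (fun A => tot U (newG t I Bi G π A) (newθ t I Bi G θ idx π A))
      ≤ ((1 + 24 / Λ) * s + 24 / Λ) * (I.card * n) := by
  -- pointwise bound
  set f : ι → ι → Finset (Sym2 V) → ℝ := fun i j A =>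
      (((G i (A ∩ edg (Bi i))).card : ℝ) * ((G j (A ∩ edg (Bi j))).card : ℝ) /
          (∑ k ∈ I, ((G k (A ∩ edg (Bi k))).card : ℝ))) *
      (if π i j * (((G i (A ∩ edg (Bi i))).card : ℝ) * ((G j (A ∩ edg (Bi j))).card : ℝ)) / 2
        ≤ Zc A (G i (A ∩ edg (Bi i))) (G j (A ∩ edg (Bi j)))
      then nrg U (Ph A (G i (A ∩ edg (Bi i))) (θ i (A ∩ edg (Bi i)))
        (G j (A ∩ edg (Bi j))) (θ j (A ∩ edg (Bi j)))) else 0) with hf
  set g : ι → ι → Finset (Sym2 V) → ℝ := fun i j A =>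
      (12 / Λ) * ((((G j (A ∩ edg (Bi j))).card : ℝ) *
          tot U (G i (A ∩ edg (Bi i))) (θ i (A ∩ edg (Bi i))) +
        ((G i (A ∩ edg (Bi i))).card : ℝ) *
          tot U (G j (A ∩ edg (Bi j))) (θ j (A ∩ edg (Bi j)))) /
          (∑ k ∈ I, ((G k (A ∩ edg (Bi k))).card : ℝ)))
      + (24 / Λ) * (((G i (A ∩ edg (Bi i))).card : ℝ) * ((G j (A ∩ edg (Bi j))).card : ℝ) /
          (∑ k ∈ I, ((G k (A ∩ edg (Bi k))).card : ℝ))) with hg
  have hfnn : ∀ i j A, 0 ≤ f i j A := by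
    intro i j A
    rw [hf]
    apply mul_nonneg
    · exact div_nonneg (mul_nonneg (Nat.cast_nonneg _) (Nat.cast_nonneg _))
        (Finset.sum_nonneg (fun _ _ => Nat.cast_nonneg _))
    · split_ifs
      · exact nrg_nonneg _ _
      · exact le_refl _
  have hgnn : ∀ i j A, 0 ≤ g i j A := by
    intro i j A
    rw [hg]
    have h1 : 0 ≤ ∑ k ∈ I, ((G k (A ∩ edg (Bi k))).card : ℝ) :=
      Finset.sum_nonneg (fun _ _ => Nat.cast_nonneg _)
    have h2 := tot_nonneg U (G i (A ∩ edg (Bi i))) (θ i (A ∩ edg (Bi i)))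
    have h3 := tot_nonneg U (G j (A ∩ edg (Bi j))) (θ j (A ∩ edg (Bi j)))
    apply add_nonneg
    · apply mul_nonneg (by positivity)
      apply div_nonneg _ h1
      exact add_nonneg (mul_nonneg (Nat.cast_nonneg _) h2) (mul_nonneg (Nat.cast_nonneg _) h3)
    · apply mul_nonneg (by positivity)
      exact div_nonneg (mul_nonneg (Nat.cast_nonneg _) (Nat.cast_nonneg _)) h1
  have hpt : ∀ A, A ⊆ edg (I.biUnion Bi) →
      tot U (newG t I Bi G π A) (newθ t I Bi G θ idx π A)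
      ≤ (∑ i ∈ I, tot U (G i (A ∩ edg (Bi i))) (θ i (A ∩ edg (Bi i)))) +
        ∑ i ∈ I, ∑ j ∈ I, (if i ≠ j then f i j A else 0) := by
    intro A _
    by_cases hk : kept t I Bi G π A
    · unfold newG newθ
      rw [if_pos hk, if_pos hk]
      refine (mth_tot (A := A) (U := U) (Gs := fun i => G i (A ∩ edg (Bi i)))
        (θs := fun i => θ i (A ∩ edg (Bi i))) hidx
        (fun i hi => hv i hi _ Finset.inter_subset_right)).trans ?_
      apply add_le_add (le_refl _)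
      apply Finset.sum_le_sum; intro i hi
      apply Finset.sum_le_sum; intro j hj
      by_cases hij : i = j
      · subst hij
        rw [if_neg (by simp)]
        have : nrg U (Ph A (G i (A ∩ edg (Bi i))) (θ i (A ∩ edg (Bi i)))
          (G i (A ∩ edg (Bi i))) (θ i (A ∩ edg (Bi i)))) = 0 := by
          unfold nrg
          apply Finset.sum_eq_zero; intro y _
          apply Finset.sum_eq_zero; intro z _
          rw [Ph_self]; ring
        simp only [this, mul_zero, le_refl]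
      · rw [if_pos hij, hf]
        simp only
        have hnb := hk.2 i hi j hj hij
        unfold badp at hnb
        rw [if_pos (not_lt.1 hnb)]
    · unfold newG newθ
      rw [if_neg hk, if_neg hk]
      have h0 : tot U ∅ (fun _ _ _ => (0:ℝ)) = 0 := by unfold tot; simp
      rw [h0]
      apply add_nonneg
      · exact Finset.sum_nonneg (fun i _ => tot_nonneg _ _ _)
      · exact Finset.sum_nonneg (fun i _ => Finset.sum_nonneg (fun j _ => by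
          split_ifs
          · exact hfnn i j A
          · exact le_refl _))
  refine (Ex_mono hp0 hp1 hpt).trans ?_
  rw [Ex_add, Ex_sum, Ex_sum]
  have h1 : ∀ i ∈ I, Ex p (edg (I.biUnion Bi)) (fun A => tot U (G i (A ∩ edg (Bi i)))
      (θ i (A ∩ edg (Bi i)))) ≤ s * n := by
    intro i hi
    rw [Ex_inter (edg_mono (Finset.subset_biUnion_of_mem Bi hi))
      (fun A => tot U (G i A) (θ i A))]
    exact hs i hi
  have h2 : ∀ i ∈ I, Ex p (edg (I.biUnion Bi)) (fun A => ∑ j ∈ I, (if i ≠ j then f i j A else 0))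
      ≤ Ex p (edg (I.biUnion Bi)) (fun A => ∑ j ∈ I, g i j A) := by
    intro i hi
    rw [Ex_sum, Ex_sum]
    apply Finset.sum_le_sum
    intro j hj
    by_cases hij : i = j
    · have : ∀ A, A ⊆ edg (I.biUnion Bi) → (if i ≠ j then f i j A else 0) = 0 := by
        intro A _; rw [if_neg]; exact fun h => h hij
      rw [Ex_congr this, Ex_const]
      exact Ex_nonneg hp0 hp1 (fun A _ => hgnn i j A)
    · have : ∀ A, A ⊆ edg (I.biUnion Bi) → (if i ≠ j then f i j A else 0) = f i j A := by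
        intro A _; rw [if_pos hij]
      rw [Ex_congr this]
      exact Ex_conn hp0 hp1 hidx hcard ht hn hΛ hv hthr hπ hΛπ hi hj hij
  have h3 : ∀ A, A ⊆ edg (I.biUnion Bi) → ∑ i ∈ I, ∑ j ∈ I, g i j A
      ≤ (24 / Λ) * (∑ i ∈ I, tot U (G i (A ∩ edg (Bi i))) (θ i (A ∩ edg (Bi i)))) +
        (24 / Λ) * (I.card * n) := by
    intro A _
    have hYle : Yf I Bi G A ≤ I.card * n := Yf_le hcard hv A
    rw [hg]
    set Y := ∑ k ∈ I, ((G k (A ∩ edg (Bi k))).card : ℝ) with hY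
    have hY' : Yf I Bi G A = Y := rfl
    rw [hY'] at hYle
    set X : ι → ℝ := fun k => ((G k (A ∩ edg (Bi k))).card : ℝ) with hX
    set τ : ι → ℝ := fun i => tot U (G i (A ∩ edg (Bi i))) (θ i (A ∩ edg (Bi i))) with hτ
    have hYX : Y = ∑ k ∈ I, X k := rfl
    have hτ0 : ∀ i, 0 ≤ τ i := fun i => tot_nonneg _ _ _
    have hX0 : ∀ i, 0 ≤ X i := fun i => Nat.cast_nonneg _
    change ∑ i ∈ I, ∑ j ∈ I, ((12 / Λ) * ((X j * τ i + X i * τ j) / Y) + (24 / Λ) * (X i * X j / Y))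
      ≤ (24 / Λ) * (∑ i ∈ I, τ i) + (24 / Λ) * (I.card * n)
    clear_value X τ Y
    clear hX hτ hY hY' hpt hgnn hfnn h2
    have hY0 : 0 ≤ Y := by rw [hYX]; exact Finset.sum_nonneg (fun i _ => hX0 i)
    have hS0 : 0 ≤ ∑ i ∈ I, τ i := Finset.sum_nonneg (fun i _ => hτ0 i)
    have hle1 : Y / Y ≤ 1 := div_self_le_one Y
    have e1 : ∑ i ∈ I, ∑ j ∈ I, (X j * τ i) = (∑ i ∈ I, τ i) * Y := by
      rw [hYX, Finset.sum_mul_sum]
      apply Finset.sum_congr rfl; intro i _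
      apply Finset.sum_congr rfl; intro j _
      ring
    have e2 : ∑ i ∈ I, ∑ j ∈ I, (X i * τ j) = (∑ i ∈ I, τ i) * Y := by
      rw [Finset.sum_comm]; exact e1
    have e3 : ∑ i ∈ I, ∑ j ∈ I, (X i * X j) = Y * Y := by
      rw [hYX, Finset.sum_mul_sum]
    have e4 : ∑ i ∈ I, ∑ j ∈ I, ((12 / Λ) * ((X j * τ i + X i * τ j) / Y)
        + (24 / Λ) * (X i * X j / Y))
        = (12 / Λ) * ((∑ i ∈ I, ∑ j ∈ I, (X j * τ i) + ∑ i ∈ I, ∑ j ∈ I, (X i * τ j)) / Y)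
          + (24 / Λ) * ((∑ i ∈ I, ∑ j ∈ I, (X i * X j)) / Y) := by
      rw [← Finset.sum_add_distrib, Finset.sum_div, Finset.sum_div, Finset.mul_sum, Finset.mul_sum,
        ← Finset.sum_add_distrib]
      apply Finset.sum_congr rfl; intro i _
      rw [← Finset.sum_add_distrib, Finset.sum_div, Finset.sum_div, Finset.mul_sum, Finset.mul_sum,
        ← Finset.sum_add_distrib]
    rw [e4, e1, e2, e3]
    have e5 : (12 / Λ) * (((∑ i ∈ I, τ i) * Y + (∑ i ∈ I, τ i) * Y) / Y) + (24 / Λ) * (Y * Y / Y)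
        = (24 / Λ) * ((∑ i ∈ I, τ i) * (Y / Y)) + (24 / Λ) * (Y * (Y / Y)) := by ring
    rw [e5]
    have hΛ' : 0 ≤ 24 / Λ := by positivity
    apply add_le_add
    · apply mul_le_mul_of_nonneg_left _ hΛ'
      calc (∑ i ∈ I, τ i) * (Y / Y) ≤ (∑ i ∈ I, τ i) * 1 := mul_le_mul_of_nonneg_left hle1 hS0
        _ = _ := mul_one _
    · apply mul_le_mul_of_nonneg_left _ hΛ'
      calc Y * (Y / Y) ≤ Y * 1 := mul_le_mul_of_nonneg_left hle1 hY0
        _ ≤ _ := by rw [mul_one]; exact hYle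
  have h4 : ∑ i ∈ I, Ex p (edg (I.biUnion Bi)) (fun A => ∑ j ∈ I, (if i ≠ j then f i j A else 0))
      ≤ (24 / Λ) * (∑ i ∈ I, Ex p (edg (I.biUnion Bi)) (fun A => tot U (G i (A ∩ edg (Bi i)))
      (θ i (A ∩ edg (Bi i))))) + (24 / Λ) * (I.card * n) := by
    refine (Finset.sum_le_sum h2).trans ?_
    rw [← Ex_sum]
    refine (Ex_mono hp0 hp1 h3).trans ?_
    rw [Ex_add, Ex_mul_left, Ex_const, Ex_sum]
  have h5 := Finset.sum_le_sum h1
  rw [Finset.sum_const, nsmul_eq_mul] at h5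
  have hΛ' : 0 ≤ 24 / Λ := by positivity
  have h6 := mul_le_mul_of_nonneg_left h5 hΛ'
  nlinarith [h4, h5, h6]

end merge

end Pool.Agent.Lib.MP_133e92_pr
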