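import Pool.Agent.Lib.MP_133e92_pr.Merge

open Finset
open scoped BigOperators Classical

namespace Pool.Agent.Lib.MP_133e92_pr

section merge

variable {V : Type*} {p : Sym2 V → ℝ}
variable {ι : Type*} {I : Finset ι} {idx : V → ι} {Bi : ι → Finset V} {U : Finset V}
  {G : ι → Finset (Sym2 V) → Finset V} {θ : ι → Finset (Sym2 V) → V → V → V → ℝ}
  {π : ι → ι → ℝ} {t Λ : ℝ} {n : ℕ}

/-- Mean and variance of the total size of the pieces. -/
lemma Ex_Yf (hidx : ∀ i ∈ I, ∀ x ∈ Bi i, idx x = i) :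
    Ex p (edg (I.biUnion Bi)) (Yf I Bi G) = ∑ i ∈ I, Ex p (edg (Bi i)) (fun A => ((G i A).card : ℝ))
    ∧ Ex p (edg (I.biUnion Bi)) (fun A => (Yf I Bi G A -
        ∑ i ∈ I, Ex p (edg (Bi i)) (fun A => ((G i A).card : ℝ))) ^ 2)
      = ∑ i ∈ I, Ex p (edg (Bi i)) (fun A => (((G i A).card : ℝ) -
        Ex p (edg (Bi i)) (fun A => ((G i A).card : ℝ))) ^ 2) := by
  constructor
  · unfold Yf
    rw [Ex_sum]
    apply Finset.sum_congr rfl
    intro i hi
    exact Ex_inter (edg_mono (Finset.subset_biUnion_of_mem Bi hi)) (fun A => ((G i A).card : ℝ))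
  · rw [← Ex_sum_sq (p := p) (S := edg (I.biUnion Bi)) (I := I) (T := fun i => edg (Bi i))
      (fun i hi => edg_mono (Finset.subset_biUnion_of_mem Bi hi))
      (fun i hi j hj hij => edg_disj (disj_of_idx hidx hi hj hij))
      (fun i A => ((G i A).card : ℝ) - Ex p (edg (Bi i)) (fun A => ((G i A).card : ℝ)))
      (fun i _ => by rw [Ex_sub, Ex_const, sub_self])]
    apply Ex_congr
    intro A _
    unfold Yf
    rw [Finset.sum_sub_distrib]

/-- Pointwise bounds for the size of the merged set. -/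
lemma newG_bounds (hidx : ∀ i ∈ I, ∀ x ∈ Bi i, idx x = i)
    (hcard : ∀ i ∈ I, (Bi i).card = n) (ht : 0 < t) {N : ℝ}
    (hN : (((I.biUnion Bi).card : ℕ) : ℝ) = N) (hN' : (I.card : ℝ) * n = N) (hN0 : 0 < N)
    (hv : ∀ i ∈ I, ∀ A, A ⊆ edg (Bi i) → Val U (Bi i) A (G i A) (θ i A))
    {μY : ℝ} (hμ : 2 * t * N ≤ μY) (hμN : μY ≤ N) (A : Finset (Sym2 V)) :
    Yf I Bi G A - (Yf I Bi G A - μY) ^ 2 / (t * N) - N * Rf I Bi G π A
        ≤ ((newG t I Bi G π A).card : ℝ) ∧
    (((newG t I Bi G π A).card : ℝ) - μY) ^ 2 ≤ (Yf I Bi G A - μY) ^ 2 * (1 + 1 / t ^ 2)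
      + N ^ 2 * Rf I Bi G π A := by
  rw [newG_card hidx hv]
  have hYN : Yf I Bi G A ≤ N := by
    have := Yf_le hcard hv A
    rw [hN'] at this; exact this
  have hY0 : 0 ≤ Yf I Bi G A := Yf_nonneg A
  have hR0 : 0 ≤ Rf I Bi G π A := Rf_nonneg A
  have htN : 0 < t * N := mul_pos ht hN0
  have hμ0 : 0 < μY := by nlinarith
  by_cases hk : kept t I Bi G π A
  · rw [if_pos hk]
    set Y := Yf I Bi G A
    set R := Rf I Bi G π A
    constructor
    · have h1 : 0 ≤ (Y - μY) ^ 2 / (t * N) := by positivity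
      have h2 : 0 ≤ N * R := by positivity
      linarith
    · have h1 : 0 ≤ (Y - μY) ^ 2 * (1 / t ^ 2) := by positivity
      have h2 : 0 ≤ N ^ 2 * R := by positivity
      linarith
  · rw [if_neg hk]
    have hk' : Yf I Bi G A < t * N ∨ 1 ≤ Rf I Bi G π A := by
      by_contra h
      push Not at h
      apply hk
      refine ⟨by rw [hN]; exact h.1, ?_⟩
      intro i hi j hj hij hb
      exact absurd (one_le_Rf hi hj hij hb) (not_le.2 h.2)
    set Y := Yf I Bi G A
    set R := Rf I Bi G π A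
    rcases hk' with h | h
    · have h3 : t * N ≤ μY - Y := by linarith
      have h4 : (t * N) ^ 2 ≤ (Y - μY) ^ 2 := by nlinarith
      constructor
      · have h5 : t * N ≤ (Y - μY) ^ 2 / (t * N) := by
          rw [le_div_iff₀ htN]; nlinarith
        have h2 : 0 ≤ N * R := by positivity
        linarith
      · have h5 : μY ^ 2 ≤ (Y - μY) ^ 2 * (1 / t ^ 2) := by
          have h6 : N ^ 2 ≤ (Y - μY) ^ 2 * (1 / t ^ 2) := by
            rw [mul_one_div, le_div_iff₀ (by positivity)]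
            nlinarith
          have h7 : μY ^ 2 ≤ N ^ 2 := by nlinarith
          linarith
        have h2 : 0 ≤ N ^ 2 * R := by positivity
        have h8 : 0 ≤ (Y - μY) ^ 2 := sq_nonneg _
        nlinarith
    · constructor
      · have h1 : 0 ≤ (Y - μY) ^ 2 / (t * N) := by positivity
        have h2 : N ≤ N * R := by nlinarith
        linarith
      · have h7 : μY ^ 2 ≤ N ^ 2 := by nlinarith
        have h1 : 0 ≤ (Y - μY) ^ 2 * (1 + 1 / t ^ 2) := by positivity
        have h2 : N ^ 2 ≤ N ^ 2 * R := by nlinarith [sq_nonneg N]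
        have h9 : (0 - μY) ^ 2 = μY ^ 2 := by ring
        rw [h9]
        linarith

lemma merge_arith {t M n μY v q N EG VG Ψ : ℝ} (ht : 0 < t) (ht1 : t ≤ 1) (hn : 0 < n)
    (hN : N = M * n) (hM : 1 + 2 / t ^ 2 ≤ M) (hv0 : 0 ≤ v) (hq0 : 0 ≤ q)
    (h1 : Ψ * N ≤ μY - (t / n) * v) (hm : μY - v / (t * N) - N * q ≤ EG)
    (hvar : VG ≤ v * (1 + 1 / t ^ 2) + N ^ 2 * q) : (Ψ - 2 * q) * N ≤ EG - (t / N) * VG := by
  have hMpos : 0 < M := by
    have : (0:ℝ) < 1 + 2 / t ^ 2 := by positivity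
    linarith
  have hN0 : 0 < N := by rw [hN]; positivity
  have h7 : (t / N) * VG ≤ (t / N) * (v * (1 + 1 / t ^ 2) + N ^ 2 * q) :=
    mul_le_mul_of_nonneg_left hvar (by positivity)
  refine le_trans ?_ (sub_le_sub hm h7)
  have h8 : (t / N) * (v * (1 + 1 / t ^ 2) + N ^ 2 * q)
      = (t + 1 / t) * (v / N) + t * N * q := by
    field_simp
  have h9 : v / (t * N) = (1 / t) * (v / N) := by field_simp
  have h10 : (t / n) * v = t * M * (v / N) := by
    rw [hN]; field_simp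
  rw [h8, h9]
  have hvN : 0 ≤ v / N := by positivity
  have h11 : (2 / t + t) * (v / N) ≤ t * M * (v / N) := by
    apply mul_le_mul_of_nonneg_right _ hvN
    have : t * (1 + 2 / t ^ 2) = 2 / t + t := by field_simp; ring
    rw [← this]
    exact mul_le_mul_of_nonneg_left hM ht.le
  have h12 : t * N * q ≤ N * q := by
    have : 0 ≤ N * q := by positivity
    nlinarith
  have h13 : (2 / t + t) * (v / N) = (t + 1 / t) * (v / N) + (1 / t) * (v / N) := by ring
  have h14 : (Ψ - 2 * q) * N = Ψ * N - 2 * (N * q) := by ring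
  rw [h14]
  rw [h10] at h1
  linarith

/-- **Merge theorem**. -/
theorem merge (hp0 : ∀ e, 0 ≤ p e) (hp1 : ∀ e, p e ≤ 1)
    (hidx : ∀ i ∈ I, ∀ x ∈ Bi i, idx x = i) (hBU : ∀ i ∈ I, Bi i ⊆ U)
    (hcard : ∀ i ∈ I, (Bi i).card = n) (hn : 0 < n) (ht : 0 < t) (ht1 : t ≤ 1)
    (hM : 1 + 2 / t ^ 2 ≤ I.card)
    (hπ : ∀ i ∈ I, ∀ j ∈ I, i ≠ j → ∀ x ∈ Bi i, ∀ x' ∈ Bi j, p s(x, x') = π i j)
    (hΛ : 0 < Λ) (hΛπ : ∀ i ∈ I, ∀ j ∈ I, i ≠ j → Λ ≤ π i j * (t * n) ^ 2) {Ψ s : ℝ}
    (hΨ : 2 * t ≤ Ψ) (hdat : ∀ i ∈ I, Dat p t U (Bi i) Ψ s) :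
    Dat p t U (I.biUnion Bi) (Ψ - 2 * ((I.card : ℝ) ^ 2 * (4 / Λ)))
      ((1 + 24 / Λ) * s + 24 / Λ) := by
  unfold Dat at hdat
  choose! G θ hdat using hdat
  have hv : ∀ i ∈ I, ∀ A, A ⊆ edg (Bi i) → Val U (Bi i) A (G i A) (θ i A) :=
    fun i hi => (hdat i hi).1
  have hthr : ∀ i ∈ I, ∀ A, A ⊆ edg (Bi i) → G i A = ∅ ∨ t * (Bi i).card ≤ (G i A).card :=
    fun i hi => (hdat i hi).2.1
  have hmean := fun i hi => (hdat i hi).2.2.1
  have hs := fun i hi => (hdat i hi).2.2.2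
  clear hdat
  have hIpos : (0:ℝ) < I.card := by
    have : (0:ℝ) < 1 + 2 / t ^ 2 := by positivity
    linarith
  have hnpos : (0:ℝ) < n := by exact_mod_cast hn
  have hBcard : (((I.biUnion Bi).card : ℕ) : ℝ) = (I.card : ℝ) * n := by
    rw [card_biUnion_Gs (Bi := Bi) hidx (fun i _ => Finset.Subset.refl _)]
    rw [Finset.sum_congr rfl (fun i hi => by rw [hcard i hi]), Finset.sum_const, nsmul_eq_mul]
  have hN0 : (0:ℝ) < (I.card : ℝ) * n := mul_pos hIpos hnpos
  have hπpos : ∀ i ∈ I, ∀ j ∈ I, i ≠ j → 0 < π i j := by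
    intro i hi j hj hij
    by_contra h
    push Not at h
    have h1 := hΛπ i hi j hj hij
    have h2 : π i j * (t * n) ^ 2 ≤ 0 := mul_nonpos_of_nonpos_of_nonneg h (sq_nonneg _)
    linarith
  refine ⟨newG t I Bi G π, newθ t I Bi G θ idx π, ?_, ?_, ?_, ?_⟩
  · intro A _
    unfold newG newθ
    by_cases hk : kept t I Bi G π A
    · rw [if_pos hk, if_pos hk]
      apply mth_val (Gs := fun i => G i (A ∩ edg (Bi i)))
        (θs := fun i => θ i (A ∩ edg (Bi i))) hidx hBU
        (fun i hi => hv i hi _ Finset.inter_subset_right)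
      intro i hi j hj hij hGi hGj
      have hb := hk.2 i hi j hj hij
      unfold badp at hb
      rw [not_lt] at hb
      have h1 : (0:ℝ) < (G i (A ∩ edg (Bi i))).card := by
        exact_mod_cast Finset.card_pos.2 (Finset.nonempty_iff_ne_empty.2 hGi)
      have h2 : (0:ℝ) < (G j (A ∩ edg (Bi j))).card := by
        exact_mod_cast Finset.card_pos.2 (Finset.nonempty_iff_ne_empty.2 hGj)
      have h3 := mul_pos (hπpos i hi j hj hij) (mul_pos h1 h2)
      have h4 : 0 < Zc A (G i (A ∩ edg (Bi i))) (G j (A ∩ edg (Bi j))) := by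
        refine lt_of_lt_of_le ?_ hb
        linarith
      exact h4.ne'
    · rw [if_neg hk, if_neg hk]
      exact val_empty _ _ _
  · intro A _
    by_cases hk : kept t I Bi G π A
    · right
      rw [newG_card hidx hv, if_pos hk]
      exact hk.1
    · left
      unfold newG
      rw [if_neg hk]
  · obtain ⟨hY1, hY2⟩ := Ex_Yf (p := p) (G := G) hidx
    set μY : ℝ := ∑ i ∈ I, Ex p (edg (Bi i)) (fun A => ((G i A).card : ℝ)) with hμY
    set N : ℝ := (I.card : ℝ) * n with hN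
    set v : ℝ := ∑ i ∈ I, Ex p (edg (Bi i)) (fun A => (((G i A).card : ℝ) -
        Ex p (edg (Bi i)) (fun A => ((G i A).card : ℝ))) ^ 2) with hvdef
    have hv0 : 0 ≤ v := by
      rw [← hY2]
      exact Ex_nonneg hp0 hp1 (fun A _ => sq_nonneg _)
    have h1 : Ψ * N ≤ μY - (t / n) * v := by
      have : ∀ i ∈ I, Ψ * n ≤ Ex p (edg (Bi i)) (fun A => ((G i A).card : ℝ)) - (t / n) *
          Ex p (edg (Bi i)) (fun A => (((G i A).card : ℝ) -
        Ex p (edg (Bi i)) (fun A => ((G i A).card : ℝ))) ^ 2) := by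
        intro i hi
        have := hmean i hi
        rw [hcard i hi] at this
        exact this
      have h2 := Finset.sum_le_sum this
      rw [Finset.sum_const, nsmul_eq_mul, Finset.sum_sub_distrib, ← Finset.mul_sum] at h2
      rw [hN]
      calc Ψ * (I.card * n) = I.card * (Ψ * n) := by ring
        _ ≤ _ := h2
    clear_value μY v
    have htn : 0 < t / n := by positivity
    have hμ : 2 * t * N ≤ μY := by
      have h2 : 0 ≤ (t / n) * v := by positivity
      have h3 : 2 * t * N ≤ Ψ * N := mul_le_mul_of_nonneg_right hΨ hN0.le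
      linarith
    have hμN : μY ≤ N := by
      rw [← hY1]
      refine (Ex_mono hp0 hp1 (fun A _ => ?_)).trans (le_of_eq (Ex_const _ N))
      exact Yf_le hcard hv A
    have hR := Ex_Rf hp0 hp1 hidx hcard ht hn hΛ hv hthr hπ hΛπ
    set q : ℝ := (I.card : ℝ) ^ 2 * (4 / Λ) with hq
    have hb := fun A => newG_bounds (π := π) hidx hcard ht hBcard rfl hN0 hv hμ hμN A
    have hq0 : 0 ≤ q := by positivity
    -- mean
    have hm : μY - v / (t * N) - N * q ≤ Ex p (edg (I.biUnion Bi))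
        (fun A => ((newG t I Bi G π A).card : ℝ)) := by
      have h3 : Ex p (edg (I.biUnion Bi)) (fun A => Yf I Bi G A -
          (Yf I Bi G A - μY) ^ 2 / (t * N) - N * Rf I Bi G π A)
          ≤ Ex p (edg (I.biUnion Bi)) (fun A => ((newG t I Bi G π A).card : ℝ)) :=
        Ex_mono hp0 hp1 (fun A _ => (hb A).1)
      rw [Ex_sub, Ex_sub, Ex_mul_left] at h3
      have h4 : Ex p (edg (I.biUnion Bi)) (fun A => (Yf I Bi G A - μY) ^ 2 / (t * N))
          = v / (t * N) := by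
        simp only [div_eq_mul_inv]
        rw [Ex_mul_right, hY2]
      rw [h4] at h3
      have h5 : Ex p (edg (I.biUnion Bi)) (fun A => Yf I Bi G A) = μY := hY1
      rw [h5] at h3
      have h6 : N * Ex p (edg (I.biUnion Bi)) (fun A => Rf I Bi G π A) ≤ N * q :=
        mul_le_mul_of_nonneg_left hR hN0.le
      linarith
    -- variance
    have hvar : Ex p (edg (I.biUnion Bi)) (fun A => (((newG t I Bi G π A).card : ℝ) -
        Ex p (edg (I.biUnion Bi)) (fun A => ((newG t I Bi G π A).card : ℝ))) ^ 2)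
        ≤ v * (1 + 1 / t ^ 2) + N ^ 2 * q := by
      refine (Ex_var_le _ _ μY).trans ?_
      refine (Ex_mono hp0 hp1 (fun A _ => (hb A).2)).trans ?_
      rw [Ex_add, Ex_mul_right, hY2, Ex_mul_left]
      have h6 : N ^ 2 * Ex p (edg (I.biUnion Bi)) (fun A => Rf I Bi G π A) ≤ N ^ 2 * q :=
        mul_le_mul_of_nonneg_left hR (sq_nonneg _)
      linarith
    rw [hBcard]
    exact merge_arith ht ht1 hnpos hN hM hv0 hq0 h1 hm hvar
  · rw [hBcard]
    exact Ex_newtot hp0 hp1 hidx hcard ht hn hΛ hv hthr hπ hΛπ (fun i hi => by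
      have := hs i hi
      rw [hcard i hi] at this
      exact this)

end merge

end Pool.Agent.Lib.MP_133e92_pr
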