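import Mathlib

open Finset

namespace Pool.Agent.Lib.MP_133e92_pr

section numer

variable {N : ℕ} {q : ℕ → ℝ} {K κ α : ℝ}

lemma summable_shift_geom (a : ℕ) : Summable (fun j : ℕ => (((j + 1 : ℕ) : ℝ)) ^ a * (1 / 2 : ℝ) ^ j) := by
  have h1 : Summable (fun n : ℕ => (n : ℝ) ^ a * (1 / 2 : ℝ) ^ n) :=
    summable_pow_mul_geometric_of_norm_lt_one a (by norm_num)
  have h2 := ((summable_nat_add_iff 1).2 h1).mul_left 2
  refine h2.congr (fun j => ?_)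
  rw [pow_succ]; ring

lemma rpow_le_pow_nat {a : ℕ} (ha : α ≤ a) {x : ℝ} (hx : 1 ≤ x) : x ^ α ≤ x ^ a := by
  rw [← Real.rpow_natCast]
  exact Real.rpow_le_rpow_of_exponent_le hx ha

/-- Tails of the expected number of long edges. -/
lemma tail_bound (hN : 2 ≤ N) (hK : 0 < K) (hα : 0 < α)
    (hq : ∀ k : ℕ, 1 ≤ k → q k ≤ K * (k : ℝ) ^ α / (N : ℝ) ^ (2 * k)) :
    ∃ K' : ℝ, 0 < K' ∧ ∀ m : ℕ, 1 ≤ m → ∀ M : ℕ,
      ∑ k ∈ Finset.Ioc m M, (N : ℝ) ^ k * q k ≤ K' * (m : ℝ) ^ α / (N : ℝ) ^ m := by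
  obtain ⟨a, ha⟩ := exists_nat_ge α
  have hs := summable_shift_geom a
  set S : ℝ := ∑' j : ℕ, (((j + 1 : ℕ) : ℝ)) ^ a * (1 / 2 : ℝ) ^ j with hS
  have hS0 : 0 ≤ S := tsum_nonneg (fun j => by positivity)
  have hN' : (2:ℝ) ≤ N := by exact_mod_cast hN
  have hNpos : (0:ℝ) < N := by linarith
  refine ⟨K * S + 1, by positivity, ?_⟩
  intro m hm M
  have hm' : (1:ℝ) ≤ m := by exact_mod_cast hm
  have hmα : (0:ℝ) < (m:ℝ) ^ α := Real.rpow_pos_of_pos (by linarith) α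
  have h1 : ∀ k ∈ Finset.Ioc m M, (N : ℝ) ^ k * q k
      ≤ (K * (m:ℝ) ^ α / (N:ℝ) ^ m) * ((((k - m + 1 : ℕ) : ℝ)) ^ a * (1 / 2 : ℝ) ^ (k - m)) := by
    intro k hk
    rw [Finset.mem_Ioc] at hk
    have hk1 : 1 ≤ k := by omega
    obtain ⟨j, rfl⟩ := Nat.exists_eq_add_of_le hk.1.le
    have hj : m + j - m = j := by omega
    rw [hj]
    have h2 := hq (m + j) hk1
    have h3 : (((m + j : ℕ) : ℝ)) ^ α ≤ (m:ℝ) ^ α * (((j + 1 : ℕ) : ℝ)) ^ a := by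
      calc (((m + j : ℕ) : ℝ)) ^ α ≤ ((m:ℝ) * ((j + 1 : ℕ) : ℝ)) ^ α := by
            apply Real.rpow_le_rpow (by positivity) _ hα.le
            push_cast
            nlinarith [Nat.cast_nonneg (α := ℝ) j]
        _ = (m:ℝ) ^ α * (((j + 1 : ℕ) : ℝ)) ^ α :=
            Real.mul_rpow (by positivity) (by positivity)
        _ ≤ _ := by
            apply mul_le_mul_of_nonneg_left _ hmα.le
            apply rpow_le_pow_nat ha
            push_cast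
            linarith [Nat.cast_nonneg (α := ℝ) j]
    have h4 : (1:ℝ) / (N:ℝ) ^ j ≤ (1 / 2) ^ j := by
      rw [one_div_pow]
      exact one_div_le_one_div_of_le (by positivity) (pow_le_pow_left₀ (by norm_num) hN' j)
    calc (N : ℝ) ^ (m + j) * q (m + j)
        ≤ (N : ℝ) ^ (m + j) * (K * (((m + j : ℕ) : ℝ)) ^ α / (N : ℝ) ^ (2 * (m + j))) :=
          mul_le_mul_of_nonneg_left h2 (by positivity)
      _ = (K * (((m + j : ℕ) : ℝ)) ^ α / (N:ℝ) ^ m) * (1 / (N:ℝ) ^ j) := by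
          have : (N : ℝ) ^ (2 * (m + j)) = (N : ℝ) ^ (m + j) * ((N:ℝ) ^ m * (N:ℝ) ^ j) := by
            rw [← pow_add, ← pow_add]; congr 1; ring
          rw [this]
          field_simp
      _ ≤ (K * ((m:ℝ) ^ α * (((j + 1 : ℕ) : ℝ)) ^ a) / (N:ℝ) ^ m) * (1 / 2) ^ j := by
          apply mul_le_mul _ h4 (by positivity) (by positivity)
          apply div_le_div_of_nonneg_right _ (by positivity)
          exact mul_le_mul_of_nonneg_left h3 hK.le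
      _ = _ := by ring
  refine (Finset.sum_le_sum h1).trans ?_
  rw [← Finset.mul_sum]
  have hinj : Set.InjOn (fun k => k - m) (Finset.Ioc m M : Set ℕ) := by
    intro k hk k' hk' h
    rw [Finset.mem_coe, Finset.mem_Ioc] at hk hk'
    simp only at h
    omega
  have h5 : ∑ k ∈ Finset.Ioc m M, ((((k - m + 1 : ℕ) : ℝ)) ^ a * (1 / 2 : ℝ) ^ (k - m)) ≤ S := by
    have h6 : ∑ k ∈ Finset.Ioc m M, ((((k - m + 1 : ℕ) : ℝ)) ^ a * (1 / 2 : ℝ) ^ (k - m))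
        = ∑ j ∈ (Finset.Ioc m M).image (fun k => k - m),
          ((((j + 1 : ℕ) : ℝ)) ^ a * (1 / 2 : ℝ) ^ j) := by
      rw [Finset.sum_image hinj]
    rw [h6]
    exact hs.sum_le_tsum _ (fun j _ => by positivity)
  calc (K * (m:ℝ) ^ α / (N:ℝ) ^ m) * _ ≤ (K * (m:ℝ) ^ α / (N:ℝ) ^ m) * S :=
        mul_le_mul_of_nonneg_left h5 (by positivity)
    _ = (K * S) * (m:ℝ) ^ α / (N:ℝ) ^ m := by ring
    _ ≤ (K * S + 1) * (m:ℝ) ^ α / (N:ℝ) ^ m := by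
        apply div_le_div_of_nonneg_right _ (by positivity)
        apply mul_le_mul_of_nonneg_right _ hmα.le
        linarith

lemma eta_tendsto (hN : 2 ≤ N) (K' α : ℝ) (hK' : 0 ≤ K') :
    Filter.Tendsto (fun m : ℕ => K' * (m : ℝ) ^ α / (N : ℝ) ^ m) Filter.atTop (nhds 0) := by
  obtain ⟨a, ha⟩ := exists_nat_ge α
  have h1 : Summable (fun n : ℕ => (n : ℝ) ^ a * (1 / 2 : ℝ) ^ n) :=
    summable_pow_mul_geometric_of_norm_lt_one a (by norm_num)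
  have h2 := (h1.tendsto_atTop_zero).const_mul K'
  rw [mul_zero] at h2
  have hN' : (2:ℝ) ≤ N := by exact_mod_cast hN
  apply squeeze_zero' _ _ h2
  · exact Filter.Eventually.of_forall (fun m => by positivity)
  · filter_upwards [Filter.eventually_ge_atTop 1] with m hm
    have hm' : (1:ℝ) ≤ m := by exact_mod_cast hm
    have h4 : (1:ℝ) / (N:ℝ) ^ m ≤ (1 / 2) ^ m := by
      rw [one_div_pow]
      exact one_div_le_one_div_of_le (by positivity) (pow_le_pow_left₀ (by norm_num) hN' m)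
    calc K' * (m : ℝ) ^ α / (N : ℝ) ^ m = K' * ((m : ℝ) ^ α * (1 / (N : ℝ) ^ m)) := by ring
      _ ≤ K' * ((m : ℝ) ^ a * (1 / 2) ^ m) := by
          apply mul_le_mul_of_nonneg_left _ hK'
          exact mul_le_mul (rpow_le_pow_nat ha hm') h4 (by positivity) (by positivity)

/-- Numerical estimate for the second moment argument. -/
lemma num_sum (hN : 2 ≤ N) (hκ : 0 < κ) (hα : 0 < α)
    (hκq : ∀ k : ℕ, 1 ≤ k → κ * (k : ℝ) ^ α / (N : ℝ) ^ (2 * k) ≤ q k) {K' : ℝ} (hK' : 0 < K')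
    {ε : ℝ} (hε : 0 < ε) : ∃ j : ℕ, ∀ l : ℕ, 1 ≤ l →
      ∑ i ∈ Finset.Ioc 0 l, 8 * Real.sqrt ((K' * ((l + j : ℕ) : ℝ) ^ α / (N : ℝ) ^ (l + j)) *
        (N : ℝ) ^ i / q i) ≤ ε * (N : ℝ) ^ l := by
  obtain ⟨a, ha⟩ := exists_nat_ge α
  have hs := summable_shift_geom a
  set S : ℝ := ∑' j : ℕ, (((j + 1 : ℕ) : ℝ)) ^ a * (1 / 2 : ℝ) ^ j with hS
  have hS0 : 0 ≤ S := tsum_nonneg (fun j => by positivity)
  have hN' : (2:ℝ) ≤ N := by exact_mod_cast hN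
  have hNpos : (0:ℝ) < N := by linarith
  -- choose j
  have hg : Filter.Tendsto (fun j : ℕ => Real.sqrt ((K' / κ) *
      ((((j + 1 : ℕ) : ℝ)) ^ a * (1 / 2 : ℝ) ^ j)) * (8 * S)) Filter.atTop (nhds 0) := by
    have h1 := (hs.tendsto_atTop_zero).const_mul (K' / κ)
    rw [mul_zero] at h1
    have h2 := (Real.continuous_sqrt.tendsto 0).comp h1
    rw [Real.sqrt_zero] at h2
    have h3 := h2.mul_const (8 * S)
    rw [zero_mul] at h3
    exact h3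
  obtain ⟨j, hj⟩ := (hg.eventually (gt_mem_nhds hε)).exists
  refine ⟨j, ?_⟩
  intro l hl
  have key : ∀ i ∈ Finset.Ioc 0 l, 8 * Real.sqrt ((K' * ((l + j : ℕ) : ℝ) ^ α /
      (N : ℝ) ^ (l + j)) * (N : ℝ) ^ i / q i)
      ≤ (8 * (N : ℝ) ^ l * Real.sqrt ((K' / κ) * ((((j + 1 : ℕ) : ℝ)) ^ a * (1 / 2 : ℝ) ^ j))) *
        ((((l - i + 1 : ℕ) : ℝ)) ^ a * (1 / 2 : ℝ) ^ (l - i)) := by
    intro i hi
    rw [Finset.mem_Ioc] at hi
    obtain ⟨u, rfl⟩ := Nat.exists_eq_add_of_le hi.2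
    have hu : i + u - i = u := by omega
    rw [hu]
    have hi1 : (1:ℝ) ≤ i := by exact_mod_cast hi.1
    have hiα : (0:ℝ) < (i:ℝ) ^ α := Real.rpow_pos_of_pos (by linarith) α
    have hqi := hκq i hi.1
    have hqpos : 0 < q i := lt_of_lt_of_le (by positivity) hqi
    have hj0 : (0:ℝ) ≤ j := Nat.cast_nonneg j
    have hu0 : (0:ℝ) ≤ u := Nat.cast_nonneg u
    -- bound on the ratio
    have h1 : (((i + u + j : ℕ) : ℝ)) ^ α ≤ (i:ℝ) ^ α * ((((j + 1 : ℕ) : ℝ)) ^ a *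
        (((u + 1 : ℕ) : ℝ)) ^ (2 * a)) := by
      calc (((i + u + j : ℕ) : ℝ)) ^ α
          ≤ ((i:ℝ) * (((j + 1 : ℕ) : ℝ) * ((u + 1 : ℕ) : ℝ))) ^ α := by
            apply Real.rpow_le_rpow (by positivity) _ hα.le
            push_cast
            nlinarith [mul_nonneg hj0 hu0, mul_nonneg (sub_nonneg.2 hi1) hj0,
              mul_nonneg (sub_nonneg.2 hi1) hu0,
              mul_nonneg (sub_nonneg.2 hi1) (mul_nonneg hj0 hu0)]
        _ = (i:ℝ) ^ α * ((((j + 1 : ℕ) : ℝ)) ^ α * (((u + 1 : ℕ) : ℝ)) ^ α) := by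
            rw [Real.mul_rpow (by positivity) (by positivity),
              Real.mul_rpow (by positivity) (by positivity)]
        _ ≤ _ := by
            apply mul_le_mul_of_nonneg_left _ hiα.le
            apply mul_le_mul
            · apply rpow_le_pow_nat ha
              push_cast; linarith
            · apply rpow_le_pow_nat
              · push_cast
                linarith
              · push_cast; linarith
            · positivity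
            · positivity
    have h2 : (1:ℝ) / (N:ℝ) ^ j ≤ (1 / 2) ^ j := by
      rw [one_div_pow]
      exact one_div_le_one_div_of_le (by positivity) (pow_le_pow_left₀ (by norm_num) hN' j)
    have h3 : (1:ℝ) / (N:ℝ) ^ (3 * u) ≤ ((1 / 2) ^ u) ^ 2 := by
      have e1 : ((1 / 2 : ℝ) ^ u) ^ 2 = 1 / 2 ^ (2 * u) := by
        rw [one_div_pow, one_div_pow, ← pow_mul]; congr 2; ring
      rw [e1]
      apply one_div_le_one_div_of_le (by positivity)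
      calc (2:ℝ) ^ (2 * u) ≤ 2 ^ (3 * u) := pow_le_pow_right₀ (by norm_num) (by omega)
        _ ≤ (N:ℝ) ^ (3 * u) := pow_le_pow_left₀ (by norm_num) hN' _
    have h4 : (K' * (((i + u + j : ℕ) : ℝ)) ^ α / (N : ℝ) ^ (i + u + j)) * (N : ℝ) ^ i / q i
        ≤ (((N : ℝ) ^ (i + u)) ^ 2 * ((K' / κ) * ((((j + 1 : ℕ) : ℝ)) ^ a * (1 / 2 : ℝ) ^ j))) *
          ((((u + 1 : ℕ) : ℝ)) ^ a * (1 / 2 : ℝ) ^ u) ^ 2 := by
      rw [div_le_iff₀ hqpos]
      have h5 : (((N : ℝ) ^ (i + u)) ^ 2 * ((K' / κ) * ((((j + 1 : ℕ) : ℝ)) ^ a *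
          (1 / 2 : ℝ) ^ j))) * ((((u + 1 : ℕ) : ℝ)) ^ a * (1 / 2 : ℝ) ^ u) ^ 2 *
          (κ * (i : ℝ) ^ α / (N : ℝ) ^ (2 * i))
          ≤ (((N : ℝ) ^ (i + u)) ^ 2 * ((K' / κ) * ((((j + 1 : ℕ) : ℝ)) ^ a *
          (1 / 2 : ℝ) ^ j))) * ((((u + 1 : ℕ) : ℝ)) ^ a * (1 / 2 : ℝ) ^ u) ^ 2 * q i :=
        mul_le_mul_of_nonneg_left hqi (by positivity)
      refine le_trans ?_ h5
      have e2 : (((N : ℝ) ^ (i + u)) ^ 2 * ((K' / κ) * ((((j + 1 : ℕ) : ℝ)) ^ a *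
          (1 / 2 : ℝ) ^ j))) * ((((u + 1 : ℕ) : ℝ)) ^ a * (1 / 2 : ℝ) ^ u) ^ 2 *
          (κ * (i : ℝ) ^ α / (N : ℝ) ^ (2 * i))
          = K' * ((i : ℝ) ^ α * ((((j + 1 : ℕ) : ℝ)) ^ a * (((u + 1 : ℕ) : ℝ)) ^ (2 * a))) *
            ((N : ℝ) ^ (2 * u) * ((1 / 2 : ℝ) ^ j * ((1 / 2) ^ u) ^ 2)) := by
        have e3 : ((N : ℝ) ^ (i + u)) ^ 2 = (N : ℝ) ^ (2 * i) * (N : ℝ) ^ (2 * u) := by
          rw [← pow_mul, ← pow_add]; congr 1; ring
        have e4 : (((u + 1 : ℕ) : ℝ)) ^ (2 * a) = ((((u + 1 : ℕ) : ℝ)) ^ a) ^ 2 := by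
          rw [← pow_mul]; congr 1; ring
        rw [e3, e4]
        field_simp
      rw [e2]
      have e5 : (K' * (((i + u + j : ℕ) : ℝ)) ^ α / (N : ℝ) ^ (i + u + j)) * (N : ℝ) ^ i
          = K' * (((i + u + j : ℕ) : ℝ)) ^ α * ((N : ℝ) ^ (2 * u) *
            (1 / (N:ℝ) ^ j * (1 / (N:ℝ) ^ (3 * u)))) := by
        have e6 : (N : ℝ) ^ (i + u + j) = (N : ℝ) ^ i * (N:ℝ) ^ u * (N:ℝ) ^ j := by
          rw [← pow_add, ← pow_add]
        have e7 : (N : ℝ) ^ (3 * u) = (N : ℝ) ^ (2 * u) * (N:ℝ) ^ u := by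
          rw [← pow_add]; congr 1; ring
        rw [e6, e7]
        field_simp
      rw [e5]
      apply mul_le_mul
      · exact mul_le_mul_of_nonneg_left h1 hK'.le
      · apply mul_le_mul_of_nonneg_left _ (by positivity)
        exact mul_le_mul h2 h3 (by positivity) (by positivity)
      · positivity
      · positivity
    have h6 := Real.sqrt_le_sqrt h4
    rw [Real.sqrt_mul (by positivity), Real.sqrt_mul (sq_nonneg _), Real.sqrt_sq (by positivity),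
      Real.sqrt_sq (by positivity)] at h6
    calc 8 * Real.sqrt ((K' * ((i + u + j : ℕ) : ℝ) ^ α / (N : ℝ) ^ (i + u + j)) *
          (N : ℝ) ^ i / q i) ≤ 8 * (((N : ℝ) ^ (i + u) * Real.sqrt ((K' / κ) *
          ((((j + 1 : ℕ) : ℝ)) ^ a * (1 / 2 : ℝ) ^ j))) *
          ((((u + 1 : ℕ) : ℝ)) ^ a * (1 / 2 : ℝ) ^ u)) :=
          mul_le_mul_of_nonneg_left h6 (by norm_num)
      _ = _ := by ring
  refine (Finset.sum_le_sum key).trans ?_
  rw [← Finset.mul_sum]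
  have hinj : Set.InjOn (fun i => l - i) (Finset.Ioc 0 l : Set ℕ) := by
    intro k hk k' hk' h
    rw [Finset.mem_coe, Finset.mem_Ioc] at hk hk'
    simp only at h
    omega
  have h5 : ∑ i ∈ Finset.Ioc 0 l, ((((l - i + 1 : ℕ) : ℝ)) ^ a * (1 / 2 : ℝ) ^ (l - i)) ≤ S := by
    have h6 : ∑ i ∈ Finset.Ioc 0 l, ((((l - i + 1 : ℕ) : ℝ)) ^ a * (1 / 2 : ℝ) ^ (l - i))
        = ∑ j ∈ (Finset.Ioc 0 l).image (fun i => l - i),
          ((((j + 1 : ℕ) : ℝ)) ^ a * (1 / 2 : ℝ) ^ j) := by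
      rw [Finset.sum_image hinj]
    rw [h6]
    exact hs.sum_le_tsum _ (fun j _ => by positivity)
  set g := Real.sqrt ((K' / κ) * ((((j + 1 : ℕ) : ℝ)) ^ a * (1 / 2 : ℝ) ^ j)) with hgdef
  have hg0 : 0 ≤ g := Real.sqrt_nonneg _
  calc (8 * (N : ℝ) ^ l * g) * _ ≤ (8 * (N : ℝ) ^ l * g) * S :=
        mul_le_mul_of_nonneg_left h5 (by positivity)
    _ = (g * (8 * S)) * (N : ℝ) ^ l := by ring
    _ ≤ ε * (N : ℝ) ^ l := mul_le_mul_of_nonneg_right hj.le (by positivity)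

end numer

end Pool.Agent.Lib.MP_133e92_pr
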