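import Pool.Agent.Lib.MP_133e92_pr.Link
import Pool.Agent.Lib.MP_133e92_pr.Iter

open Finset MeasureTheory ProbabilityTheory
open scoped BigOperators Classical ENNReal

namespace Pool.Agent.Lib.MP_133e92_pr

attribute [-instance] Finsupp.instDecidableEq

section tr

variable {N : ℕ}

/-- Translated configuration. -/
def tr (g : HGroup N) (O : Set (Sym2 (HGroup N))) : Set (Sym2 (HGroup N)) :=
  {e | Sym2.map (fun x => g + x) e ∈ O}

lemma mem_tr (g : HGroup N) (O : Set (Sym2 (HGroup N))) (a b : HGroup N) :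
    s(a, b) ∈ tr g O ↔ s(g + a, g + b) ∈ O := Iff.rfl

lemma refltrans_tr {r r' : HGroup N → HGroup N → Prop} (g : HGroup N)
    (h : ∀ a b, r a b ↔ r' (g + a) (g + b)) (x y : HGroup N) :
    Relation.ReflTransGen r x y ↔ Relation.ReflTransGen r' (g + x) (g + y) := by
  constructor
  · intro hxy
    exact Relation.ReflTransGen.lift (r := r) (p := r') (fun z => g + z)
      (fun a b hab => (h a b).1 hab) _ _ hxy
  · intro hxy
    have := Relation.ReflTransGen.lift (r := r') (p := r) (fun z => -g + z) (fun a b hab => by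
      apply (h _ _).2
      simpa using hab) _ _ hxy
    simpa [Function.onFun] using this

lemma Rs_tr (g : HGroup N) (O : Set (Sym2 (HGroup N))) (x y : HGroup N) :
    Rs (tr g O) x y ↔ Rs O (g + x) (g + y) :=
  refltrans_tr g (fun a b => mem_tr g O a b) x y

lemma InfC_tr (g : HGroup N) (O : Set (Sym2 (HGroup N))) (x : HGroup N) :
    InfC (tr g O) x ↔ InfC O (g + x) := by
  unfold InfC
  have h : {y | Rs O (g + x) y} = (fun y => g + y) '' {y | Rs (tr g O) x y} := by
    ext y
    constructor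
    · intro hy
      refine ⟨-g + y, ?_, by simp⟩
      change Rs (tr g O) x (-g + y)
      rw [Rs_tr]
      simpa using hy
    · rintro ⟨z, hz, rfl⟩
      exact (Rs_tr g O x z).1 hz
  rw [h, Set.infinite_image_iff]
  intro a _ b _ hab
  exact add_left_cancel hab

variable [NeZero N]

lemma mem_edg_hball_tr (g : HGroup N) (m : ℕ) (x a b : HGroup N) :
    s(a, b) ∈ edg (hball m x) ↔ s(g + a, g + b) ∈ edg (hball m (g + x)) := by
  rw [mem_edg, mem_edg, mem_hball, mem_hball, mem_hball, mem_hball, hdist_add_left,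
    hdist_add_left]
  simp

lemma Rch_opn_tr (g : HGroup N) (O : Set (Sym2 (HGroup N))) (m : ℕ) (x y z : HGroup N) :
    Rch (opn (tr g O) (edg (hball m x))) y z ↔
      Rch (opn O (edg (hball m (g + x)))) (g + y) (g + z) := by
  apply refltrans_tr
  intro a b
  rw [mem_opn, mem_opn, mem_tr, mem_edg_hball_tr g]

/-- The event that `x` and `y` are in infinite components but not connected inside the ball of
radius `m` around `x`. -/
def UU (m : ℕ) (x y : HGroup N) (O : Set (Sym2 (HGroup N))) : Prop :=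
  InfC O x ∧ InfC O y ∧ ¬ Rch (opn O (edg (hball m x))) x y

lemma UU_tr (g : HGroup N) (O : Set (Sym2 (HGroup N))) (m : ℕ) (x y : HGroup N) :
    UU m x y (tr g O) ↔ UU m (g + x) (g + y) O := by
  unfold UU
  rw [InfC_tr, InfC_tr, Rch_opn_tr]

end tr

section perc

variable {N : ℕ} [NeZero N] {q : ℕ → ℝ} {Ω : Type*} [MeasurableSpace Ω] {μ : Measure Ω}
  {O : Ω → Set (Sym2 (HGroup N))}

/-- Independent percolation on the hierarchical group. -/
structure Perc (q : ℕ → ℝ) (μ : Measure Ω) (O : Ω → Set (Sym2 (HGroup N))) : Prop where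
  q0 : ∀ k, 0 ≤ q k
  q1 : ∀ k, q k ≤ 1
  meas : ∀ e, MeasurableSet {ω | e ∈ O ω}
  ind : iIndepSet (fun e => {ω | e ∈ O ω}) μ
  prob : ∀ x y, x ≠ y → μ.real {ω | s(x, y) ∈ O ω} = q (hdist x y)
  diag : ∀ x ω, s(x, x) ∉ O ω

variable [IsProbabilityMeasure μ]

lemma Perc.prob_edg (h : Perc q μ O) {B : Finset (HGroup N)} :
    ∀ e ∈ edg B, μ.real {ω | e ∈ O ω} = lvl N q e := by
  intro e
  induction e using Sym2.ind with
  | _ x y =>
    intro he
    rw [mem_edg] at he
    exact h.prob x y he.2.2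

theorem Perc.inv (h : Perc q μ O) (g : HGroup N) {T : Set (Set (Sym2 (HGroup N)))}
    (hT : MeasurableSet T) : μ {ω | tr g (O ω) ∈ T} = μ {ω | O ω ∈ T} := by
  apply law_eq (O₁ := fun ω => tr g (O ω)) (O₂ := O)
  · intro e; exact h.meas _
  · exact h.meas
  · have hinj : Function.Injective (Sym2.map (fun x : HGroup N => g + x)) :=
      Sym2.map.injective (add_right_injective g)
    exact iIndepSet.precomp hinj h.ind
  · exact h.ind
  · intro e
    induction e using Sym2.ind with
    | _ x y =>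
      by_cases hxy : x = y
      · subst hxy
        have e1 : {ω | s(x, x) ∈ tr g (O ω)} = ∅ := by
          ext ω
          simp only [Set.mem_ofPred_eq, Set.mem_empty_iff_false, iff_false]
          exact h.diag (g + x) ω
        have e2 : {ω | s(x, x) ∈ O ω} = ∅ := by
          ext ω
          simp only [Set.mem_ofPred_eq, Set.mem_empty_iff_false, iff_false]
          exact h.diag x ω
        rw [e1, e2]
      · have h1 := h.prob x y hxy
        have h2 := h.prob (g + x) (g + y) (fun h' => hxy (add_left_cancel h'))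
        rw [hdist_add_left, ← h1] at h2
        have h3 : μ {ω | s(g + x, g + y) ∈ O ω} = μ {ω | s(x, y) ∈ O ω} := by
          rw [measureReal_def, measureReal_def] at h2
          exact (ENNReal.toReal_eq_toReal_iff' (measure_ne_top _ _) (measure_ne_top _ _)).1 h2
        exact h3
  · exact hT

lemma measurableSet_mem_id (e : Sym2 (HGroup N)) :
    MeasurableSet {s : Set (Sym2 (HGroup N)) | e ∈ id s} :=
  measurableSet_setOfPred.2 (measurable_set_mem e)

lemma Perc.inv_InfC (h : Perc q μ O) (g : HGroup N) :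
    μ.real {ω | InfC (O ω) g} = μ.real {ω | InfC (O ω) 0} := by
  have h1 := h.inv g (T := {s | InfC s 0}) (measurableSet_InfC (O := id) measurableSet_mem_id 0)
  have h2 : {ω | tr g (O ω) ∈ {s | InfC s 0}} = {ω | InfC (O ω) g} := by
    ext ω
    change InfC (tr g (O ω)) 0 ↔ InfC (O ω) g
    rw [InfC_tr, add_zero]
  rw [h2] at h1
  rw [measureReal_def, h1]
  rfl

lemma measurableSet_UU {Ω' : Type*} [MeasurableSpace Ω'] {O' : Ω' → Set (Sym2 (HGroup N))}
    (hm : ∀ e, MeasurableSet {ω | e ∈ O' ω}) (m : ℕ) (x y : HGroup N) :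
    MeasurableSet {ω | UU m x y (O' ω)} := by
  have : {ω | UU m x y (O' ω)} = {ω | InfC (O' ω) x} ∩ ({ω | InfC (O' ω) y} ∩
      {ω | Rch (opn (O' ω) (edg (hball m x))) x y}ᶜ) := rfl
  rw [this]
  exact (measurableSet_InfC hm x).inter ((measurableSet_InfC hm y).inter
    (measurableSet_opn hm _ (fun A => Rch A x y)).compl)

lemma Perc.inv_UU (h : Perc q μ O) (m : ℕ) (x v : HGroup N) :
    μ.real {ω | UU m x (x + v) (O ω)} = μ.real {ω | UU m 0 v (O ω)} := by
  have h1 := h.inv x (T := {s | UU m 0 v s}) (measurableSet_UU (O' := id) measurableSet_mem_id m 0 v)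
  have h2 : {ω | tr x (O ω) ∈ {s | UU m 0 v s}} = {ω | UU m x (x + v) (O ω)} := by
    ext ω
    change UU m 0 v (tr x (O ω)) ↔ UU m x (x + v) (O ω)
    rw [UU_tr, add_zero]
  rw [h2] at h1
  rw [measureReal_def, h1]
  rfl

lemma exit_lemma {V : Type*} {O : Set (Sym2 V)} {B : Finset V} {x : V} (hx : x ∈ B) {y : V}
    (h : Rs O x y) : (Rch (opn O (edg B)) x y ∧ y ∈ B) ∨
      ∃ v ∈ B, Rch (opn O (edg B)) x v ∧ ∃ w, w ∉ B ∧ s(v, w) ∈ O := by
  induction h with
  | refl => left; exact ⟨Rch.refl _ _, hx⟩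
  | @tail b c _ h2 ih =>
    rcases ih with ⟨h3, h4⟩ | h3
    · by_cases hc : c ∈ B
      · left
        refine ⟨?_, hc⟩
        by_cases hbc : b = c
        · rw [← hbc]; exact h3
        · exact h3.trans (Rch.single (mem_opn.2 ⟨mem_edg.2 ⟨h4, hc, hbc⟩, h2⟩))
      · right
        exact ⟨b, h4, h3, c, hc, h2⟩
    · right; exact h3

lemma InfC.exit {V : Type*} {O : Set (Sym2 V)} {B : Finset V} {x : V} (hx : x ∈ B)
    (h : InfC O x) : ∃ v ∈ B, Rch (opn O (edg B)) x v ∧ ∃ w, w ∉ B ∧ s(v, w) ∈ O := by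
  obtain ⟨y, hy, hyB⟩ := Set.Infinite.exists_notMem_finset h B
  rcases exit_lemma hx hy with ⟨_, h2⟩ | h2
  · exact absurd h2 hyB
  · exact h2

/-- Edges from the ball to a larger ball. -/
noncomputable def Sx (m : ℕ) (c : HGroup N) (K : ℕ) : Finset (Sym2 (HGroup N)) :=
  crs (hball m c) (hball K c \ hball m c)

/-- Vertices of the ball with an open edge to a larger ball. -/
noncomputable def QK (m : ℕ) (c : HGroup N) (K : ℕ) (A : Finset (Sym2 (HGroup N))) :
    Finset (HGroup N) :=
  (hball m c).filter (fun v => ∃ w ∈ hball K c \ hball m c, s(v, w) ∈ A)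

lemma Sx_disj (m : ℕ) (c : HGroup N) (K : ℕ) : Disjoint (Sx m c K) (edg (hball m c)) := by
  rw [Finset.disjoint_left]
  intro e he he'
  unfold Sx crs at he
  rw [Finset.mem_image] at he
  obtain ⟨⟨x, y⟩, hr, rfl⟩ := he
  rw [Finset.mem_product, Finset.mem_sdiff] at hr
  simp only at hr he'
  rw [mem_edg] at he'
  exact hr.2.2 he'.2.1

lemma QK_mono {m : ℕ} {c : HGroup N} {K K' : ℕ} (hK : K ≤ K') (O : Set (Sym2 (HGroup N))) :
    QK m c K (opn O (Sx m c K)) ⊆ QK m c K' (opn O (Sx m c K')) := by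
  intro v hv
  unfold QK at hv ⊢
  rw [Finset.mem_filter] at hv ⊢
  obtain ⟨h1, w, hw, hvw⟩ := hv
  have hw' : w ∈ hball K' c \ hball m c := by
    rw [Finset.mem_sdiff] at hw ⊢
    exact ⟨hball_mono hK c hw.1, hw.2⟩
  refine ⟨h1, w, hw', ?_⟩
  rw [mem_opn] at hvw ⊢
  exact ⟨mem_crs h1 hw', hvw.2⟩

lemma Ex_mem {E : Type*} [DecidableEq E] {p : E → ℝ} {S : Finset E} {e : E} (he : e ∈ S) :
    Ex p S (fun A => if e ∈ A then (1:ℝ) else 0) = p e := by
  have h := Ex_centered (p := p) he (fun _ => 1) (fun _ _ => rfl)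
  have h2 : Ex p S (fun A => 1 * ((if e ∈ A then (1:ℝ) else 0) - p e))
      = Ex p S (fun A => if e ∈ A then (1:ℝ) else 0) - p e := by
    simp only [one_mul]
    rw [Ex_sub, Ex_const]
  rw [h2] at h
  linarith

/-- Probability that a set `W` is hit by the vertices with edges to the outside. -/
lemma hit_bound (hq0 : ∀ k, 0 ≤ q k) (hq1 : ∀ k, q k ≤ 1) {m : ℕ} {c : HGroup N} {K : ℕ} {η : ℝ}
    (hη : ∑ k ∈ Finset.Ioc m K, (N : ℝ) ^ k * q k ≤ η) {W : Finset (HGroup N)}
    (hW : W ⊆ hball m c) :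
    Ex (lvl N q) (Sx m c K) (fun A' => if (QK m c K A' ∩ W).Nonempty then 1 else 0)
      ≤ η * W.card := by
  have h1 : ∀ A', A' ⊆ Sx m c K → (if (QK m c K A' ∩ W).Nonempty then (1:ℝ) else 0)
      ≤ ∑ v ∈ W, ∑ w ∈ hball K c \ hball m c, (if s(v, w) ∈ A' then 1 else 0) := by
    intro A' _
    have hnn : ∀ v w, (0:ℝ) ≤ (if s(v, w) ∈ A' then 1 else 0) := by
      intro v w; split_ifs <;> norm_num
    split_ifs with h
    · obtain ⟨v, hv⟩ := h
      rw [Finset.mem_inter] at hv
      unfold QK at hv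
      rw [Finset.mem_filter] at hv
      obtain ⟨⟨_, w, hw, hvw⟩, hvW⟩ := hv
      calc (1:ℝ) = (if s(v, w) ∈ A' then 1 else 0) := by rw [if_pos hvw]
        _ ≤ ∑ w ∈ hball K c \ hball m c, (if s(v, w) ∈ A' then 1 else 0) :=
            Finset.single_le_sum (f := fun w => (if s(v, w) ∈ A' then (1:ℝ) else 0))
              (fun w _ => hnn v w) hw
        _ ≤ _ := Finset.single_le_sum (f := fun v => ∑ w ∈ hball K c \ hball m c,
              (if s(v, w) ∈ A' then (1:ℝ) else 0))
              (fun v _ => Finset.sum_nonneg (fun w _ => hnn v w)) hvW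
    · exact Finset.sum_nonneg (fun v _ => Finset.sum_nonneg (fun w _ => hnn v w))
  refine (Ex_mono (lvl_nonneg hq0) (lvl_le_one hq1) h1).trans ?_
  rw [Ex_sum]
  have h2 : ∀ v ∈ W, Ex (lvl N q) (Sx m c K) (fun A' => ∑ w ∈ hball K c \ hball m c,
      (if s(v, w) ∈ A' then (1:ℝ) else 0)) ≤ η := by
    intro v hv
    rw [Ex_sum]
    have h3 : ∀ w ∈ hball K c \ hball m c, Ex (lvl N q) (Sx m c K)
        (fun A' => if s(v, w) ∈ A' then (1:ℝ) else 0) = q (hdist v w) := by
      intro w hw
      rw [Ex_mem (p := lvl N q) (S := Sx m c K) (e := s(v, w)) (mem_crs (hW hv) hw), lvl_mk]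
    rw [Finset.sum_congr rfl h3]
    refine le_trans ?_ hη
    have hmaps : ∀ w ∈ hball K c \ hball m c, hdist v w ∈ Finset.Ioc m K := by
      intro w hw
      have hvc := hW hv
      rw [Finset.mem_sdiff, mem_hball, mem_hball] at hw
      rw [mem_hball] at hvc
      rw [Finset.mem_Ioc]
      have h4 := hdist_triangle c v w
      have h5 := hdist_triangle v c w
      rw [hdist_comm v c] at h5
      omega
    rw [← Finset.sum_fiberwise_of_maps_to hmaps]
    apply Finset.sum_le_sum
    intro k _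
    calc ∑ w ∈ (hball K c \ hball m c).filter (fun w => hdist v w = k), q (hdist v w)
        = ∑ w ∈ (hball K c \ hball m c).filter (fun w => hdist v w = k), q k := by
          apply Finset.sum_congr rfl
          intro w hw
          rw [(Finset.mem_filter.1 hw).2]
      _ = ((hball K c \ hball m c).filter (fun w => hdist v w = k)).card * q k := by
          rw [Finset.sum_const, nsmul_eq_mul]
      _ ≤ (N : ℝ) ^ k * q k := by
          apply mul_le_mul_of_nonneg_right _ (hq0 k)
          have : ((hball K c \ hball m c).filter (fun w => hdist v w = k)).card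
              ≤ (hball k v).card := by
            apply Finset.card_le_card
            intro w hw
            rw [mem_hball]
            exact (Finset.mem_filter.1 hw).2.le
          rw [card_hball] at this
          exact_mod_cast this
  calc _ ≤ ∑ v ∈ W, η := Finset.sum_le_sum h2
    _ = _ := by rw [Finset.sum_const, nsmul_eq_mul]; ring

end perc

end Pool.Agent.Lib.MP_133e92_pr
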