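import Pool.Agent.Lib.MP_133e92_pr.Perc

open Finset MeasureTheory ProbabilityTheory
open scoped BigOperators Classical ENNReal

namespace Pool.Agent.Lib.MP_133e92_pr

attribute [-instance] Finsupp.instDecidableEq

section perc

variable {N : ℕ} [NeZero N] {q : ℕ → ℝ} {Ω : Type*} [MeasurableSpace Ω] {μ : Measure Ω}
  {O : Ω → Set (Sym2 (HGroup N))} [IsProbabilityMeasure μ]

lemma dd_link (h : Perc q μ O) (m K : ℕ) (e : Sym2 (HGroup N)) :
    μ.real {ω | Dd (QK m 0 K (opn (O ω) (Sx m 0 K))) (opn (O ω) (edg (hball m 0))) e}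
      = Ex (lvl N q) (Sx m 0 K) (fun A' => Ex (lvl N q) (edg (hball m 0)) (fun A =>
        if Dd (QK m 0 K A') A e then 1 else 0)) := by
  have hp : ∀ e ∈ Sx m (0 : HGroup N) K ∪ edg (hball m 0), μ.real {ω | e ∈ O ω} = lvl N q e := by
    intro e he
    rw [Finset.mem_union] at he
    rcases he with he | he
    · unfold Sx crs at he
      rw [Finset.mem_image] at he
      obtain ⟨⟨x, y⟩, hr, rfl⟩ := he
      rw [Finset.mem_product, Finset.mem_sdiff] at hr
      simp only at hr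
      apply h.prob
      simp only
      rintro rfl
      exact hr.2.2 hr.1
    · exact h.prob_edg e he
  have h1 := link (μ := μ) (p := lvl N q) h.meas h.ind hp
    (fun A => Dd (QK m 0 K (A ∩ Sx m 0 K)) (A ∩ edg (hball m 0)) e)
  have h2 : {ω | Dd (QK m 0 K (opn (O ω) (Sx m 0 K ∪ edg (hball m 0)) ∩ Sx m 0 K))
      (opn (O ω) (Sx m 0 K ∪ edg (hball m 0)) ∩ edg (hball m 0)) e}
      = {ω | Dd (QK m 0 K (opn (O ω) (Sx m 0 K))) (opn (O ω) (edg (hball m 0))) e} := by
    ext ω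
    simp only [Set.mem_ofPred_eq]
    rw [opn_inter Finset.subset_union_left, opn_inter Finset.subset_union_right]
  rw [h2] at h1
  rw [h1, Ex_union (Sx_disj m 0 K)]
  apply Ex_congr
  intro A hA
  apply Ex_congr
  intro B hB
  have e1 : (A ∪ B) ∩ Sx m 0 K = A := by
    rw [Finset.union_inter_distrib_right, Finset.inter_eq_left.2 hA,
      Finset.disjoint_iff_inter_eq_empty.1
        (Finset.disjoint_of_subset_left hB (Sx_disj m 0 K).symm), Finset.union_empty]
  have e2 : (A ∪ B) ∩ edg (hball m 0) = B := by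
    rw [Finset.union_inter_distrib_right, Finset.inter_eq_left.2 hB,
      Finset.disjoint_iff_inter_eq_empty.1
        (Finset.disjoint_of_subset_left hA (Sx_disj m 0 K)), Finset.empty_union]
  rw [e1, e2]

/-- Pairs of vertices of the ball at distance `i`. -/
noncomputable def PP (N m i : ℕ) [NeZero N] : Finset (HGroup N × HGroup N) :=
  ((hball m (0 : HGroup N)) ×ˢ (hball m 0)).filter (fun r => hdist r.1 r.2 = i)

/-- Edges of the ball of length `i`. -/
noncomputable def FF (N m i : ℕ) [NeZero N] : Finset (Sym2 (HGroup N)) :=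
  (PP N m i).image (fun r => s(r.1, r.2))

lemma mem_PP {m i : ℕ} {x y : HGroup N} :
    (x, y) ∈ PP N m i ↔ x ∈ hball m (0 : HGroup N) ∧ y ∈ hball m (0 : HGroup N) ∧
      hdist x y = i := by
  unfold PP
  rw [Finset.mem_filter, Finset.mem_product]
  tauto

lemma mem_FF {m i : ℕ} {x y : HGroup N} :
    s(x, y) ∈ FF N m i ↔ (x, y) ∈ PP N m i := by
  unfold FF
  rw [Finset.mem_image]
  constructor
  · rintro ⟨⟨a, b⟩, h, heq⟩
    rw [Sym2.eq_iff] at heq
    rcases heq with ⟨h1, h2⟩ | ⟨h1, h2⟩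
    · simp only at h1 h2; rw [← h1, ← h2]; exact h
    · simp only at h1 h2
      rw [mem_PP] at h ⊢
      rw [← h1, ← h2, hdist_comm]
      exact ⟨h.2.1, h.1, h.2.2⟩
  · intro h; exact ⟨(x, y), h, rfl⟩

lemma FF_sub {m i : ℕ} (hi : 1 ≤ i) : FF N m i ⊆ edg (hball m 0) := by
  intro e
  induction e using Sym2.ind with
  | _ x y =>
    rw [mem_FF, mem_PP, mem_edg]
    rintro ⟨h1, h2, h3⟩
    refine ⟨h1, h2, ?_⟩
    rintro rfl
    rw [hdist_self] at h3
    omega

lemma FF_prob {m i : ℕ} : ∀ e ∈ FF N m i, lvl N q e = q i := by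
  intro e
  induction e using Sym2.ind with
  | _ x y =>
    rw [mem_FF, mem_PP, lvl_mk]
    rintro ⟨_, _, h3⟩
    rw [h3]

lemma FF_deg {m i : ℕ} (v : HGroup N) : ((FF N m i).filter (fun e => v ∈ e)).card ≤ N ^ i := by
  have h1 : (FF N m i).filter (fun e => v ∈ e) ⊆ (hball i v).image (fun w => s(v, w)) := by
    intro e
    induction e using Sym2.ind with
    | _ x y =>
      rw [Finset.mem_filter, mem_FF, mem_PP, Finset.mem_image, Sym2.mem_iff]
      rintro ⟨⟨_, _, h3⟩, h4 | h4⟩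
      · subst h4
        exact ⟨y, by rw [mem_hball, h3], rfl⟩
      · subst h4
        exact ⟨x, by rw [mem_hball, hdist_comm, h3], Sym2.eq_swap⟩
  calc _ ≤ ((hball i v).image (fun w => s(v, w))).card := Finset.card_le_card h1
    _ ≤ (hball i v).card := Finset.card_image_le
    _ = N ^ i := card_hball i v

lemma PP_FF_sum {m i : ℕ} (f : Sym2 (HGroup N) → ℝ) (hf : ∀ e, 0 ≤ f e) :
    ∑ r ∈ PP N m i, f s(r.1, r.2) ≤ 2 * ∑ e ∈ FF N m i, f e := by
  have hmaps : ∀ r ∈ PP N m i, (fun r : HGroup N × HGroup N => s(r.1, r.2)) r ∈ FF N m i :=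
    fun r hr => Finset.mem_image_of_mem _ hr
  rw [← Finset.sum_fiberwise_of_maps_to hmaps, Finset.mul_sum]
  apply Finset.sum_le_sum
  intro e he
  induction e using Sym2.ind with
  | _ x y =>
    have h1 : ∑ r ∈ (PP N m i).filter (fun r => s(r.1, r.2) = s(x, y)), f s(r.1, r.2)
        = ∑ r ∈ (PP N m i).filter (fun r => s(r.1, r.2) = s(x, y)), f s(x, y) := by
      apply Finset.sum_congr rfl
      intro r hr
      rw [(Finset.mem_filter.1 hr).2]
    rw [h1, Finset.sum_const, nsmul_eq_mul]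
    apply mul_le_mul_of_nonneg_right _ (hf _)
    have h2 : ((PP N m i).filter (fun r => s(r.1, r.2) = s(x, y))).card ≤ 2 := by
      have h3 : (PP N m i).filter (fun r => s(r.1, r.2) = s(x, y)) ⊆ {(x, y), (y, x)} := by
        rintro ⟨a, b⟩ hr
        rw [Finset.mem_filter, Sym2.eq_iff] at hr
        rcases hr.2 with ⟨h1, h2⟩ | ⟨h1, h2⟩
        · simp only at h1 h2; simp [h1, h2]
        · simp only at h1 h2; simp [h1, h2]
      refine (Finset.card_le_card h3).trans ?_
      exact Finset.card_le_two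
    exact_mod_cast h2

lemma UU_sub (m : ℕ) {x y : HGroup N} (hx : x ∈ hball m (0 : HGroup N))
    (hy : y ∈ hball m (0 : HGroup N)) (O' : Set (Sym2 (HGroup N))) (hU : UU m x y O') :
    ∃ K, Dd (QK m 0 K (opn O' (Sx m 0 K))) (opn O' (edg (hball m 0))) s(x, y) := by
  obtain ⟨h1, h2, h3⟩ := hU
  have hxb : hball m x = hball m (0 : HGroup N) := by
    symm; exact hball_eq ((mem_hball _ _ _).1 hx)
  rw [hxb] at h3
  obtain ⟨v, hv, hxv, w, hw, hvw⟩ := h1.exit hx
  obtain ⟨v', hv', hyv', w', hw', hvw'⟩ := h2.exit hy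
  refine ⟨max (hdist 0 w) (hdist 0 w'), ?_⟩
  set K := max (hdist 0 w) (hdist 0 w') with hK
  have hwK : w ∈ hball K (0 : HGroup N) \ hball m 0 := by
    rw [Finset.mem_sdiff, mem_hball]
    exact ⟨le_max_left _ _, hw⟩
  have hwK' : w' ∈ hball K (0 : HGroup N) \ hball m 0 := by
    rw [Finset.mem_sdiff, mem_hball]
    exact ⟨le_max_right _ _, hw'⟩
  have hvQ : v ∈ QK m 0 K (opn O' (Sx m 0 K)) := by
    unfold QK
    rw [Finset.mem_filter]
    exact ⟨hv, w, hwK, mem_opn.2 ⟨mem_crs hv hwK, hvw⟩⟩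
  have hvQ' : v' ∈ QK m 0 K (opn O' (Sx m 0 K)) := by
    unfold QK
    rw [Finset.mem_filter]
    exact ⟨hv', w', hwK', mem_opn.2 ⟨mem_crs hv' hwK', hvw'⟩⟩
  refine ⟨?_, x, Sym2.mem_mk_left x y, y, Sym2.mem_mk_right x y, h3⟩
  intro u hu
  rw [Sym2.mem_iff] at hu
  rcases hu with rfl | rfl
  · exact ⟨v, hvQ, hxv.symm⟩
  · exact ⟨v', hvQ', hyv'.symm⟩

lemma Dd_mono {V : Type*} {Q Q' : Finset V} (hQ : Q ⊆ Q') {A : Finset (Sym2 V)} {e : Sym2 V}
    (h : Dd Q A e) : Dd Q' A e := by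
  obtain ⟨h1, h2⟩ := h
  refine ⟨fun v hv => ?_, h2⟩
  obtain ⟨z, hz, hr⟩ := h1 v hv
  exact ⟨z, hQ hz, hr⟩

/-- The AKN bound in the limit. -/
theorem Perc.sum_UU (h : Perc q μ O) {m i : ℕ} (hi : 1 ≤ i) (him : i ≤ m) (hqi : 0 < q i)
    {η : ℝ} (hη0 : 0 < η) (hη : ∀ K, ∑ k ∈ Finset.Ioc m K, (N : ℝ) ^ k * q k ≤ η) :
    ∑ v ∈ (hball m (0 : HGroup N)).filter (fun v => hdist 0 v = i),
      μ.real {ω | UU m 0 v (O ω)} ≤ 8 * Real.sqrt (η * (N : ℝ) ^ i / q i) := by
  have hNpos : 0 < N := Nat.pos_of_ne_zero (NeZero.ne N)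
  have hNm : (0:ℝ) < (N : ℝ) ^ m := by positivity
  set DK : ℕ → Sym2 (HGroup N) → Set Ω := fun K e =>
    {ω | Dd (QK m 0 K (opn (O ω) (Sx m 0 K))) (opn (O ω) (edg (hball m 0))) e} with hDK
  have hbd : ∀ K, ∑ e ∈ FF N m i, μ.real (DK K e)
      ≤ (N : ℝ) ^ m * (4 * Real.sqrt (η * (N : ℝ) ^ i / q i)) := by
    intro K
    have h1 := akn (p := lvl N q) (lvl_nonneg h.q0) (lvl_le_one h.q1) (B := hball m (0 : HGroup N))
      (F := FF N m i) (FF_sub hi) (π := q i) FF_prob (h.q0 i) (D := N ^ i)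
      (fun v _ => FF_deg v) (Sx m 0 K) (QK m 0 K) (fun A' _ => Finset.filter_subset _ _)
      hη0 (fun W hW => hit_bound h.q0 h.q1 (hη K) hW)
    have h2 : ∑ e ∈ FF N m i, μ.real (DK K e)
        = Ex (lvl N q) (Sx m 0 K) (fun A' => Ex (lvl N q) (edg (hball m 0)) (fun A =>
          ∑ e ∈ FF N m i, (if Dd (QK m 0 K A') A e then 1 else 0))) := by
      rw [Finset.sum_congr rfl (fun e _ => dd_link h m K e), ← Ex_sum]
      apply Ex_congr
      intro A _
      rw [Ex_sum]
    rw [← h2, card_hball] at h1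
    push_cast at h1
    have h3 : Real.sqrt (η * q i * (N : ℝ) ^ i) = q i * Real.sqrt (η * (N : ℝ) ^ i / q i) := by
      have : η * q i * (N : ℝ) ^ i = (q i) ^ 2 * (η * (N : ℝ) ^ i / q i) := by field_simp
      rw [this, Real.sqrt_mul (sq_nonneg _), Real.sqrt_sq hqi.le]
    rw [h3] at h1
    have h4 : q i * ∑ e ∈ FF N m i, μ.real (DK K e)
        ≤ q i * ((N : ℝ) ^ m * (4 * Real.sqrt (η * (N : ℝ) ^ i / q i))) := by
      linarith
    exact le_of_mul_le_mul_left h4 hqi
  -- pass to the limit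
  have hpair : ∀ K, ∑ r ∈ PP N m i, μ.real (DK K s(r.1, r.2))
      ≤ 2 * ((N : ℝ) ^ m * (4 * Real.sqrt (η * (N : ℝ) ^ i / q i))) := by
    intro K
    refine (PP_FF_sum (fun e => μ.real (DK K e)) (fun e => measureReal_nonneg)).trans ?_
    exact mul_le_mul_of_nonneg_left (hbd K) (by norm_num)
  have hmono : ∀ e, Monotone (fun K => DK K e) := by
    intro e K K' hKK' ω hω
    exact Dd_mono (QK_mono hKK' (O ω)) hω
  have hlim : Filter.Tendsto (fun K => ∑ r ∈ PP N m i, μ.real (DK K s(r.1, r.2))) Filter.atTop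
      (nhds (∑ r ∈ PP N m i, μ.real (⋃ K, DK K s(r.1, r.2)))) := by
    apply tendsto_finsetSum
    intro r _
    have h1 := tendsto_measure_iUnion_atTop (μ := μ) (hmono s(r.1, r.2))
    exact (ENNReal.tendsto_toReal (measure_ne_top _ _)).comp h1
  have hU : ∑ r ∈ PP N m i, μ.real (⋃ K, DK K s(r.1, r.2))
      ≤ 2 * ((N : ℝ) ^ m * (4 * Real.sqrt (η * (N : ℝ) ^ i / q i))) :=
    le_of_tendsto' hlim hpair
  have hU2 : ∑ r ∈ PP N m i, μ.real {ω | UU m r.1 r.2 (O ω)}
      ≤ 2 * ((N : ℝ) ^ m * (4 * Real.sqrt (η * (N : ℝ) ^ i / q i))) := by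
    refine le_trans (Finset.sum_le_sum ?_) hU
    rintro ⟨x, y⟩ hr
    rw [mem_PP] at hr
    apply measureReal_mono _ (measure_ne_top _ _)
    intro ω hω
    rw [Set.mem_iUnion]
    exact UU_sub m hr.1 hr.2.1 (O ω) hω
  -- translation invariance
  have hT : ∑ r ∈ PP N m i, μ.real {ω | UU m r.1 r.2 (O ω)}
      = (N : ℝ) ^ m * ∑ v ∈ (hball m (0 : HGroup N)).filter (fun v => hdist 0 v = i),
      μ.real {ω | UU m 0 v (O ω)} := by
    unfold PP
    rw [Finset.sum_filter, Finset.sum_product]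
    have h1 : ∀ x ∈ hball m (0 : HGroup N), ∑ y ∈ hball m (0 : HGroup N),
        (if hdist x y = i then μ.real {ω | UU m x y (O ω)} else 0)
        = ∑ v ∈ (hball m (0 : HGroup N)).filter (fun v => hdist 0 v = i),
          μ.real {ω | UU m 0 v (O ω)} := by
      intro x hx
      rw [← Finset.sum_filter]
      symm
      apply Finset.sum_nbij' (fun v => x + v) (fun y => -x + y)
      · intro v hv
        rw [Finset.mem_filter] at hv ⊢
        have h2 : hdist x (x + v) = i := by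
          have := hdist_add_left x 0 v
          rw [add_zero] at this
          rw [this]; exact hv.2
        refine ⟨?_, h2⟩
        rw [mem_hball] at hx ⊢
        have := hdist_triangle 0 x (x + v)
        omega
      · intro y hy
        rw [Finset.mem_filter] at hy ⊢
        have h2 : hdist 0 (-x + y) = i := by
          have := hdist_add_left (-x) x y
          rw [neg_add_cancel] at this
          rw [this]; exact hy.2
        refine ⟨?_, h2⟩
        rw [mem_hball, h2]; exact him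
      · intro v _; simp
      · intro y _; simp
      · intro v _
        rw [h.inv_UU m x v]
    simp only
    rw [Finset.sum_congr rfl h1, Finset.sum_const, card_hball, nsmul_eq_mul]
    push_cast; rfl
  rw [hT] at hU2
  have h5 : (N : ℝ) ^ m * ∑ v ∈ (hball m (0 : HGroup N)).filter (fun v => hdist 0 v = i),
      μ.real {ω | UU m 0 v (O ω)} ≤ (N : ℝ) ^ m * (8 * Real.sqrt (η * (N : ℝ) ^ i / q i)) := by
    linarith
  exact le_of_mul_le_mul_left h5 hNm

end perc

end Pool.Agent.Lib.MP_133e92_pr
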