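import Pool.Agent.Lib.MP_133e92_pr.Perc2
import Pool.Agent.Lib.MP_133e92_pr.Numer
import Pool.Agent.Lib.MP_133e92_pr.Init

open Finset MeasureTheory ProbabilityTheory
open scoped BigOperators Classical ENNReal

namespace Pool.Agent.Lib.MP_133e92_pr

attribute [-instance] Finsupp.instDecidableEq

section sm

variable {ι Ω : Type*} [MeasurableSpace Ω] {μ : Measure Ω} [IsProbabilityMeasure μ]

/-- Second moment inequality. -/
lemma second_moment (s : Finset ι) (A : ι → Set Ω) (hA : ∀ i, MeasurableSet (A i)) :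
    (∑ i ∈ s, μ.real (A i)) ^ 2 ≤ ∑ i ∈ s, ∑ j ∈ s, μ.real (A i ∩ A j) := by
  set m : ℝ := ∑ i ∈ s, μ.real (A i) with hm
  set X : Ω → ℝ := fun ω => ∑ i ∈ s, (A i).indicator (fun _ => (1:ℝ)) ω with hX
  have hint : ∀ B : Set Ω, MeasurableSet B → Integrable (B.indicator (fun _ => (1:ℝ))) μ :=
    fun B hB => (integrable_const (1:ℝ)).indicator hB
  have hXint : Integrable X μ := integrable_finsetSum s (fun i _ => hint _ (hA i))
  have hEX : ∫ ω, X ω ∂μ = m := by
    rw [hX, integral_finsetSum s (fun i _ => hint _ (hA i))]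
    apply Finset.sum_congr rfl
    intro i _
    exact integral_indicator_one (hA i)
  have hX2 : ∀ ω, X ω ^ 2 = ∑ i ∈ s, ∑ j ∈ s, (A i ∩ A j).indicator (fun _ => (1:ℝ)) ω := by
    intro ω
    rw [hX, sq, Finset.sum_mul_sum]
    apply Finset.sum_congr rfl; intro i _
    apply Finset.sum_congr rfl; intro j _
    simp only [Set.indicator_apply, Set.mem_inter_iff]
    by_cases h1 : ω ∈ A i <;> by_cases h2 : ω ∈ A j <;> simp [h1, h2]
  have hX2int : Integrable (fun ω => X ω ^ 2) μ := by
    have : (fun ω => X ω ^ 2) = fun ω => ∑ i ∈ s, ∑ j ∈ s,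
        (A i ∩ A j).indicator (fun _ => (1:ℝ)) ω := by
      funext ω; exact hX2 ω
    rw [this]
    exact integrable_finsetSum s (fun i _ => integrable_finsetSum s
      (fun j _ => hint _ ((hA i).inter (hA j))))
  have hEX2 : ∫ ω, X ω ^ 2 ∂μ = ∑ i ∈ s, ∑ j ∈ s, μ.real (A i ∩ A j) := by
    rw [integral_congr_ae (Filter.Eventually.of_forall hX2),
      integral_finsetSum s (fun i _ => integrable_finsetSum s
        (fun j _ => hint _ ((hA i).inter (hA j))))]
    apply Finset.sum_congr rfl; intro i _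
    rw [integral_finsetSum s (fun j _ => hint _ ((hA i).inter (hA j)))]
    apply Finset.sum_congr rfl; intro j _
    exact integral_indicator_one ((hA i).inter (hA j))
  have h0 : 0 ≤ ∫ ω, (X ω - m) ^ 2 ∂μ := integral_nonneg (fun ω => sq_nonneg _)
  have h1 : ∫ ω, (X ω - m) ^ 2 ∂μ = ∫ ω, X ω ^ 2 ∂μ - m ^ 2 := by
    have e1 : ∀ ω, (X ω - m) ^ 2 = X ω ^ 2 - (2 * m) * X ω + m ^ 2 := fun ω => by ring
    have hl : Integrable (fun ω => (2 * m) * X ω) μ := hXint.const_mul _
    have hsub : Integrable (fun ω => X ω ^ 2 - (2 * m) * X ω) μ := hX2int.sub hl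
    rw [integral_congr_ae (Filter.Eventually.of_forall e1),
      integral_add (f := fun ω => X ω ^ 2 - (2 * m) * X ω) (g := fun _ => m ^ 2) hsub
        (integrable_const _),
      integral_sub (f := fun ω => X ω ^ 2) (g := fun ω => (2 * m) * X ω) hX2int hl,
      integral_const_mul, hEX, integral_const]
    simp
    ring
  rw [h1, hEX2] at h0
  linarith

end sm

section perc

variable {N : ℕ} [NeZero N] {q : ℕ → ℝ} {Ω : Type*} [MeasurableSpace Ω] {μ : Measure Ω}
  {O : Ω → Set (Sym2 (HGroup N))} [IsProbabilityMeasure μ]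

/-- Uniqueness of the infinite component. -/
theorem Perc.unique (h : Perc q μ O) (hN : 2 ≤ N) {K κ α : ℝ} (hK : 0 < K) (hκ : 0 < κ)
    (hα : 0 < α) (hKq : ∀ k : ℕ, 1 ≤ k → q k ≤ K * (k : ℝ) ^ α / (N : ℝ) ^ (2 * k))
    (hκq : ∀ k : ℕ, 1 ≤ k → κ * (k : ℝ) ^ α / (N : ℝ) ^ (2 * k) ≤ q k) :
    ∀ᵐ ω ∂μ, ∀ x y, InfC (O ω) x → InfC (O ω) y → Rs (O ω) x y := by
  rw [ae_all_iff]; intro x
  rw [ae_all_iff]; intro y
  by_cases hxy : x = y
  · subst hxy
    exact Filter.Eventually.of_forall (fun ω _ _ => Relation.ReflTransGen.refl)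
  rw [ae_iff]
  set i := hdist x y with hi
  have hi1 : 1 ≤ i := by
    rcases Nat.eq_zero_or_pos i with h0 | h0
    · exact absurd ((hdist_eq_zero_iff x y).1 h0) hxy
    · exact h0
  have hqi : 0 < q i := by
    refine lt_of_lt_of_le ?_ (hκq i hi1)
    have : (0:ℝ) < i := by exact_mod_cast hi1
    have h2 := Real.rpow_pos_of_pos this α
    have h3 : (0:ℝ) < N := by positivity
    positivity
  obtain ⟨K', hK', htail⟩ := tail_bound hN hK hα hKq
  set E : Set Ω := {ω | ¬ (InfC (O ω) x → InfC (O ω) y → Rs (O ω) x y)} with hE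
  have hbound : ∀ m, max i 1 ≤ m → μ.real E
      ≤ 8 * Real.sqrt ((K' * (m : ℝ) ^ α / (N : ℝ) ^ m) * (N : ℝ) ^ i / q i) := by
    intro m hm
    have him : i ≤ m := le_trans (le_max_left _ _) hm
    have hm1 : 1 ≤ m := le_trans (le_max_right _ _) hm
    have hη0 : 0 < K' * (m : ℝ) ^ α / (N : ℝ) ^ m := by
      have h1 : (0:ℝ) < m := by exact_mod_cast hm1
      have h2 := Real.rpow_pos_of_pos h1 α
      have h3 : (0:ℝ) < N := by positivity
      positivity
    have h1 := h.sum_UU hi1 him hqi hη0 (htail m hm1)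
    have h2 : μ.real E ≤ μ.real {ω | UU m x y (O ω)} := by
      apply measureReal_mono _ (measure_ne_top _ _)
      intro ω hω
      have hω' : ¬ (InfC (O ω) x → InfC (O ω) y → Rs (O ω) x y) := hω
      push Not at hω'
      exact ⟨hω'.1, hω'.2.1, fun hr => hω'.2.2 (rch_opn_rs hr)⟩
    have h3 : μ.real {ω | UU m x y (O ω)} = μ.real {ω | UU m 0 (-x + y) (O ω)} := by
      rw [← h.inv_UU m x (-x + y), add_neg_cancel_left]
    have h4 : μ.real {ω | UU m 0 (-x + y) (O ω)} ≤
        ∑ v ∈ (hball m (0 : HGroup N)).filter (fun v => hdist 0 v = i),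
          μ.real {ω | UU m 0 v (O ω)} := by
      apply Finset.single_le_sum (f := fun v => μ.real {ω | UU m 0 v (O ω)})
        (fun v _ => measureReal_nonneg)
      have h5 : hdist 0 (-x + y) = i := by
        have := hdist_add_left (-x) x y
        rw [neg_add_cancel] at this
        exact this
      rw [Finset.mem_filter, mem_hball, h5]
      exact ⟨him, rfl⟩
    calc μ.real E ≤ _ := h2
      _ = _ := h3
      _ ≤ _ := h4
      _ ≤ _ := h1
  have hlim : Filter.Tendsto (fun m : ℕ => 8 * Real.sqrt ((K' * (m : ℝ) ^ α / (N : ℝ) ^ m) *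
      (N : ℝ) ^ i / q i)) Filter.atTop (nhds 0) := by
    have h1 := eta_tendsto hN K' α hK'.le
    have h2 := ((h1.mul_const ((N : ℝ) ^ i)).div_const (q i))
    rw [zero_mul, zero_div] at h2
    have h3 := (Real.continuous_sqrt.tendsto 0).comp h2
    rw [Real.sqrt_zero] at h3
    have h4 := h3.const_mul 8
    rw [mul_zero] at h4
    exact h4
  have h0 : μ.real E ≤ 0 := by
    apply ge_of_tendsto hlim
    filter_upwards [Filter.eventually_ge_atTop (max i 1)] with m hm
    exact hbound m hm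
  have h00 : μ.real E = 0 := le_antisymm h0 measureReal_nonneg
  exact (measureReal_eq_zero_iff (measure_ne_top _ _)).1 h00

/-- Big clusters in large balls. -/
theorem Perc.big (h : Perc q μ O) (hN : 2 ≤ N) {K κ α : ℝ} (hK : 0 < K) (hκ : 0 < κ)
    (hα : 0 < α) (hKq : ∀ k : ℕ, 1 ≤ k → q k ≤ K * (k : ℝ) ^ α / (N : ℝ) ^ (2 * k))
    (hκq : ∀ k : ℕ, 1 ≤ k → κ * (k : ℝ) ^ α / (N : ℝ) ^ (2 * k) ≤ q k)
    (hθ : 0 < μ.real {ω | InfC (O ω) 0}) :
    ∃ t : ℝ, 0 < t ∧ t ≤ 1 ∧ ∃ m0 : ℕ, ∀ m, m0 ≤ m → ∀ c : HGroup N,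
      5 * t * (hball m c).card ≤ Ex (lvl N q) (edg (hball m c)) (fun A => (mx (hball m c) A : ℝ)) := by
  set θ := μ.real {ω | InfC (O ω) 0} with hθdef
  have hθ1 : θ ≤ 1 := measureReal_le_one
  obtain ⟨K', hK', htail⟩ := tail_bound hN hK hα hKq
  have hε : 0 < θ ^ 2 / 2 := by positivity
  obtain ⟨j, hj⟩ := num_sum (q := q) hN hκ hα hκq hK' hε
  have hNpos : (0:ℝ) < N := by
    have : 0 < N := by omega
    exact_mod_cast this
  have hN1 : (1:ℝ) ≤ N := by
    have : 1 ≤ N := by omega
    exact_mod_cast this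
  refine ⟨θ ^ 2 / 2 / (N : ℝ) ^ j / 5, by positivity, ?_, j + 1, ?_⟩
  · have h1 : (1:ℝ) ≤ (N:ℝ) ^ j := one_le_pow₀ hN1
    have h2 : θ ^ 2 ≤ 1 := by nlinarith
    rw [div_le_iff₀ (by norm_num), div_le_iff₀ (by positivity)]
    nlinarith
  intro m hm c
  obtain ⟨l, hl1, rfl⟩ : ∃ l, 1 ≤ l ∧ m = l + j := ⟨m - j, by omega, by omega⟩
  have hjl := hj l hl1
  set B := hball (l + j) c with hB
  set B' := hball l c with hB'
  have hB'B : B' ⊆ B := hball_mono (by omega) c
  have hcB' : ((B'.card : ℕ) : ℝ) = (N:ℝ) ^ l := by rw [hB', card_hball]; push_cast; rfl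
  have hcB : ((B.card : ℕ) : ℝ) = (N:ℝ) ^ (l + j) := by rw [hB, card_hball]; push_cast; rfl
  have hNl : (0:ℝ) < (N:ℝ) ^ l := by positivity
  -- second moment
  have h1 := second_moment (μ := μ) B' (fun x => {ω | InfC (O ω) x})
    (fun x => measurableSet_InfC h.meas x)
  have h2 : ∑ x ∈ B', μ.real {ω | InfC (O ω) x} = (N:ℝ) ^ l * θ := by
    rw [Finset.sum_congr rfl (fun x _ => h.inv_InfC x), Finset.sum_const, nsmul_eq_mul, hcB']
  rw [h2] at h1
  -- comparison of events
  have h3 : ∀ x ∈ B', ∀ y ∈ B', μ.real ({ω | InfC (O ω) x} ∩ {ω | InfC (O ω) y})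
      ≤ Ex (lvl N q) (edg B) (fun A => if Rch A x y then 1 else 0)
        + μ.real {ω | UU (l + j) 0 (-x + y) (O ω)} := by
    intro x hx y hy
    have hxB : hball (l + j) x = B := by
      have := hB'B hx
      rw [hB, mem_hball] at this
      exact (hball_eq this).symm
    rw [← link (μ := μ) (p := lvl N q) h.meas h.ind h.prob_edg (fun A => Rch A x y)]
    have e1 : μ.real {ω | UU (l + j) 0 (-x + y) (O ω)} = μ.real {ω | UU (l + j) x y (O ω)} := by
      rw [← h.inv_UU (l + j) x (-x + y), add_neg_cancel_left]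
    rw [e1]
    refine le_trans ?_ (measureReal_union_le _ _)
    apply measureReal_mono _ (measure_ne_top _ _)
    rintro ω ⟨hω1, hω2⟩
    by_cases hr : Rch (opn (O ω) (edg B)) x y
    · left; exact hr
    · right
      refine ⟨hω1, hω2, ?_⟩
      rw [hxB]; exact hr
  have h4 : ∑ x ∈ B', ∑ y ∈ B', μ.real ({ω | InfC (O ω) x} ∩ {ω | InfC (O ω) y})
      ≤ ∑ x ∈ B', ∑ y ∈ B', Ex (lvl N q) (edg B) (fun A => if Rch A x y then 1 else 0)
        + ∑ x ∈ B', ∑ y ∈ B', μ.real {ω | UU (l + j) 0 (-x + y) (O ω)} := by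
    rw [← Finset.sum_add_distrib]
    apply Finset.sum_le_sum; intro x hx
    rw [← Finset.sum_add_distrib]
    apply Finset.sum_le_sum; intro y hy
    exact h3 x hx y hy
  -- bound of the connection sum by the maximal cluster
  have h5 : ∑ x ∈ B', ∑ y ∈ B', Ex (lvl N q) (edg B) (fun A => if Rch A x y then (1:ℝ) else 0)
      ≤ (N:ℝ) ^ l * Ex (lvl N q) (edg B) (fun A => (mx B A : ℝ)) := by
    have e1 : ∑ x ∈ B', ∑ y ∈ B', Ex (lvl N q) (edg B) (fun A => if Rch A x y then (1:ℝ) else 0)
        = Ex (lvl N q) (edg B) (fun A => ∑ x ∈ B', ∑ y ∈ B', if Rch A x y then (1:ℝ) else 0) := by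
      rw [Ex_sum]
      apply Finset.sum_congr rfl; intro x _
      rw [Ex_sum]
    rw [e1, ← Ex_mul_left]
    apply Ex_mono (lvl_nonneg h.q0) (lvl_le_one h.q1)
    intro A hA
    calc ∑ x ∈ B', ∑ y ∈ B', (if Rch A x y then (1:ℝ) else 0)
        ≤ ∑ x ∈ B', (mx B A : ℝ) := by
          apply Finset.sum_le_sum
          intro x hx
          have e2 : ∑ y ∈ B', (if Rch A x y then (1:ℝ) else 0)
              = ((B'.filter (fun y => Rch A x y)).card : ℝ) := by
            rw [Finset.sum_boole]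
          rw [e2]
          have e3 : (B'.filter (fun y => Rch A x y)).card ≤ (cl B A x).card := by
            apply Finset.card_le_card
            intro y hy
            rw [Finset.mem_filter] at hy
            exact mem_cl.2 ⟨hB'B hy.1, hy.2⟩
          have e4 : (cl B A x).card ≤ mx B A :=
            Finset.le_sup (f := fun z => (cl B A z).card) (hB'B hx)
          exact_mod_cast e3.trans e4
      _ = (N:ℝ) ^ l * (mx B A : ℝ) := by
          rw [Finset.sum_const, nsmul_eq_mul, hcB']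
  -- bound of the error
  have h6 : ∑ x ∈ B', ∑ y ∈ B', μ.real {ω | UU (l + j) 0 (-x + y) (O ω)}
      ≤ (N:ℝ) ^ l * (θ ^ 2 / 2 * (N:ℝ) ^ l) := by
    have e1 : ∀ x ∈ B', ∑ y ∈ B', μ.real {ω | UU (l + j) 0 (-x + y) (O ω)}
        ≤ θ ^ 2 / 2 * (N:ℝ) ^ l := by
      intro x hx
      have e2 : ∑ y ∈ B', μ.real {ω | UU (l + j) 0 (-x + y) (O ω)}
          = ∑ v ∈ hball l (0 : HGroup N), μ.real {ω | UU (l + j) 0 v (O ω)} := by
        have hxB' : hball l x = B' := by
          rw [hB', mem_hball] at hx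
          exact (hball_eq hx).symm
        apply Finset.sum_nbij' (fun y => -x + y) (fun v => x + v)
        · intro y hy
          rw [mem_hball]
          have := hdist_add_left (-x) x y
          rw [neg_add_cancel] at this
          rw [this, ← mem_hball, hxB']; exact hy
        · intro v hv
          rw [← hxB', mem_hball]
          rw [mem_hball] at hv
          have := hdist_add_left x 0 v
          rw [add_zero] at this
          rw [this]; exact hv
        · intro y _; simp
        · intro v _; simp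
        · intro y _; rfl
      rw [e2]
      have hmaps : ∀ v ∈ hball l (0 : HGroup N), hdist 0 v ∈ Finset.range (l + 1) := by
        intro v hv
        rw [mem_hball] at hv
        rw [Finset.mem_range]; omega
      rw [← Finset.sum_fiberwise_of_maps_to hmaps]
      have e3 : ∑ i ∈ Finset.range (l + 1), ∑ v ∈ (hball l (0 : HGroup N)).filter
          (fun v => hdist 0 v = i), μ.real {ω | UU (l + j) 0 v (O ω)}
          = ∑ i ∈ Finset.Ioc 0 l, ∑ v ∈ (hball l (0 : HGroup N)).filter
          (fun v => hdist 0 v = i), μ.real {ω | UU (l + j) 0 v (O ω)} := by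
        symm
        apply Finset.sum_subset
        · intro i hi
          rw [Finset.mem_Ioc] at hi
          rw [Finset.mem_range]; omega
        · intro i hi hi'
          rw [Finset.mem_range] at hi
          rw [Finset.mem_Ioc] at hi'
          have hi0 : i = 0 := by omega
          subst hi0
          apply Finset.sum_eq_zero
          intro v hv
          rw [Finset.mem_filter] at hv
          have hv0 : (0 : HGroup N) = v := (hdist_eq_zero_iff 0 v).1 hv.2
          have : {ω | UU (l + j) 0 v (O ω)} = ∅ := by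
            ext ω
            simp only [Set.mem_ofPred_eq, Set.mem_empty_iff_false, iff_false]
            rintro ⟨_, _, h3⟩
            apply h3
            rw [← hv0]
            exact Rch.refl _ _
          rw [this]; simp
      rw [e3]
      refine le_trans (Finset.sum_le_sum ?_) hjl
      intro i hi
      rw [Finset.mem_Ioc] at hi
      have hqi : 0 < q i := by
        refine lt_of_lt_of_le ?_ (hκq i hi.1)
        have : (0:ℝ) < i := by exact_mod_cast hi.1
        have h2 := Real.rpow_pos_of_pos this α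
        positivity
      have hlj : 1 ≤ l + j := by omega
      have hη0 : 0 < K' * ((l + j : ℕ) : ℝ) ^ α / (N : ℝ) ^ (l + j) := by
        have h1 : (0:ℝ) < ((l + j : ℕ) : ℝ) := by exact_mod_cast hlj
        have h2 := Real.rpow_pos_of_pos h1 α
        positivity
      have h7 := h.sum_UU (m := l + j) hi.1 (by omega) hqi hη0 (htail (l + j) hlj)
      refine le_trans ?_ h7
      apply Finset.sum_le_sum_of_subset_of_nonneg
      · intro v hv
        rw [Finset.mem_filter] at hv ⊢
        exact ⟨hball_mono (by omega) 0 hv.1, hv.2⟩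
      · intro v _ _; exact measureReal_nonneg
    calc _ ≤ ∑ x ∈ B', θ ^ 2 / 2 * (N:ℝ) ^ l := Finset.sum_le_sum e1
      _ = _ := by rw [Finset.sum_const, nsmul_eq_mul, hcB']
  have h8 : (N:ℝ) ^ l * (θ ^ 2 / 2 * (N:ℝ) ^ l)
      ≤ (N:ℝ) ^ l * Ex (lvl N q) (edg B) (fun A => (mx B A : ℝ)) := by
    have : ((N:ℝ) ^ l * θ) ^ 2 = (N:ℝ) ^ l * (θ ^ 2 / 2 * (N:ℝ) ^ l) +
        (N:ℝ) ^ l * (θ ^ 2 / 2 * (N:ℝ) ^ l) := by ring
    linarith
  have h9 := le_of_mul_le_mul_left h8 hNl
  rw [hcB]
  refine le_trans (le_of_eq ?_) h9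
  rw [pow_add]
  field_simp

end perc

end Pool.Agent.Lib.MP_133e92_pr
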