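import Pool.Agent.Lib.MP_133e92_pr.Defs

open MeasureTheory Finset
open scoped ENNReal BigOperators Classical

namespace Pool.Agent.Lib.MP_133e92_pr

section walk
variable {V : Type*} (G : SimpleGraph V)

/-- Degree as a real number. -/
noncomputable def dg (x : V) : ℝ := ((G.neighborSet x).ncard : ℝ)

/-- Adjacency indicator. -/
noncomputable def aj (x y : V) : ℝ := if G.Adj x y then 1 else 0

/-- Twice the Dirichlet energy (each edge is counted twice). -/
noncomputable def En (f : V → ℝ) : ℝ≥0∞ :=
  ∑' q : V × V, if G.Adj q.1 q.2 then ENNReal.ofReal ((f q.1 - f q.2) ^ 2) else 0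

lemma aj_comm (x y : V) : aj G x y = aj G y x := by
  simp [aj, G.adj_comm]

lemma aj_nonneg (x y : V) : 0 ≤ aj G x y := by
  unfold aj; split_ifs <;> norm_num

lemma dg_nonneg (x : V) : 0 ≤ dg G x := by unfold dg; positivity

lemma step_nonneg (x y : V) : 0 ≤ step G x y := by
  unfold step; split_ifs <;> positivity

lemma dg_mul_step (hfin : ∀ x, (G.neighborSet x).Finite) (x y : V) :
    dg G x * step G x y = aj G x y := by
  unfold dg step aj
  split_ifs with h
  · have : (G.neighborSet x).ncard ≠ 0 := by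
      rw [Ne, Set.ncard_eq_zero (hfin x)]
      exact Set.Nonempty.ne_empty ⟨y, h⟩
    have h2 : ((G.neighborSet x).ncard : ℝ) ≠ 0 := by exact_mod_cast this
    field_simp
  · simp

lemma sum_aj (x : V) (B : Finset V)
    (hB : G.neighborSet x ⊆ B) : ∑ z ∈ B, aj G x z = dg G x := by
  unfold aj dg
  rw [Finset.sum_boole]
  congr 1
  have : (G.neighborSet x) = ((B.filter (fun z => G.Adj x z) : Finset V) : Set V) := by
    ext z
    simp only [SimpleGraph.mem_neighborSet, Finset.coe_filter, Set.mem_ofPred_eq]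
    constructor
    · intro h; exact ⟨hB h, h⟩
    · intro h; exact h.2
  rw [this, Set.ncard_coe_finset]

lemma sum_aj_le (hfin : ∀ x, (G.neighborSet x).Finite) (x : V) (B : Finset V) :
    ∑ z ∈ B, aj G x z ≤ dg G x := by
  rw [← sum_aj G x (B ∪ (hfin x).toFinset) (by intro z hz; simp_all)]
  exact Finset.sum_le_sum_of_subset_of_nonneg Finset.subset_union_left
    (fun _ _ _ => aj_nonneg G _ _)

lemma sum_step_le (hfin : ∀ x, (G.neighborSet x).Finite) (x : V) (B : Finset V) :
    ∑ z ∈ B, step G x z ≤ 1 := by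
  by_cases hd : dg G x = 0
  · have : ∀ z ∈ B, step G x z = 0 := by
      intro z _
      unfold step
      split_ifs with h
      · have : ((G.neighborSet x).ncard : ℝ) = 0 := hd
        rw [this]; simp
      · rfl
    rw [Finset.sum_eq_zero this]; norm_num
  · have hpos : 0 < dg G x := lt_of_le_of_ne (dg_nonneg G x) (Ne.symm hd)
    have h1 : dg G x * ∑ z ∈ B, step G x z ≤ dg G x * 1 := by
      rw [Finset.mul_sum, mul_one]
      calc ∑ z ∈ B, dg G x * step G x z = ∑ z ∈ B, aj G x z := by
            apply Finset.sum_congr rfl; intro z _; exact dg_mul_step G hfin x z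
        _ ≤ dg G x := sum_aj_le G hfin x B
    exact le_of_mul_le_mul_left h1 hpos

/-- Transition probabilities of the walk killed outside `B`. -/
noncomputable def pB (B : Finset V) : ℕ → V → V → ℝ
  | 0, x, y => if x = y then 1 else 0
  | n + 1, x, y => ∑ z ∈ B, step G x z * pB B n z y

lemma pB_nonneg (B : Finset V) (n : ℕ) (x y : V) : 0 ≤ pB G B n x y := by
  induction n generalizing x with
  | zero => unfold pB; split_ifs <;> norm_num
  | succ n ih =>
    unfold pB
    exact Finset.sum_nonneg (fun z _ => mul_nonneg (step_nonneg G x z) (ih z))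

lemma pB_le_one (hfin : ∀ x, (G.neighborSet x).Finite) (B : Finset V) (n : ℕ) (x y : V) :
    pB G B n x y ≤ 1 := by
  induction n generalizing x with
  | zero => unfold pB; split_ifs <;> norm_num
  | succ n ih =>
    unfold pB
    calc ∑ z ∈ B, step G x z * pB G B n z y ≤ ∑ z ∈ B, step G x z * 1 := by
          apply Finset.sum_le_sum; intro z _
          exact mul_le_mul_of_nonneg_left (ih z) (step_nonneg G x z)
      _ = ∑ z ∈ B, step G x z := by simp
      _ ≤ 1 := sum_step_le G hfin x B

lemma step_support (hfin : ∀ x, (G.neighborSet x).Finite) (x z : V)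
    (hz : z ∉ (hfin x).toFinset) : step G x z = 0 := by
  unfold step
  rw [if_neg]
  intro h; apply hz; simpa using h

lemma nstep_zero (x y : V) : nstep G 0 x y = if x = y then 1 else 0 := rfl

lemma nstep_succ_tsum (n : ℕ) (x y : V) :
    nstep G (n + 1) x y = ∑' z, step G x z * nstep G n z y := by
  unfold nstep
  rw [Function.iterate_succ_apply']
  rfl

lemma nstep_succ (hfin : ∀ x, (G.neighborSet x).Finite) (n : ℕ) (x y : V) (B : Finset V)
    (hB : (hfin x).toFinset ⊆ B) :
    nstep G (n + 1) x y = ∑ z ∈ B, step G x z * nstep G n z y := by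
  rw [nstep_succ_tsum, tsum_eq_sum]
  intro z hz
  rw [step_support G hfin x z (fun h => hz (hB h)), zero_mul]

lemma nstep_nonneg (hfin : ∀ x, (G.neighborSet x).Finite) (n : ℕ) (x y : V) :
    0 ≤ nstep G n x y := by
  induction n generalizing x with
  | zero => rw [nstep_zero]; split_ifs <;> norm_num
  | succ n ih =>
    rw [nstep_succ G hfin n x y _ (Finset.Subset.refl _)]
    exact Finset.sum_nonneg (fun z _ => mul_nonneg (step_nonneg G x z) (ih z))

lemma pB_le_nstep (hfin : ∀ x, (G.neighborSet x).Finite) (B : Finset V) (n : ℕ) (x y : V) :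
    pB G B n x y ≤ nstep G n x y := by
  induction n generalizing x with
  | zero => exact le_refl _
  | succ n ih =>
    rw [nstep_succ G hfin n x y ((hfin x).toFinset ∪ B) (Finset.subset_union_left)]
    change ∑ z ∈ B, step G x z * pB G B n z y ≤ _
    calc ∑ z ∈ B, step G x z * pB G B n z y ≤ ∑ z ∈ B, step G x z * nstep G n z y := by
          apply Finset.sum_le_sum; intro z _
          exact mul_le_mul_of_nonneg_left (ih z) (step_nonneg G x z)
      _ ≤ _ := by
          apply Finset.sum_le_sum_of_subset_of_nonneg Finset.subset_union_right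
          intro z _ _
          exact mul_nonneg (step_nonneg G x z) (nstep_nonneg G hfin n z y)

lemma exists_pB_eq_nstep (hfin : ∀ x, (G.neighborSet x).Finite) (n : ℕ) (x y : V) :
    ∃ B₀ : Finset V, ∀ B : Finset V, B₀ ⊆ B → pB G B n x y = nstep G n x y := by
  induction n generalizing x with
  | zero => exact ⟨∅, fun B _ => rfl⟩
  | succ n ih =>
    choose B₁ hB₁ using ih
    refine ⟨(hfin x).toFinset ∪ (hfin x).toFinset.biUnion B₁, fun B hB => ?_⟩
    have h1 : (hfin x).toFinset ⊆ B := Finset.subset_union_left.trans hB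
    rw [nstep_succ G hfin n x y B h1]
    change ∑ z ∈ B, step G x z * pB G B n z y = _
    apply Finset.sum_congr rfl
    intro z _
    by_cases hz : z ∈ (hfin x).toFinset
    · rw [hB₁ z B]
      exact (Finset.subset_biUnion_of_mem B₁ hz).trans (Finset.subset_union_right.trans hB)
    · rw [step_support G hfin x z hz, zero_mul, zero_mul]

/-- Green function of the killed walk, discounted by `l`. -/
noncomputable def gB (B : Finset V) (l : ℝ) (x y : V) : ℝ :=
  ∑' k, l ^ k * pB G B k y x

lemma summable_gB (hfin : ∀ x, (G.neighborSet x).Finite) (B : Finset V) {l : ℝ} (hl0 : 0 ≤ l)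
    (hl1 : l < 1) (x y : V) : Summable (fun k => l ^ k * pB G B k y x) := by
  apply Summable.of_nonneg_of_le (f := fun k => l ^ k)
  · intro k; exact mul_nonneg (pow_nonneg hl0 k) (pB_nonneg G B k y x)
  · intro k
    calc l ^ k * pB G B k y x ≤ l ^ k * 1 :=
          mul_le_mul_of_nonneg_left (pB_le_one G hfin B k y x) (pow_nonneg hl0 k)
      _ = l ^ k := mul_one _
  · exact summable_geometric_of_lt_one hl0 hl1

lemma gB_eq (hfin : ∀ x, (G.neighborSet x).Finite) (B : Finset V) {l : ℝ} (hl0 : 0 ≤ l)
    (hl1 : l < 1) (x y : V) :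
    gB G B l x y = (if y = x then 1 else 0) + l * ∑ z ∈ B, step G y z * gB G B l x z := by
  unfold gB
  rw [(summable_gB G hfin B hl0 hl1 x y).tsum_eq_zero_add]
  congr 1
  · simp [pB]
  · have : ∀ k, l ^ (k + 1) * pB G B (k + 1) y x
        = ∑ z ∈ B, l * (step G y z * (l ^ k * pB G B k z x)) := by
      intro k
      change l ^ (k + 1) * (∑ z ∈ B, step G y z * pB G B k z x) = _
      rw [Finset.mul_sum]
      apply Finset.sum_congr rfl
      intro z _
      ring
    simp_rw [this]
    rw [Summable.tsum_finsetSum]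
    · rw [Finset.mul_sum]
      apply Finset.sum_congr rfl
      intro z _
      rw [tsum_mul_left, tsum_mul_left]
    · intro z _
      exact ((summable_gB G hfin B hl0 hl1 x z).mul_left _).mul_left _

lemma gB_nonneg (B : Finset V) {l : ℝ} (hl0 : 0 ≤ l) (x y : V) : 0 ≤ gB G B l x y :=
  tsum_nonneg (fun k => mul_nonneg (pow_nonneg hl0 k) (pB_nonneg G B k y x))

/-- The form `2D(h) = ∑ (h y - h z)^2`. -/
noncomputable def Dform (B : Finset V) (h : V → ℝ) : ℝ :=
  ∑ y ∈ B, dg G y * h y ^ 2 - ∑ y ∈ B, ∑ z ∈ B, aj G y z * (h y * h z)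

lemma En_eq (hfin : ∀ x, (G.neighborSet x).Finite) (B : Finset V) (h : V → ℝ)
    (hsupp : ∀ y, y ∉ B → h y = 0) :
    En G h = ENNReal.ofReal (2 * Dform G B h) ∧ 0 ≤ Dform G B h := by
  set B' : Finset V := B ∪ B.biUnion (fun y => (hfin y).toFinset) with hB'
  have hBB' : B ⊆ B' := Finset.subset_union_left
  have hN : ∀ y ∈ B, G.neighborSet y ⊆ B' := by
    intro y hy z hz
    rw [hB', Finset.coe_union]
    right
    simp only [Finset.coe_biUnion, Set.mem_iUnion]
    exact ⟨y, hy, by simpa using hz⟩
  have hD : 2 * Dform G B h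
      = ∑ q ∈ B' ×ˢ B', (if G.Adj q.1 q.2 then (h q.1 - h q.2) ^ 2 else 0) := by
    have e1 : ∀ q : V × V, (if G.Adj q.1 q.2 then (h q.1 - h q.2) ^ 2 else 0)
        = aj G q.1 q.2 * h q.1 ^ 2 + aj G q.1 q.2 * h q.2 ^ 2
          - 2 * (aj G q.1 q.2 * (h q.1 * h q.2)) := by
      intro q; unfold aj; split_ifs <;> ring
    simp_rw [e1]
    rw [Finset.sum_product]
    simp only [Finset.sum_sub_distrib, Finset.sum_add_distrib]
    have e2 : ∑ y ∈ B', ∑ z ∈ B', aj G y z * h y ^ 2 = ∑ y ∈ B, dg G y * h y ^ 2 := by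
      rw [← Finset.sum_subset hBB']
      · apply Finset.sum_congr rfl
        intro y hy
        rw [← Finset.sum_mul, sum_aj G y B' (hN y hy)]
      · intro y _ hy
        rw [hsupp y hy]; simp
    have e3 : ∑ y ∈ B', ∑ z ∈ B', aj G y z * h z ^ 2 = ∑ y ∈ B, dg G y * h y ^ 2 := by
      rw [← e2, Finset.sum_comm]
      apply Finset.sum_congr rfl; intro y _
      apply Finset.sum_congr rfl; intro z _
      rw [aj_comm]
    have e4 : ∑ y ∈ B', ∑ z ∈ B', 2 * (aj G y z * (h y * h z))
        = 2 * ∑ y ∈ B, ∑ z ∈ B, aj G y z * (h y * h z) := by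
      simp_rw [← Finset.mul_sum]
      congr 1
      rw [← Finset.sum_subset hBB']
      · apply Finset.sum_congr rfl
        intro y hy
        rw [← Finset.sum_subset hBB']
        intro z _ hz
        rw [hsupp z hz]; simp
      · intro y _ hy
        rw [hsupp y hy]; simp
    rw [e2, e3, e4]
    unfold Dform
    ring
  have hnn : 0 ≤ 2 * Dform G B h := by
    rw [hD]
    apply Finset.sum_nonneg
    intro q _
    split_ifs
    · positivity
    · exact le_refl _
  refine ⟨?_, by linarith⟩
  unfold En
  rw [tsum_eq_sum (s := B' ×ˢ B')]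
  · rw [hD, ENNReal.ofReal_sum_of_nonneg]
    · apply Finset.sum_congr rfl
      intro q _
      split_ifs <;> simp
    · intro q _
      split_ifs
      · positivity
      · exact le_refl _
  · intro q hq
    split_ifs with hadj
    · rw [Finset.mem_product, not_and_or] at hq
      have h1 : q.1 ∉ B := by
        intro h1
        rcases hq with hq | hq
        · exact hq (hBB' h1)
        · exact hq (hN q.1 h1 hadj)
      have h2 : q.2 ∉ B := by
        intro h2
        rcases hq with hq | hq
        · exact hq (hN q.2 h2 hadj.symm)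
        · exact hq (hBB' h2)
      rw [hsupp _ h1, hsupp _ h2]; simp
    · rfl

/-- Discounted Dirichlet form on `B`. -/
noncomputable def Qform (B : Finset V) (l : ℝ) (f g : V → ℝ) : ℝ :=
  ∑ y ∈ B, dg G y * (f y * g y) - l * ∑ y ∈ B, ∑ z ∈ B, aj G y z * (f y * g z)

lemma Qform_self (B : Finset V) (l : ℝ) (h : V → ℝ) :
    Qform G B l h h = (1 - l) * ∑ y ∈ B, dg G y * h y ^ 2 + l * Dform G B h := by
  unfold Qform Dform
  have : ∑ y ∈ B, dg G y * (h y * h y) = ∑ y ∈ B, dg G y * h y ^ 2 := by
    apply Finset.sum_congr rfl; intro y _; ring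
  rw [this]; ring

lemma Qform_green (hfin : ∀ x, (G.neighborSet x).Finite) (B : Finset V) {l : ℝ} (hl0 : 0 ≤ l)
    (hl1 : l < 1) (x : V) (hx : x ∈ B) (f : V → ℝ) :
    Qform G B l f (fun y => gB G B l x y) = dg G x * f x := by
  unfold Qform
  have e1 : ∀ y ∈ B, dg G y * (f y * gB G B l x y)
      = (if y = x then dg G x * f x else 0) + l * ∑ z ∈ B, aj G y z * (f y * gB G B l x z) := by
    intro y _
    conv_lhs => rw [gB_eq G hfin B hl0 hl1 x y]
    have : dg G y * (f y * ((if y = x then 1 else 0) + l * ∑ z ∈ B, step G y z * gB G B l x z))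
        = dg G y * f y * (if y = x then 1 else 0)
          + l * ∑ z ∈ B, (dg G y * step G y z) * (f y * gB G B l x z) := by
      rw [mul_add, mul_add, Finset.mul_sum, Finset.mul_sum]
      congr 1
      · ring
      · simp only [Finset.mul_sum]
        apply Finset.sum_congr rfl; intro z _; ring
    rw [this]
    congr 1
    · split_ifs with h
      · rw [h]; ring
      · ring
    · congr 1
      apply Finset.sum_congr rfl; intro z _
      rw [dg_mul_step G hfin]
  rw [Finset.sum_congr rfl e1, Finset.sum_add_distrib, ← Finset.mul_sum]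
  simp [hx]

lemma Qform_sub (B : Finset V) (l t : ℝ) (f g : V → ℝ) :
    Qform G B l (fun y => f y - t * g y) (fun y => f y - t * g y)
      = Qform G B l f f - 2 * t * Qform G B l f g + t ^ 2 * Qform G B l g g := by
  unfold Qform
  have hs : ∑ y ∈ B, ∑ z ∈ B, aj G y z * (g y * f z)
      = ∑ y ∈ B, ∑ z ∈ B, aj G y z * (f y * g z) := by
    rw [Finset.sum_comm]
    apply Finset.sum_congr rfl; intro y _
    apply Finset.sum_congr rfl; intro z _
    rw [aj_comm]; ring
  have e1 : ∑ y ∈ B, dg G y * ((f y - t * g y) * (f y - t * g y))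
      = ∑ y ∈ B, dg G y * (f y * f y) - 2 * t * ∑ y ∈ B, dg G y * (f y * g y)
        + t ^ 2 * ∑ y ∈ B, dg G y * (g y * g y) := by
    rw [Finset.mul_sum, Finset.mul_sum, ← Finset.sum_sub_distrib, ← Finset.sum_add_distrib]
    apply Finset.sum_congr rfl; intro y _; ring
  have e2 : ∑ y ∈ B, ∑ z ∈ B, aj G y z * ((f y - t * g y) * (f z - t * g z))
      = ∑ y ∈ B, ∑ z ∈ B, aj G y z * (f y * f z)
        - t * ∑ y ∈ B, ∑ z ∈ B, aj G y z * (f y * g z)
        - t * ∑ y ∈ B, ∑ z ∈ B, aj G y z * (g y * f z)
        + t ^ 2 * ∑ y ∈ B, ∑ z ∈ B, aj G y z * (g y * g z) := by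
    simp only [Finset.mul_sum, ← Finset.sum_sub_distrib, ← Finset.sum_add_distrib]
    apply Finset.sum_congr rfl; intro y _
    apply Finset.sum_congr rfl; intro z _; ring
  rw [e1, e2, hs]; ring

/-- Key inequality: `deg(x) f(x)^2 ≤ Q(f,f) * G_B(x,x)`. -/
lemma key_ineq (hfin : ∀ x, (G.neighborSet x).Finite) (B : Finset V) {l : ℝ} (hl0 : 0 ≤ l)
    (hl1 : l < 1) (x : V) (hx : x ∈ B) (f : V → ℝ) :
    dg G x * f x ^ 2
      ≤ ((1 - l) * ∑ y ∈ B, dg G y * f y ^ 2 + l * Dform G B f) * gB G B l x x := by
  set g : V → ℝ := fun y => gB G B l x y with hg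
  have hpos : 0 ≤ g x := gB_nonneg G B hl0 x x
  have h1 : 1 ≤ g x := by
    have := gB_eq G hfin B hl0 hl1 x x
    simp only [hg]
    rw [this]
    simp only [if_true]
    have : 0 ≤ ∑ z ∈ B, step G x z * gB G B l x z :=
      Finset.sum_nonneg (fun z _ => mul_nonneg (step_nonneg G x z) (gB_nonneg G B hl0 x z))
    nlinarith [mul_nonneg hl0 this]
  have hQfg : Qform G B l f g = dg G x * f x := Qform_green G hfin B hl0 hl1 x hx f
  have hQgg : Qform G B l g g = dg G x * g x := Qform_green G hfin B hl0 hl1 x hx g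
  rw [← Qform_self]
  set t : ℝ := f x / g x with ht
  have hnn : 0 ≤ Qform G B l (fun y => f y - t * g y) (fun y => f y - t * g y) := by
    set h : V → ℝ := fun y => if y ∈ B then f y - t * g y else 0 with hh
    have e : Qform G B l (fun y => f y - t * g y) (fun y => f y - t * g y)
        = Qform G B l h h := by
      unfold Qform
      congr 1
      · apply Finset.sum_congr rfl; intro y hy
        simp only [hh, if_pos hy]
      · congr 1
        apply Finset.sum_congr rfl; intro y hy
        apply Finset.sum_congr rfl; intro z hz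
        simp only [hh, if_pos hy, if_pos hz]
    rw [e, Qform_self]
    have h1 := (En_eq G hfin B h (by intro y hy; simp only [hh, if_neg hy])).2
    have h2 : 0 ≤ ∑ y ∈ B, dg G y * h y ^ 2 :=
      Finset.sum_nonneg (fun y _ => mul_nonneg (dg_nonneg G y) (sq_nonneg _))
    have h3 : 0 ≤ 1 - l := by linarith
    exact add_nonneg (mul_nonneg h3 h2) (mul_nonneg hl0 h1)
  rw [Qform_sub, hQfg, hQgg] at hnn
  have hgx : g x ≠ 0 := by positivity
  have e3 : Qform G B l f f - 2 * t * (dg G x * f x) + t ^ 2 * (dg G x * g x)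
      = Qform G B l f f - dg G x * f x ^ 2 / g x := by
    rw [ht]; field_simp; ring
  rw [e3] at hnn
  have h4 : dg G x * f x ^ 2 / g x ≤ Qform G B l f f := by linarith
  rw [div_le_iff₀ (by positivity)] at h4
  exact h4

/-- Transience criterion. -/
theorem summable_nstep (hfin : ∀ x, (G.neighborSet x).Finite) (x : V) (C : ℝ) (hC : 0 ≤ C)
    (h : ∀ f : V → ℝ, (Function.support f).Finite →
      ENNReal.ofReal (f x ^ 2) ≤ ENNReal.ofReal C * En G f) :
    Summable (fun n => nstep G n x x) := by
  have key : ∀ (n : ℕ) (B : Finset V), x ∈ B → ∀ l : ℝ, 0 < l → l < 1 →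
      l * ∑ k ∈ Finset.range n, l ^ k * pB G B k x x ≤ 2 * C * dg G x := by
    intro n B hx l hl0 hl1
    set g : V → ℝ := fun y => if y ∈ B then gB G B l x y else 0 with hg
    have hsupp : ∀ y, y ∉ B → g y = 0 := by
      intro y hy; simp only [hg, if_neg hy]
    have hgfin : (Function.support g).Finite := by
      apply B.finite_toSet.subset
      intro y hy
      by_contra hyB
      exact hy (hsupp y hyB)
    have h1 := h g hgfin
    obtain ⟨hE, hDnn⟩ := En_eq G hfin B g hsupp
    rw [hE, ← ENNReal.ofReal_mul hC, ENNReal.ofReal_le_ofReal_iff (by positivity)] at h1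
    have hQ : Qform G B l g g = dg G x * g x := by
      have := Qform_green G hfin B hl0.le hl1 x hx g
      rw [← this]
      unfold Qform
      congr 1
      · apply Finset.sum_congr rfl; intro y hy
        simp only [hg, if_pos hy]
      · congr 1
        apply Finset.sum_congr rfl; intro y hy
        apply Finset.sum_congr rfl; intro z hz
        simp only [hg, if_pos hy, if_pos hz]
    rw [Qform_self] at hQ
    have h2 : 0 ≤ ∑ y ∈ B, dg G y * g y ^ 2 :=
      Finset.sum_nonneg (fun y _ => mul_nonneg (dg_nonneg G y) (sq_nonneg _))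
    have h3 : l * Dform G B g ≤ dg G x * g x := by
      have : 0 ≤ (1 - l) * ∑ y ∈ B, dg G y * g y ^ 2 := mul_nonneg (by linarith) h2
      linarith
    have hgx : g x = gB G B l x x := by simp only [hg, if_pos hx]
    have hgnn : 0 ≤ g x := by rw [hgx]; exact gB_nonneg G B hl0.le x x
    have h4 : l * g x ≤ 2 * C * dg G x := by
      by_cases h0 : g x = 0
      · rw [h0]; have := dg_nonneg G x; simp; positivity
      · have hgpos : 0 < g x := lt_of_le_of_ne hgnn (Ne.symm h0)
        have h5 : l * (g x ^ 2) ≤ 2 * C * (dg G x * g x) := by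
          calc l * (g x ^ 2) ≤ l * (C * (2 * Dform G B g)) :=
                mul_le_mul_of_nonneg_left h1 hl0.le
            _ = 2 * C * (l * Dform G B g) := by ring
            _ ≤ 2 * C * (dg G x * g x) := mul_le_mul_of_nonneg_left h3 (by positivity)
        have h6 : (l * g x) * g x ≤ (2 * C * dg G x) * g x := by
          nlinarith
        exact le_of_mul_le_mul_right h6 hgpos
    have h7 : ∑ k ∈ Finset.range n, l ^ k * pB G B k x x ≤ g x := by
      rw [hgx]
      unfold gB
      apply Summable.sum_le_tsum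
      · intro k _; exact mul_nonneg (pow_nonneg hl0.le k) (pB_nonneg G B k x x)
      · exact summable_gB G hfin B hl0.le hl1 x x
    calc l * ∑ k ∈ Finset.range n, l ^ k * pB G B k x x ≤ l * g x :=
          mul_le_mul_of_nonneg_left h7 hl0.le
      _ ≤ _ := h4
  have key2 : ∀ (n : ℕ) (B : Finset V), x ∈ B →
      ∑ k ∈ Finset.range n, pB G B k x x ≤ 2 * C * dg G x := by
    intro n B hx
    have hcont : Filter.Tendsto (fun l : ℝ => l * ∑ k ∈ Finset.range n, l ^ k * pB G B k x x)
        (nhdsWithin 1 (Set.Iio 1)) (nhds (1 * ∑ k ∈ Finset.range n, (1 : ℝ) ^ k * pB G B k x x)) := by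
      apply Filter.Tendsto.mono_left _ nhdsWithin_le_nhds
      apply Continuous.tendsto (f := fun l : ℝ => l * ∑ k ∈ Finset.range n, l ^ k * pB G B k x x)
      fun_prop
    simp only [one_pow, one_mul] at hcont
    apply le_of_tendsto hcont
    have : Set.Ioo (0:ℝ) 1 ∈ nhdsWithin (1:ℝ) (Set.Iio 1) := by
      apply Ioo_mem_nhdsLT; norm_num
    filter_upwards [this] with l hl
    exact key n B hx l hl.1 hl.2
  apply summable_of_sum_range_le (c := 2 * C * dg G x)
  · intro n; exact nstep_nonneg G hfin n x x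
  · intro n
    choose B₀ hB₀ using fun k => exists_pB_eq_nstep G hfin k x x
    set B : Finset V := insert x ((Finset.range n).biUnion B₀) with hB
    have : ∑ k ∈ Finset.range n, nstep G k x x = ∑ k ∈ Finset.range n, pB G B k x x := by
      apply Finset.sum_congr rfl
      intro k hk
      rw [hB₀ k B]
      exact (Finset.subset_biUnion_of_mem B₀ hk).trans (Finset.subset_insert _ _)
    rw [this]
    exact key2 n B (Finset.mem_insert_self _ _)

/-- Recurrence criterion. -/
theorem not_summable_nstep (hfin : ∀ x, (G.neighborSet x).Finite) (x : V)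
    (hdeg : (G.neighborSet x).Nonempty)
    (h : ∀ ε : ℝ, 0 < ε → ∃ f : V → ℝ, (Function.support f).Finite ∧ f x = 1 ∧
      En G f ≤ ENNReal.ofReal ε) :
    ¬ Summable (fun n => nstep G n x x) := by
  intro hs
  have hd : 0 < dg G x := by
    unfold dg
    have : 0 < (G.neighborSet x).ncard := (Set.ncard_pos (hfin x)).2 hdeg
    exact_mod_cast this
  set Γ : ℝ := ∑' n, nstep G n x x with hΓ
  have hΓnn : 0 ≤ Γ := tsum_nonneg (fun n => nstep_nonneg G hfin n x x)
  have key : ∀ ε : ℝ, 0 < ε → dg G x ≤ (ε / 2) * Γ := by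
    intro ε hε
    obtain ⟨f, hf, hfx, hEn⟩ := h ε hε
    set B : Finset V := hf.toFinset with hB
    have hsupp : ∀ y, y ∉ B → f y = 0 := by
      intro y hy
      by_contra h0
      exact hy (by simpa [hB] using h0)
    have hxB : x ∈ B := by simp [hB, hfx]
    obtain ⟨hE, hDnn⟩ := En_eq G hfin B f hsupp
    rw [hE, ENNReal.ofReal_le_ofReal_iff hε.le] at hEn
    have hD : Dform G B f ≤ ε / 2 := by linarith
    have h1 : ∀ l : ℝ, 0 < l → l < 1 →
        dg G x ≤ ((1 - l) * ∑ y ∈ B, dg G y * f y ^ 2 + l * Dform G B f) * Γ := by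
      intro l hl0 hl1
      have h2 := key_ineq G hfin B hl0.le hl1 x hxB f
      rw [hfx] at h2
      have h3 : gB G B l x x ≤ Γ := by
        unfold gB
        apply Summable.tsum_le_tsum _ (summable_gB G hfin B hl0.le hl1 x x) hs
        intro k
        calc l ^ k * pB G B k x x ≤ 1 * pB G B k x x :=
              mul_le_mul_of_nonneg_right (pow_le_one₀ hl0.le hl1.le) (pB_nonneg G B k x x)
          _ = pB G B k x x := one_mul _
          _ ≤ nstep G k x x := pB_le_nstep G hfin B k x x
      have h4 : 0 ≤ (1 - l) * ∑ y ∈ B, dg G y * f y ^ 2 + l * Dform G B f := by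
        apply add_nonneg
        · apply mul_nonneg (by linarith)
          exact Finset.sum_nonneg (fun y _ => mul_nonneg (dg_nonneg G y) (sq_nonneg _))
        · exact mul_nonneg hl0.le hDnn
      calc dg G x = dg G x * 1 ^ 2 := by ring
        _ ≤ _ := h2
        _ ≤ _ := mul_le_mul_of_nonneg_left h3 h4
    have hcont : Filter.Tendsto
        (fun l : ℝ => ((1 - l) * ∑ y ∈ B, dg G y * f y ^ 2 + l * Dform G B f) * Γ)
        (nhdsWithin 1 (Set.Iio 1))
        (nhds (((1 - 1) * ∑ y ∈ B, dg G y * f y ^ 2 + 1 * Dform G B f) * Γ)) := by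
      apply Filter.Tendsto.mono_left _ nhdsWithin_le_nhds
      apply Continuous.tendsto
        (f := fun l : ℝ => ((1 - l) * ∑ y ∈ B, dg G y * f y ^ 2 + l * Dform G B f) * Γ)
      fun_prop
    have h5 : dg G x ≤ ((1 - 1) * ∑ y ∈ B, dg G y * f y ^ 2 + 1 * Dform G B f) * Γ := by
      apply ge_of_tendsto hcont
      have : Set.Ioo (0:ℝ) 1 ∈ nhdsWithin (1:ℝ) (Set.Iio 1) := by
        apply Ioo_mem_nhdsLT; norm_num
      filter_upwards [this] with l hl
      exact h1 l hl.1 hl.2
    calc dg G x ≤ _ := h5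
      _ = Dform G B f * Γ := by ring
      _ ≤ (ε / 2) * Γ := mul_le_mul_of_nonneg_right hD hΓnn
  have h6 := key (dg G x / (Γ + 1)) (by positivity)
  have h7 : (dg G x / (Γ + 1) / 2) * Γ < dg G x := by
    have : (dg G x / (Γ + 1) / 2) * Γ = dg G x * (Γ / (2 * (Γ + 1))) := by
      field_simp
    rw [this]
    have h8 : Γ / (2 * (Γ + 1)) < 1 := by
      rw [div_lt_one (by positivity)]; linarith
    calc dg G x * (Γ / (2 * (Γ + 1))) < dg G x * 1 := mul_lt_mul_of_pos_left h8 hd
      _ = dg G x := mul_one _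
  linarith

end walk

end Pool.Agent.Lib.MP_133e92_pr
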