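import Pool.Agent.Lib.MP_133e92_pr.Link
import Pool.Agent.Lib.MP_133e92_pr.Walk

open Finset MeasureTheory ProbabilityTheory
open scoped BigOperators Classical ENNReal

namespace Pool.Agent.Lib.MP_133e92_pr

section energy

variable {V : Type*}

/-- Energy (over ordered pairs) with respect to a set of open edges. -/
noncomputable def EnO (O : Set (Sym2 V)) (f : V → ℝ) : ℝ≥0∞ :=
  ∑' r : V × V, if s(r.1, r.2) ∈ O then ENNReal.ofReal ((f r.1 - f r.2) ^ 2) else 0

lemma EnO_mono {O O' : Set (Sym2 V)} (h : O ⊆ O') (f : V → ℝ) : EnO O f ≤ EnO O' f := by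
  unfold EnO
  apply ENNReal.tsum_le_tsum
  intro r
  split_ifs with h1 h2
  · exact le_refl _
  · exact absurd (h h1) h2
  · exact zero_le
  · exact le_refl _

/-- Transience at `x` with constant `C`, tested with rational functions. -/
def TQ (C : ℕ) (x : V) (O : Set (Sym2 V)) : Prop :=
  ∀ g : V →₀ ℚ, ENNReal.ofReal (((g x : ℚ) : ℝ) ^ 2) ≤ (C : ℝ≥0∞) * EnO O (fun y => ((g y : ℚ) : ℝ))

/-- Transience at some vertex. -/
def Tra (O : Set (Sym2 V)) : Prop := ∃ x, ∃ C : ℕ, TQ C x O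

lemma Tra.mono {O O' : Set (Sym2 V)} (h : O ⊆ O') (ht : Tra O) : Tra O' := by
  obtain ⟨x, C, hx⟩ := ht
  refine ⟨x, C, fun g => (hx g).trans ?_⟩
  gcongr
  exact EnO_mono h _

/-- Normalised test functions for non-transient vertices. -/
lemma not_TQ {C : ℕ} {x : V} {O : Set (Sym2 V)} (h : ¬ TQ C x O) :
    ∃ g : V →₀ ℚ, g x = 1 ∧ (C : ℝ≥0∞) * EnO O (fun y => ((g y : ℚ) : ℝ)) ≤ 1 := by
  unfold TQ at h
  push Not at h
  obtain ⟨g, hg⟩ := h
  have hgx : g x ≠ 0 := by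
    intro h0
    rw [h0] at hg
    simp at hg
  have hgx' : ((g x : ℚ) : ℝ) ≠ 0 := by exact_mod_cast hgx
  refine ⟨Finsupp.mapRange (fun t => t / g x) (by simp) g, ?_, ?_⟩
  · simp [hgx]
  · have e1 : EnO O (fun y => (((Finsupp.mapRange (fun t => t / g x) (by simp) g) y : ℚ) : ℝ))
        = ENNReal.ofReal (1 / ((g x : ℚ) : ℝ) ^ 2) * EnO O (fun y => ((g y : ℚ) : ℝ)) := by
      unfold EnO
      rw [← ENNReal.tsum_mul_left]
      congr 1
      funext r
      split_ifs
      · rw [← ENNReal.ofReal_mul (by positivity)]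
        congr 1
        simp only [Finsupp.mapRange_apply]
        push_cast
        field_simp
      · rw [mul_zero]
    rw [e1]
    have hpos : 0 < ((g x : ℚ) : ℝ) ^ 2 := by positivity
    calc (C : ℝ≥0∞) * (ENNReal.ofReal (1 / ((g x : ℚ) : ℝ) ^ 2) * EnO O (fun y => ((g y : ℚ) : ℝ)))
        = ENNReal.ofReal (1 / ((g x : ℚ) : ℝ) ^ 2) * ((C : ℝ≥0∞) *
          EnO O (fun y => ((g y : ℚ) : ℝ))) := by ring
      _ ≤ ENNReal.ofReal (1 / ((g x : ℚ) : ℝ) ^ 2) * ENNReal.ofReal (((g x : ℚ) : ℝ) ^ 2) := by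
          gcongr
      _ = 1 := by
          rw [← ENNReal.ofReal_mul (by positivity), one_div, inv_mul_cancel₀ hpos.ne',
            ENNReal.ofReal_one]

/-- Truncation. -/
lemma trunc {O : Set (Sym2 V)} (g : V →₀ ℚ) :
    ∃ h : V →₀ ℚ, (∀ y, h y ≤ 1) ∧ (∀ y, g y = 1 → h y = 1) ∧
      EnO O (fun y => ((h y : ℚ) : ℝ)) ≤ EnO O (fun y => ((g y : ℚ) : ℝ)) := by
  refine ⟨Finsupp.mapRange (fun t => min t 1) (by simp) g, ?_, ?_, ?_⟩
  · intro y; simp
  · intro y hy; simp [hy]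
  · unfold EnO
    apply ENNReal.tsum_le_tsum
    intro r
    split_ifs
    · apply ENNReal.ofReal_le_ofReal
      simp only [Finsupp.mapRange_apply]
      push_cast
      set a : ℝ := ((g r.1 : ℚ) : ℝ)
      set b : ℝ := ((g r.2 : ℚ) : ℝ)
      rcases le_total a 1 with h1 | h1 <;> rcases le_total b 1 with h2 | h2
      · rw [min_eq_left h1, min_eq_left h2]
      · rw [min_eq_left h1, min_eq_right h2]; nlinarith
      · rw [min_eq_right h1, min_eq_left h2]; nlinarith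
      · rw [min_eq_right h1, min_eq_right h2]; nlinarith [sq_nonneg (a - b)]
    · exact le_refl _

/-- Maximum of two functions. -/
lemma max_fun {O : Set (Sym2 V)} (g h : V →₀ ℚ) :
    ∃ k : V →₀ ℚ, (∀ y, k y = max (g y) (h y)) ∧
      EnO O (fun y => ((k y : ℚ) : ℝ)) ≤ EnO O (fun y => ((g y : ℚ) : ℝ)) +
        EnO O (fun y => ((h y : ℚ) : ℝ)) := by
  refine ⟨Finsupp.zipWith max (by simp) g h, ?_, ?_⟩
  · intro y; simp
  · unfold EnO
    rw [← ENNReal.tsum_add]
    apply ENNReal.tsum_le_tsum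
    intro r
    split_ifs
    · rw [← ENNReal.ofReal_add (sq_nonneg _) (sq_nonneg _)]
      apply ENNReal.ofReal_le_ofReal
      simp only [Finsupp.zipWith_apply]
      push_cast
      set a : ℝ := ((g r.1 : ℚ) : ℝ)
      set b : ℝ := ((g r.2 : ℚ) : ℝ)
      set c : ℝ := ((h r.1 : ℚ) : ℝ)
      set d : ℝ := ((h r.2 : ℚ) : ℝ)
      rcases le_total a c with h1 | h1 <;> rcases le_total b d with h2 | h2
      · rw [max_eq_right h1, max_eq_right h2]; nlinarith [sq_nonneg (a - b)]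
      · rw [max_eq_right h1, max_eq_left h2]
        rcases le_total c b with h3 | h3
        · nlinarith [sq_nonneg (c - d), sq_nonneg (a - b)]
        · nlinarith [sq_nonneg (c - d), sq_nonneg (a - b)]
      · rw [max_eq_left h1, max_eq_right h2]
        rcases le_total a d with h3 | h3
        · nlinarith [sq_nonneg (c - d), sq_nonneg (a - b)]
        · nlinarith [sq_nonneg (c - d), sq_nonneg (a - b)]
      · rw [max_eq_left h1, max_eq_left h2]; nlinarith [sq_nonneg (c - d)]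
    · simp

lemma EnO_remove {O : Set (Sym2 V)} {u v : V} (f : V → ℝ) (hf : f u = f v) :
    EnO O f ≤ EnO (O \ {s(u, v)}) f := by
  unfold EnO
  apply ENNReal.tsum_le_tsum
  intro r
  split_ifs with h1 h2
  · exact le_refl _
  · have h3 : s(r.1, r.2) = s(u, v) := by
      by_contra h3
      exact h2 ⟨h1, h3⟩
    rw [Sym2.eq_iff] at h3
    have h4 : f r.1 = f r.2 := by
      rcases h3 with ⟨h5, h6⟩ | ⟨h5, h6⟩
      · rw [h5, h6, hf]
      · rw [h5, h6, hf]
    rw [h4]; simp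
  · exact zero_le
  · exact le_refl _

lemma Tra.remove {O : Set (Sym2 V)} (e : Sym2 V) (h : Tra O) : Tra (O \ {e}) := by
  induction e using Sym2.ind with
  | _ u v =>
    obtain ⟨x, C, hx⟩ := h
    by_contra hcon
    have key : ∀ w, ∃ g : V →₀ ℚ, (∀ y, g y ≤ 1) ∧ g w = 1 ∧
        ((3 * C + 1 : ℕ) : ℝ≥0∞) * EnO (O \ {s(u, v)}) (fun y => ((g y : ℚ) : ℝ)) ≤ 1 := by
      intro w
      have hw : ¬ TQ (3 * C + 1) w (O \ {s(u, v)}) := fun h' => hcon ⟨w, _, h'⟩
      obtain ⟨g, hg1, hg2⟩ := not_TQ hw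
      obtain ⟨k, hk1, hk2, hk3⟩ := trunc (O := O \ {s(u, v)}) g
      refine ⟨k, hk1, hk2 w hg1, le_trans ?_ hg2⟩
      gcongr
    obtain ⟨g₁, a₁, b₁, c₁⟩ := key x
    obtain ⟨g₂, a₂, b₂, c₂⟩ := key u
    obtain ⟨g₃, a₃, b₃, c₃⟩ := key v
    obtain ⟨k, hk1, hk2⟩ := max_fun (O := O \ {s(u, v)}) g₁ g₂
    obtain ⟨l, hl1, hl2⟩ := max_fun (O := O \ {s(u, v)}) k g₃
    have hle : ∀ y, l y ≤ 1 := by
      intro y
      rw [hl1, hk1]
      exact max_le (max_le (a₁ y) (a₂ y)) (a₃ y)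
    have hlx : l x = 1 := by
      apply le_antisymm (hle x)
      rw [hl1, hk1, b₁]
      exact le_trans (le_max_left _ _) (le_max_left _ _)
    have hlu : l u = 1 := by
      apply le_antisymm (hle u)
      rw [hl1, hk1, b₂]
      exact le_trans (le_max_right _ _) (le_max_left _ _)
    have hlv : l v = 1 := by
      apply le_antisymm (hle v)
      rw [hl1, hk1, b₃]
      exact le_max_right _ _
    have h1 := hx l
    rw [hlx] at h1
    have h2 : EnO O (fun y => ((l y : ℚ) : ℝ)) ≤ EnO (O \ {s(u, v)}) (fun y => ((l y : ℚ) : ℝ)) :=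
      EnO_remove _ (by rw [hlu, hlv])
    set X := EnO (O \ {s(u, v)}) (fun y => ((l y : ℚ) : ℝ)) with hX
    have h3 : ((3 * C + 1 : ℕ) : ℝ≥0∞) * X ≤ 3 := by
      calc ((3 * C + 1 : ℕ) : ℝ≥0∞) * X ≤ ((3 * C + 1 : ℕ) : ℝ≥0∞) *
            ((EnO (O \ {s(u, v)}) (fun y => ((g₁ y : ℚ) : ℝ)) +
              EnO (O \ {s(u, v)}) (fun y => ((g₂ y : ℚ) : ℝ))) +
              EnO (O \ {s(u, v)}) (fun y => ((g₃ y : ℚ) : ℝ))) := by
            gcongr
            exact hl2.trans (by gcongr)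
        _ = ((3 * C + 1 : ℕ) : ℝ≥0∞) * EnO (O \ {s(u, v)}) (fun y => ((g₁ y : ℚ) : ℝ)) +
            ((3 * C + 1 : ℕ) : ℝ≥0∞) * EnO (O \ {s(u, v)}) (fun y => ((g₂ y : ℚ) : ℝ)) +
            ((3 * C + 1 : ℕ) : ℝ≥0∞) * EnO (O \ {s(u, v)}) (fun y => ((g₃ y : ℚ) : ℝ)) := by
            rw [mul_add, mul_add]
        _ ≤ 1 + 1 + 1 := by gcongr
        _ = 3 := by norm_num
    have h4 : (1 : ℝ≥0∞) ≤ (C : ℝ≥0∞) * X := by
      have : ENNReal.ofReal ((((1:ℚ)) : ℝ) ^ 2) = 1 := by simp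
      rw [this] at h1
      exact h1.trans (by gcongr)
    have h5 : ((3 * C + 1 : ℕ) : ℝ≥0∞) ≤ 3 * C := by
      calc ((3 * C + 1 : ℕ) : ℝ≥0∞) = ((3 * C + 1 : ℕ) : ℝ≥0∞) * 1 := (mul_one _).symm
        _ ≤ ((3 * C + 1 : ℕ) : ℝ≥0∞) * ((C : ℝ≥0∞) * X) := by gcongr
        _ = (C : ℝ≥0∞) * (((3 * C + 1 : ℕ) : ℝ≥0∞) * X) := by ring
        _ ≤ (C : ℝ≥0∞) * 3 := by gcongr
        _ = 3 * C := by ring
    have h6 : ((3 * C + 1 : ℕ) : ℝ≥0∞) ≤ ((3 * C : ℕ) : ℝ≥0∞) := by
      push_cast at h5 ⊢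
      exact h5
    rw [Nat.cast_le] at h6
    omega

lemma Tra.remove_finset {O : Set (Sym2 V)} (T : Finset (Sym2 V)) (h : Tra O) :
    Tra (O \ (T : Set (Sym2 V))) := by
  induction T using Finset.induction_on with
  | empty => simpa using h
  | insert e T _ ih =>
    have : O \ ((insert e T : Finset (Sym2 V)) : Set (Sym2 V)) = (O \ (T : Set (Sym2 V))) \ {e} := by
      ext x
      simp only [Finset.coe_insert, Set.mem_diff, Set.mem_insert_iff, Set.mem_singleton_iff]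
      tauto
    rw [this]
    exact ih.remove e

lemma tra_iff {O : Set (Sym2 V)} (T : Finset (Sym2 V)) :
    Tra (O \ (T : Set (Sym2 V))) ↔ Tra O :=
  ⟨fun h => h.mono Set.diff_subset, fun h => h.remove_finset T⟩

lemma measurableSet_Tra {Ω : Type*} [MeasurableSpace Ω] {O : Ω → Set (Sym2 V)} [Countable V]
    (hm : ∀ e, MeasurableSet {ω | e ∈ O ω}) : MeasurableSet {ω | Tra (O ω)} := by
  have h1 : {ω | Tra (O ω)} = ⋃ x : V, ⋃ C : ℕ, ⋂ g : V →₀ ℚ,
      {ω | ENNReal.ofReal (((g x : ℚ) : ℝ) ^ 2) ≤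
        (C : ℝ≥0∞) * EnO (O ω) (fun y => ((g y : ℚ) : ℝ))} := by
    ext ω
    simp [Tra, TQ]
  rw [h1]
  apply MeasurableSet.iUnion; intro x
  apply MeasurableSet.iUnion; intro C
  apply MeasurableSet.iInter; intro g
  have h2 : Measurable (fun ω => EnO (O ω) (fun y => ((g y : ℚ) : ℝ))) := by
    unfold EnO
    apply Measurable.tsum
    intro r
    exact Measurable.ite (hm _) measurable_const measurable_const
  exact measurableSet_le measurable_const (h2.const_mul _)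

/-- The 0-1 law. -/
theorem zero_one {Ω : Type*} [m0 : MeasurableSpace Ω] {μ : Measure Ω} {O : Ω → Set (Sym2 V)}
    [Countable V] (hm : ∀ e, MeasurableSet {ω | e ∈ O ω})
    (hind : iIndepSet (fun e => {ω | e ∈ O ω}) μ) :
    μ {ω | Tra (O ω)} = 0 ∨ μ {ω | Tra (O ω)} = 1 := by
  apply measure_zero_or_one_of_measurableSet_limsup
    (s := fun e => MeasurableSpace.generateFrom {{ω | e ∈ O ω}}) (f := Filter.cofinite)
    (p := Set.Finite) (ns := fun T : Finset (Sym2 V) => (T : Set (Sym2 V)))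
  · intro e
    apply MeasurableSpace.generateFrom_le
    intro t ht
    rw [Set.mem_singleton_iff] at ht
    rw [ht]; exact hm e
  · exact (iIndepSet_iff_iIndep _ _).1 hind
  · intro t ht
    exact ht.compl_mem_cofinite
  · intro T T'
    refine ⟨T ∪ T', ?_, ?_⟩
    · simp
    · simp
  · intro T; exact T.finite_toSet
  · intro e; exact ⟨{e}, by simp⟩
  · rw [Filter.limsup_eq_iInf_iSup, MeasurableSpace.measurableSet_iInf]
    intro W
    rw [MeasurableSpace.measurableSet_iInf]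
    intro hW
    rw [Filter.mem_cofinite] at hW
    set T : Finset (Sym2 V) := hW.toFinset with hT
    have h1 : {ω | Tra (O ω)} = {ω | Tra (O ω \ (T : Set (Sym2 V)))} := by
      ext ω
      exact (tra_iff T).symm
    rw [h1]
    apply @measurableSet_Tra V Ω (⨆ a ∈ W, MeasurableSpace.generateFrom {{ω | a ∈ O ω}})
      (fun ω => O ω \ (T : Set (Sym2 V))) _
    intro e
    by_cases he : e ∈ W
    · have h2 : {ω | e ∈ O ω \ (T : Set (Sym2 V))} = {ω | e ∈ O ω} := by
        ext ω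
        simp only [Set.mem_ofPred_eq, Set.mem_diff, Finset.mem_coe]
        have : e ∉ T := by
          rw [hT, Set.Finite.mem_toFinset]
          exact fun h' => h' he
        tauto
      rw [h2]
      have h3 : MeasurableSpace.generateFrom {{ω | e ∈ O ω}}
          ≤ ⨆ a ∈ W, MeasurableSpace.generateFrom {{ω | a ∈ O ω}} :=
        le_iSup₂ (f := fun a (_ : a ∈ W) => MeasurableSpace.generateFrom {{ω | a ∈ O ω}}) e he
      exact h3 _ (MeasurableSpace.measurableSet_generateFrom rfl)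
    · have h2 : {ω | e ∈ O ω \ (T : Set (Sym2 V))} = ∅ := by
        ext ω
        simp only [Set.mem_ofPred_eq, Set.mem_diff, Finset.mem_coe, Set.mem_empty_iff_false,
          iff_false, not_and, not_not]
        intro _
        rw [hT, Set.Finite.mem_toFinset]
        exact he
      rw [h2]
      exact @MeasurableSet.empty _ (_)

end energy

end Pool.Agent.Lib.MP_133e92_pr
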