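import Pool.Agent.Lib.MP_133e92_pr.Perc3
import Pool.Agent.Lib.MP_133e92_pr.Tail

open Finset MeasureTheory ProbabilityTheory
open scoped BigOperators Classical ENNReal

namespace Pool.Agent.Lib.MP_133e92_pr

attribute [-instance] Finsupp.instDecidableEq

section test

variable {V : Type*}

/-- A flow tested against a function. -/
lemma flow_test {O : Set (Sym2 V)} {B : Finset V} {x : V} (hx : x ∈ B) {C ε : ℝ} (hC : 0 ≤ C)
    (hF : FlowEv B x C ε (opn O (edg B))) (f : V → ℝ) {E : ℝ} (hE : 0 ≤ E)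
    (hEn : EnO O f ≤ ENNReal.ofReal E) :
    ∃ r : ℝ, |r| ≤ ε * ∑ y ∈ B, |f y| ∧ (f x - r) ^ 2 ≤ (C / 4) * E := by
  obtain ⟨φ, ν, h1, h2, h3, h4, h5⟩ := hF
  refine ⟨∑ y ∈ B, ν y * f y, ?_, ?_⟩
  · calc |∑ y ∈ B, ν y * f y| ≤ ∑ y ∈ B, |ν y * f y| := Finset.abs_sum_le_sum_abs _ _
      _ ≤ ∑ y ∈ B, ε * |f y| := by
          apply Finset.sum_le_sum; intro y _
          rw [abs_mul]
          exact mul_le_mul_of_nonneg_right (h4 y) (abs_nonneg _)
      _ = _ := by rw [Finset.mul_sum]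
  · have e1 : f x - ∑ y ∈ B, ν y * f y = ∑ y ∈ B, ∑ z ∈ B, φ y z * f y := by
      have e2 : ∀ y ∈ B, ∑ z ∈ B, φ y z * f y = (if y = x then f y else 0) - ν y * f y := by
        intro y _
        rw [← Finset.sum_mul, h5 y]
        split_ifs <;> ring
      rw [Finset.sum_congr rfl e2, Finset.sum_sub_distrib]
      congr 1
      rw [Finset.sum_ite_eq' B x, if_pos hx]
    have e3 : ∑ y ∈ B, ∑ z ∈ B, φ y z * f y = (1 / 2) * ∑ y ∈ B, ∑ z ∈ B, φ y z * (f y - f z) := by
      have e4 : ∑ y ∈ B, ∑ z ∈ B, φ y z * f z = - ∑ y ∈ B, ∑ z ∈ B, φ y z * f y := by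
        rw [Finset.sum_comm, ← Finset.sum_neg_distrib]
        apply Finset.sum_congr rfl; intro y _
        rw [← Finset.sum_neg_distrib]
        apply Finset.sum_congr rfl; intro z _
        rw [h1 y z]; ring
      have e5 : ∑ y ∈ B, ∑ z ∈ B, φ y z * (f y - f z)
          = ∑ y ∈ B, ∑ z ∈ B, φ y z * f y - ∑ y ∈ B, ∑ z ∈ B, φ y z * f z := by
        simp only [mul_sub, Finset.sum_sub_distrib]
      rw [e5, e4]; ring
    rw [e1, e3]
    -- Cauchy-Schwarz
    set D : ℝ := ∑ r ∈ B ×ˢ B, (if s(r.1, r.2) ∈ O then (f r.1 - f r.2) ^ 2 else 0) with hD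
    have hDnn : 0 ≤ D := Finset.sum_nonneg (fun r _ => by split_ifs <;> positivity)
    have hcs : (∑ y ∈ B, ∑ z ∈ B, φ y z * (f y - f z)) ^ 2 ≤ nrg B φ * D := by
      have e6 : ∑ y ∈ B, ∑ z ∈ B, φ y z * (f y - f z)
          = ∑ r ∈ B ×ˢ B, φ r.1 r.2 * (if s(r.1, r.2) ∈ O then (f r.1 - f r.2) else 0) := by
        rw [Finset.sum_product]
        apply Finset.sum_congr rfl; intro y _
        apply Finset.sum_congr rfl; intro z _
        simp only
        split_ifs with h
        · rfl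
        · have : φ y z = 0 := by
            by_contra h'
            exact h (mem_opn.1 (h2 y z h')).2
          rw [this]; ring
      have e7 : nrg B φ = ∑ r ∈ B ×ˢ B, φ r.1 r.2 ^ 2 := by
        unfold nrg
        rw [Finset.sum_product]
      have e8 : D = ∑ r ∈ B ×ˢ B, (if s(r.1, r.2) ∈ O then (f r.1 - f r.2) else 0) ^ 2 := by
        rw [hD]
        apply Finset.sum_congr rfl; intro r _
        split_ifs <;> ring
      rw [e6, e7, e8]
      exact Finset.sum_mul_sq_le_sq_mul_sq _ _ _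
    have hDE : D ≤ E := by
      have h6 : ENNReal.ofReal D ≤ EnO O f := by
        rw [hD, ENNReal.ofReal_sum_of_nonneg (fun r _ => by split_ifs <;> positivity)]
        unfold EnO
        refine le_trans (le_of_eq ?_) (ENNReal.sum_le_tsum (B ×ˢ B))
        apply Finset.sum_congr rfl; intro r _
        split_ifs <;> simp
      exact (ENNReal.ofReal_le_ofReal_iff hE).1 (h6.trans hEn)
    have hnn := nrg_nonneg B φ
    calc ((1 / 2) * ∑ y ∈ B, ∑ z ∈ B, φ y z * (f y - f z)) ^ 2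
        = (1 / 4) * (∑ y ∈ B, ∑ z ∈ B, φ y z * (f y - f z)) ^ 2 := by ring
      _ ≤ (1 / 4) * (nrg B φ * D) := mul_le_mul_of_nonneg_left hcs (by norm_num)
      _ ≤ (1 / 4) * (C * E) := by
          apply mul_le_mul_of_nonneg_left _ (by norm_num)
          exact mul_le_mul h3 hDE hDnn hC
      _ = _ := by ring

/-- Flows at infinitely many scales give transience. -/
lemma TQ_of_flows {O : Set (Sym2 V)} {x : V} {B : ℕ → Finset V} (hx : ∀ n, x ∈ B n) {C : ℝ}
    (hC : 0 ≤ C) {ε : ℕ → ℝ} (hε : Filter.Tendsto ε Filter.atTop (nhds 0)) (hε0 : ∀ n, 0 ≤ ε n)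
    (hF : ∀ R, ∃ n, R ≤ n ∧ FlowEv (B n) x C (ε n) (opn O (edg (B n)))) :
    TQ (⌈C⌉₊ + 1) x O := by
  intro g
  set f : V → ℝ := fun y => ((g y : ℚ) : ℝ) with hf
  by_cases htop : EnO O f = ∞
  · rw [htop, ENNReal.mul_top]
    · exact le_top
    · simp
  set E := (EnO O f).toReal with hE
  have hE0 : 0 ≤ E := ENNReal.toReal_nonneg
  have hEn : EnO O f = ENNReal.ofReal E := (ENNReal.ofReal_toReal htop).symm
  set M : ℝ := ∑ y ∈ g.support, |f y| with hM
  have hM0 : 0 ≤ M := Finset.sum_nonneg (fun _ _ => abs_nonneg _)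
  have hsumM : ∀ n, ∑ y ∈ B n, |f y| ≤ M := by
    intro n
    calc ∑ y ∈ B n, |f y| = ∑ y ∈ (B n).filter (fun y => y ∈ g.support), |f y| := by
          rw [Finset.sum_filter]
          apply Finset.sum_congr rfl; intro y _
          split_ifs with h
          · rfl
          · have : g y = 0 := Finsupp.notMem_support_iff.1 h
            rw [hf]; simp [this]
      _ ≤ M := by
          apply Finset.sum_le_sum_of_subset_of_nonneg
          · intro y hy; exact (Finset.mem_filter.1 hy).2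
          · intro _ _ _; exact abs_nonneg _
  have key : ∀ δ : ℝ, 0 < δ → |f x| ≤ Real.sqrt ((C / 4) * E) + δ := by
    intro δ hδ
    have h1 : Filter.Tendsto (fun n => ε n * M) Filter.atTop (nhds 0) := by
      have := hε.mul_const M
      rwa [zero_mul] at this
    have h2 := h1.eventually (gt_mem_nhds hδ)
    rw [Filter.eventually_atTop] at h2
    obtain ⟨R, hR⟩ := h2
    obtain ⟨n, hn, hFn⟩ := hF R
    obtain ⟨r, hr1, hr2⟩ := flow_test (hx n) hC hFn f hE0 (le_of_eq hEn)
    have h3 : |r| ≤ δ := by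
      calc |r| ≤ ε n * ∑ y ∈ B n, |f y| := hr1
        _ ≤ ε n * M := mul_le_mul_of_nonneg_left (hsumM n) (hε0 n)
        _ ≤ δ := (hR n hn).le
    have h4 : |f x - r| ≤ Real.sqrt ((C / 4) * E) := Real.abs_le_sqrt hr2
    have h5 : |f x| ≤ |f x - r| + |r| := by
      have := abs_add_le (f x - r) r
      rwa [sub_add_cancel] at this
    linarith
  have h6 : |f x| ≤ Real.sqrt ((C / 4) * E) := le_of_forall_pos_le_add key
  have h7 : f x ^ 2 ≤ (C / 4) * E := by
    have h8 : |f x| ^ 2 ≤ (Real.sqrt ((C / 4) * E)) ^ 2 := pow_le_pow_left₀ (abs_nonneg _) h6 2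
    rw [sq_abs, Real.sq_sqrt (by positivity)] at h8
    exact h8
  have h8 : ENNReal.ofReal (f x ^ 2) ≤ ENNReal.ofReal ((⌈C⌉₊ + 1 : ℕ) : ℝ) * ENNReal.ofReal E := by
    rw [← ENNReal.ofReal_mul (by positivity)]
    apply ENNReal.ofReal_le_ofReal
    refine h7.trans ?_
    apply mul_le_mul_of_nonneg_right _ hE0
    have := Nat.le_ceil C
    push_cast
    linarith
  rw [ENNReal.ofReal_natCast] at h8
  rw [hEn]
  exact h8

end test

section trans

variable {N : ℕ} [NeZero N] {q : ℕ → ℝ} {Ω : Type*} [MeasurableSpace Ω] {μ : Measure Ω}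
  {O : Ω → Set (Sym2 (HGroup N))}

lemma sum_hball_tr (k : ℕ) (x : HGroup N) (f : HGroup N → ℝ) :
    ∑ y ∈ hball k x, f y = ∑ y ∈ hball k (0 : HGroup N), f (x + y) := by
  unfold hball
  rw [Finset.sum_map, Finset.sum_map]
  simp

lemma FlowEv_tr {k : ℕ} {x : HGroup N} {C ε : ℝ} {O' : Set (Sym2 (HGroup N))}
    (h : FlowEv (hball k x) x C ε (opn O' (edg (hball k x)))) :
    FlowEv (hball k 0) 0 C ε (opn (tr x O') (edg (hball k 0))) := by
  obtain ⟨φ, ν, h1, h2, h3, h4, h5⟩ := h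
  refine ⟨fun y z => φ (x + y) (x + z), fun y => ν (x + y), ?_, ?_, ?_, ?_, ?_⟩
  · intro y z; exact h1 _ _
  · intro y z hne
    have h6 := h2 _ _ hne
    rw [mem_opn] at h6 ⊢
    refine ⟨?_, h6.2⟩
    rw [mem_edg_hball_tr x k 0 y z, add_zero]
    exact h6.1
  · refine le_trans (le_of_eq ?_) h3
    unfold nrg
    rw [sum_hball_tr k x]
    apply Finset.sum_congr rfl; intro y _
    rw [sum_hball_tr k x]
  · intro y; exact h4 _
  · intro y
    have h6 := h5 (x + y)
    rw [sum_hball_tr k x] at h6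
    rw [h6]
    congr 1
    exact if_congr (by simp) rfl rfl

variable [IsProbabilityMeasure μ]

/-- Positive probability of a good flow from the origin at every scale. -/
lemma Perc.flow_prob (h : Perc q μ O) {t s : ℝ} (ht : 0 < t) (hs : 0 < s) {k : ℕ}
    (hdat : Dat (lvl N q) t (hball k 0) (hball k (0 : HGroup N)) (2 * t) s) :
    ENNReal.ofReal t ≤ μ {ω | FlowEv (hball k 0) 0 (s / t)
      (1 / (t * (hball k (0 : HGroup N)).card)) (opn (O ω) (edg (hball k 0)))} := by
  obtain ⟨x, hx, hxt⟩ := Dat.extract (lvl_nonneg h.q0) (lvl_le_one h.q1) ht hs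
    ⟨0, self_mem_hball k 0⟩ hdat
  rw [← link (μ := μ) (p := lvl N q) h.meas h.ind h.prob_edg (fun A => FlowEv (hball k 0) x (s / t)
      (1 / (t * (hball k (0 : HGroup N)).card)) A)] at hxt
  have hxb : hball k (0 : HGroup N) = hball k x := hball_eq ((mem_hball _ _ _).1 hx)
  set ε := 1 / (t * (hball k (0 : HGroup N)).card) with hε
  set T : Set (Set (Sym2 (HGroup N))) := {s' | FlowEv (hball k 0) 0 (s / t) ε
    (opn s' (edg (hball k 0)))} with hT
  have hTm : MeasurableSet T :=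
    measurableSet_opn (O := id) measurableSet_mem_id (edg (hball k 0))
      (fun A => FlowEv (hball k 0) 0 (s / t) ε A)
  have h1 := h.inv x hTm
  have h2 : {ω | FlowEv (hball k 0) x (s / t) ε (opn (O ω) (edg (hball k 0)))}
      ⊆ {ω | tr x (O ω) ∈ T} := by
    intro ω hω
    have hω' : FlowEv (hball k 0) x (s / t) ε (opn (O ω) (edg (hball k 0))) := hω
    rw [hxb] at hω'
    exact FlowEv_tr hω'
  have h3 := measure_mono (μ := μ) h2
  rw [h1] at h3
  refine le_trans ?_ h3
  rw [measureReal_def] at hxt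
  exact (ENNReal.ofReal_le_iff_le_toReal (measure_ne_top _ _)).2 hxt

/-- Transience at some vertex, almost surely, when percolation occurs and `α > 1`. -/
theorem Perc.tra (h : Perc q μ O) (hN : 2 ≤ N) {K κ α : ℝ} (hK : 0 < K) (hκ : 0 < κ)
    (hα : 1 < α) (hKq : ∀ k : ℕ, 1 ≤ k → q k ≤ K * (k : ℝ) ^ α / (N : ℝ) ^ (2 * k))
    (hκq : ∀ k : ℕ, 1 ≤ k → κ * (k : ℝ) ^ α / (N : ℝ) ^ (2 * k) ≤ q k)
    (hθ : 0 < μ.real {ω | InfC (O ω) 0}) : ∀ᵐ ω ∂μ, Tra (O ω) := by
  have hα0 : 0 < α := by linarith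
  have hNpos : (0:ℝ) < N := by
    have : 0 < N := by omega
    exact_mod_cast this
  obtain ⟨t, ht, ht1, m0, hbig⟩ := h.big hN hK hκ hα0 hKq hκq hθ
  -- choose b
  obtain ⟨b, hb1, hbM⟩ : ∃ b : ℕ, 1 ≤ b ∧ 1 + 2 / t ^ 2 ≤ (N : ℝ) ^ b := by
    obtain ⟨b, hb⟩ := pow_unbounded_of_one_lt (1 + 2 / t ^ 2)
      (show (1:ℝ) < N by exact_mod_cast (by omega : 1 < N))
    refine ⟨b + 1, by omega, hb.le.trans ?_⟩
    exact pow_le_pow_right₀ (by exact_mod_cast (by omega : 1 ≤ N)) (by omega)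
  obtain ⟨k1, hk1⟩ := iter_dat hN h.q0 h.q1 hκ hα hκq ht ht1 hb1 hbM
  set k0 := max k1 m0 with hk0
  obtain ⟨s1, hs1, hiter⟩ := hk1 k0 (le_max_left _ _) (((N : ℝ) ^ k0) ^ 4) (by positivity)
  have hdat : ∀ r, Dat (lvl N q) t (hball (k0 + b * r) 0) (hball (k0 + b * r) (0 : HGroup N))
      (2 * t) s1 := by
    intro r
    apply hiter (hball (k0 + b * r) 0) _ r 0 (Finset.Subset.refl _)
    intro x hx
    have h1 := init_dat (p := lvl N q) (lvl_nonneg h.q0) (lvl_le_one h.q1)
      (U := hball (k0 + b * r) 0) (B := hball k0 x) hx ⟨x, self_mem_hball k0 x⟩ ht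
      (hbig k0 (le_max_right _ _) x)
    have hc : (((hball k0 x).card : ℕ) : ℝ) = (N : ℝ) ^ k0 := by
      rw [card_hball]; push_cast; rfl
    rw [hc] at h1
    exact h1
  set ε : ℕ → ℝ := fun r => 1 / (t * (hball (k0 + b * r) (0 : HGroup N)).card) with hε
  set Ev : ℕ → Set Ω := fun r => {ω | FlowEv (hball (k0 + b * r) 0) 0 (s1 / t) (ε r)
      (opn (O ω) (edg (hball (k0 + b * r) 0)))} with hEv
  have hEvp : ∀ r, ENNReal.ofReal t ≤ μ (Ev r) := fun r => h.flow_prob ht hs1 (hdat r)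
  have hEvm : ∀ r, MeasurableSet (Ev r) := fun r =>
    measurableSet_opn h.meas (edg (hball (k0 + b * r) 0))
      (fun A => FlowEv (hball (k0 + b * r) 0) 0 (s1 / t) (ε r) A)
  set F : ℕ → Set Ω := fun R => ⋃ r, ⋃ (_ : R ≤ r), Ev r with hF
  have hFanti : Antitone F := by
    intro R R' hRR'
    simp only [hF]
    apply Set.iUnion_subset; intro r
    apply Set.iUnion_subset; intro hr
    exact Set.subset_iUnion₂_of_subset r (hRR'.trans hr) (Set.Subset.refl _)
  have hFm : ∀ R, NullMeasurableSet (F R) μ := by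
    intro R
    apply MeasurableSet.nullMeasurableSet
    exact MeasurableSet.iUnion (fun r => MeasurableSet.iUnion (fun _ => hEvm r))
  have hlim := tendsto_measure_iInter_atTop (μ := μ) hFm hFanti ⟨0, measure_ne_top _ _⟩
  have hFt : ∀ R, ENNReal.ofReal t ≤ μ (F R) := by
    intro R
    refine (hEvp R).trans (measure_mono ?_)
    exact Set.subset_iUnion₂_of_subset R (le_refl R) (Set.Subset.refl _)
  have hinter : ENNReal.ofReal t ≤ μ (⋂ R, F R) := ge_of_tendsto' hlim hFt
  have hsub : (⋂ R, F R) ⊆ {ω | Tra (O ω)} := by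
    intro ω hω
    refine ⟨0, ⌈s1 / t⌉₊ + 1, ?_⟩
    refine TQ_of_flows (B := fun r => hball (k0 + b * r) (0 : HGroup N)) (ε := ε)
      (fun r => self_mem_hball _ _) (by positivity) ?_ ?_ ?_
    · have h1 : Filter.Tendsto (fun r : ℕ => (1 / t) * (1 / (N : ℝ)) ^ (k0 + b * r))
          Filter.atTop (nhds 0) := by
        have h2 : Filter.Tendsto (fun n : ℕ => (1 / (N : ℝ)) ^ n) Filter.atTop (nhds 0) := by
          apply tendsto_pow_atTop_nhds_zero_of_lt_one (by positivity)
          rw [div_lt_one hNpos]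
          exact_mod_cast (by omega : 1 < N)
        have h3 : Filter.Tendsto (fun r : ℕ => k0 + b * r) Filter.atTop Filter.atTop := by
          apply Filter.tendsto_atTop_mono (fun r => ?_) Filter.tendsto_id
          simp only [id]
          nlinarith
        have h4 := (h2.comp h3).const_mul (1 / t)
        rw [mul_zero] at h4
        exact h4
      refine h1.congr (fun r => ?_)
      rw [hε]
      simp only
      rw [card_hball]
      push_cast
      rw [one_div_pow]
      field_simp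
    · intro r; rw [hε]; positivity
    · intro R
      have := Set.mem_iInter.1 hω R
      simp only [hF, Set.mem_iUnion] at this
      obtain ⟨r, hr, hr'⟩ := this
      exact ⟨r, hr, hr'⟩
  have hpos : 0 < μ {ω | Tra (O ω)} := by
    refine lt_of_lt_of_le ?_ (hinter.trans (measure_mono hsub))
    rw [ENNReal.ofReal_pos]; exact ht
  have h01 := zero_one (μ := μ) h.meas h.ind
  rcases h01 with h0 | h1
  · rw [h0] at hpos; exact absurd hpos (lt_irrefl _)
  · exact (mem_ae_iff_prob_eq_one (measurableSet_Tra h.meas)).2 h1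

end trans

end Pool.Agent.Lib.MP_133e92_pr
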